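import Pool.Agent.H.MP_43e44c_ag.GX.FinX
import Pool.Agent.H.MP_43e44c_ag.GU.FinU
import Pool.Agent.H.MP_43e44c_ag.MD.AsmA
import Pool.Agent.H.MP_43e44c_ag.MD.AsmB

/-!
The union of the bad sets of the components which are not small.
-/

set_option autoImplicit false

open Finset Module

namespace Pool.MP43e44c.GX

open Pool.MP43e44c.OD

/-- The sign vectors which are bad for some component of dimension at least three. -/
theorem finX : ∃ C c : ℝ, 0 < C ∧ 0 < c ∧ ∀ {G : Type} [Group G] [Fintype G] {ι : Type}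
    [Fintype ι] (T : Tr G ι), (∀ g : G, (∀ h : G, h⁻¹ * g * h ∈ T.S) → g = 1) → ∀ W : WD ℚ G,
    2 ≤ Fintype.card ι →
    (((⋃ i ∈ {i : Fin W.m | T.Odd W i ∧ 3 ≤ W.r i * finrank ℚ (W.D i)}, T.badI W i).ncard : ℕ) : ℝ)
      ≤ C * (Fintype.card ι : ℝ) ^ (-c) * 2 ^ Fintype.card ι := by
  classical
  obtain ⟨C, c, hC, hc, hrest⟩ := sum_rest MD.thmA MD.thmB (fun r hr => GU.hypS3 r hr)
  refine ⟨C, c, hC, hc, ?_⟩
  intro G _ _ ι _ T _ W hn
  set S : Finset (Fin W.m) := univ.filter fun i =>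
    T.Odd W i ∧ 3 ≤ W.r i * finrank ℚ (W.D i) with hS
  have h4 : (⋃ i ∈ {i : Fin W.m | T.Odd W i ∧ 3 ≤ W.r i * finrank ℚ (W.D i)},
      T.badI W i).ncard ≤ ∑ i ∈ S, (T.badI W i).ncard := by
    have h5 : (⋃ i ∈ {i : Fin W.m | T.Odd W i ∧ 3 ≤ W.r i * finrank ℚ (W.D i)}, T.badI W i) =
        ⋃ i ∈ S, T.badI W i := by
      ext v
      simp [hS]
    rw [h5]
    exact Finset.set_ncard_biUnion_le S fun i => T.badI W i
  have h5 := hrest T W hn S (by
    intro i hi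
    rw [hS, mem_filter] at hi
    exact hi.2)
  refine le_trans ?_ h5
  exact_mod_cast h4

end Pool.MP43e44c.GX
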