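import Pool.Agent.H.MP_43e44c_ag.GX.Def
import Pool.Agent.H.MP_43e44c_ag.SB.Rep

/-!
The signed action of the group on the classes of cosets.
-/

set_option autoImplicit false

open Finset Module

namespace Pool.MP43e44c.GX

open Pool.MP43e44c.OD

universe u v

/-- The case of classes with one element, with the projection `π`. -/
structure Tr (G : Type u) [Group G] (ι : Type v) extends TS G ι where
  bl_one : bl = 1
  /-- the projection -/
  π : G → ι
  t_π : ∀ g, t (π g) * g⁻¹ ∈ S ∨ t (π g) * g⁻¹ * c ∈ S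

namespace Tr

variable {G : Type u} [Group G] {ι : Type v} (T : Tr G ι)

theorem π_unique {g : G} {j : ι} (h : T.t j * g⁻¹ ∈ T.S ∨ T.t j * g⁻¹ * T.c ∈ T.S) :
    j = T.π g := by
  have h1 := T.fib g
  rw [T.bl_one, Nat.card_eq_one_iff_unique] at h1
  have h2 := h1.1.elim ⟨j, h⟩ ⟨T.π g, T.t_π g⟩
  exact congrArg Subtype.val h2

theorem π_t (j : ι) : T.π (T.t j) = j :=
  (T.π_unique (Or.inl (by rw [mul_inv_cancel]; exact T.S.one_mem))).symm

theorem π_S {s : G} (hs : s ∈ T.S) (g : G) : T.π (s * g) = T.π g := by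
  refine (T.π_unique ?_).symm
  have hs' : s⁻¹ ∈ T.S := T.S.inv_mem hs
  rcases T.t_π g with h | h
  · left
    rw [mul_inv_rev, ← mul_assoc]
    exact T.S.mul_mem h hs'
  · right
    have h1 : T.t (T.π g) * (s * g)⁻¹ * T.c = T.t (T.π g) * g⁻¹ * T.c * s⁻¹ := by
      rw [mul_inv_rev, mul_assoc _ T.c, ← T.cen s⁻¹]
      simp only [mul_assoc]
    rw [h1]
    exact T.S.mul_mem h hs'

theorem π_c (g : G) : T.π (g * T.c) = T.π g := by
  refine (T.π_unique ?_).symm
  have h0 : (g * T.c)⁻¹ = g⁻¹ * T.c := by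
    rw [mul_inv_rev, T.c_inv, T.cen]
  rcases T.t_π g with h | h
  · right
    rw [h0, ← mul_assoc, T.mul_c_c]
    exact h
  · left
    rw [h0, ← mul_assoc]
    exact h

/-- The action of the group on the classes. -/
@[reducible] def act : MulAction G ι where
  smul h i := T.π (T.t i * h⁻¹)
  one_smul i := by
    show T.π (T.t i * 1⁻¹) = i
    rw [inv_one, mul_one, T.π_t]
  mul_smul g h i := by
    show T.π (T.t i * (g * h)⁻¹) = T.π (T.t (T.π (T.t i * h⁻¹)) * g⁻¹)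
    have h0 : T.t i * (g * h)⁻¹ = T.t i * h⁻¹ * g⁻¹ := by rw [mul_inv_rev, mul_assoc]
    rw [h0]
    generalize T.t i * h⁻¹ = x
    rcases T.t_π x with h1 | h1
    · have h2 : T.t (T.π x) * g⁻¹ = T.t (T.π x) * x⁻¹ * (x * g⁻¹) := by group
      rw [h2, T.π_S h1]
    · have h2 : T.t (T.π x) * g⁻¹ = T.t (T.π x) * x⁻¹ * T.c * (x * g⁻¹ * T.c) := by
        rw [mul_assoc (T.t (T.π x) * x⁻¹) T.c, ← T.cen (x * g⁻¹ * T.c), T.mul_c_c]
        group
      rw [h2, T.π_S h1, T.π_c]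

theorem act_smul (h : G) (i : ι) : (letI := T.act; h • i) = T.π (T.t i * h⁻¹) := rfl

open Classical in
/-- The sign of an element. -/
noncomputable def sn (x : G) : ℝ := if T.t (T.π x) * x⁻¹ ∈ T.S then 1 else -1

theorem sn_sq (x : G) : T.sn x = 1 ∨ T.sn x = -1 := by
  unfold sn
  split_ifs
  · exact Or.inl rfl
  · exact Or.inr rfl

theorem sn_one {x : G} (h : T.t (T.π x) * x⁻¹ ∈ T.S) : T.sn x = 1 := if_pos h

theorem sn_neg {x : G} (h : T.t (T.π x) * x⁻¹ * T.c ∈ T.S) : T.sn x = -1 := by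
  unfold sn
  rw [if_neg]
  intro h1
  apply T.hc
  have h2 := T.S.mul_mem (T.S.inv_mem h1) h
  rwa [inv_mul_cancel_left] at h2

theorem sn_t (i : ι) : T.sn (T.t i) = 1 := T.sn_one (by
  rw [T.π_t, mul_inv_cancel]; exact T.S.one_mem)

theorem sn_S {s : G} (hs : s ∈ T.S) (x : G) : T.sn (s * x) = T.sn x := by
  have hs' : s⁻¹ ∈ T.S := T.S.inv_mem hs
  rcases T.t_π x with h | h
  · rw [T.sn_one h, T.sn_one]
    rw [T.π_S hs, mul_inv_rev, ← mul_assoc]
    exact T.S.mul_mem h hs'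
  · rw [T.sn_neg h, T.sn_neg]
    have h1 : T.t (T.π x) * (s * x)⁻¹ * T.c = T.t (T.π x) * x⁻¹ * T.c * s⁻¹ := by
      rw [mul_inv_rev, mul_assoc _ T.c, ← T.cen s⁻¹]
      simp only [mul_assoc]
    rw [T.π_S hs, h1]
    exact T.S.mul_mem h hs'

theorem sn_mul_c (x : G) : T.sn (x * T.c) = -T.sn x := by
  have h0 : (x * T.c)⁻¹ = x⁻¹ * T.c := by
    rw [mul_inv_rev, T.c_inv, T.cen]
  rcases T.t_π x with h | h
  · rw [T.sn_one h, T.sn_neg]
    rw [T.π_c, h0, ← mul_assoc, T.mul_c_c]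
    exact h
  · rw [T.sn_neg h, T.sn_one, neg_neg]
    rw [T.π_c, h0, ← mul_assoc]
    exact h

/-- The sign of the action. -/
noncomputable def eps (h : G) (i : ι) : ℝ := T.sn (T.t i * h⁻¹)

theorem sn_mul (x g : G) : T.sn (x * g) = T.sn (T.t (T.π x) * g) * T.sn x := by
  rcases T.t_π x with h | h
  · have h2 : T.t (T.π x) * g = T.t (T.π x) * x⁻¹ * (x * g) := by group
    rw [T.sn_one h, mul_one, h2, T.sn_S h]
  · have h2 : T.t (T.π x) * g = T.t (T.π x) * x⁻¹ * T.c * (x * g * T.c) := by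
      rw [mul_assoc (T.t (T.π x) * x⁻¹) T.c, ← T.cen (x * g * T.c), T.mul_c_c]
      group
    rw [T.sn_neg h, h2, T.sn_S h, T.sn_mul_c]
    ring

theorem eps_mul (g h : G) (i : ι) :
    T.eps (g * h) i = T.eps g (T.π (T.t i * h⁻¹)) * T.eps h i := by
  unfold eps
  have h0 : T.t i * (g * h)⁻¹ = T.t i * h⁻¹ * g⁻¹ := by rw [mul_inv_rev, mul_assoc]
  rw [h0, T.sn_mul]

/-- The cocycle of signs. -/
noncomputable def coc : letI := T.act; Coc G ι :=
  letI := T.act
  { ε := T.eps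
    sq := fun g i => T.sn_sq _
    mul := fun g h i => T.eps_mul g h i }

theorem act_pretransitive : letI := T.act; MulAction.IsPretransitive G ι := by
  letI := T.act
  constructor
  intro i j
  refine ⟨(T.t j)⁻¹ * T.t i, ?_⟩
  show T.π (T.t i * ((T.t j)⁻¹ * T.t i)⁻¹) = j
  rw [mul_inv_rev, inv_inv, mul_inv_cancel_left, T.π_t]

variable [Fintype G]

/-- The odd right `S`-invariant element of the real group algebra attached to a vector: its coefficient
at `g⁻¹` is `sn g * x (π g)`. -/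
noncomputable def ph : EuclideanSpace ℝ ι →ₗ[ℝ] MonoidAlgebra ℝ G where
  toFun x := ofFun fun g => T.sn g⁻¹ * x (T.π g⁻¹)
  map_add' x y := by
    apply ma_ext
    intro g
    show (ofFun fun g => T.sn g⁻¹ * (x + y) (T.π g⁻¹) : MonoidAlgebra ℝ G).coeff g
      = (ofFun fun g => T.sn g⁻¹ * x (T.π g⁻¹) : MonoidAlgebra ℝ G).coeff g
        + (ofFun fun g => T.sn g⁻¹ * y (T.π g⁻¹) : MonoidAlgebra ℝ G).coeff g
    rw [ofFun_coeff, ofFun_coeff, ofFun_coeff, PiLp.add_apply]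
    ring
  map_smul' r x := by
    apply ma_ext
    intro g
    show (ofFun fun g => T.sn g⁻¹ * (r • x) (T.π g⁻¹) : MonoidAlgebra ℝ G).coeff g
      = r * (ofFun fun g => T.sn g⁻¹ * x (T.π g⁻¹) : MonoidAlgebra ℝ G).coeff g
    rw [ofFun_coeff, ofFun_coeff, PiLp.smul_apply, smul_eq_mul]
    ring

theorem ph_coeff' (x : EuclideanSpace ℝ ι) (g : G) :
    (T.ph x).coeff g = T.sn g⁻¹ * x (T.π g⁻¹) := ofFun_coeff _ _

/-- All coefficients. -/
theorem ph_coeff (x : EuclideanSpace ℝ ι) (g : G) :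
    (T.ph x).coeff g⁻¹ = T.sn g * x (T.π g) := by
  rw [ph_coeff', inv_inv]

theorem ph_coeff_t (x : EuclideanSpace ℝ ι) (i : ι) : (T.ph x).coeff (T.t i)⁻¹ = x i := by
  rw [T.ph_coeff, T.sn_t, T.π_t, one_mul]

theorem ph_inj : Function.Injective T.ph := by
  intro x y h
  ext i
  rw [← T.ph_coeff_t, h, T.ph_coeff_t]

/-- The coefficients of the product with the involution. -/
theorem mul_cc_coeff {R : Type*} [CommRing R] (y : MonoidAlgebra R G) (g : G) :
    (y * T.cc R).coeff g = y.coeff (g * T.c) := by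
  unfold TS.cc
  have h1 : g = g * T.c * T.c := (T.mul_c_c g).symm
  conv_lhs => rw [h1]
  rw [MonoidAlgebra.coeff_mul_single_apply]
  simp [T.c_inv, T.mul_c_c]

/-- The image of `ph` consists of the odd elements which are invariant under `S` from the right. -/
theorem ph_range (y : MonoidAlgebra ℝ G) : (∃ x, T.ph x = y) ↔
    y * T.cc ℝ = -y ∧ ∀ s ∈ T.S, ∀ g, y.coeff (g * s) = y.coeff g := by
  constructor
  · rintro ⟨x, rfl⟩
    constructor
    · apply ma_ext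
      intro g
      have h1 : (-T.ph x).coeff g = -(T.ph x).coeff g := rfl
      rw [T.mul_cc_coeff, h1]
      have h2 : (g * T.c)⁻¹ = g⁻¹ * T.c := by
        rw [mul_inv_rev, T.c_inv, T.cen]
      rw [ph_coeff', ph_coeff', h2, T.sn_mul_c, T.π_c]
      ring
    · intro s hs g
      rw [ph_coeff', ph_coeff', mul_inv_rev, T.sn_S (T.S.inv_mem hs), T.π_S (T.S.inv_mem hs)]
  · rintro ⟨h, hS⟩
    refine ⟨WithLp.toLp 2 fun i => y.coeff (T.t i)⁻¹, ?_⟩
    have hc : ∀ g, y.coeff (g * T.c) = -y.coeff g := by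
      intro g
      rw [← T.mul_cc_coeff, h]
      rfl
    apply ma_ext
    intro g
    rw [ph_coeff']
    show T.sn g⁻¹ * y.coeff (T.t (T.π g⁻¹))⁻¹ = _
    rcases T.t_π g⁻¹ with h1 | h1
    · rw [T.sn_one h1, one_mul]
      have h2 : g = (T.t (T.π g⁻¹))⁻¹ * (T.t (T.π g⁻¹) * g⁻¹⁻¹) := by group
      conv_rhs => rw [h2]
      rw [hS _ h1]
    · rw [T.sn_neg h1]
      have h2 : g = (T.t (T.π g⁻¹))⁻¹ * (T.t (T.π g⁻¹) * g⁻¹⁻¹ * T.c) * T.c := by
        rw [← mul_assoc, T.mul_c_c]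
        group
      conv_rhs => rw [h2]
      rw [hc, hS _ h1]
      ring

variable [Fintype ι]

/-- The signed action corresponds to the multiplication from the left. -/
theorem ph_act (g : G) (x : EuclideanSpace ℝ ι) :
    T.ph ((letI := T.act; T.coc.act g x)) = MonoidAlgebra.single g 1 * T.ph x := by
  letI := T.act
  apply ma_ext
  intro h
  rw [ph_coeff', MonoidAlgebra.coeff_single_mul_apply, one_mul, ph_coeff', T.coc.act_apply]
  have h3 : g⁻¹ • T.π h⁻¹ = T.π (h⁻¹ * g) := by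
    show T.π (T.t (T.π h⁻¹) * g⁻¹⁻¹) = _
    rw [inv_inv]
    generalize h⁻¹ = x
    rcases T.t_π x with h1 | h1
    · have h2 : T.t (T.π x) * g = T.t (T.π x) * x⁻¹ * (x * g) := by group
      rw [h2, T.π_S h1]
    · have h2 : T.t (T.π x) * g = T.t (T.π x) * x⁻¹ * T.c * (x * g * T.c) := by
        rw [mul_assoc (T.t (T.π x) * x⁻¹) T.c, ← T.cen (x * g * T.c), T.mul_c_c]
        group
      rw [h2, T.π_S h1, T.π_c]
  have h4 : (g⁻¹ * h)⁻¹ = h⁻¹ * g := by rw [mul_inv_rev, inv_inv]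
  rw [h3, h4]
  have h5 : T.sn h⁻¹ * T.eps g (T.π (h⁻¹ * g)) = T.sn (h⁻¹ * g) := by
    unfold eps
    have h6 : T.sn h⁻¹ = T.sn (T.t (T.π (h⁻¹ * g)) * g⁻¹) * T.sn (h⁻¹ * g) := by
      rw [← T.sn_mul, mul_inv_cancel_right]
    rw [h6]
    rcases T.sn_sq (T.t (T.π (h⁻¹ * g)) * g⁻¹) with h7 | h7 <;> rw [h7] <;> ring
  have h6 : T.coc.ε g (T.π (h⁻¹ * g)) = T.eps g (T.π (h⁻¹ * g)) := rfl
  rw [h6, ← h5]
  ring

/-- The inner product with the vector of signs. -/
theorem ph_inner (v : ι → Bool) (x : EuclideanSpace ℝ ι) :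
    inner ℝ (sv v) x = (T.ph x * T.el ℝ v).coeff 1 := by
  have h1 : T.ph x * T.el ℝ v = ∑ i, T.ph x * MonoidAlgebra.single (T.t i)
      (if v i then (1 : ℝ) else -1) := by
    unfold TS.el
    rw [mul_sum]
  rw [h1, coeff_sum', PiLp.inner_apply]
  refine sum_congr rfl fun i _ => ?_
  have h2 : (1 : G) = (T.t i)⁻¹ * T.t i := (inv_mul_cancel _).symm
  rw [MonoidAlgebra.coeff_mul_single_apply, one_mul, T.ph_coeff_t]
  simp only [RCLike.inner_apply, conj_trivial, sv]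

end Tr

end Pool.MP43e44c.GX
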