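import Pool.Agent.H.MP_43e44c_ag.GX.Bas

/-!
Dimensions.
-/

set_option autoImplicit false

open Finset Module

namespace Pool.MP43e44c.GX

open Pool.MP43e44c.OD

universe u v

namespace TS

variable {G : Type u} [Group G] {ι : Type v} (T : TS G ι) [Fintype G]

open Classical in
theorem Dim_card_fib [Fintype ι] (g : G) :
    (univ.filter fun j : ι => T.t j * g⁻¹ ∈ T.S ∨ T.t j * g⁻¹ * T.c ∈ T.S).card = T.bl := by
  rw [← T.fib g, Nat.card_eq_fintype_card, Fintype.card_subtype]

open Classical in
theorem Dim_card_equiv (e : G ≃ G) : (univ.filter fun g : G => e g ∈ T.S).card = T.cS := by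
  have h1 : Nat.card {g : G // e g ∈ T.S} = Nat.card T.S :=
    Nat.card_congr (e.subtypeEquiv fun _ => Iff.rfl)
  unfold cS
  rw [← h1, Nat.card_eq_fintype_card, Fintype.card_subtype]

open Classical in
theorem Dim_card_row (x : G) :
    (univ.filter fun g : G => x * g⁻¹ ∈ T.S ∨ x * g⁻¹ * T.c ∈ T.S).card = 2 * T.cS := by
  rw [filter_or, card_union_of_disjoint]
  · have h1 := T.Dim_card_equiv ((Equiv.inv G).trans (Equiv.mulLeft x))
    have h2 := T.Dim_card_equiv (((Equiv.inv G).trans (Equiv.mulLeft x)).trans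
      (Equiv.mulRight T.c))
    have h3 : (univ.filter fun g : G => x * g⁻¹ ∈ T.S).card = T.cS := h1
    have h4 : (univ.filter fun g : G => x * g⁻¹ * T.c ∈ T.S).card = T.cS := h2
    rw [h3, h4, two_mul]
  · rw [Finset.disjoint_filter]
    intro g _ h1 h2
    apply T.hc
    have h3 := T.S.mul_mem (T.S.inv_mem h1) h2
    rwa [inv_mul_cancel_left] at h3

/-- Double counting: `∑_g ∑_j [t j ∈ S g ∪ S g c] F g`. -/
theorem sum_unif [Fintype ι] {M : Type*} [AddCommMonoid M] (F : G → M)
    (hS : ∀ s ∈ T.S, ∀ g, F (s * g) = F g) (hc : ∀ g, F (g * T.c) = F g) :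
    T.bl • ∑ g, F g = (2 * T.cS) • ∑ j, F (T.t j) := by
  classical
  have h1 : ∀ g j, (T.t j * g⁻¹ ∈ T.S ∨ T.t j * g⁻¹ * T.c ∈ T.S) → F (T.t j) = F g := by
    intro g j h
    rcases h with h | h
    · have h2 := hS _ h g
      rwa [inv_mul_cancel_right] at h2
    · have h2 := hS _ h (g * T.c)
      have h3 : T.t j * g⁻¹ * T.c * (g * T.c) = T.t j := by
        rw [mul_assoc (T.t j * g⁻¹), ← mul_assoc T.c g, ← T.cen g, mul_assoc g, T.sq, mul_one,
          inv_mul_cancel_right]
      rw [h3, hc] at h2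
      exact h2
  have h2 : T.bl • ∑ g, F g
      = ∑ g, ∑ j ∈ univ.filter (fun j : ι => T.t j * g⁻¹ ∈ T.S ∨ T.t j * g⁻¹ * T.c ∈ T.S),
        F (T.t j) := by
    rw [smul_sum]
    refine sum_congr rfl fun g _ => ?_
    have h3 : ∀ j ∈ univ.filter (fun j : ι => T.t j * g⁻¹ ∈ T.S ∨ T.t j * g⁻¹ * T.c ∈ T.S),
        F (T.t j) = F g := fun j hj => h1 g j (mem_filter.mp hj).2
    rw [sum_congr rfl h3, sum_const, T.Dim_card_fib]
  have h3 : (2 * T.cS) • ∑ j, F (T.t j)
      = ∑ j, ∑ g ∈ univ.filter (fun g : G => T.t j * g⁻¹ ∈ T.S ∨ T.t j * g⁻¹ * T.c ∈ T.S),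
        F (T.t j) := by
    rw [smul_sum]
    refine sum_congr rfl fun j _ => ?_
    rw [sum_const, T.Dim_card_row]
  rw [h2, h3]
  refine sum_comm' ?_
  intro g j
  simp

/-- The multiplicative form. -/
theorem prod_unif [Fintype ι] (F : G → ℝ)
    (hS : ∀ s ∈ T.S, ∀ g, F (s * g) = F g) (hc : ∀ g, F (g * T.c) = F g) :
    (∏ g, F g) ^ T.bl = (∏ j, F (T.t j)) ^ (2 * T.cS) := by
  have h := T.sum_unif (M := Additive ℝ) (fun g => Additive.ofMul (F g))
    (fun s hs g => congrArg _ (hS s hs g)) (fun g => congrArg _ (hc g))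
  have h2 := congrArg Additive.toMul h
  rw [toMul_nsmul, toMul_nsmul, toMul_sum, toMul_sum] at h2
  exact h2

/-- `sum_unif` for `F = 1`. -/
theorem card_eq [Fintype ι] : T.bl * Fintype.card G = 2 * T.cS * Fintype.card ι := by
  have h := T.sum_unif (fun _ : G => 1) (fun _ _ _ => rfl) (fun _ => rfl)
  simpa using h

/-- The right invariant elements. -/
noncomputable def DimV (k : Type) [Field k] : Submodule k (MonoidAlgebra k G) where
  carrier := {x | x * T.eS k = (T.cS : k) • x}
  zero_mem' := by
    show (0 : MonoidAlgebra k G) * T.eS k = (T.cS : k) • (0 : MonoidAlgebra k G)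
    rw [zero_mul, smul_zero]
  add_mem' := fun {a b} ha hb => by
    show (a + b) * T.eS k = (T.cS : k) • (a + b)
    rw [add_mul, smul_add, ha, hb]
  smul_mem' := fun c z hz => by
    show (c • z) * T.eS k = (T.cS : k) • (c • z)
    rw [smul_mul_assoc, hz, smul_comm]

theorem Dim_mem {k : Type} [Field k] {x : MonoidAlgebra k G} :
    x ∈ T.DimV k ↔ x * T.eS k = (T.cS : k) • x := Iff.rfl

theorem Dim_inv_iff {k : Type} [Field k] (hk : (T.cS : k) ≠ 0) {x : MonoidAlgebra k G} :
    x * T.eS k = (T.cS : k) • x ↔ ∀ s ∈ T.S, ∀ g, x.coeff (g * s) = x.coeff g := by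
  rw [T.mul_eS_iff hk]
  constructor
  · intro h s hs g
    have h1 := h s⁻¹ (T.S.inv_mem hs)
    have h2 := congrArg (fun z => z.coeff g) h1
    simp only [MonoidAlgebra.coeff_mul_single_apply, inv_inv, mul_one] at h2
    exact h2
  · intro h s hs
    apply ma_ext
    intro g
    rw [MonoidAlgebra.coeff_mul_single_apply, mul_one]
    exact h _ (T.S.inv_mem hs) g

theorem Dim_out {k : Type} {f : G → k} (h : ∀ s ∈ T.S, ∀ g, f (g * s) = f g) (g : G) :
    f ((g : G ⧸ T.S).out) = f g := by
  obtain ⟨s, hs⟩ := QuotientGroup.mk_out_eq_mul T.S g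
  rw [hs, h _ s.2]

theorem Dim_finrank {k : Type} [Field k] (hk : (T.cS : k) ≠ 0) :
    T.cS * finrank k (T.DimV k) = Fintype.card G := by
  classical
  let L : T.DimV k →ₗ[k] (G ⧸ T.S → k) :=
    { toFun := fun x q => (x : MonoidAlgebra k G).coeff q.out
      map_add' := fun x y => rfl
      map_smul' := fun r x => rfl }
  have hL : ∀ x q, L x q = (x : MonoidAlgebra k G).coeff q.out := fun x q => rfl
  have hbij : Function.Bijective L := by
    constructor
    · intro x y hxy
      apply Subtype.ext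
      apply ma_ext
      intro g
      have h1 := congrFun hxy (g : G ⧸ T.S)
      rw [hL, hL] at h1
      rwa [T.Dim_out (f := fun g => (x : MonoidAlgebra k G).coeff g)
          ((T.Dim_inv_iff hk).mp x.2) g,
        T.Dim_out (f := fun g => (y : MonoidAlgebra k G).coeff g)
          ((T.Dim_inv_iff hk).mp y.2) g] at h1
    · intro f
      refine ⟨⟨ofFun fun g => f (g : G ⧸ T.S), ?_⟩, ?_⟩
      · rw [T.Dim_mem, T.Dim_inv_iff hk]
        intro s hs g
        rw [ofFun_coeff, ofFun_coeff]
        exact congrArg f (QuotientGroup.mk_mul_of_mem g hs)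
      · funext q
        rw [hL]
        show (ofFun fun g => f (g : G ⧸ T.S) : MonoidAlgebra k G).coeff q.out = f q
        rw [ofFun_coeff, QuotientGroup.out_eq']
  rw [LinearEquiv.finrank_eq (LinearEquiv.ofBijective L hbij), finrank_fintype_fun_eq_card,
    ← Nat.card_eq_fintype_card, ← Nat.card_eq_fintype_card,
    Subgroup.card_eq_card_quotient_mul_card_subgroup T.S, mul_comm]
  rfl

/-- The right invariant elements of a component. -/
noncomputable def DimE {k : Type} [Field k] (W : WD k G) (i : Fin W.m) :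
    Submodule k (MonoidAlgebra k G) := T.DimV k ⊓ W.algE i

theorem Dim_finrankE {k : Type} [Field k] (hk : (T.cS : k) ≠ 0) (W : WD k G) (i : Fin W.m) :
    finrank k (T.DimE W i) = T.bb W i := by
  let L : T.DimE W i →ₗ[k] (Fin (W.r i) → T.fixR W i) :=
    { toFun := fun x a => ⟨W.comp i x a, by
        have h1 : (x : MonoidAlgebra k G) * T.eS k = (T.cS : k) • (x : MonoidAlgebra k G) := x.2.1
        have h2 := congrArg (W.comp i) h1
        rw [map_mul, map_smul] at h2
        exact (T.mul_comp_eS_iff hk W i _).mp h2 a⟩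
      map_add' := fun x y => by
        funext a
        apply Subtype.ext
        show W.comp i ((x : MonoidAlgebra k G) + y) a = W.comp i x a + W.comp i y a
        rw [map_add]
        rfl
      map_smul' := fun c x => by
        funext a
        apply Subtype.ext
        show W.comp i (c • (x : MonoidAlgebra k G)) a = c • W.comp i x a
        rw [map_smul]
        rfl }
  have hL : ∀ x a, ((L x a : T.fixR W i) : Fin (W.r i) → W.D i) = W.comp i x a := fun x a => rfl
  have hbij : Function.Bijective L := by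
    constructor
    · intro x y hxy
      apply Subtype.ext
      refine W.wdC_inj x.2.2 y.2.2 ?_
      funext a
      rw [← hL, ← hL, hxy]
    · intro f
      obtain ⟨x, hx1, hx2⟩ := W.exists_comp i (fun a => (f a : Fin (W.r i) → W.D i))
      have hx3 : x * T.eS k = (T.cS : k) • x := by
        apply W.comp_inj
        intro j
        rw [map_mul, map_smul]
        by_cases hj : j = i
        · subst hj
          rw [T.mul_comp_eS_iff hk]
          intro a
          rw [hx1]
          exact (f a).2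
        · rw [(W.mul_e_iff i x).mp hx2 j hj, zero_mul, smul_zero]
      refine ⟨⟨x, hx3, hx2⟩, ?_⟩
      funext a
      apply Subtype.ext
      rw [hL]
      show W.comp i x a = _
      rw [hx1]
  rw [LinearEquiv.finrank_eq (LinearEquiv.ofBijective L hbij), finrank_pi_fintype, sum_const,
    card_univ, Fintype.card_fin, smul_eq_mul]
  rfl

theorem Dim_sum {k : Type} [Field k] (W : WD k G) :
    ∑ i, finrank k (T.DimE W i) = finrank k (T.DimV k) := by
  let P : T.DimV k →ₗ[k] Π i, T.DimE W i :=
    LinearMap.pi fun i =>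
      { toFun := fun z => ⟨(z : MonoidAlgebra k G) * W.e i, by
            show (z : MonoidAlgebra k G) * W.e i * T.eS k
              = (T.cS : k) • ((z : MonoidAlgebra k G) * W.e i)
            have h1 : (z : MonoidAlgebra k G) * T.eS k = (T.cS : k) • (z : MonoidAlgebra k G) := z.2
            rw [mul_assoc, W.e_comm i, ← mul_assoc, h1, smul_mul_assoc], by
            show (z : MonoidAlgebra k G) * W.e i * W.e i = (z : MonoidAlgebra k G) * W.e i
            rw [mul_assoc, W.e_mul_self]⟩
        map_add' := fun x y => Subtype.ext (add_mul _ _ _)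
        map_smul' := fun c x => Subtype.ext (smul_mul_assoc _ _ _) }
  have hP : ∀ z i, ((P z i : T.DimE W i) : MonoidAlgebra k G) = (z : MonoidAlgebra k G) * W.e i :=
    fun z i => rfl
  have hbij : Function.Bijective P := by
    constructor
    · intro x y hxy
      apply Subtype.ext
      have h1 : ∀ i, (x : MonoidAlgebra k G) * W.e i = (y : MonoidAlgebra k G) * W.e i := by
        intro i
        rw [← hP, ← hP, hxy]
      rw [← mul_one (x : MonoidAlgebra k G), ← mul_one (y : MonoidAlgebra k G), ← W.sum_e,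
        mul_sum, mul_sum]
      exact sum_congr rfl fun i _ => h1 i
    · intro v
      refine ⟨∑ i, ⟨(v i : MonoidAlgebra k G), (v i).2.1⟩, ?_⟩
      funext i
      apply Subtype.ext
      rw [hP]
      push_cast
      rw [sum_mul, sum_eq_single i]
      · exact (v i).2.2
      · intro j _ hj
        have h2 : (v j : MonoidAlgebra k G) * W.e j = (v j : MonoidAlgebra k G) := (v j).2.2
        show (v j : MonoidAlgebra k G) * W.e i = 0
        rw [← h2, mul_assoc, W.e_mul_ne hj, mul_zero]
      · intro h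
        exact absurd (mem_univ i) h
  rw [LinearEquiv.finrank_eq (LinearEquiv.ofBijective P hbij)]
  have hfin : Module.Finite k (MonoidAlgebra k G) :=
    Module.Finite.equiv (MonoidAlgebra.coeffLinearEquiv k (S := k) (M := G)).symm
  rw [finrank_pi_fintype]

/-- PROOF. The dimension of `V = {x | x * eS = cS • x}` (right `S`-invariant functions, `mul_eS_iff`) is
`card G / cS` (functions on the cosets).  Under `W.φ` it corresponds to the families of matrices with
rows in `fixR W i` (`mul_comp_eS_iff`), of dimension `∑ r i * be i`. -/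
theorem sum_bb {k : Type} [Field k] (hk : (T.cS : k) ≠ 0) (W : WD k G) :
    T.cS * ∑ i, T.bb W i = Fintype.card G := by
  rw [← T.Dim_finrank hk, ← T.Dim_sum W]
  congr 1
  exact sum_congr rfl fun i _ => (T.Dim_finrankE hk W i).symm

/-- The subgroup generated by `S` and the involution. -/
def DimS : Subgroup G where
  carrier := {g | g ∈ T.S ∨ g * T.c ∈ T.S}
  one_mem' := Or.inl T.S.one_mem
  mul_mem' := by
    rintro a b (ha | ha) (hb | hb)
    · exact Or.inl (T.S.mul_mem ha hb)
    · right
      rw [mul_assoc]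
      exact T.S.mul_mem ha hb
    · right
      rw [mul_assoc, T.cen, ← mul_assoc]
      exact T.S.mul_mem ha hb
    · left
      have h1 := T.S.mul_mem ha hb
      have h2 : a * T.c * (b * T.c) = a * b := by
        rw [mul_assoc, T.cen b, ← mul_assoc T.c, T.sq, one_mul]
      rwa [h2] at h1
  inv_mem' := by
    rintro a (ha | ha)
    · exact Or.inl (T.S.inv_mem ha)
    · right
      have h1 := T.S.inv_mem ha
      rwa [mul_inv_rev, T.c_inv, ← T.cen] at h1

theorem Dim_card_S : Nat.card T.DimS = 2 * T.cS := by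
  classical
  have h1 := T.Dim_card_row 1
  have h2 : Nat.card T.DimS = Nat.card {g : G // 1 * g⁻¹ ∈ T.S ∨ 1 * g⁻¹ * T.c ∈ T.S} := by
    refine Nat.card_congr ((Equiv.inv G).subtypeEquiv ?_)
    intro g
    show (g ∈ T.S ∨ g * T.c ∈ T.S) ↔ (1 * g⁻¹⁻¹ ∈ T.S ∨ 1 * g⁻¹⁻¹ * T.c ∈ T.S)
    rw [inv_inv, one_mul]
  rw [h2, Nat.card_eq_fintype_card, Fintype.card_subtype, h1]

theorem Dim_cc_coeff {k : Type} [Field k] (x : MonoidAlgebra k G) (g : G) :
    (x * T.cc k).coeff g = x.coeff (g * T.c) := by
  unfold cc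
  rw [MonoidAlgebra.coeff_mul_single_apply, mul_one, T.c_inv]

theorem Dim_odd_le {k : Type} [Field k] (hk : (T.cS : k) ≠ 0) (W : WD k G)
    (A : Finset (Fin W.m)) (ε : k) (hε : ε ≠ 0) (hA : ∀ j ∈ A, W.comp j (T.cc k) = ε • 1) :
    2 * T.cS * ∑ j ∈ A, T.bb W j ≤ Fintype.card G := by
  classical
  let Φ : (Π j : A, T.DimE W j) →ₗ[k] MonoidAlgebra k G :=
    ∑ j : A, (T.DimE W j).subtype.comp (LinearMap.proj j)
  have hΦ : ∀ w, Φ w = ∑ j : A, (w j : MonoidAlgebra k G) := by
    intro w
    simp [Φ]
  have hinj : Function.Injective Φ := by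
    rw [injective_iff_map_eq_zero]
    intro w hw
    funext j
    apply Subtype.ext
    have h1 := congrArg (fun z => z * W.e j) hw
    simp only [zero_mul] at h1
    rw [hΦ, sum_mul, sum_eq_single j] at h1
    · have h2 : (w j : MonoidAlgebra k G) * W.e j = w j := (w j).2.2
      rw [h2] at h1
      exact h1
    · intro l _ hl
      have h2 : (w l : MonoidAlgebra k G) * W.e l = w l := (w l).2.2
      rw [← h2, mul_assoc, W.e_mul_ne, mul_zero]
      intro h3
      exact hl (Subtype.ext h3)
    · intro h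
      exact absurd (mem_univ j) h
  let Ψ : MonoidAlgebra k G →ₗ[k] (G ⧸ T.DimS → k) :=
    { toFun := fun x q => x.coeff q.out
      map_add' := fun x y => rfl
      map_smul' := fun r x => rfl }
  have hΨ : Function.Injective (Ψ.comp Φ) := by
    rw [injective_iff_map_eq_zero]
    intro w hw
    apply hinj
    rw [map_zero]
    have h0 : Φ w * T.eS k = (T.cS : k) • Φ w := by
      have h1 : Φ w ∈ T.DimV k := by
        rw [hΦ]
        exact Submodule.sum_mem _ fun j _ => (w j).2.1
      exact h1
    have h1 : Φ w * T.cc k = ε • Φ w := by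
      apply W.comp_inj
      intro j
      rw [map_mul, map_smul]
      by_cases hj : j ∈ A
      · rw [hA j hj, mul_smul_comm, mul_one]
      · have h2 : W.comp j (Φ w) = 0 := by
          rw [hΦ, map_sum]
          refine sum_eq_zero fun l _ => ?_
          have h2 : (w l : MonoidAlgebra k G) * W.e l = w l := (w l).2.2
          apply (W.mul_e_iff l _).mp h2
          rintro rfl
          exact hj l.2
        rw [h2, zero_mul, smul_zero]
    have h2 : ∀ g, (Φ w).coeff (g * T.c) = ε * (Φ w).coeff g := by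
      intro g
      rw [← Dim_cc_coeff, h1]
      rfl
    have h3 : ∀ s ∈ T.S, ∀ g, (Φ w).coeff (g * s) = (Φ w).coeff g :=
      (T.Dim_inv_iff hk).mp h0
    apply ma_ext
    intro g
    show (Φ w).coeff g = 0
    have h4 : (Φ w).coeff ((g : G ⧸ T.DimS).out) = 0 := congrFun hw (g : G ⧸ T.DimS)
    obtain ⟨s, hs⟩ := QuotientGroup.mk_out_eq_mul T.DimS g
    rw [hs] at h4
    rcases s.2 with h5 | h5
    · rwa [h3 _ h5] at h4
    · have h6 := h2 (g * s)
      rw [mul_assoc, h3 _ h5, h4, mul_zero] at h6
      exact h6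
  have h1 := LinearMap.finrank_le_finrank_of_injective hΨ
  rw [finrank_pi_fintype, finrank_fintype_fun_eq_card] at h1
  have h2 : ∑ j : A, finrank k (T.DimE W j) = ∑ j ∈ A, T.bb W j := by
    rw [← sum_coe_sort A]
    exact sum_congr rfl fun j _ => T.Dim_finrankE hk W j
  rw [h2] at h1
  have h3 := Subgroup.card_eq_card_quotient_mul_card_subgroup T.DimS
  rw [T.Dim_card_S, Nat.card_eq_fintype_card, Nat.card_eq_fintype_card] at h3
  rw [h3, mul_comm]
  exact Nat.mul_le_mul_right _ h1

open Classical in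
/-- PROOF. The same for `V = {x | x * eS = cS • x, x * cc = - x}`: the functions `f` on `G` with
`f (g s) = f g`, `f (g c) = - f g`; as `c ∉ S` is central the cosets `g S` and `g c S` are different, so
the dimension is `card G / (2 cS)`.  (It is enough to prove `≤` for the signs `-` and `+` and to add, as
in `sum_odd_a` of GA/Odd.lean.) -/
theorem sum_odd_bb {k : Type} [Field k] (h2 : (2 : k) ≠ 0) (hk : (T.cS : k) ≠ 0) (W : WD k G) :
    2 * T.cS * ∑ i ∈ univ.filter (fun i : Fin W.m => T.Odd W i), T.bb W i = Fintype.card G := by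
  have h1 := T.Dim_odd_le hk W (univ.filter fun i : Fin W.m => T.Odd W i) (-1)
    (neg_ne_zero.mpr one_ne_zero) (by
    intro j hj
    have h3 : T.Odd W j := (mem_filter.mp hj).2
    unfold Odd at h3
    rw [h3, neg_smul, one_smul])
  have h3 := T.Dim_odd_le hk W (univ.filter fun i : Fin W.m => ¬ T.Odd W i) 1 one_ne_zero (by
    intro j hj
    have h3 : ¬ T.Odd W j := (mem_filter.mp hj).2
    unfold Odd at h3
    rw [one_smul]
    exact (T.comp_cc W j).resolve_right h3)
  have h4 := T.sum_bb hk W
  rw [← sum_filter_add_sum_filter_not univ (fun i : Fin W.m => T.Odd W i)] at h4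
  have h5 : 2 * T.cS * ∑ i ∈ univ.filter (fun i : Fin W.m => T.Odd W i), T.bb W i
      + 2 * T.cS * ∑ i ∈ univ.filter (fun i : Fin W.m => ¬ T.Odd W i), T.bb W i
      = 2 * Fintype.card G := by
    rw [← h4]
    ring
  omega

/-- PROOF. `≤` as `sum_below_a_le` (OD/Bel2.lean: `bel2_rank` with the subspaces
`{x ∈ algE | x * eS = cS • x}`; a right `S`-invariant element modulo `p` is the reduction of a right
`S`-invariant integral element); then sum over `i` (`J_disjoint`, `exists_mem_J`, `sum_bb`) as in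
`sum_below_a` (GA/Odd.lean).  Note that `cS` divides `card G`. -/
theorem sum_below_bb {p : ℕ} [Fact p.Prime] (hp : ¬ p ∣ Fintype.card G) (W : WD ℚ G)
    (P : WD (ZMod p) G) (i : Fin W.m) : ∑ j ∈ J W P i, T.bb P j = T.bb W i := by
  classical
  have hkQ : (T.cS : ℚ) ≠ 0 := by exact_mod_cast T.cS_pos.ne'
  have hkP : (T.cS : ZMod p) ≠ 0 := by
    intro h
    rw [ZMod.natCast_eq_zero_iff] at h
    exact hp (h.trans T.cS_dvd)
  have hle : ∀ i, ∑ j ∈ J W P i, T.bb P j ≤ T.bb W i := by
    intro i
    obtain ⟨N, hN, E, hE, hEN⟩ := exists_E hp W i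
    obtain ⟨V, hV1, hV2⟩ := bel2_sum P (J W P i) (fun j => T.DimE P j) fun j => inf_le_right
    have h1 : ∑ j ∈ J W P i, T.bb P j = finrank (ZMod p) V := by
      rw [hV1]
      exact sum_congr rfl fun j _ => (T.Dim_finrankE hkP P j).symm
    rw [h1, ← T.Dim_finrankE hkQ W i]
    have := bel2_finite (ZMod p) V
    have := bel2_finite ℚ (T.DimE W i)
    refine bel2_rank hN E V (T.DimE W i)
      (fun x => toQ x * T.eS ℚ = (T.cS : ℚ) • toQ x) ?_ ?_ ?_
    · intro v hv
      obtain ⟨w, hw, rfl⟩ := hV2 v hv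
      have h2 : ∑ j ∈ J W P i, w j ∈ T.DimV (ZMod p) :=
        Submodule.sum_mem _ fun j _ => (hw j).1
      generalize ∑ j ∈ J W P i, w j = v at h2
      have h3 := (T.Dim_inv_iff hkP).mp h2
      refine ⟨ofFun fun g => ((v.coeff g).val : ℤ), ?_, ?_⟩
      · rw [T.Dim_inv_iff hkQ]
        intro s hs g
        rw [toQ_coeff, toQ_coeff, ofFun_coeff, ofFun_coeff, h3 s hs g]
      · apply ma_ext
        intro g
        rw [toP_coeff, ofFun_coeff]
        simp
    · intro x hx
      refine ⟨?_, bel2_mem W i hEN x⟩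
      show toQ (E * x) * T.eS ℚ = (T.cS : ℚ) • toQ (E * x)
      rw [map_mul, mul_assoc, hx, mul_smul_comm]
    · intro v hv
      obtain ⟨w, hw, rfl⟩ := hV2 v hv
      rw [mul_sum, smul_sum]
      exact sum_congr rfl fun j hj => bel2_scalar W P i hN hE hEN hj (hw j).2
  have h1 : ∑ i, ∑ j ∈ J W P i, T.bb P j = ∑ i, T.bb W i := by
    rw [← sum_biUnion]
    · have h2 : (univ : Finset (Fin W.m)).biUnion (J W P) = univ := by
        ext j
        simp only [mem_biUnion, mem_univ, true_and, iff_true]
        exact exists_mem_J hp W P j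
      rw [h2]
      have h3 := T.sum_bb hkP P
      rw [← T.sum_bb hkQ W] at h3
      exact Nat.eq_of_mul_eq_mul_left T.cS_pos h3
    · intro a _ b _ hab
      exact J_disjoint hp W P hab
  exact (sum_eq_sum_iff_of_le fun i _ => hle i).mp h1 i (mem_univ i)

end TS

end Pool.MP43e44c.GX
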