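import Pool.Agent.H.MP_43e44c_ag.GX.Bas
import Pool.Agent.H.MP_43e44c_ag.GX.Act
import Pool.Agent.H.MP_43e44c_ag.GX.Dim
import Pool.Agent.H.MP_43e44c_ag.GZ.SmA
import Pool.Agent.H.MP_43e44c_ag.GZ.FG
import Pool.Agent.H.MP_43e44c_ag.Count2

/-!
CM fields: reduction to the group algebra of the Galois group of the closure.
-/

set_option autoImplicit false

open Finset Module NumberField

namespace Pool.MP43e44c.GX

open Pool.MP43e44c.OD

universe u v w

section Cons

variable {G : Type u} [Group G] (c : G) (hsq : c * c = 1) (hcen : ∀ g, g * c = c * g)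
  (S : Subgroup G)

/-- The subgroup generated by `S` and `c`. -/
def fldS : Subgroup G where
  carrier := {g | g ∈ S ∨ g * c ∈ S}
  one_mem' := Or.inl S.one_mem
  mul_mem' := by
    rintro a b (ha | ha) (hb | hb)
    · exact Or.inl (S.mul_mem ha hb)
    · right
      rw [mul_assoc]
      exact S.mul_mem ha hb
    · right
      have h1 : a * b * c = a * c * b := by rw [mul_assoc, hcen, ← mul_assoc]
      rw [h1]
      exact S.mul_mem ha hb
    · left
      have h1 : a * b = a * c * (b * c) := by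
        rw [hcen b, mul_assoc, ← mul_assoc c, hsq, one_mul]
      rw [h1]
      exact S.mul_mem ha hb
  inv_mem' := by
    rintro a (ha | ha)
    · exact Or.inl (S.inv_mem ha)
    · right
      have h1 : a⁻¹ * c = (a * c)⁻¹ := by
        rw [mul_inv_rev, inv_eq_of_mul_eq_one_left hsq, hcen]
      rw [h1]
      exact S.inv_mem ha

theorem mem_fldS (g : G) : g ∈ fldS c hsq hcen S ↔ g ∈ S ∨ g * c ∈ S := Iff.rfl

/-- The group with representatives of the classes. -/
noncomputable def fldTr (hne : c ≠ 1) (hc : c ∉ S) : Tr G (G ⧸ fldS c hsq hcen S) where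
  c := c
  ne := hne
  sq := hsq
  cen := hcen
  S := S
  hc := hc
  t := fun i => (Quotient.out i)⁻¹
  bl := 1
  bl_pos := one_pos
  fib := by
    intro g
    rw [Nat.card_eq_one_iff_unique]
    have key : ∀ j : G ⧸ fldS c hsq hcen S,
        ((Quotient.out j)⁻¹ * g⁻¹ ∈ S ∨ (Quotient.out j)⁻¹ * g⁻¹ * c ∈ S) ↔
          j = QuotientGroup.mk g⁻¹ := by
      intro j
      rw [← mem_fldS c hsq hcen S, ← QuotientGroup.eq]
      constructor
      · intro h
        rw [← h]
        exact (Quotient.out_eq' j).symm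
      · intro h
        rw [← h]
        exact Quotient.out_eq' j
    constructor
    · constructor
      rintro ⟨a, ha⟩ ⟨b, hb⟩
      have h1 := (key a).1 ha
      have h2 := (key b).1 hb
      exact Subtype.ext (h1.trans h2.symm)
    · exact ⟨⟨QuotientGroup.mk g⁻¹, (key _).2 rfl⟩⟩
  bl_one := rfl
  π := fun g => QuotientGroup.mk g⁻¹
  t_π := by
    intro g
    show _ ∈ S ∨ _ ∈ S
    rw [← mem_fldS c hsq hcen S, ← QuotientGroup.eq]
    exact Quotient.out_eq' _

end Cons

namespace Tr

section Fn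

variable {G : Type u} [Group G] [Fintype G] {ι : Type v} [Fintype ι] (T : Tr G ι)
  {X : Type w} [MulAction G X] [MulAction.IsPretransitive G X] {x₀ : X}
  (hS : T.S = MulAction.stabilizer G x₀)

/-- The element of the group algebra attached to a function. -/
noncomputable def fl (x₀ : X) (f : X → ℚ) : MonoidAlgebra ℚ G := ofFun fun g => f (g • x₀)

omit [MulAction.IsPretransitive G X] in
theorem fl_coeff (f : X → ℚ) (g : G) : (fl x₀ f : MonoidAlgebra ℚ G).coeff g = f (g • x₀) :=
  ofFun_coeff _ _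

omit [Fintype ι] [Fintype G] [MulAction.IsPretransitive G X] in
include hS in
theorem fld_mem {g : G} : g ∈ T.S ↔ g • x₀ = x₀ := by
  rw [hS, MulAction.mem_stabilizer_iff]

omit [Fintype ι] [MulAction.IsPretransitive G X] in
theorem fl_odd {f : X → ℚ} (hf : ∀ x, f (T.c • x) = -f x) :
    (fl x₀ f : MonoidAlgebra ℚ G) * T.cc ℚ = -fl x₀ f := by
  apply ma_ext
  intro g
  have h1 : (-(fl x₀ f : MonoidAlgebra ℚ G)).coeff g = -(fl x₀ f : MonoidAlgebra ℚ G).coeff g := rfl
  rw [T.mul_cc_coeff, h1, fl_coeff, fl_coeff, T.cen, mul_smul, hf]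

omit [Fintype ι] [MulAction.IsPretransitive G X] in
include hS in
theorem fl_inv (f : X → ℚ) :
    (fl x₀ f : MonoidAlgebra ℚ G) * T.eS ℚ = (T.cS : ℚ) • fl x₀ f := by
  have hk : (T.cS : ℚ) ≠ 0 := by
    have := T.cS_pos
    positivity
  rw [T.mul_eS_iff hk]
  intro s hs
  apply ma_ext
  intro g
  have h0 : g = g * s⁻¹ * s := by rw [inv_mul_cancel_right]
  conv_lhs => rw [h0]
  have hs' : s⁻¹ • x₀ = x₀ := (T.fld_mem hS).1 (T.S.inv_mem hs)
  rw [MonoidAlgebra.coeff_mul_single_apply, mul_one, mul_inv_cancel_right, fl_coeff, fl_coeff,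
    mul_smul, hs']

omit [Fintype G] [Fintype ι] in
include hS in
theorem fld_cases (x : X) : (T.t (T.π (Classical.choose (MulAction.exists_smul_eq G x₀ x))⁻¹))⁻¹ • x₀ = x ∨
    (T.t (T.π (Classical.choose (MulAction.exists_smul_eq G x₀ x))⁻¹))⁻¹ • x₀ = T.c • x := by
  have hg := Classical.choose_spec (MulAction.exists_smul_eq G x₀ x)
  generalize Classical.choose (MulAction.exists_smul_eq G x₀ x) = g at hg
  rcases T.t_π g⁻¹ with h | h
  · left
    rw [T.fld_mem hS, inv_inv, mul_smul, hg] at h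
    rw [inv_smul_eq_iff, h]
  · right
    rw [T.fld_mem hS, inv_inv, mul_smul, mul_smul, ← mul_smul g, T.cen, mul_smul, hg] at h
    rw [inv_smul_eq_iff, h]

omit [Fintype G] [Fintype ι] [MulAction.IsPretransitive G X] in
include hS in
theorem fld_inj {i j : ι} (h : (T.t i)⁻¹ • x₀ = (T.t j)⁻¹ • x₀ ∨
    (T.t i)⁻¹ • x₀ = T.c • (T.t j)⁻¹ • x₀) : i = j := by
  rw [← T.π_t i]
  have h2 : j = T.π (T.t i) := by
    apply T.π_unique
    rcases h with h | h
    · left
      rw [T.fld_mem hS, mul_smul, h, smul_inv_smul]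
    · right
      rw [T.fld_mem hS, mul_assoc, T.cen, mul_smul, mul_smul, h, ← mul_smul T.c, T.sq, one_smul,
        smul_inv_smul]
  exact h2.symm

open Classical in
include hS in
theorem fl_mul_el [Fintype X] {f : X → ℚ} (hf : ∀ x, f (T.c • x) = -f x) {A : Finset X}
    (hA : ∀ x, x ∈ A ↔ T.c • x ∉ A) (g : G) :
    ((fl x₀ f : MonoidAlgebra ℚ G) * T.el ℚ (fun i => decide ((T.t i)⁻¹ • x₀ ∈ A))).coeff g
      = ∑ x ∈ A, f (g • x) := by
  unfold TS.el
  rw [mul_sum, coeff_sum']
  have hgc : ∀ x : X, f (g • T.c • x) = -f (g • x) := by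
    intro x
    rw [← mul_smul, T.cen, mul_smul, hf]
  have hcc : ∀ x : X, T.c • T.c • x = x := by
    intro x
    rw [← mul_smul, T.sq, one_smul]
  refine Finset.sum_bij (fun i _ => if (T.t i)⁻¹ • x₀ ∈ A then (T.t i)⁻¹ • x₀
    else T.c • (T.t i)⁻¹ • x₀) ?_ ?_ ?_ ?_
  · intro i _
    split_ifs with h
    · exact h
    · by_contra h1
      exact h ((hA _).2 h1)
  · intro i _ j _ hij
    apply T.fld_inj hS
    split_ifs at hij with h1 h2 h2
    · exact Or.inl hij
    · exact Or.inr hij
    · right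
      rw [← hij, hcc]
    · left
      have h3 := congrArg (fun x => T.c • x) hij
      simpa only [hcc] using h3
  · intro x hx
    refine ⟨T.π (Classical.choose (MulAction.exists_smul_eq G x₀ x))⁻¹, mem_univ _, ?_⟩
    rcases T.fld_cases hS x with h | h
    · rw [if_pos (by rw [h]; exact hx), h]
    · have h1 : T.c • x ∉ A := (hA x).1 hx
      rw [if_neg (by rw [h]; exact h1), h, hcc]
  · intro i _
    have h5 : g = g * (T.t i)⁻¹ * T.t i := by rw [inv_mul_cancel_right]
    conv_lhs => rw [h5]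
    rw [MonoidAlgebra.coeff_mul_single_apply, fl_coeff, mul_inv_cancel_right, mul_smul]
    by_cases h6 : (T.t i)⁻¹ • x₀ ∈ A
    · rw [if_pos (decide_eq_true h6), if_pos h6, mul_one]
    · rw [if_neg (fun h7 => h6 (of_decide_eq_true h7)), if_neg h6, hgc]
      ring

/-- The function on the set attached to an element of the group algebra. -/
noncomputable def toFn (x₀ : X) : MonoidAlgebra ℚ G →ₗ[ℚ] (X → ℚ) where
  toFun y x := y.coeff (Classical.choose (MulAction.exists_smul_eq G x₀ x))
  map_add' _ _ := rfl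
  map_smul' _ _ := rfl

omit [Fintype ι] in
include hS in
theorem toFn_smul {y : MonoidAlgebra ℚ G} (hy : y * T.eS ℚ = (T.cS : ℚ) • y) (g : G) :
    toFn x₀ y (g • x₀) = y.coeff g := by
  have hk : (T.cS : ℚ) ≠ 0 := by
    have := T.cS_pos
    positivity
  rw [T.mul_eS_iff hk] at hy
  show y.coeff (Classical.choose (MulAction.exists_smul_eq G x₀ (g • x₀))) = _
  have hg := Classical.choose_spec (MulAction.exists_smul_eq G x₀ (g • x₀))
  generalize Classical.choose (MulAction.exists_smul_eq G x₀ (g • x₀)) = h at hg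
  have h1 : g⁻¹ * h ∈ T.S := by
    rw [T.fld_mem hS, mul_smul, hg, inv_smul_smul]
  have h2 : (y * MonoidAlgebra.single (g⁻¹ * h) 1).coeff h = y.coeff h :=
    congrArg (fun z => z.coeff h) (hy _ h1)
  have h3 : h = g * (g⁻¹ * h) := by rw [mul_inv_cancel_left]
  have h4 : (y * MonoidAlgebra.single (g⁻¹ * h) 1).coeff (g * (g⁻¹ * h)) = y.coeff g := by
    rw [MonoidAlgebra.coeff_mul_single_apply, mul_one, mul_inv_cancel_right]
  rw [← h2, ← h4, ← h3]

omit [Fintype ι] in
include hS in
theorem fl_toFn {y : MonoidAlgebra ℚ G} (hy : y * T.eS ℚ = (T.cS : ℚ) • y) :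
    fl x₀ (toFn x₀ y) = y := by
  apply ma_ext
  intro g
  rw [fl_coeff, T.toFn_smul hS hy]

end Fn

section Row

variable {G : Type u} [Group G] [Fintype G] {ι : Type v} [Fintype ι] (T : Tr G ι)

/-- The elements with one component, a column times a given row. -/
noncomputable def fldL (W : WD ℚ G) (i : Fin W.m) (r : Fin (W.r i) → W.D i) :
    (Fin (W.r i) → W.D i) →ₗ[ℚ] MonoidAlgebra ℚ G where
  toFun w := W.φ.symm (Pi.single i (Matrix.vecMulVec w r))
  map_add' a b := by
    rw [← map_add, ← Pi.single_add, Matrix.add_vecMulVec]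
  map_smul' s a := by
    rw [← map_smul, ← Pi.single_smul, Matrix.smul_vecMulVec]
    rfl

theorem fldL_self (W : WD ℚ G) (i : Fin W.m) (r w : Fin (W.r i) → W.D i) :
    W.comp i (fldL W i r w) = Matrix.vecMulVec w r := by
  rw [WD.comp_apply]
  show W.φ (W.φ.symm _) i = _
  rw [AlgEquiv.apply_symm_apply, Pi.single_eq_same]

theorem fldL_ne (W : WD ℚ G) {i j : Fin W.m} (hij : j ≠ i) (r w : Fin (W.r i) → W.D i) :
    W.comp j (fldL W i r w) = 0 := by
  rw [WD.comp_apply]
  show W.φ (W.φ.symm _) j = _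
  rw [AlgEquiv.apply_symm_apply, Pi.single_eq_of_ne hij]

theorem fldL_mul (W : WD ℚ G) (i : Fin W.m) (r w : Fin (W.r i) → W.D i) (y : MonoidAlgebra ℚ G) :
    fldL W i r w * y = fldL W i (Matrix.vecMul r (W.comp i y)) w := by
  apply W.comp_inj
  intro j
  rw [map_mul]
  by_cases hj : j = i
  · subst hj
    rw [fldL_self, fldL_self, Matrix.vecMulVec_mul]
  · rw [fldL_ne W hj, fldL_ne W hj, zero_mul]

theorem mul_fldL (W : WD ℚ G) (i : Fin W.m) (r w : Fin (W.r i) → W.D i) (y : MonoidAlgebra ℚ G) :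
    y * fldL W i r w = fldL W i r (Matrix.mulVec (W.comp i y) w) := by
  apply W.comp_inj
  intro j
  rw [map_mul]
  by_cases hj : j = i
  · subst hj
    rw [fldL_self, fldL_self, Matrix.mul_vecMulVec]
  · rw [fldL_ne W hj, fldL_ne W hj, mul_zero]

/-- A row which is annihilated by the vector of a half system gives an odd stable subspace. -/
theorem sml_of_row {X : Type w} [MulAction G X] [MulAction.IsPretransitive G X] [Fintype X]
    {x₀ : X} (hS : T.S = MulAction.stabilizer G x₀) {σ : X → X} (hσ : ∀ x, T.c • x = σ x)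
    {A : Finset X} (hA : ∀ x, x ∈ A ↔ T.c • x ∉ A) (W : WD ℚ G) {i : Fin W.m} (hi : T.Odd W i)
    (hr : W.r i * finrank ℚ (W.D i) ≤ 2) {r : Fin (W.r i) → W.D i} (hr0 : r ≠ 0)
    (hrS : r ∈ T.fixR W i) (v : ι → Bool) (hv : ∀ j, v j = true ↔ (T.t j)⁻¹ • x₀ ∈ A)
    (hrv : Matrix.vecMul r (W.comp i (T.el ℚ v)) = 0) : GZ.Sml G σ A := by
  classical
  have hk : (T.cS : ℚ) ≠ 0 := by
    have := T.cS_pos
    positivity
  have hvv : v = fun j => decide ((T.t j)⁻¹ • x₀ ∈ A) := by
    funext j
    by_cases h : (T.t j)⁻¹ • x₀ ∈ A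
    · rw [(hv j).2 h, decide_eq_true h]
    · have h1 : v j ≠ true := fun h2 => h ((hv j).1 h2)
      rw [decide_eq_false h]
      simpa using h1
  have hinv : ∀ w, fldL W i r w * T.eS ℚ = (T.cS : ℚ) • fldL W i r w := by
    intro w
    rw [fldL_mul, (T.fixR_iff hk W i r).1 hrS]
    apply W.comp_inj
    intro j
    rw [map_smul]
    by_cases hj : j = i
    · subst hj
      rw [fldL_self, fldL_self, Matrix.vecMulVec_smul]
    · rw [fldL_ne W hj, fldL_ne W hj, smul_zero]
  have hodd : ∀ w, fldL W i r w * T.cc ℚ = -fldL W i r w := by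
    intro w
    have h1 : W.comp i (T.cc ℚ) = -1 := hi
    rw [fldL_mul, h1]
    apply W.comp_inj
    intro j
    rw [map_neg]
    by_cases hj : j = i
    · subst hj
      rw [fldL_self, fldL_self, Matrix.vecMul_neg, Matrix.vecMul_one, Matrix.vecMulVec_neg]
    · rw [fldL_ne W hj, fldL_ne W hj, neg_zero]
  have hzero : ∀ w, fldL W i r w * T.el ℚ v = 0 := by
    intro w
    rw [fldL_mul, hrv]
    apply W.comp_inj
    intro j
    rw [map_zero]
    by_cases hj : j = i
    · subst hj
      rw [fldL_self, Matrix.vecMulVec_zero]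
    · rw [fldL_ne W hj]
  have hfodd : ∀ w x, toFn x₀ (fldL W i r w) (T.c • x) = -toFn x₀ (fldL W i r w) x := by
    intro w x
    obtain ⟨g, rfl⟩ := MulAction.exists_smul_eq G x₀ x
    rw [← mul_smul, T.toFn_smul hS (hinv w), T.toFn_smul hS (hinv w), ← T.cen]
    rw [← T.mul_cc_coeff, hodd]
    rfl
  refine ⟨LinearMap.range ((toFn x₀).comp (fldL W i r)), ?_, ?_, ?_, ?_, ?_⟩
  · intro h
    rw [LinearMap.range_eq_bot] at h
    have i0 : Fin (W.r i) := ⟨0, Nat.pos_of_ne_zero (NeZero.ne (W.r i))⟩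
    have h1 : toFn x₀ (fldL W i r (fun _ => 1)) = 0 := LinearMap.congr_fun h (fun _ => 1)
    have h2 := T.fl_toFn hS (hinv (fun _ => 1))
    rw [h1] at h2
    have h3 : (fl x₀ (0 : X → ℚ) : MonoidAlgebra ℚ G) = 0 := by
      apply ma_ext
      intro g
      rw [fl_coeff]
      rfl
    rw [h3] at h2
    have h4 := fldL_self W i r (fun _ => 1)
    rw [← h2, map_zero] at h4
    apply hr0
    funext b
    have h5 := congrFun (congrFun h4 i0) b
    rw [Matrix.vecMulVec_apply, one_mul] at h5
    exact h5.symm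
  · refine (LinearMap.finrank_range_le _).trans ?_
    rw [TS.Bas_finrank W i]
    exact hr
  · rintro f ⟨w, rfl⟩ x
    rw [← hσ]
    exact hfodd w x
  · rintro g f ⟨w, rfl⟩
    refine ⟨Matrix.mulVec (W.comp i (MonoidAlgebra.single g⁻¹ 1)) w, ?_⟩
    funext x
    show toFn x₀ (fldL W i r _) x = toFn x₀ (fldL W i r w) (g • x)
    obtain ⟨h, rfl⟩ := MulAction.exists_smul_eq G x₀ x
    rw [← mul_fldL, ← mul_smul, T.toFn_smul hS (hinv w), T.toFn_smul hS]
    · rw [MonoidAlgebra.coeff_single_mul_apply, one_mul, inv_inv]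
    · rw [mul_assoc, hinv w, mul_smul_comm]
  · rintro f ⟨w, rfl⟩
    have h1 := T.fl_mul_el hS (hfodd w) hA 1
    rw [T.fl_toFn hS (hinv w), ← hvv, hzero w] at h1
    simp only [one_smul] at h1
    exact h1.symm

end Row

end Tr

/-- Reduction of the exotic CM types to the components of the group algebra. -/
theorem fldX.{z} {K : Type z} [Field K] [NumberField K] [IsCMField K] {n : ℕ}
    (hK : finrank ℚ K = 2 * n) (x₀ : K →+* ℂ) :
    ∃ (ι : Type) (_ : Fintype ι) (T : Tr (GG K) ι), Fintype.card ι = n ∧ T.c = conjG K ∧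
      T.S = MulAction.stabilizer (GG K) x₀ ∧
      (∀ g : GG K, (∀ h : GG K, h⁻¹ * g * h ∈ T.S) → g = 1) ∧
      ∀ W : WD ℚ (GG K),
      {Φ : Finset (K →+* ℂ) | IsCMType Φ ∧ ¬ HodgeRingGeneratedByDivisors Φ}.ncard ≤
        {A : Finset (K →+* ℂ) | IsCMType A ∧ GZ.Sml (GG K)
          (ComplexEmbedding.conjugate : (K →+* ℂ) → (K →+* ℂ)) A}.ncard +
        (⋃ i ∈ {i : Fin W.m | T.Odd W i ∧ 3 ≤ W.r i * finrank ℚ (W.D i)}, T.badI W i).ncard := by
  classical
  have hcs : conjG K ∉ MulAction.stabilizer (GG K) x₀ := by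
    rw [MulAction.mem_stabilizer_iff, conjG_smul]
    exact conj_ne x₀
  have hne : conjG K ≠ 1 := by
    intro h
    apply hcs
    rw [h]
    exact Subgroup.one_mem _
  have hcen : ∀ g : GG K, g * conjG K = conjG K * g := fun g => (GZ.conjG_comm g).symm
  let T : Tr (GG K) _ := fldTr (conjG K) GZ.conjG_sq hcen (MulAction.stabilizer (GG K) x₀) hne hcs
  let fι : Fintype (GG K ⧸ fldS (conjG K) GZ.conjG_sq hcen (MulAction.stabilizer (GG K) x₀)) :=
    Fintype.ofFinite _
  have hTc : ∀ x : K →+* ℂ, T.c • x = ComplexEmbedding.conjugate x := fun x => conjG_smul x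
  have hS : T.S = MulAction.stabilizer (GG K) x₀ := rfl
  refine ⟨_, fι, T, ?_, rfl, rfl, ?_, ?_⟩
  · have h1 := T.card_eq
    have h2 : T.bl = 1 := rfl
    have h3 := MulAction.card_orbit_mul_card_stabilizer_eq_card_group (GG K) x₀
    have h4 := NumberField.Embeddings.card K ℂ
    have h5 : T.cS = Fintype.card (MulAction.stabilizer (GG K) x₀) := Nat.card_eq_fintype_card
    have h6 : Fintype.card (MulAction.orbit (GG K) x₀) = 2 * n := by
      rw [← hK, ← h4]
      refine Fintype.card_congr ((Equiv.setCongr ?_).trans (Equiv.Set.univ _))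
      exact MulAction.orbit_eq_univ (GG K) x₀
    rw [h6, ← h5] at h3
    rw [h2, one_mul, ← h3] at h1
    have h7 := T.cS_pos
    have h8 : T.cS * (2 * n) = T.cS * (2 * Fintype.card
        (GG K ⧸ fldS (conjG K) GZ.conjG_sq hcen (MulAction.stabilizer (GG K) x₀))) := by
      rw [mul_comm, h1]
      ring
    have h9 := Nat.eq_of_mul_eq_mul_left h7 h8
    omega
  · intro g hg
    apply FaithfulSMul.eq_of_smul_eq_smul (M := GG K) (α := K →+* ℂ)
    intro φ
    obtain ⟨h, rfl⟩ := exists_smul_eq x₀ φ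
    have h1 := hg h
    rw [hS, MulAction.mem_stabilizer_iff, mul_smul, mul_smul, inv_smul_eq_iff] at h1
    rw [h1, one_smul]
  · intro W
    have key : {Φ : Finset (K →+* ℂ) | IsCMType Φ ∧ ¬ HodgeRingGeneratedByDivisors Φ} ⊆
        {A : Finset (K →+* ℂ) | IsCMType A ∧ GZ.Sml (GG K)
          (ComplexEmbedding.conjugate : (K →+* ℂ) → (K →+* ℂ)) A} ∪
        {A : Finset (K →+* ℂ) | IsCMType A ∧ (fun i => decide ((T.t i)⁻¹ • x₀ ∈ A)) ∈
          (⋃ i ∈ {i : Fin W.m | T.Odd W i ∧ 3 ≤ W.r i * finrank ℚ (W.D i)}, T.badI W i)} := by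
      intro Φ hΦ
      obtain ⟨hCM, f, ⟨hf1, hf2⟩, hf0⟩ := bad_subset_lat hΦ
      have hCM' : ∀ x, x ∈ Φ ↔ T.c • x ∉ Φ := by
        intro x
        rw [hTc]
        exact hCM x
      have hodd : ∀ x, ((f (T.c • x) : ℤ) : ℚ) = -((f x : ℤ) : ℚ) := by
        intro x
        rw [hTc, hf1]
        push_cast
        rfl
      have hv : (fun i => decide ((T.t i)⁻¹ • x₀ ∈ Φ)) ∈ T.bad := by
        refine ⟨Tr.fl x₀ fun x => ((f x : ℤ) : ℚ), T.fl_odd hodd, T.fl_inv hS _, ?_, ?_⟩
        · intro h0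
          apply hf0
          funext x
          obtain ⟨g, rfl⟩ := exists_smul_eq x₀ x
          have h1 := Tr.fl_coeff (x₀ := x₀) (fun x => ((f x : ℤ) : ℚ)) g
          rw [h0] at h1
          have h2 : ((f (g • x₀) : ℤ) : ℚ) = 0 := h1.symm
          exact_mod_cast h2
        · apply ma_ext
          intro g
          rw [T.fl_mul_el hS hodd hCM' g]
          show _ = (0 : ℚ)
          rw [← Int.cast_sum]
          have h5 := hf2 g⁻¹
          have h6 : ∑ x, f x * sg Φ (g⁻¹ • x) = ∑ x, f (g • x) * sg Φ x := by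
            rw [← Equiv.sum_comp (MulAction.toPerm g)]
            refine sum_congr rfl fun x _ => ?_
            rw [MulAction.toPerm_apply, inv_smul_smul]
          have h7 : ∑ x, f (g • x) * sg Φ x = 2 * ∑ x ∈ Φ, f (g • x) := by
            rw [← Finset.sum_add_sum_compl Φ, two_mul]
            congr 1
            · refine sum_congr rfl fun x hx => ?_
              rw [sg_mem hx, mul_one]
            · refine Finset.sum_nbij' (fun x => ComplexEmbedding.conjugate x)
                (fun x => ComplexEmbedding.conjugate x) ?_ ?_ ?_ ?_ ?_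
              · intro x hx
                rw [mem_compl] at hx
                by_contra h
                exact hx ((hCM x).2 h)
              · intro x hx
                rw [mem_compl]
                exact (hCM x).1 hx
              · intro x _
                exact conj_conj x
              · intro x _
                exact conj_conj x
              · intro x hx
                rw [mem_compl] at hx
                rw [sg_notMem hx, hcgK, hf1]
                ring
          rw [h6, h7] at h5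
          have h8 : ∑ x ∈ Φ, f (g • x) = 0 := by omega
          rw [h8, Int.cast_zero]
      have h1 := T.bad_subset W hv
      simp only [Set.mem_iUnion] at h1
      obtain ⟨i, hi, hv2⟩ := h1
      by_cases hr : 3 ≤ W.r i * finrank ℚ (W.D i)
      · right
        refine ⟨hΦ.1, ?_⟩
        simp only [Set.mem_iUnion]
        exact ⟨i, ⟨hi, hr⟩, hv2⟩
      · left
        refine ⟨hΦ.1, ?_⟩
        rw [T.mem_badI_iff] at hv2
        obtain ⟨r, hr0, hrS, hrv⟩ := hv2
        exact T.sml_of_row hS hTc hCM' W hi (by omega) hr0 hrS _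
          (fun j => by simp only [decide_eq_true_eq]) hrv
    refine (Set.ncard_le_ncard key (Set.toFinite _)).trans ((Set.ncard_union_le _ _).trans ?_)
    refine Nat.add_le_add_left ?_ _
    refine Set.ncard_le_ncard_of_injOn (fun A i => decide ((T.t i)⁻¹ • x₀ ∈ A)) ?_ ?_
      (Set.toFinite _)
    · intro A hA
      exact hA.2
    · intro Φ hΦ Φ' hΦ' heq
      have hCM := hΦ.1
      have hCM' := hΦ'.1
      have h1 : ∀ i, ((T.t i)⁻¹ • x₀ ∈ Φ ↔ (T.t i)⁻¹ • x₀ ∈ Φ') := by
        intro i
        have h2 := congrFun heq i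
        simp only [decide_eq_decide] at h2
        exact h2
      ext x
      rcases T.fld_cases hS x with hh | hh
      · rw [← hh]
        exact h1 _
      · rw [hTc] at hh
        rw [hCM x, hCM' x, ← hh, h1]

end Pool.MP43e44c.GX
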