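import Mathlib

/-!
Numerical assembly for the components on which `S` acts nontrivially.
-/

set_option autoImplicit false

open Finset

namespace Pool.MP43e44c.GX

/-- The alternatives for one component, in terms of its dimension `a`, the dimension `b` of its part of
the space of functions, the degree `f` of its center; `B` is the proportion of the bad sign vectors. -/
def BndX (C c ε : ℝ) (n a b f : ℕ) (B : ℝ) : Prop :=
  B ≤ C * (n : ℝ) ^ (-(1 + c)) ∨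
  ((f : ℝ) ≤ C * Real.log n ∧ a ≤ 2 * b ∧
    B ≤ C * (Real.sqrt (a * f) * Real.log (6 * Real.sqrt (a * f)) / n) ^ (3 / 2 : ℝ)) ∨
  (a ≤ 2 * b ∧ (n : ℝ) ^ ε ≤ Real.sqrt a ∧ B ≤ C * (Real.sqrt a * Real.log (6 * Real.sqrt a) / n)) ∨
  ((n : ℝ) ≤ f * (Real.log n) ^ 40 ∧ B ≤ C * (n : ℝ) ^ (-(1 / 4) : ℝ))

theorem AsmX_ev1 (D r s : ℝ) (hs : 0 < s) :
    ∀ᶠ n : ℕ in Filter.atTop, D * (Real.log n) ^ r ≤ (n : ℝ) ^ s := by
  have h := ((isLittleO_log_rpow_rpow_atTop r hs).const_mul_left D).def one_pos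
  have h2 := tendsto_natCast_atTop_atTop.eventually h
  filter_upwards [h2] with n hn
  calc D * (Real.log n) ^ r ≤ ‖D * (Real.log n) ^ r‖ := le_abs_self _
    _ ≤ 1 * ‖(n : ℝ) ^ s‖ := hn
    _ = (n : ℝ) ^ s := by rw [one_mul, Real.norm_of_nonneg (by positivity)]

theorem AsmX_ev (C ε : ℝ) (hε : 0 < ε) : ∃ n₀ : ℕ, 9 ≤ n₀ ∧ ∀ n : ℕ, n₀ ≤ n →
    C * Real.log n ≤ n ∧
    2 * Real.sqrt (2 * C) * (Real.log n) ^ (3 / 2 : ℝ) ≤ (n : ℝ) ^ (1 / 12 : ℝ) ∧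
    Real.log n ≤ (n : ℝ) ^ (ε / 2) ∧ (Real.log n) ^ 40 ≤ (n : ℝ) ^ (1 / 8 : ℝ) := by
  have e1 := AsmX_ev1 C 1 1 one_pos
  have e2 := AsmX_ev1 (2 * Real.sqrt (2 * C)) (3 / 2) (1 / 12) (by norm_num)
  have e3 := AsmX_ev1 1 1 (ε / 2) (by linarith)
  have e4 := AsmX_ev1 1 ((40 : ℕ) : ℝ) (1 / 8) (by norm_num)
  obtain ⟨N, hN⟩ := Filter.eventually_atTop.mp (((e1.and e2).and e3).and e4)
  refine ⟨max N 9, le_max_right _ _, fun n hn => ?_⟩
  obtain ⟨⟨⟨h1, h2⟩, h3⟩, h4⟩ := hN n (le_trans (le_max_left _ _) hn)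
  rw [Real.rpow_one, Real.rpow_one] at h1
  rw [Real.rpow_one, one_mul] at h3
  rw [Real.rpow_natCast, one_mul] at h4
  exact ⟨h1, h2, h3, h4⟩

/-- `log (6 x) ≤ 2 log n` if `6 x ≤ n ^ 2`. -/
theorem AsmX_log {n : ℕ} (hn : 1 ≤ n) {x : ℝ} (hx : 0 ≤ x) (h : 6 * x ≤ (n : ℝ) ^ 2) :
    Real.log (6 * x) ≤ 2 * Real.log n := by
  have hn1 : (1 : ℝ) ≤ n := by exact_mod_cast hn
  rcases hx.eq_or_lt with h0 | h0
  · rw [← h0, mul_zero, Real.log_zero]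
    have := Real.log_nonneg hn1
    linarith
  · have : Real.log (6 * x) ≤ Real.log ((n : ℝ) ^ 2) := Real.log_le_log (by linarith) h
    rw [Real.log_pow] at this
    exact_mod_cast this

/-- `√m log (6 √m) ≥ 0` for a natural number `m`. -/
theorem AsmX_nonneg (m : ℕ) : 0 ≤ Real.sqrt m * Real.log (6 * Real.sqrt m) := by
  rcases Nat.eq_zero_or_pos m with h | h
  · subst h
    simp
  · have h1 : (1 : ℝ) ≤ Real.sqrt m := by
      rw [show (1 : ℝ) = Real.sqrt 1 by simp]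
      exact Real.sqrt_le_sqrt (by exact_mod_cast h)
    exact mul_nonneg (by linarith) (Real.log_nonneg (by linarith))

/-- The second alternative. -/
theorem AsmX_alt2 {C : ℝ} (hC : 0 < C) {n a b f : ℕ} {B : ℝ} (hn : 9 ≤ n) (hbn : b ≤ n) (hb : 1 ≤ b)
    (h1 : C * Real.log n ≤ n)
    (h2 : 2 * Real.sqrt (2 * C) * (Real.log n) ^ (3 / 2 : ℝ) ≤ (n : ℝ) ^ (1 / 12 : ℝ))
    (hf : (f : ℝ) ≤ C * Real.log n) (ha : a ≤ 2 * b)
    (hB : B ≤ C * (Real.sqrt (a * f) * Real.log (6 * Real.sqrt (a * f)) / n) ^ (3 / 2 : ℝ)) :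
    B ≤ C * ((b : ℝ) / n * (n : ℝ) ^ (-(1 / 8) : ℝ)) := by
  have hn9 : (9 : ℝ) ≤ n := by exact_mod_cast hn
  have hn0 : (0 : ℝ) < n := by linarith
  have hL : 0 ≤ Real.log n := Real.log_nonneg (by linarith)
  have hb1 : (1 : ℝ) ≤ b := by exact_mod_cast hb
  have hbn' : (b : ℝ) ≤ n := by exact_mod_cast hbn
  have ha' : (a : ℝ) ≤ 2 * b := by exact_mod_cast ha
  have hf0 : (0 : ℝ) ≤ f := Nat.cast_nonneg f
  have ha0 : (0 : ℝ) ≤ a := Nat.cast_nonneg a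
  have hcast : (a : ℝ) * f = ((a * f : ℕ) : ℝ) := by push_cast; ring
  set x : ℝ := Real.sqrt (a * f) with hx
  have hx0 : 0 ≤ x := Real.sqrt_nonneg _
  -- bound of x
  have haf : (a : ℝ) * f ≤ b * (2 * C) * Real.log n := by
    calc (a : ℝ) * f ≤ (2 * b) * (C * Real.log n) :=
          mul_le_mul ha' hf hf0 (by linarith)
      _ = b * (2 * C) * Real.log n := by ring
  have hxle : x ≤ Real.sqrt b * Real.sqrt (2 * C) * Real.sqrt (Real.log n) := by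
    rw [← Real.sqrt_mul (by linarith), ← Real.sqrt_mul (by positivity)]
    exact Real.sqrt_le_sqrt haf
  have hx6 : 6 * x ≤ (n : ℝ) ^ 2 := by
    have hsq : x ^ 2 = (a : ℝ) * f := Real.sq_sqrt (by positivity)
    have h3 : (a : ℝ) * f ≤ 2 * (n : ℝ) ^ 2 := by
      calc (a : ℝ) * f ≤ (2 * b) * (C * Real.log n) := mul_le_mul ha' hf hf0 (by linarith)
        _ ≤ (2 * n) * n := mul_le_mul (by linarith) h1 (by positivity) (by linarith)
        _ = 2 * (n : ℝ) ^ 2 := by ring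
    have h4 : (6 * x) ^ 2 ≤ ((n : ℝ) ^ 2) ^ 2 := by
      have h5 : (81 : ℝ) ≤ (n : ℝ) ^ 2 := by nlinarith
      nlinarith [sq_nonneg (n : ℝ)]
    exact (sq_le_sq₀ (by positivity) (by positivity)).mp h4
  have hlog : Real.log (6 * x) ≤ 2 * Real.log n := AsmX_log (by omega) hx0 hx6
  have hLpos : 0 < Real.log n := Real.log_pos (by linarith)
  have hy0 : 0 ≤ x * Real.log (6 * x) / n := by
    have := AsmX_nonneg (a * f)
    rw [← hcast, ← hx] at this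
    positivity
  have hy : x * Real.log (6 * x) / n ≤ (b : ℝ) ^ (1 / 2 : ℝ) * (n : ℝ) ^ (-(11 / 12) : ℝ) := by
    have e1 : x * Real.log (6 * x) ≤
        (Real.sqrt b * Real.sqrt (2 * C) * Real.sqrt (Real.log n)) * (2 * Real.log n) := by
      calc x * Real.log (6 * x) ≤ x * (2 * Real.log n) := mul_le_mul_of_nonneg_left hlog hx0
        _ ≤ _ := mul_le_mul_of_nonneg_right hxle (by positivity)
    have e2 : (Real.sqrt b * Real.sqrt (2 * C) * Real.sqrt (Real.log n)) * (2 * Real.log n) =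
        Real.sqrt b * (2 * Real.sqrt (2 * C) * (Real.log n) ^ (3 / 2 : ℝ)) := by
      have : (Real.log n) ^ (3 / 2 : ℝ) = Real.sqrt (Real.log n) * Real.log n := by
        rw [Real.sqrt_eq_rpow, show (3 / 2 : ℝ) = 1 / 2 + 1 by norm_num, Real.rpow_add hLpos,
          Real.rpow_one]
      rw [this]
      ring
    have e3 : (n : ℝ) ^ (-(11 / 12) : ℝ) = (n : ℝ) ^ (1 / 12 : ℝ) / n := by
      rw [show (-(11 / 12) : ℝ) = 1 / 12 - 1 by norm_num, Real.rpow_sub hn0, Real.rpow_one]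
    rw [e3, ← Real.sqrt_eq_rpow, ← mul_div_assoc]
    refine div_le_div_of_nonneg_right ?_ hn0.le
    rw [e2] at e1
    exact e1.trans (mul_le_mul_of_nonneg_left h2 (Real.sqrt_nonneg _))
  have hy2 : (x * Real.log (6 * x) / n) ^ (3 / 2 : ℝ) ≤ (b : ℝ) / n * (n : ℝ) ^ (-(1 / 8) : ℝ) := by
    calc (x * Real.log (6 * x) / n) ^ (3 / 2 : ℝ)
        ≤ ((b : ℝ) ^ (1 / 2 : ℝ) * (n : ℝ) ^ (-(11 / 12) : ℝ)) ^ (3 / 2 : ℝ) :=
          Real.rpow_le_rpow hy0 hy (by norm_num)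
      _ = (b : ℝ) ^ (3 / 4 : ℝ) * (n : ℝ) ^ (-(11 / 8) : ℝ) := by
          rw [Real.mul_rpow (by positivity) (by positivity), ← Real.rpow_mul (by linarith),
            ← Real.rpow_mul hn0.le]
          norm_num
      _ ≤ (b : ℝ) ^ (1 : ℝ) * (n : ℝ) ^ (-(9 / 8) : ℝ) :=
          mul_le_mul (Real.rpow_le_rpow_of_exponent_le hb1 (by norm_num))
            (Real.rpow_le_rpow_of_exponent_le (by linarith) (by norm_num)) (by positivity)
            (by positivity)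
      _ = (b : ℝ) / n * (n : ℝ) ^ (-(1 / 8) : ℝ) := by
          rw [Real.rpow_one, show (-(9 / 8) : ℝ) = -(1 / 8) - 1 by norm_num, Real.rpow_sub hn0,
            Real.rpow_one]
          ring
  exact hB.trans (mul_le_mul_of_nonneg_left hy2 hC.le)

/-- The third alternative. -/
theorem AsmX_alt3 {C ε : ℝ} (hC : 0 < C) {n a b : ℕ} {B : ℝ} (hn : 9 ≤ n) (hbn : b ≤ n)
    (h3 : Real.log n ≤ (n : ℝ) ^ (ε / 2)) (ha1 : 1 ≤ a) (ha : a ≤ 2 * b)
    (hae : (n : ℝ) ^ ε ≤ Real.sqrt a)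
    (hB : B ≤ C * (Real.sqrt a * Real.log (6 * Real.sqrt a) / n)) :
    B ≤ 4 * C * ((b : ℝ) / n * (n : ℝ) ^ (-(ε / 2))) := by
  have hn9 : (9 : ℝ) ≤ n := by exact_mod_cast hn
  have hn0 : (0 : ℝ) < n := by linarith
  have hL : 0 ≤ Real.log n := Real.log_nonneg (by linarith)
  have hbn' : (b : ℝ) ≤ n := by exact_mod_cast hbn
  have ha' : (a : ℝ) ≤ 2 * b := by exact_mod_cast ha
  have ha1' : (1 : ℝ) ≤ a := by exact_mod_cast ha1
  have hx0 : 0 < Real.sqrt a := Real.sqrt_pos.mpr (by linarith)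
  have hsq : Real.sqrt a ^ 2 = (a : ℝ) := Real.sq_sqrt (by linarith)
  have hx6 : 6 * Real.sqrt a ≤ (n : ℝ) ^ 2 := by
    have h4 : (6 * Real.sqrt a) ^ 2 ≤ ((n : ℝ) ^ 2) ^ 2 := by
      have h5 : (a : ℝ) ≤ 2 * n := by linarith
      have h6 : (729 : ℝ) ≤ (n : ℝ) ^ 3 := by
        calc (729 : ℝ) = 9 ^ 3 := by norm_num
          _ ≤ (n : ℝ) ^ 3 := pow_le_pow_left₀ (by norm_num) hn9 3
      calc (6 * Real.sqrt a) ^ 2 = 36 * a := by rw [mul_pow, hsq]; norm_num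
        _ ≤ 72 * n := by linarith
        _ ≤ (n : ℝ) ^ 3 * n := mul_le_mul_of_nonneg_right (by linarith) hn0.le
        _ = ((n : ℝ) ^ 2) ^ 2 := by ring
    exact (sq_le_sq₀ (by positivity) (by positivity)).mp h4
  have hlog : Real.log (6 * Real.sqrt a) ≤ 2 * Real.log n := AsmX_log (by omega) hx0.le hx6
  have hsa : Real.sqrt a ≤ 2 * b * (n : ℝ) ^ (-ε) := by
    rw [Real.rpow_neg hn0.le, ← div_eq_mul_inv, le_div_iff₀ (Real.rpow_pos_of_pos hn0 _)]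
    calc Real.sqrt a * (n : ℝ) ^ ε ≤ Real.sqrt a * Real.sqrt a :=
          mul_le_mul_of_nonneg_left hae hx0.le
      _ = (a : ℝ) := by rw [← sq, hsq]
      _ ≤ 2 * b := ha'
  have e1 : Real.sqrt a * Real.log (6 * Real.sqrt a) ≤
      (2 * b * (n : ℝ) ^ (-ε)) * (2 * (n : ℝ) ^ (ε / 2)) := by
    calc Real.sqrt a * Real.log (6 * Real.sqrt a) ≤ Real.sqrt a * (2 * Real.log n) :=
          mul_le_mul_of_nonneg_left hlog hx0.le
      _ ≤ _ := mul_le_mul hsa (by linarith) (by positivity) (by positivity)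
  have e2 : (2 * b * (n : ℝ) ^ (-ε)) * (2 * (n : ℝ) ^ (ε / 2)) = 4 * (b * (n : ℝ) ^ (-(ε / 2))) := by
    have : (n : ℝ) ^ (-(ε / 2)) = (n : ℝ) ^ (-ε) * (n : ℝ) ^ (ε / 2) := by
      rw [← Real.rpow_add hn0]
      congr 1
      ring
    rw [this]
    ring
  calc B ≤ C * (Real.sqrt a * Real.log (6 * Real.sqrt a) / n) := hB
    _ ≤ C * (4 * (b * (n : ℝ) ^ (-(ε / 2))) / n) := by
        refine mul_le_mul_of_nonneg_left ?_ hC.le
        refine div_le_div_of_nonneg_right ?_ hn0.le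
        rw [← e2]
        exact e1
    _ = 4 * C * ((b : ℝ) / n * (n : ℝ) ^ (-(ε / 2))) := by ring

/-- The fourth alternative. -/
theorem AsmX_alt4 {C : ℝ} (hC : 0 < C) {n b f : ℕ} {B : ℝ} (hn : 9 ≤ n) (hfb : f ≤ b)
    (h4 : (Real.log n) ^ 40 ≤ (n : ℝ) ^ (1 / 8 : ℝ)) (hf : (n : ℝ) ≤ f * (Real.log n) ^ 40)
    (hB : B ≤ C * (n : ℝ) ^ (-(1 / 4) : ℝ)) :
    B ≤ C * ((b : ℝ) / n * (n : ℝ) ^ (-(1 / 8) : ℝ)) := by
  have hn9 : (9 : ℝ) ≤ n := by exact_mod_cast hn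
  have hn0 : (0 : ℝ) < n := by linarith
  have hfb' : (f : ℝ) ≤ b := by exact_mod_cast hfb
  have h1 : 1 ≤ (b : ℝ) / n * (n : ℝ) ^ (1 / 8 : ℝ) := by
    rw [div_mul_eq_mul_div, le_div_iff₀ hn0, one_mul]
    calc (n : ℝ) ≤ f * (Real.log n) ^ 40 := hf
      _ ≤ b * (n : ℝ) ^ (1 / 8 : ℝ) := mul_le_mul hfb' h4 (by positivity) (by positivity)
  calc B ≤ C * (n : ℝ) ^ (-(1 / 4) : ℝ) := hB
    _ ≤ C * (((b : ℝ) / n * (n : ℝ) ^ (1 / 8 : ℝ)) * (n : ℝ) ^ (-(1 / 4) : ℝ)) := by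
        refine mul_le_mul_of_nonneg_left ?_ hC.le
        exact le_mul_of_one_le_left (by positivity) h1
    _ = C * ((b : ℝ) / n * (n : ℝ) ^ (-(1 / 8) : ℝ)) := by
        rw [mul_assoc, ← Real.rpow_add hn0]
        norm_num

/-- The first alternative. -/
theorem AsmX_alt1 {C c : ℝ} (hC : 0 < C) {n b : ℕ} {B : ℝ} (hn : 9 ≤ n) (hb : 1 ≤ b)
    (hB : B ≤ C * (n : ℝ) ^ (-(1 + c))) :
    B ≤ C * ((b : ℝ) / n * (n : ℝ) ^ (-c)) := by
  have hn9 : (9 : ℝ) ≤ n := by exact_mod_cast hn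
  have hn0 : (0 : ℝ) < n := by linarith
  have hb1 : (1 : ℝ) ≤ b := by exact_mod_cast hb
  calc B ≤ C * (n : ℝ) ^ (-(1 + c)) := hB
    _ = C * (1 / n * (n : ℝ) ^ (-c)) := by
        rw [show -(1 + c) = -c - 1 by ring, Real.rpow_sub hn0, Real.rpow_one]
        ring
    _ ≤ C * ((b : ℝ) / n * (n : ℝ) ^ (-c)) := by
        refine mul_le_mul_of_nonneg_left ?_ hC.le
        refine mul_le_mul_of_nonneg_right ?_ (by positivity)
        exact div_le_div_of_nonneg_right hb1 hn0.le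

/-- PROOF. It is enough to treat `n ≥ n₀` (otherwise `∑ B ≤ card S ≤ ∑ b ≤ n ≤ n₀`).  The first
alternative: at most `n` components (`b ≥ 1`), total `C n ^ (-c)`.  The second: `√(a f) ≤ √(2 b C log n)` and
`log (6 √(a f)) ≤ 2 log n`, so `B ≤ C' (log n) ^ 3 b ^ (3/4) n ^ (-3/2)`, total at most `C' (log n) ^ 3 n ^ (-1/2)` as `b ^ (3/4) ≤ b`.  The third:
`B ≤ C a log n / (n √a) * 2 ≤ 4 C b log n / n ^ (1 + ε)`, total `4 C log n / n ^ ε`.  The fourth: `∑ f ≤ ∑ b ≤ n`, so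
there are at most `(log n) ^ 40` such components, total `C (log n) ^ 40 n ^ (-1/4)`. -/
theorem assembleX {C c ε : ℝ} (hC : 0 < C) (hc : 0 < c) (hε : 0 < ε) :
    ∃ C' c' : ℝ, 0 < C' ∧ 0 < c' ∧ ∀ n : ℕ, 1 ≤ n → ∀ {I : Type} (S : Finset I) (a b f : I → ℕ)
      (B : I → ℝ), (∑ i ∈ S, b i ≤ n) → (∀ i ∈ S, 1 ≤ b i ∧ f i ≤ b i ∧ 1 ≤ a i ∧ 0 ≤ B i ∧ B i ≤ 1 ∧
        BndX C c ε n (a i) (b i) (f i) (B i)) →
      ∑ i ∈ S, B i ≤ C' * (n : ℝ) ^ (-c') := by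
  obtain ⟨n₀, hn₀9, hn₀⟩ := AsmX_ev C ε hε
  set d : ℝ := min c (min (1 / 8) (ε / 2)) with hd
  have hd0 : 0 < d := lt_min hc (lt_min (by norm_num) (by linarith))
  have hdc : d ≤ c := min_le_left _ _
  have hd8 : d ≤ 1 / 8 := (min_le_right _ _).trans (min_le_left _ _)
  have hde : d ≤ ε / 2 := (min_le_right _ _).trans (min_le_right _ _)
  have hn₀0 : (0 : ℝ) < n₀ := by exact_mod_cast (by omega : 0 < n₀)
  have hP : 0 < (n₀ : ℝ) * (n₀ : ℝ) ^ d := by positivity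
  refine ⟨4 * C + (n₀ : ℝ) * (n₀ : ℝ) ^ d, d, by positivity, hd0, ?_⟩
  intro n hn1 I S a b f B hsum hS
  have hn1' : (1 : ℝ) ≤ n := by exact_mod_cast hn1
  have hn0 : (0 : ℝ) < n := by linarith
  have hsum' : ∑ i ∈ S, (b i : ℝ) ≤ n := by exact_mod_cast hsum
  rcases lt_or_ge n n₀ with hlt | hge
  · -- small `n`
    have h1 : ∑ i ∈ S, B i ≤ n₀ := by
      calc ∑ i ∈ S, B i ≤ ∑ i ∈ S, (b i : ℝ) := by
            refine Finset.sum_le_sum fun i hi => ?_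
            obtain ⟨h1, -, -, -, h5, -⟩ := hS i hi
            have : (1 : ℝ) ≤ b i := by exact_mod_cast h1
            linarith
        _ ≤ n := hsum'
        _ ≤ n₀ := by exact_mod_cast hlt.le
    have h2 : (n₀ : ℝ) ≤ ((n₀ : ℝ) * (n₀ : ℝ) ^ d) * (n : ℝ) ^ (-d) := by
      have h3 : (n : ℝ) ^ d ≤ (n₀ : ℝ) ^ d :=
        Real.rpow_le_rpow hn0.le (by exact_mod_cast hlt.le) hd0.le
      have h4 : 1 ≤ (n₀ : ℝ) ^ d * (n : ℝ) ^ (-d) := by
        rw [Real.rpow_neg hn0.le, ← div_eq_mul_inv, le_div_iff₀ (Real.rpow_pos_of_pos hn0 _), one_mul]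
        exact h3
      rw [mul_assoc]
      exact le_mul_of_one_le_right hn₀0.le h4
    have h3 : 0 ≤ 4 * C * (n : ℝ) ^ (-d) := by positivity
    calc ∑ i ∈ S, B i ≤ n₀ := h1
      _ ≤ ((n₀ : ℝ) * (n₀ : ℝ) ^ d) * (n : ℝ) ^ (-d) := h2
      _ ≤ (4 * C + (n₀ : ℝ) * (n₀ : ℝ) ^ d) * (n : ℝ) ^ (-d) := by linarith
  · -- large `n`
    obtain ⟨hv1, hv2, hv3, hv4⟩ := hn₀ n hge
    have hn9 : 9 ≤ n := by omega
    have hpt : ∀ i ∈ S, B i ≤ 4 * C * ((b i : ℝ) / n * (n : ℝ) ^ (-d)) := by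
      intro i hi
      obtain ⟨h1, h2, h3, h4, h5, h6⟩ := hS i hi
      have hbi : b i ≤ n := le_trans (Finset.single_le_sum (f := b) (fun j _ => Nat.zero_le _) hi) hsum
      have key : ∀ e : ℝ, d ≤ e → (b i : ℝ) / n * (n : ℝ) ^ (-e) ≤ (b i : ℝ) / n * (n : ℝ) ^ (-d) :=
        fun e he => mul_le_mul_of_nonneg_left
          (Real.rpow_le_rpow_of_exponent_le hn1' (by linarith)) (by positivity)
      have key4 : ∀ e : ℝ, d ≤ e → C * ((b i : ℝ) / n * (n : ℝ) ^ (-e)) ≤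
          4 * C * ((b i : ℝ) / n * (n : ℝ) ^ (-d)) := fun e he =>
        mul_le_mul (by linarith) (key e he) (by positivity) (by positivity)
      rcases h6 with h6 | ⟨h6, h7, h8⟩ | ⟨h6, h7, h8⟩ | ⟨h6, h7⟩
      · exact (AsmX_alt1 hC hn9 h1 h6).trans (key4 c hdc)
      · exact (AsmX_alt2 hC hn9 hbi h1 hv1 hv2 h6 h7 h8).trans (key4 (1 / 8) hd8)
      · exact (AsmX_alt3 hC hn9 hbi hv3 h3 h6 h7 h8).trans
          (mul_le_mul_of_nonneg_left (key (ε / 2) hde) (by positivity))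
      · exact (AsmX_alt4 hC hn9 h2 hv4 h6 h7).trans (key4 (1 / 8) hd8)
    calc ∑ i ∈ S, B i ≤ ∑ i ∈ S, 4 * C * ((b i : ℝ) / n * (n : ℝ) ^ (-d)) := Finset.sum_le_sum hpt
      _ = 4 * C * (n : ℝ) ^ (-d) * ((∑ i ∈ S, (b i : ℝ)) / n) := by
          rw [Finset.sum_div, Finset.mul_sum]
          refine Finset.sum_congr rfl fun i _ => ?_
          ring
      _ ≤ 4 * C * (n : ℝ) ^ (-d) * 1 := by
          refine mul_le_mul_of_nonneg_left ?_ (by positivity)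
          rw [div_le_one hn0]
          exact hsum'
      _ ≤ (4 * C + (n₀ : ℝ) * (n₀ : ℝ) ^ d) * (n : ℝ) ^ (-d) := by
          have h3 : 0 ≤ ((n₀ : ℝ) * (n₀ : ℝ) ^ d) * (n : ℝ) ^ (-d) := by positivity
          linarith

end Pool.MP43e44c.GX
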