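import Pool.Agent.H.MP_43e44c_ag.GX.Def
import Pool.Agent.H.MP_43e44c_ag.GA.Odd

/-!
Basic properties of the components.
-/

set_option autoImplicit false

open Finset Module

namespace Pool.MP43e44c.GX

open Pool.MP43e44c.OD

universe u v

namespace TS

variable {G : Type u} [Group G] {ι : Type v} (T : TS G ι) [Fintype G]

/-- As in GA/Odd.lean. -/
theorem cc_central (R : Type*) [CommRing R] (x : MonoidAlgebra R G) :
    T.cc R * x = x * T.cc R := by
  unfold cc
  induction x using MonoidAlgebra.induction_linear with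
  | zero => rw [mul_zero, zero_mul]
  | add a b ha hb => rw [mul_add, add_mul, ha, hb]
  | single a r =>
    rw [MonoidAlgebra.single_mul_single, MonoidAlgebra.single_mul_single, T.cen, mul_comm r]

theorem cc_mul_cc (R : Type*) [CommRing R] : T.cc R * T.cc R = 1 := by
  unfold cc
  rw [MonoidAlgebra.single_mul_single, T.sq, mul_one, MonoidAlgebra.one_def]

/-- As in GA/Odd.lean. -/
theorem comp_cc {k : Type} [Field k] (W : WD k G) (i : Fin W.m) :
    W.comp i (T.cc k) = 1 ∨ W.comp i (T.cc k) = -1 := by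
  obtain ⟨ζ, hζ, h⟩ := W.comp_central i (T.cc_central k)
  have h1 : W.comp i (T.cc k) * W.comp i (T.cc k) = 1 := by
    rw [← map_mul, cc_mul_cc, map_one]
  have i0 : Fin (W.r i) := ⟨0, Nat.pos_of_ne_zero (NeZero.ne (W.r i))⟩
  rw [h, Matrix.diagonal_mul_diagonal] at h1
  have h2 : ζ * ζ = 1 := by
    have h3 := congrFun (congrFun h1 i0) i0
    rw [Matrix.diagonal_apply_eq, Matrix.one_apply_eq] at h3
    exact h3
  rcases mul_self_eq_one_iff.mp h2 with h4 | h4
  · left
    rw [h, h4, ← Matrix.diagonal_one]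
  · right
    rw [h, h4, ← Matrix.diagonal_one, ← Matrix.diagonal_neg]

theorem odd_single {k : Type} [Field k] {W : WD k G} {i : Fin W.m} (hi : T.Odd W i) (g : G)
    (a : k) : W.comp i (MonoidAlgebra.single (g * T.c) a)
      = -W.comp i (MonoidAlgebra.single g a) := by
  have h1 : (MonoidAlgebra.single (g * T.c) a : MonoidAlgebra k G)
      = MonoidAlgebra.single g a * T.cc k := by
    unfold cc
    rw [MonoidAlgebra.single_mul_single, mul_one]
  unfold Odd at hi
  rw [h1, map_mul, hi, mul_neg, mul_one]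

/-- As in GA/Odd.lean. -/
theorem odd_of_mem_J {p : ℕ} [Fact p.Prime] (hp2 : p ≠ 2) (W : WD ℚ G) (P : WD (ZMod p) G)
    {i : Fin W.m} (hi : T.Odd W i) {j : Fin P.m} (hj : j ∈ J W P i) : T.Odd P j := by
  rw [mem_J] at hj
  obtain ⟨x, hx, hxj⟩ := hj
  have h1 : toQ x * T.cc ℚ = -toQ x := by
    apply W.comp_inj
    intro l
    rw [map_mul, map_neg]
    by_cases hl : l = i
    · subst hl
      unfold Odd at hi
      rw [hi, mul_neg, mul_one]
    · rw [(W.mul_e_iff i _).mp hx l hl, zero_mul, neg_zero]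
  have hQ : toQ (T.cc ℤ) = T.cc ℚ := by
    apply ma_ext
    intro g
    classical
    unfold cc
    rw [toQ_coeff, MonoidAlgebra.coeff_single, MonoidAlgebra.coeff_single, Finsupp.single_apply,
      Finsupp.single_apply]
    split_ifs <;> simp
  have hP : toP p (T.cc ℤ) = T.cc (ZMod p) := by
    apply ma_ext
    intro g
    classical
    unfold cc
    rw [toP_coeff, MonoidAlgebra.coeff_single, MonoidAlgebra.coeff_single, Finsupp.single_apply,
      Finsupp.single_apply]
    split_ifs <;> simp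
  have h2 : x * T.cc ℤ = -x := by
    apply toQ_inj
    rw [map_mul, hQ, h1, map_neg]
  have h3 := congrArg (fun y => P.comp j (toP p y)) h2
  simp only [map_mul, map_neg, hP] at h3
  rcases T.comp_cc P j with h4 | h4
  · exfalso
    apply hxj
    rw [h4, mul_one] at h3
    have h5 : (2 : ZMod p) • P.comp j (toP p x) = 0 := by
      rw [two_smul]
      nth_rewrite 2 [h3]
      exact add_neg_cancel _
    refine (smul_eq_zero.mp h5).resolve_left ?_
    intro h6
    have h7 : ((2 : ℕ) : ZMod p) = 0 := by exact_mod_cast h6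
    rw [ZMod.natCast_eq_zero_iff] at h7
    exact hp2 ((Nat.prime_dvd_prime_iff_eq Fact.out Nat.prime_two).mp h7)
  · exact h4

theorem cS_pos : 0 < T.cS := by
  unfold cS
  exact Nat.card_pos

theorem cS_dvd : T.cS ∣ Fintype.card G := by
  unfold cS
  rw [← Nat.card_eq_fintype_card]
  exact Subgroup.card_subgroup_dvd_card T.S

/-- `ma_ext`, `MonoidAlgebra.coeff_single_mul_apply`, `eS_coeff_mem`, `eS_coeff_notMem`. -/
theorem single_mul_eS (R : Type*) [CommRing R] {g : G} (hg : g ∈ T.S) :
    MonoidAlgebra.single g 1 * T.eS R = T.eS R := by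
  apply ma_ext
  intro h
  rw [MonoidAlgebra.coeff_single_mul_apply, one_mul]
  by_cases hh : h ∈ T.S
  · rw [T.eS_coeff_mem R hh, T.eS_coeff_mem R (T.S.mul_mem (T.S.inv_mem hg) hh)]
  · rw [T.eS_coeff_notMem R hh, T.eS_coeff_notMem R]
    intro h1
    apply hh
    have h2 := T.S.mul_mem hg h1
    rwa [mul_inv_cancel_left] at h2

theorem eS_mul_single (R : Type*) [CommRing R] {g : G} (hg : g ∈ T.S) :
    T.eS R * MonoidAlgebra.single g 1 = T.eS R := by
  apply ma_ext
  intro h
  have h0 : h = h * g⁻¹ * g := by rw [inv_mul_cancel_right]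
  conv_lhs => rw [h0]
  rw [MonoidAlgebra.coeff_mul_single_apply, mul_one, mul_inv_cancel_right]
  by_cases hh : h ∈ T.S
  · rw [T.eS_coeff_mem R hh, T.eS_coeff_mem R (T.S.mul_mem hh (T.S.inv_mem hg))]
  · rw [T.eS_coeff_notMem R hh, T.eS_coeff_notMem R]
    intro h1
    apply hh
    have h2 := T.S.mul_mem h1 hg
    rwa [inv_mul_cancel_right] at h2

open Classical in
/-- The sum of the elements of the subgroup as a sum. -/
theorem Bas_eS_sum (R : Type*) [CommRing R] :
    T.eS R = ∑ g ∈ univ.filter (fun g : G => g ∈ T.S), MonoidAlgebra.single g (1 : R) := by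
  unfold eS ofFun
  rw [sum_filter]
  refine sum_congr rfl fun g _ => ?_
  show MonoidAlgebra.single g (if g ∈ T.S then (1 : R) else 0) = _
  split_ifs
  · rfl
  · exact MonoidAlgebra.single_zero _

open Classical in
theorem Bas_card : (univ.filter (fun g : G => g ∈ T.S)).card = T.cS := by
  unfold cS
  rw [Nat.card_eq_fintype_card]
  exact (Fintype.card_subtype _).symm

/-- If `x` is invariant under `S` from the right then `x * eS = cS • x`, and conversely if `cS ≠ 0`. -/
theorem mul_eS_iff {k : Type*} [Field k] (hk : (T.cS : k) ≠ 0) (x : MonoidAlgebra k G) :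
    x * T.eS k = (T.cS : k) • x ↔ ∀ g ∈ T.S, x * MonoidAlgebra.single g 1 = x := by
  classical
  constructor
  · intro h g hg
    have h1 : x = (T.cS : k)⁻¹ • (x * T.eS k) := by
      rw [h, smul_smul, inv_mul_cancel₀ hk, one_smul]
    rw [h1, smul_mul_assoc, mul_assoc, T.eS_mul_single k hg]
  · intro h
    rw [T.Bas_eS_sum, mul_sum, sum_congr rfl (g := fun _ => x)]
    · rw [sum_const, T.Bas_card, Nat.cast_smul_eq_nsmul]
    · intro g hg
      exact h g (mem_filter.1 hg).2

theorem toQ_eS : toQ (T.eS ℤ) = T.eS ℚ := by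
  apply ma_ext
  intro g
  rw [toQ_coeff]
  by_cases hg : g ∈ T.S
  · rw [T.eS_coeff_mem ℤ hg, T.eS_coeff_mem ℚ hg, Int.cast_one]
  · rw [T.eS_coeff_notMem ℤ hg, T.eS_coeff_notMem ℚ hg, Int.cast_zero]

theorem toP_eS (p : ℕ) : toP p (T.eS ℤ) = T.eS (ZMod p) := by
  apply ma_ext
  intro g
  rw [toP_coeff]
  by_cases hg : g ∈ T.S
  · rw [T.eS_coeff_mem ℤ hg, T.eS_coeff_mem (ZMod p) hg, Int.cast_one]
  · rw [T.eS_coeff_notMem ℤ hg, T.eS_coeff_notMem (ZMod p) hg, Int.cast_zero]

theorem vecMul_eS_mem {k : Type} [Field k] (W : WD k G) (i : Fin W.m)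
    (u : Fin (W.r i) → W.D i) : Matrix.vecMul u (W.comp i (T.eS k)) ∈ T.fixR W i := by
  intro g hg
  rw [Matrix.vecMul_vecMul, ← map_mul, T.eS_mul_single k hg]

/-- A row times a sum of matrices. -/
theorem Bas_vecMul_sum {D : Type*} [Ring D] {r : ℕ} {κ : Type*} (s : Finset κ)
    (M : κ → Matrix (Fin r) (Fin r) D) (u : Fin r → D) :
    Matrix.vecMul u (∑ a ∈ s, M a) = ∑ a ∈ s, Matrix.vecMul u (M a) := by
  classical
  induction s using Finset.induction_on with
  | empty => simp
  | insert a s ha ih => rw [sum_insert ha, sum_insert ha, Matrix.vecMul_add, ih]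

/-- `u * comp i (eS)` is the sum of the `u * comp i (single g 1)`, `g ∈ S`. -/
theorem fixR_iff {k : Type} [Field k] (hk : (T.cS : k) ≠ 0) (W : WD k G) (i : Fin W.m)
    (u : Fin (W.r i) → W.D i) :
    u ∈ T.fixR W i ↔ Matrix.vecMul u (W.comp i (T.eS k)) = (T.cS : k) • u := by
  classical
  constructor
  · intro h
    rw [T.Bas_eS_sum, map_sum, Bas_vecMul_sum, sum_congr rfl (g := fun _ => u)]
    · rw [sum_const, T.Bas_card, Nat.cast_smul_eq_nsmul]
    · intro g hg
      exact h g (mem_filter.1 hg).2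
  · intro h
    have h1 : u = (T.cS : k)⁻¹ • Matrix.vecMul u (W.comp i (T.eS k)) := by
      rw [h, smul_smul, inv_mul_cancel₀ hk, one_smul]
    rw [h1]
    exact (T.fixR W i).smul_mem _ (T.vecMul_eS_mem W i u)

/-- The rows of `X * Y` are `X a * Y`. -/
theorem mul_comp_eS_iff {k : Type} [Field k] (hk : (T.cS : k) ≠ 0) (W : WD k G) (i : Fin W.m)
    (X : Matrix (Fin (W.r i)) (Fin (W.r i)) (W.D i)) :
    X * W.comp i (T.eS k) = (T.cS : k) • X ↔ ∀ a, X a ∈ T.fixR W i := by
  constructor
  · intro h a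
    rw [T.fixR_iff hk, ← Matrix.mul_apply_eq_vecMul, h]
    rfl
  · intro h
    funext a
    rw [Matrix.mul_apply_eq_vecMul, (T.fixR_iff hk W i (X a)).1 (h a)]
    rfl

/-- Multiplication of a row by an element of the division ring from the left. -/
theorem smul_mem_fixR {k : Type} [Field k] {W : WD k G} {i : Fin W.m} (d : W.D i)
    {u : Fin (W.r i) → W.D i} (hu : u ∈ T.fixR W i) : (fun a => d * u a) ∈ T.fixR W i := by
  intro g hg
  have h1 := hu g hg
  funext b
  have h2 := congrFun h1 b
  simp only [Matrix.vecMul, dotProduct] at h2 ⊢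
  rw [← h2, mul_sum]
  refine sum_congr rfl fun a _ => ?_
  rw [mul_assoc]

/-- `fixR` is a vector space over `D i` (multiplication from the left). -/
theorem dvd_be {k : Type} [Field k] (W : WD k G) (i : Fin W.m) :
    finrank k (W.D i) ∣ T.be W i := by
  let F : Submodule (W.D i) (Fin (W.r i) → W.D i) :=
    { carrier := {u | u ∈ T.fixR W i}
      zero_mem' := (T.fixR W i).zero_mem
      add_mem' := fun {a b} ha hb => (T.fixR W i).add_mem ha hb
      smul_mem' := fun d u hu => T.smul_mem_fixR d hu }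
  let E : T.fixR W i ≃ₗ[k] F :=
    { toFun := fun x => ⟨x.1, x.2⟩
      invFun := fun x => ⟨x.1, x.2⟩
      map_add' := fun x y => rfl
      map_smul' := fun r x => rfl
      left_inv := fun x => rfl
      right_inv := fun x => rfl }
  unfold be
  rw [E.finrank_eq]
  exact ⟨_, (Module.finrank_mul_finrank k (W.D i) F).symm⟩

theorem Bas_finrank {k : Type} [Field k] (W : WD k G) (i : Fin W.m) :
    finrank k (Fin (W.r i) → W.D i) = W.r i * finrank k (W.D i) := by
  rw [Module.finrank_pi_fintype, sum_const, card_univ, Fintype.card_fin, smul_eq_mul]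

theorem be_le {k : Type} [Field k] (W : WD k G) (i : Fin W.m) :
    T.be W i ≤ W.r i * finrank k (W.D i) := by
  unfold be
  rw [← Bas_finrank W i]
  exact Submodule.finrank_le _

theorem bb_le {k : Type} [Field k] (W : WD k G) (i : Fin W.m) : T.bb W i ≤ W.a i := by
  unfold bb WD.a
  rw [pow_two, mul_assoc]
  exact Nat.mul_le_mul_left _ (T.be_le W i)

/-- Both say that `fixR` is the whole space. -/
theorem bb_eq_iff {k : Type} [Field k] (W : WD k G) (i : Fin W.m) :
    T.bb W i = W.a i ↔ T.Full W i := by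
  have hr : 0 < W.r i := Nat.pos_of_ne_zero (NeZero.ne (W.r i))
  constructor
  · intro h
    unfold bb WD.a at h
    rw [pow_two, mul_assoc] at h
    have h1 : T.be W i = W.r i * finrank k (W.D i) := Nat.eq_of_mul_eq_mul_left hr h
    unfold be at h1
    rw [← Bas_finrank W i] at h1
    have h2 : T.fixR W i = ⊤ := Submodule.eq_top_of_finrank_eq h1
    intro g hg
    funext a
    have h3 : (Pi.single a 1 : Fin (W.r i) → W.D i) ∈ T.fixR W i := by
      rw [h2]
      trivial
    have h4 := h3 g hg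
    rw [Matrix.single_one_vecMul] at h4
    rw [Matrix.row] at h4
    rw [h4]
    funext b
    rw [Matrix.one_eq_pi_single, Pi.single_comm]
  · intro h
    have h2 : T.fixR W i = ⊤ := by
      rw [eq_top_iff]
      intro u _ g hg
      rw [h g hg, Matrix.vecMul_one]
    unfold bb WD.a be
    rw [h2, finrank_top, Bas_finrank W i, pow_two, mul_assoc]

variable [Fintype ι]

theorem mem_badI_iff (W : WD ℚ G) (i : Fin W.m) (v : ι → Bool) :
    v ∈ T.badI W i ↔ ∃ u : Fin (W.r i) → W.D i, u ≠ 0 ∧ u ∈ T.fixR W i ∧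
      Matrix.vecMul u (W.comp i (T.el ℚ v)) = 0 := by
  have hk : (T.cS : ℚ) ≠ 0 := by
    have := T.cS_pos
    positivity
  constructor
  · rintro ⟨X, hX, hX1, hX2⟩
    have h1 : ∃ a, X a ≠ 0 := by
      by_contra h
      push Not at h
      apply hX
      funext a
      exact h a
    obtain ⟨a, ha⟩ := h1
    refine ⟨X a, ha, (T.mul_comp_eS_iff hk W i X).1 hX1 a, ?_⟩
    rw [← Matrix.mul_apply_eq_vecMul, hX2]
    rfl
  · rintro ⟨u, hu, hu1, hu2⟩
    have i0 : Fin (W.r i) := ⟨0, Nat.pos_of_ne_zero (NeZero.ne (W.r i))⟩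
    refine ⟨fun _ => u, ?_, (T.mul_comp_eS_iff hk W i _).2 fun _ => hu1, ?_⟩
    · intro h
      exact hu (congrFun h i0)
    · funext a
      rw [Matrix.mul_apply_eq_vecMul, hu2]
      rfl

theorem be_pos (W : WD ℚ G) (i : Fin W.m) (h : (T.badI W i).Nonempty) : 0 < T.be W i := by
  obtain ⟨v, hv⟩ := h
  rw [T.mem_badI_iff] at hv
  obtain ⟨u, hu, hu1, -⟩ := hv
  have : Nontrivial (T.fixR W i) := ⟨⟨⟨u, hu1⟩, 0, fun h => hu (congrArg Subtype.val h)⟩⟩
  unfold be
  exact Module.finrank_pos

/-- If `x * cc = - x ≠ 0` then some component of `x` is not zero, and its index is odd. -/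
theorem bad_subset (W : WD ℚ G) : T.bad ⊆ ⋃ i ∈ {i : Fin W.m | T.Odd W i}, T.badI W i := by
  rintro v ⟨x, hx, hxS, hx0, hxv⟩
  have h1 : ∃ i, W.comp i x ≠ 0 := by
    by_contra h
    push Not at h
    apply hx0
    apply W.comp_inj
    intro i
    rw [h i, map_zero]
  obtain ⟨i, hi⟩ := h1
  have hodd : T.Odd W i := by
    rcases T.comp_cc W i with h2 | h2
    · exfalso
      apply hi
      have h3 := congrArg (W.comp i) hx
      rw [map_mul, h2, mul_one, map_neg] at h3
      have h4 : (2 : ℚ) • W.comp i x = 0 := by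
        rw [two_smul]
        nth_rewrite 2 [h3]
        exact add_neg_cancel _
      exact (smul_eq_zero.mp h4).resolve_left (by norm_num)
    · exact h2
  simp only [Set.mem_iUnion]
  refine ⟨i, hodd, W.comp i x, hi, ?_, ?_⟩
  · rw [← map_mul, hxS, map_smul]
  · rw [← map_mul, hxv, map_zero]

end TS

end Pool.MP43e44c.GX
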