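import Pool.Agent.H.MP_43e44c_ag.GX.Pri

/-!
The choice of a prime.
-/

set_option autoImplicit false

open Finset

namespace Pool.MP43e44c.GX

namespace TS

theorem BgP_asym (K : ℝ) : ∃ n₀ : ℕ, ∀ n : ℕ, n₀ ≤ n →
    K * Real.log n ^ 6 ≤ Real.sqrt n := by
  have h1 := (isLittleO_log_rpow_rpow_atTop (s := 1 / 2) 6 (by norm_num)).def
    (c := 1 / (|K| + 1)) (by positivity)
  obtain ⟨x₀, hx₀⟩ := Filter.eventually_atTop.1 h1
  refine ⟨max 1 ⌈x₀⌉₊, fun n hn => ?_⟩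
  have hn1 : 1 ≤ n := le_trans (le_max_left _ _) hn
  have hn2 : x₀ ≤ (n : ℝ) := (Nat.le_ceil _).trans (by
    exact_mod_cast le_trans (le_max_right _ _) hn)
  have h2 := hx₀ n hn2
  have hn1r : (1 : ℝ) ≤ n := by exact_mod_cast hn1
  have hl0 : 0 ≤ Real.log n := Real.log_nonneg hn1r
  have h6 : Real.log (n : ℝ) ^ (6 : ℝ) = Real.log n ^ 6 := by
    exact_mod_cast Real.rpow_natCast (Real.log n) 6
  rw [← Real.sqrt_eq_rpow, h6, Real.norm_of_nonneg (by positivity),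
    Real.norm_of_nonneg (Real.sqrt_nonneg _)] at h2
  have hK : K ≤ |K| + 1 := by
    have := le_abs_self K
    linarith
  have hKp : 0 < |K| + 1 := by positivity
  calc K * Real.log n ^ 6 ≤ (|K| + 1) * Real.log n ^ 6 :=
        mul_le_mul_of_nonneg_right hK (by positivity)
    _ ≤ (|K| + 1) * (1 / (|K| + 1) * Real.sqrt n) := mul_le_mul_of_nonneg_left h2 hKp.le
    _ = Real.sqrt n := by field_simp

/-- The prime.  PROOF. `κ = √(a f) ≤ √(2 C n log n)`, so `x = (1/4) √(n / (κ log (6 κ))) ≥ n ^ (1/5)` for large `n`, larger than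
`C₁ (1 + log (2 * card G))`; `exists_prime_ndvd` for `2 * card G` gives `x < p ≤ 4 x`; so
`p ^ 2 κ log (6 κ) ≤ n`. -/
theorem exists_p (C : ℝ) : ∃ n₀ : ℕ, ∀ (n g a f : ℕ), n₀ ≤ n → 1 ≤ g →
    Real.log g ≤ 8 * (Real.log n) ^ 2 → 1 ≤ f → f ≤ a → a ≤ 2 * n → (f : ℝ) ≤ C * Real.log n →
    ∃ p : ℕ, p.Prime ∧ p ≠ 2 ∧ ¬ p ∣ g ∧
      (p : ℝ) ^ 2 * Real.sqrt (a * f) * Real.log (6 * Real.sqrt (a * f)) ≤ n ∧
      1 / (p : ℝ) ≤ 4 * Real.sqrt (Real.sqrt (a * f) * Real.log (6 * Real.sqrt (a * f)) / n) ∧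
      3 / (2 * (p : ℝ)) ≤ 1 := by
  obtain ⟨C₁, hC₁, hpr⟩ := exists_prime_ndvd
  obtain ⟨n₁, hn₁⟩ := BgP_asym (3200 * C₁ ^ 2 * (1 + 2 * |C|))
  refine ⟨max 12 n₁, ?_⟩
  intro n g a f hn hg hlg hf hfa han hfC
  have h12 : 12 ≤ n := le_trans (le_max_left _ _) hn
  have hlarge := hn₁ n (le_trans (le_max_right _ _) hn)
  have h12r : (12 : ℝ) ≤ n := by exact_mod_cast h12
  have hn0 : (0 : ℝ) < n := by linarith
  have hgr : (1 : ℝ) ≤ g := by exact_mod_cast hg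
  have hfr : (1 : ℝ) ≤ f := by exact_mod_cast hf
  have hfar : (f : ℝ) ≤ a := by exact_mod_cast hfa
  have hanr : (a : ℝ) ≤ 2 * n := by exact_mod_cast han
  have har : (1 : ℝ) ≤ a := hfr.trans hfar
  set l := Real.log n with hl
  have hl1 : 1 ≤ l := by
    rw [hl, Real.le_log_iff_exp_le hn0]
    have := Real.exp_one_lt_d9
    linarith
  set k := Real.sqrt (a * f) with hk
  have hk1 : 1 ≤ k := by
    rw [hk]
    exact Real.one_le_sqrt.2 (by nlinarith)
  have hka : k ≤ a := by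
    rw [hk]
    apply Real.sqrt_le_iff.2
    constructor
    · linarith
    · nlinarith
  have hCf : (f : ℝ) ≤ |C| * l := hfC.trans (mul_le_mul_of_nonneg_right (le_abs_self C) (by linarith))
  have hC0 : 0 ≤ |C| := abs_nonneg C
  have hkB : k ≤ Real.sqrt n * ((1 + 2 * |C|) * l) := by
    rw [hk]
    apply Real.sqrt_le_iff.2
    constructor
    · positivity
    · rw [mul_pow, Real.sq_sqrt hn0.le]
      have h1 : (a : ℝ) * f ≤ (2 * n) * (|C| * l) :=
        mul_le_mul hanr hCf (by linarith) (by linarith)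
      have h2 : (1 : ℝ) ≤ (1 + 2 * |C|) * l := by nlinarith
      have h3 : 2 * |C| * l ≤ (1 + 2 * |C|) * l := by nlinarith
      have h4 : 2 * |C| * l ≤ ((1 + 2 * |C|) * l) ^ 2 := by
        nlinarith
      calc (a : ℝ) * f ≤ (2 * n) * (|C| * l) := h1
        _ = n * (2 * |C| * l) := by ring
        _ ≤ n * ((1 + 2 * |C|) * l) ^ 2 := mul_le_mul_of_nonneg_left h4 hn0.le
  have hlog0 : 0 < Real.log (6 * k) := Real.log_pos (by linarith)
  have hlogk : Real.log (6 * k) ≤ 2 * l := by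
    have h1 : 6 * k ≤ (n : ℝ) * n := by nlinarith
    have h2 := Real.log_le_log (by positivity) h1
    rw [Real.log_mul hn0.ne' hn0.ne'] at h2
    linarith
  set D := k * Real.log (6 * k) with hD
  have hD0 : 0 < D := by positivity
  have hDle : D ≤ Real.sqrt n * (2 * (1 + 2 * |C|) * l ^ 2) := by
    calc D ≤ (Real.sqrt n * ((1 + 2 * |C|) * l)) * (2 * l) :=
          mul_le_mul hkB hlogk hlog0.le (by positivity)
      _ = Real.sqrt n * (2 * (1 + 2 * |C|) * l ^ 2) := by ring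
  -- the threshold
  have hT : C₁ * (1 + Real.log ((2 * g : ℕ) : ℝ)) ≤ C₁ * (10 * l ^ 2) := by
    apply mul_le_mul_of_nonneg_left _ hC₁.le
    rw [Nat.cast_mul, Nat.cast_ofNat, Real.log_mul (by norm_num) (by linarith)]
    have h2 : Real.log 2 ≤ 1 := by
      have := Real.log_two_lt_d9
      linarith
    nlinarith
  have hT4 : 4 * (C₁ * (10 * l ^ 2)) ≤ Real.sqrt (n / D) := by
    apply Real.le_sqrt_of_sq_le
    rw [le_div_iff₀ hD0]
    have h1 : (4 * (C₁ * (10 * l ^ 2))) ^ 2 * D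
        ≤ (4 * (C₁ * (10 * l ^ 2))) ^ 2 * (Real.sqrt n * (2 * (1 + 2 * |C|) * l ^ 2)) :=
      mul_le_mul_of_nonneg_left hDle (by positivity)
    have h2 : (4 * (C₁ * (10 * l ^ 2))) ^ 2 * (Real.sqrt n * (2 * (1 + 2 * |C|) * l ^ 2))
        = (3200 * C₁ ^ 2 * (1 + 2 * |C|) * l ^ 6) * Real.sqrt n := by ring
    have h3 : (3200 * C₁ ^ 2 * (1 + 2 * |C|) * l ^ 6) * Real.sqrt n
        ≤ Real.sqrt n * Real.sqrt n :=
      mul_le_mul_of_nonneg_right hlarge (Real.sqrt_nonneg _)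
    rw [Real.mul_self_sqrt hn0.le] at h3
    linarith
  obtain ⟨p, hp, hxp, hpx, hpn⟩ := hpr (2 * g) (Real.sqrt (n / D) / 4) (by omega) (by linarith)
  have hp2 : p ≠ 2 := by
    rintro rfl
    exact hpn (dvd_mul_right 2 g)
  have hpg : ¬ p ∣ g := fun h => hpn (h.mul_left 2)
  have hp3 : 3 ≤ p := by
    have := hp.two_le
    omega
  have hp3r : (3 : ℝ) ≤ p := by exact_mod_cast hp3
  have hs0 : 0 < Real.sqrt (n / D) := Real.sqrt_pos.2 (by positivity)
  refine ⟨p, hp, hp2, hpg, ?_, ?_, ?_⟩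
  · have h1 : (p : ℝ) ≤ Real.sqrt (n / D) := by linarith
    have h2 : (p : ℝ) ^ 2 ≤ n / D := by
      have := (Real.le_sqrt (by linarith) (by positivity)).1 h1
      exact this
    have h3 : (p : ℝ) ^ 2 * D ≤ n := (le_div_iff₀ hD0).1 h2
    have h4 : (p : ℝ) ^ 2 * k * Real.log (6 * k) = (p : ℝ) ^ 2 * D := by
      rw [hD, mul_assoc]
    rw [h4]
    exact h3
  · have h1 : Real.sqrt (D / n) = (Real.sqrt (n / D))⁻¹ := by
      rw [← Real.sqrt_inv, inv_div]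
    rw [h1]
    have h2 : 1 / (p : ℝ) ≤ 1 / (Real.sqrt (n / D) / 4) :=
      one_div_le_one_div_of_le (by positivity) hxp.le
    calc 1 / (p : ℝ) ≤ 1 / (Real.sqrt (n / D) / 4) := h2
      _ = 4 * (Real.sqrt (n / D))⁻¹ := by field_simp
  · rw [div_le_one (by positivity)]
    linarith

end TS

end Pool.MP43e44c.GX
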