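import Mathlib

/-!
Primes which do not divide a number.
-/

set_option autoImplicit false

open Finset

namespace Pool.MP43e44c.GX

/-- The primes in `(x, 4x]`. -/
private noncomputable def Pri_blk (x : ℝ) : Finset ℕ :=
  (Finset.Ioc ⌊x⌋₊ ⌊4 * x⌋₊).filter Nat.Prime

private theorem Pri_mem {x : ℝ} (hx : 0 ≤ x) {p : ℕ} (hp : p ∈ Pri_blk x) :
    p.Prime ∧ x < p ∧ (p : ℝ) ≤ 4 * x := by
  unfold Pri_blk at hp
  rw [Finset.mem_filter, Finset.mem_Ioc] at hp
  refine ⟨hp.2, ?_, ?_⟩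
  · exact (Nat.floor_lt hx).1 hp.1.1
  · exact (Nat.le_floor_iff (by positivity)).1 hp.1.2

private theorem Pri_theta {x : ℝ} (hx : 1 ≤ x) :
    Chebyshev.theta (4 * x) = Chebyshev.theta x + ∑ p ∈ Pri_blk x, Real.log p := by
  unfold Chebyshev.theta Pri_blk
  rw [← Finset.sum_union]
  · congr 1
    rw [← Finset.filter_union]
    congr 1
    rw [Finset.Ioc_union_Ioc_eq_Ioc (Nat.zero_le _)]
    exact Nat.floor_le_floor (by linarith)
  · apply Finset.disjoint_filter_filter
    rw [Finset.disjoint_left]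
    intro a ha hb
    rw [Finset.mem_Ioc] at ha hb
    omega

private theorem Pri_lower : ∀ᶠ x : ℝ in Filter.atTop,
    x / 2 ≤ ∑ p ∈ Pri_blk x, Real.log p := by
  have h1 : ∀ᶠ x : ℝ in Filter.atTop, Real.log (4 * x + 2) ≤ (1 / 100) * x := by
    have h := (Real.isLittleO_log_id_atTop.bound (show (0 : ℝ) < 1 / 1000 by norm_num))
    have ht : Filter.Tendsto (fun x : ℝ => 4 * x + 2) Filter.atTop Filter.atTop :=
      Filter.tendsto_atTop_add_const_right _ _ (Filter.tendsto_id.const_mul_atTop (by norm_num))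
    filter_upwards [ht.eventually h, Filter.eventually_ge_atTop (1 : ℝ)] with x hx hx1
    simp only [id] at hx
    rw [Real.norm_of_nonneg (by positivity : (0:ℝ) ≤ 4 * x + 2)] at hx
    have := (le_abs_self _).trans hx
    linarith
  have h2 : ∀ᶠ x : ℝ in Filter.atTop, 4 * Real.sqrt x * Real.log (4 * x) ≤ (1 / 100) * x := by
    have h := ((isLittleO_log_rpow_atTop (show (0 : ℝ) < 1 / 2 by norm_num)).bound
      (show (0 : ℝ) < 1 / 1000 by norm_num))
    have ht : Filter.Tendsto (fun x : ℝ => 4 * x) Filter.atTop Filter.atTop :=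
      (Filter.tendsto_id.const_mul_atTop (by norm_num))
    filter_upwards [ht.eventually h, Filter.eventually_ge_atTop (1 : ℝ)] with x hx hx1
    rw [Real.norm_of_nonneg (by positivity : (0:ℝ) ≤ (4 * x) ^ (1 / 2 : ℝ))] at hx
    have h3 := (le_abs_self _).trans hx
    rw [← Real.sqrt_eq_rpow, Real.sqrt_mul (by norm_num)] at h3
    have h4 : Real.sqrt 4 = 2 := by
      rw [show (4 : ℝ) = 2 ^ 2 by norm_num, Real.sqrt_sq (by norm_num)]
    rw [h4] at h3
    have h5 : Real.sqrt x * Real.sqrt x = x := Real.mul_self_sqrt (by linarith)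
    have h6 : 0 ≤ Real.sqrt x := Real.sqrt_nonneg x
    calc 4 * Real.sqrt x * Real.log (4 * x) ≤ 4 * Real.sqrt x * (1 / 1000 * (2 * Real.sqrt x)) :=
          mul_le_mul_of_nonneg_left h3 (by positivity)
      _ = (8 / 1000) * (Real.sqrt x * Real.sqrt x) := by ring
      _ = (8 / 1000) * x := by rw [h5]
      _ ≤ _ := by linarith
  filter_upwards [h1, h2, Filter.eventually_ge_atTop (10 : ℝ)] with x hx1 hx2 hx3
  have h3 := Chebyshev.theta_ge' (x := 4 * x) (by linarith)
  have h4 := Chebyshev.theta_le_log4_mul_x (x := x) (by linarith)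
  have h5 := Pri_theta (x := x) (by linarith)
  have hs : Real.sqrt (4 * x) = 2 * Real.sqrt x := by
    rw [Real.sqrt_mul (by norm_num)]
    congr 1
    rw [show (4 : ℝ) = 2 ^ 2 by norm_num, Real.sqrt_sq (by norm_num)]
  have hl4 : Real.log 4 = 2 * Real.log 2 := by
    rw [show (4 : ℝ) = 2 ^ 2 by norm_num, Real.log_pow]; norm_num
  rw [hs] at h3
  rw [hl4] at h4
  have hl2 : 0.69 < Real.log 2 := by linarith [Real.log_two_gt_d9]
  have hl2' : Real.log 2 < 0.7 := by linarith [Real.log_two_lt_d9]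
  nlinarith

/-- PROOF. The product of the primes in `(x, 4x]` is `exp (θ(4x) - θ(x))`, and
`θ(4x) - θ(x) ≥ 4 x log 2 - (error of Chebyshev.theta_ge) - x log 4` (`Chebyshev.theta_ge`,
`Chebyshev.theta_le_log4_mul_x` or similar), which is at least `x / 2` for large `x`.  If all the primes in
`(x, 4x]` divided `M` their product would be at most `M`, `x / 2 ≤ log M`. -/
theorem exists_prime_ndvd : ∃ C : ℝ, 0 < C ∧ ∀ (M : ℕ) (x : ℝ), 1 ≤ M →
    C * (1 + Real.log M) ≤ x → ∃ p : ℕ, p.Prime ∧ x < p ∧ (p : ℝ) ≤ 4 * x ∧ ¬ p ∣ M := by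
  obtain ⟨C₀, hC₀⟩ := Filter.eventually_atTop.1 Pri_lower
  refine ⟨max C₀ 3, lt_of_lt_of_le (by norm_num) (le_max_right _ _), fun M x hM hx => ?_⟩
  have hM' : (1 : ℝ) ≤ M := by exact_mod_cast hM
  have hlog : 0 ≤ Real.log M := Real.log_nonneg hM'
  have h3x : 3 * (1 + Real.log M) ≤ x :=
    le_trans (mul_le_mul_of_nonneg_right (le_max_right _ _) (by linarith)) hx
  have hx3 : 3 ≤ x := by linarith
  have hC : C₀ ≤ x := by
    refine le_trans (le_max_left C₀ 3) (le_trans ?_ hx)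
    have h1 : 0 ≤ max C₀ 3 := le_trans (by norm_num) (le_max_right _ _)
    nlinarith
  have h1 := hC₀ x hC
  by_contra hcon
  have hall : ∀ p ∈ Pri_blk x, p ∣ M := by
    intro p hp
    obtain ⟨h2, h3, h4⟩ := Pri_mem (by linarith) hp
    by_contra h5
    exact hcon ⟨p, h2, h3, h4, h5⟩
  have hprod : (∏ p ∈ Pri_blk x, p) ∣ M := by
    refine Finset.prod_primes_dvd M (fun p hp => ?_) hall
    exact (Pri_mem (by linarith) hp).1.prime
  have hle : (∏ p ∈ Pri_blk x, p) ≤ M := Nat.le_of_dvd (by omega) hprod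
  have hsum : ∑ p ∈ Pri_blk x, Real.log p = Real.log ((∏ p ∈ Pri_blk x, p : ℕ) : ℝ) := by
    rw [Nat.cast_prod, Real.log_prod]
    intro p hp
    have h2 := (Pri_mem (by linarith) hp).1.pos
    exact_mod_cast h2.ne'
  have hpos : (0 : ℝ) < ((∏ p ∈ Pri_blk x, p : ℕ) : ℝ) := by
    have h2 : 0 < ∏ p ∈ Pri_blk x, p :=
      Finset.prod_pos fun p hp => (Pri_mem (by linarith) hp).1.pos
    exact_mod_cast h2
  have h6 : Real.log ((∏ p ∈ Pri_blk x, p : ℕ) : ℝ) ≤ Real.log M :=
    Real.log_le_log hpos (by exact_mod_cast hle)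
  rw [hsum] at h1
  linarith

end Pool.MP43e44c.GX
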