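import Pool.Agent.H.MP_43e44c_ag.GX.Row
import Pool.Agent.H.MP_43e44c_ag.GX.Pri
import Pool.Agent.H.MP_43e44c_ag.GA.BigF

/-!
Components with a center of large degree, and the bound from one prime in numerical form.
-/

set_option autoImplicit false

open Finset Module

namespace Pool.MP43e44c.GX

open Pool.MP43e44c.OD

universe u v

/-- The numerical conditions for large `n`. -/
theorem Big_large (C₁ : ℝ) : ∃ n₀ : ℕ, 26 ≤ n₀ ∧ ∀ n : ℕ, n₀ ≤ n →
    4 ≤ Real.log n ∧ 10 * C₁ ≤ Real.log n ∧ 144 * Real.log n ^ 20 ≤ n := by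
  have hlo := (Real.isLittleO_pow_log_id_atTop (n := 20)).bound
    (show (0 : ℝ) < 1 / 144 by positivity)
  have hlo2 := tendsto_natCast_atTop_atTop (R := ℝ) |>.eventually hlo
  obtain ⟨n₁, hn₁⟩ := Filter.eventually_atTop.1 hlo2
  have hl := Real.tendsto_log_atTop.comp (tendsto_natCast_atTop_atTop (R := ℝ))
  obtain ⟨n₂, hn₂⟩ := Filter.eventually_atTop.1 (hl.eventually_ge_atTop (max 4 (10 * C₁)))
  refine ⟨max (max n₁ n₂) 26, le_max_right _ _, ?_⟩
  intro n hn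
  have hn1 : n₁ ≤ n := ((le_max_left _ _).trans (le_max_left _ _)).trans hn
  have hn2 : n₂ ≤ n := ((le_max_right _ _).trans (le_max_left _ _)).trans hn
  have hn26 : 26 ≤ n := (le_max_right _ _).trans hn
  have hnpos : (0 : ℝ) < n := by
    have : (26 : ℝ) ≤ n := by exact_mod_cast hn26
    linarith
  have h1 : max 4 (10 * C₁) ≤ Real.log n := hn₂ n hn2
  have h2 := hn₁ n hn1
  have hl0 : 0 ≤ Real.log n := le_trans (by norm_num) ((le_max_left _ _).trans h1)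
  rw [Real.norm_of_nonneg (by positivity), id, Real.norm_of_nonneg hnpos.le] at h2
  refine ⟨(le_max_left _ _).trans h1, (le_max_right _ _).trans h1, ?_⟩
  linarith

/-- The numerical estimate of case 1. -/
theorem Big_num {n : ℕ} (hn26 : 26 ≤ n) (hl4 : 4 ≤ Real.log n) (h20 : 144 * Real.log n ^ 20 ≤ n)
    (k : ℕ) (p M : ℝ) (hp0 : 0 ≤ p) (hp : p ≤ Real.log n ^ 4) (hM : M ≤ 9 * Real.log n)
    (hk : (k : ℝ) ^ 2 ≤ 2 * n * (2 * M)) : p ^ 2 * k * Real.log (6 * k) ≤ n := by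
  have hn26' : (26 : ℝ) ≤ n := by exact_mod_cast hn26
  have hnpos : (0 : ℝ) < n := by linarith
  set l : ℝ := Real.log n with hl
  have hl1 : 1 ≤ l := by linarith
  have hln : l ≤ n := by
    have := Real.log_le_sub_one_of_pos hnpos
    linarith
  rcases Nat.eq_zero_or_pos k with hk0 | hk0
  · subst hk0
    simp only [Nat.cast_zero, mul_zero, zero_mul]
    exact hnpos.le
  have hkpos : (1 : ℝ) ≤ k := by exact_mod_cast hk0
  set w : ℝ := Real.sqrt n with hw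
  have hw0 : 0 < w := Real.sqrt_pos.2 hnpos
  have hww : w ^ 2 = n := Real.sq_sqrt hnpos.le
  have hk36 : (k : ℝ) ^ 2 ≤ 36 * n * l := by nlinarith
  have hkw : (k : ℝ) ≤ 6 * w * l := by
    have h4 : (k : ℝ) ^ 2 ≤ (6 * w * l) ^ 2 := by
      have h5 : (6 * w * l) ^ 2 = 36 * n * l ^ 2 := by rw [← hww]; ring
      rw [h5]
      have h6 : n * l ≤ n * l ^ 2 := mul_le_mul_of_nonneg_left (by nlinarith) hnpos.le
      nlinarith [mul_pos hnpos (zero_lt_one.trans_le hl1)]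
    exact (pow_le_pow_iff_left₀ (by positivity) (by positivity) two_ne_zero).1 h4
  have h6k : Real.log (6 * k) ≤ 2 * l := by
    have h7 : (6 * (k : ℝ)) ^ 2 ≤ ((n : ℝ) ^ 2) ^ 2 := by
      have h8 : (6 * (k : ℝ)) ^ 2 ≤ 1296 * n * l := by nlinarith
      have h9 : 1296 * l ≤ n ^ 3 := by
        have h10 : 144 * l ≤ n := by
          refine le_trans ?_ h20
          have : l ≤ l ^ 20 := le_self_pow₀ hl1 (by norm_num)
          linarith
        nlinarith [pow_pos hnpos 2]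
      calc (6 * (k : ℝ)) ^ 2 ≤ 1296 * n * l := h8
        _ = n * (1296 * l) := by ring
        _ ≤ n * n ^ 3 := mul_le_mul_of_nonneg_left h9 hnpos.le
        _ = _ := by ring
    have h10 : 6 * (k : ℝ) ≤ (n : ℝ) ^ 2 :=
      (pow_le_pow_iff_left₀ (by positivity) (by positivity) two_ne_zero).1 h7
    have h11 := Real.log_le_log (by positivity) h10
    rw [Real.log_pow] at h11
    push_cast at h11
    exact h11
  have hp2 : p ^ 2 ≤ l ^ 8 := by
    calc p ^ 2 ≤ (l ^ 4) ^ 2 := pow_le_pow_left₀ hp0 hp 2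
      _ = _ := by ring
  have hlog0 : 0 ≤ Real.log (6 * k) := Real.log_nonneg (by linarith)
  have h13 : 12 * l ^ 10 ≤ w := by
    have h14 : (12 * l ^ 10) ^ 2 ≤ w ^ 2 := by
      rw [hww]
      calc (12 * l ^ 10) ^ 2 = 144 * l ^ 20 := by ring
        _ ≤ _ := h20
    exact (pow_le_pow_iff_left₀ (by positivity) hw0.le two_ne_zero).1 h14
  calc p ^ 2 * k * Real.log (6 * k)
      ≤ l ^ 8 * (6 * w * l) * (2 * l) := by
        refine mul_le_mul (mul_le_mul hp2 hkw (by positivity) (by positivity)) h6k hlog0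
          (by positivity)
    _ = (12 * l ^ 10) * w := by ring
    _ ≤ w * w := mul_le_mul_of_nonneg_right h13 hw0.le
    _ = n := by rw [← sq, hww]

/-- The numerical estimate of case 2. -/
theorem Big_num2 {n d f : ℕ} {p : ℝ} (hp0 : 0 ≤ p) (hd1 : 1 ≤ d) (hf1 : 1 ≤ f)
    (h1 : (n : ℝ) < p ^ 2 * (d * f) * Real.log (6 * d)) (h2 : d ^ 2 * f ≤ 2 * n) :
    (n : ℝ) ≤ 10368 * p ^ 8 * f := by
  have hd1' : (1 : ℝ) ≤ d := by exact_mod_cast hd1
  have hf1' : (1 : ℝ) ≤ f := by exact_mod_cast hf1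
  have h2' : (d : ℝ) ^ 2 * f ≤ 2 * n := by exact_mod_cast h2
  set s : ℝ := Real.sqrt d with hs
  have hs0 : 0 < s := Real.sqrt_pos.2 (by linarith)
  have hss : s ^ 2 = d := Real.sq_sqrt (by linarith)
  have hlog : Real.log (6 * d) ≤ 6 * s := GA.bigF_log (by linarith)
  have hdf : (0 : ℝ) < d * f := by positivity
  have hn4 : (n : ℝ) < p ^ 2 * (d * f) * (6 * s) :=
    h1.trans_le (mul_le_mul_of_nonneg_left hlog (by positivity))
  have h5 : (d : ℝ) < 12 * p ^ 2 * s := by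
    have h6 : (d : ℝ) * (d * f) < 12 * p ^ 2 * s * (d * f) := by nlinarith
    exact lt_of_mul_lt_mul_right h6 hdf.le
  have h6 : s < 12 * p ^ 2 := by
    have h7 : s * s < 12 * p ^ 2 * s := by
      calc s * s = d := by rw [← sq, hss]
        _ < 12 * p ^ 2 * s := h5
    exact lt_of_mul_lt_mul_right h7 hs0.le
  have h8 : (d : ℝ) * s ≤ 1728 * p ^ 6 := by
    calc (d : ℝ) * s = s ^ 3 := by rw [← hss]; ring
      _ ≤ (12 * p ^ 2) ^ 3 := pow_le_pow_left₀ hs0.le h6.le 3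
      _ = 1728 * p ^ 6 := by ring
  calc (n : ℝ) ≤ p ^ 2 * (d * f) * (6 * s) := hn4.le
    _ = 6 * p ^ 2 * f * (d * s) := by ring
    _ ≤ 6 * p ^ 2 * f * (1728 * p ^ 6) :=
      mul_le_mul_of_nonneg_left h8 (by positivity)
    _ = 10368 * p ^ 8 * f := by ring

theorem Big_half {n M : ℕ} (hn : 2 ≤ n) (hM : 8 * Real.log n ≤ M) :
    2 * (1 / 2 : ℝ) ^ M ≤ (n : ℝ) ^ (-2 : ℝ) := by
  have hn' : (2 : ℝ) ≤ n := by exact_mod_cast hn
  have hnpos : (0 : ℝ) < n := by linarith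
  have hl2 : Real.log 2 ≤ Real.log n := Real.log_le_log (by norm_num) hn'
  have h0 : 2 * (1 / 2 : ℝ) ^ M = Real.exp (Real.log 2 - M * Real.log 2) := by
    rw [Real.exp_sub, Real.exp_log (by norm_num), Real.exp_nat_mul, Real.exp_log (by norm_num),
      one_div, inv_pow, div_eq_mul_inv]
  rw [h0, Real.rpow_def_of_pos hnpos]
  refine Real.exp_le_exp.2 ?_
  have h2 := Real.log_two_gt_d9
  nlinarith

namespace TS

/-- PROOF (compare `badI_large` in GA/BigF.lean). Let `n = card ι`, `L = log n`, `x = C₁ (1 + log (card G)) ≤ L ^ 3` and `p` the prime of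
`exists_prime_ndvd` for `M = 2 * card G`, so `p ≤ 4 L ^ 3 ≤ L ^ 4` is odd and does not divide `card G`; `P` a decomposition
over `ZMod p`, `M = ⌈8 L⌉`; `C ≥ 9`.
Case 1: all `f_j < M` for `j ∈ J`.  As `∑_J f_j = f ≥ M` (`sum_below_f`) there is `K ⊆ J` with
`M ≤ F = ∑_K f_j < 2 M`; `k = ∑_K r_j f_j` satisfies `k ^ 2 ≤ a * 2 M ≤ 4 n M` (`sum_below_a`), so `p ^ 2 k log (6 k) ≤ n`
for large `n`; `levS` with `(3 / (2p)) ^ F ≤ (1/2) ^ M ≤ n ^ (-5)` (drop the factor with `E`; `be_j ≤ r_j f_j` by `be_le`, `f_eq`).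
Case 2: some `f_j ≥ M`.  If `p ^ 2 r_j f_j log (6 r_j) ≤ n`, `levT` gives `2 (1/2) ^ M`.  Otherwise
`n < p ^ 2 r_j f_j log (6 r_j)` and `r_j ^ 2 f_j ≤ a ≤ 2 n`, so `r_j < 2 p ^ 2 log (6 r_j)`, `r_j ≤ C L ^ 17`, and
`n ≤ L ^ 40 f_j ≤ L ^ 40 f` (`f_j ≤ f` by `sum_below_f`). -/
theorem bigX : ∃ C : ℝ, 0 < C ∧ ∃ n₀ : ℕ, ∀ {G : Type u} [Group G] {ι : Type v} (T : TS G ι)
    [Fintype G] [Fintype ι] (W : WD ℚ G) (i : Fin W.m), T.Odd W i → n₀ ≤ Fintype.card ι →
    Real.log (Fintype.card G) ≤ 8 * (Real.log (Fintype.card ι)) ^ 2 →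
    W.a i ≤ 2 * Fintype.card ι → C * Real.log (Fintype.card ι) ≤ W.f i →
    (((T.badI W i).ncard : ℕ) : ℝ) ≤ (Fintype.card ι : ℝ) ^ (-2 : ℝ) * 2 ^ Fintype.card ι ∨
      (Fintype.card ι : ℝ) ≤ W.f i * (Real.log (Fintype.card ι)) ^ 40 := by
  classical
  obtain ⟨C₁, hC₁, hpr⟩ := exists_prime_ndvd
  obtain ⟨n₀, hn₀, hlarge⟩ := Big_large C₁
  refine ⟨9, by norm_num, n₀, ?_⟩
  intro G _ ι T _ _ W i hi hnn hG hai hfi
  obtain ⟨n, hn⟩ : ∃ n, n = Fintype.card ι := ⟨_, rfl⟩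
  rw [← hn] at hnn hG hai hfi ⊢
  obtain ⟨hl4, hl10, h20⟩ := hlarge n hnn
  have hn26 : 26 ≤ n := hn₀.trans hnn
  have hn26' : (26 : ℝ) ≤ n := by exact_mod_cast hn26
  have hnpos : (0 : ℝ) < n := by linarith
  obtain ⟨l, hl⟩ : ∃ l, l = Real.log n := ⟨_, rfl⟩
  have hcard0 : 0 < Fintype.card G := Fintype.card_pos
  have hcardR : (0 : ℝ) < Fintype.card G := by exact_mod_cast hcard0
  obtain ⟨p, hpP, hpx, hpx4, hpnd⟩ := hpr (2 * Fintype.card G) (l ^ 3) (by omega) (by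
    push_cast
    rw [Real.log_mul (by norm_num) hcardR.ne']
    have h1 : Real.log 2 ≤ 1 := by
      have := Real.log_two_lt_d9
      linarith
    rw [← hl] at hG hl10 hl4
    have h2 : 1 + (Real.log 2 + Real.log (Fintype.card G)) ≤ 10 * l ^ 2 := by nlinarith
    calc C₁ * (1 + (Real.log 2 + Real.log (Fintype.card G))) ≤ C₁ * (10 * l ^ 2) :=
          mul_le_mul_of_nonneg_left h2 hC₁.le
      _ = (10 * C₁) * l ^ 2 := by ring
      _ ≤ l * l ^ 2 := mul_le_mul_of_nonneg_right hl10 (by positivity)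
      _ = l ^ 3 := by ring)
  have : Fact p.Prime := ⟨hpP⟩
  have hp2 : p ≠ 2 := by
    rintro rfl
    exact hpnd (Dvd.intro _ rfl)
  have hp : ¬ p ∣ Fintype.card G := fun h => hpnd (h.mul_left 2)
  have hp3 : 3 ≤ p := by
    have := hpP.two_le
    omega
  have hp3' : (3 : ℝ) ≤ p := by exact_mod_cast hp3
  have hp4 : (p : ℝ) ≤ Real.log n ^ 4 := by
    rw [← hl] at hl4 ⊢
    refine hpx4.trans ?_
    have h1 : 0 ≤ l ^ 3 := by positivity
    nlinarith
  obtain ⟨P⟩ := exists_wd (ZMod p) G (by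
    rw [Ne, ZMod.natCast_eq_zero_iff]
    exact hp)
  obtain ⟨M, hM⟩ : ∃ M : ℕ, M = ⌈8 * Real.log n⌉₊ := ⟨_, rfl⟩
  have hM8 : 8 * Real.log n ≤ M := by
    rw [hM]
    exact Nat.le_ceil _
  have hM9 : (M : ℝ) ≤ 9 * Real.log n := by
    have h1 := Nat.ceil_lt_add_one (show 0 ≤ 8 * Real.log n by linarith)
    rw [hM]
    linarith
  have hMpos : 0 < M := by
    have h1 : (0 : ℝ) < M := by linarith
    exact_mod_cast h1
  have hMf : M ≤ W.f i := by
    have h1 : (M : ℝ) ≤ W.f i := hM9.trans hfi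
    exact_mod_cast h1
  have hhalf := Big_half (show 2 ≤ n by omega) hM8
  have hsa := GA.sum_below_a hp W P i
  have hsf := sum_below_f hp W P i
  have hfin : ∀ b : ℕ, (b : ℝ) ≤ 2 * (1 / 2) ^ M * 2 ^ n →
      (b : ℝ) ≤ (n : ℝ) ^ (-2 : ℝ) * 2 ^ n := by
    intro b hb
    exact hb.trans (mul_le_mul_of_nonneg_right hhalf (by positivity))
  by_cases hcase : ∀ j ∈ J W P i, P.f j < M
  · left
    obtain ⟨K, hK, hKM, hK2⟩ := GA.bigF_subset (fun j => P.f j) hMpos (J W P i) hcase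
      (by rw [hsf]; exact hMf)
    have hk2 : (∑ j ∈ K, P.r j * P.f j) ^ 2 ≤ 2 * n * (2 * M) := by
      have h1 : (∑ j ∈ K, P.r j * P.f j) ^ 2 ≤ (∑ j ∈ K, P.a j) * ∑ j ∈ K, P.f j := by
        refine sum_sq_le_sum_mul_sum_of_sq_le_mul _ (fun j _ => Nat.zero_le _)
          (fun j _ => Nat.zero_le _) fun j _ => le_of_eq ?_
        rw [a_eq]
        ring
      refine h1.trans (Nat.mul_le_mul ?_ hK2.le)
      exact ((sum_le_sum_of_subset hK).trans hsa.le).trans hai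
    have hk2' : ((∑ j ∈ K, P.r j * P.f j : ℕ) : ℝ) ^ 2 ≤ 2 * n * (2 * (M : ℝ)) := by
      exact_mod_cast hk2
    have hn1 := Big_num hn26 hl4 h20 (∑ j ∈ K, P.r j * P.f j) p M (by linarith) hp4 hM9 hk2'
    have hbe : ∑ j ∈ K, T.be P j ≤ ∑ j ∈ K, P.r j * P.f j :=
      sum_le_sum fun j _ => T.Row_be_le P j
    have h2 := T.levS hp2 hp W P hi hK rfl rfl
      (E := ∑ j ∈ K, P.r j * P.f j - ∑ j ∈ K, T.be P j) (Nat.sub_add_cancel hbe)
      (by rw [← hn]; exact hn1)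
    rw [← hn] at h2
    refine hfin _ (h2.trans ?_)
    refine mul_le_mul_of_nonneg_right ?_ (by positivity)
    have h3 : (3 / (2 * p) : ℝ) ≤ 1 / 2 := by
      rw [div_le_div_iff₀ (by positivity) (by norm_num)]
      linarith
    have h4 : (3 / (2 * p) : ℝ) ^ (∑ j ∈ K, P.f j) ≤ (1 / 2) ^ M := by
      calc (3 / (2 * p) : ℝ) ^ (∑ j ∈ K, P.f j) ≤ (1 / 2) ^ (∑ j ∈ K, P.f j) :=
            pow_le_pow_left₀ (by positivity) h3 _
        _ ≤ (1 / 2) ^ M := pow_le_pow_of_le_one (by norm_num) (by norm_num) hKM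
    have h5 : (1 / (p : ℝ)) ^ (∑ j ∈ K, P.r j * P.f j - ∑ j ∈ K, T.be P j) ≤ 1 := by
      refine pow_le_one₀ (by positivity) ?_
      rw [div_le_one (by linarith)]
      linarith
    calc 2 * (3 / (2 * p) : ℝ) ^ (∑ j ∈ K, P.f j) *
          (1 / (p : ℝ)) ^ (∑ j ∈ K, P.r j * P.f j - ∑ j ∈ K, T.be P j)
        ≤ 2 * (1 / 2) ^ M * 1 := by
          refine mul_le_mul ?_ h5 (by positivity) (by positivity)
          exact mul_le_mul_of_nonneg_left h4 (by norm_num)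
      _ = _ := by ring
  · push Not at hcase
    obtain ⟨j, hj, hjM⟩ := hcase
    by_cases hT : (p : ℝ) ^ 2 * (P.r j * P.f j) * Real.log (6 * P.r j) ≤ Fintype.card ι
    · left
      have h2 := T.levT hp2 hp W P hi hj hT
      rw [← hn] at h2
      refine hfin _ (h2.trans ?_)
      refine mul_le_mul_of_nonneg_right ?_ (by positivity)
      refine mul_le_mul_of_nonneg_left ?_ (by norm_num)
      exact pow_le_pow_of_le_one (by norm_num) (by norm_num) hjM
    · right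
      rw [not_le, ← hn] at hT
      have haj : P.r j ^ 2 * P.f j ≤ 2 * n := by
        rw [← a_eq]
        refine ((single_le_sum (f := fun j => P.a j) (fun _ _ => Nat.zero_le _) hj).trans
          hsa.le).trans hai
      have hd1 : 1 ≤ P.r j := Nat.pos_of_ne_zero (NeZero.ne (P.r j))
      have h4 := Big_num2 (p := (p : ℝ)) (by linarith) hd1 (P.f_pos j) hT haj
      have hffi : P.f j ≤ W.f i := by
        rw [← hsf]
        exact single_le_sum (f := fun j => P.f j) (fun _ _ => Nat.zero_le _) hj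
      have hffi' : (P.f j : ℝ) ≤ W.f i := by exact_mod_cast hffi
      rw [← hl] at hl4 hp4 ⊢
      have hl0 : 0 ≤ l := by linarith
      have hp8 : (p : ℝ) ^ 8 ≤ l ^ 32 := by
        calc (p : ℝ) ^ 8 ≤ (l ^ 4) ^ 8 := pow_le_pow_left₀ (by linarith) hp4 8
          _ = l ^ 32 := by ring
      have hl8 : (10368 : ℝ) ≤ l ^ 8 := by
        calc (10368 : ℝ) ≤ 4 ^ 8 := by norm_num
          _ ≤ l ^ 8 := pow_le_pow_left₀ (by norm_num) hl4 8
      calc (n : ℝ) ≤ 10368 * (p : ℝ) ^ 8 * P.f j := h4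
        _ ≤ l ^ 8 * l ^ 32 * W.f i := by
          refine mul_le_mul ?_ hffi' (by positivity) (by positivity)
          exact mul_le_mul hl8 hp8 (by positivity) (by positivity)
        _ = W.f i * l ^ 40 := by ring

end TS

end Pool.MP43e44c.GX
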