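import Pool.Agent.H.MP_43e44c_ag.SB.Rep2

/-!
Fixed vectors of a minimal invariant subspace.
-/

set_option autoImplicit false

open Finset Module

namespace Pool.MP43e44c.GX

section

variable {Γ ι : Type*} [Group Γ] [MulAction Γ ι] [Fintype ι] (C : Coc Γ ι)

/-- The elements which act trivially on a subspace. -/
def kerU (U : Submodule ℝ (EuclideanSpace ℝ ι)) : Subgroup Γ where
  carrier := {g | ∀ u ∈ U, C.act g u = u}
  one_mem' := fun u _ => C.act_one u
  mul_mem' := fun {a b} ha hb u hu => by rw [C.act_mul, hb u hu, ha u hu]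
  inv_mem' := fun {a} ha u hu => by
    conv_lhs => rw [← ha u hu]
    exact C.act_inv_act a u

/-- The stabilizer of a basis vector. -/
def stb (i₀ : ι) : Subgroup Γ where
  carrier := {g | g • i₀ = i₀ ∧ C.ε g i₀ = 1}
  one_mem' := ⟨one_smul Γ i₀, C.one i₀⟩
  mul_mem' := fun {a b} ha hb => ⟨by rw [mul_smul, hb.1, ha.1], by rw [C.mul, hb.1, ha.2, hb.2, one_mul]⟩
  inv_mem' := fun {a} ha => by
    have h1 : a⁻¹ • i₀ = i₀ := by rw [inv_smul_eq_iff, ha.1]
    refine ⟨h1, ?_⟩
    have h2 := C.inv a i₀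
    rw [ha.1, ha.2] at h2
    exact h2

/-- The vectors of a subspace which are fixed by a subgroup. -/
def fixU (U : Submodule ℝ (EuclideanSpace ℝ ι)) (H : Subgroup Γ) :
    Submodule ℝ (EuclideanSpace ℝ ι) where
  carrier := {u | u ∈ U ∧ ∀ g ∈ H, C.act g u = u}
  zero_mem' := ⟨U.zero_mem, fun g _ => map_zero _⟩
  add_mem' := fun {a b} ha hb => ⟨U.add_mem ha.1 hb.1, fun g hg => by
    rw [map_add, ha.2 g hg, hb.2 g hg]⟩
  smul_mem' := fun r a ha => ⟨U.smul_mem r ha.1, fun g hg => by rw [map_smul, ha.2 g hg]⟩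

end

variable {Γ ι : Type*} [Group Γ] [Fintype Γ] [MulAction Γ ι] [Fintype ι] (C : Coc Γ ι)

/-- PROOF. `g ↦ (g • i₀, sign)` induces an injection of `Γ ⧸ stb` into `ι × {1, -1}`. -/
theorem stb_index (i₀ : ι) : (stb C i₀).index ≤ 2 * Fintype.card ι := by
  classical
  have h0 : ∀ a b : Γ, a⁻¹ * b ∈ stb C i₀ ↔ (a • i₀ = b • i₀ ∧ C.ε a i₀ = C.ε b i₀) := by
    intro a b
    constructor
    · rintro ⟨h1, h2⟩
      have e1 : b = a * (a⁻¹ * b) := by rw [mul_inv_cancel_left]
      have e2 : b • i₀ = a • i₀ := by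
        rw [e1, mul_smul, h1]
      have e3 : C.ε b i₀ = C.ε a i₀ := by
        rw [e1, C.mul, h1, h2, mul_one]
      exact ⟨e2.symm, e3.symm⟩
    · rintro ⟨h1, h2⟩
      refine ⟨?_, ?_⟩
      · rw [mul_smul, ← h1, inv_smul_smul]
      · rw [C.mul, ← h1, ← h2, ← C.mul, inv_mul_cancel, C.one]
  let f : Γ ⧸ stb C i₀ → ι × Bool := Quotient.lift
    (fun g : Γ => ((g • i₀, decide (C.ε g i₀ = 1)) : ι × Bool)) (by
      intro a b hab
      have h1 := (h0 a b).1 (QuotientGroup.leftRel_apply.1 hab)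
      show ((a • i₀, decide (C.ε a i₀ = 1)) : ι × Bool) = (b • i₀, decide (C.ε b i₀ = 1))
      rw [h1.1, h1.2])
  have hf : Function.Injective f := by
    intro x y
    induction x using Quotient.inductionOn with
    | _ a =>
      induction y using Quotient.inductionOn with
      | _ b =>
        intro h
        have h1 : ((a • i₀, decide (C.ε a i₀ = 1)) : ι × Bool) = (b • i₀, decide (C.ε b i₀ = 1)) := h
        have h2 : a • i₀ = b • i₀ := congrArg Prod.fst h1
        have h3 : decide (C.ε a i₀ = 1) = decide (C.ε b i₀ = 1) := congrArg Prod.snd h1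
        have h4 : C.ε a i₀ = C.ε b i₀ := by
          have h5 : C.ε a i₀ = 1 ↔ C.ε b i₀ = 1 := by
            simpa only [decide_eq_decide] using h3
          rcases C.sq a i₀ with h6 | h6
          · rw [h6, h5.1 h6]
          · rcases C.sq b i₀ with h7 | h7
            · rw [h5.2 h7, h7]
            · rw [h6, h7]
        exact Quotient.sound (QuotientGroup.leftRel_apply.2 ((h0 a b).2 ⟨h2, h4⟩))
  have h1 : (stb C i₀).index = Nat.card (Γ ⧸ stb C i₀) := rfl
  rw [h1]
  refine (Nat.card_le_card_of_injective f hf).trans (le_of_eq ?_)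
  rw [Nat.card_prod, Nat.card_eq_fintype_card, Nat.card_eq_fintype_card, Fintype.card_bool, mul_comm]

/-- PROOF. For `T ∈ C.Hom U` let `u_T ∈ U` be the vector with `inner u_T u = (T u) i₀` for `u ∈ U`
(adjoint of `T` applied to the basis vector).  It is fixed by `stb i₀`:
`(T (act g u)) i₀ = (act g (T u)) i₀ = (T u) i₀` for `g` in the stabilizer.  `T ↦ u_T` is linear and injective (by
transitivity, as in `finrank_hom_le`). -/
theorem hom_le_fix [MulAction.IsPretransitive Γ ι] {U : Submodule ℝ (EuclideanSpace ℝ ι)}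
    (hU : C.Inv U) (i₀ : ι) : finrank ℝ (C.Hom U) ≤ finrank ℝ (fixU C U (stb C i₀)) := by
  classical
  let e : EuclideanSpace ℝ ι := EuclideanSpace.single i₀ (1 : ℝ)
  have he : ∀ y : EuclideanSpace ℝ ι, inner ℝ e y = y i₀ := by
    intro y
    simp [e, EuclideanSpace.inner_single_left]
  have hin : ∀ (T : U →L[ℝ] EuclideanSpace ℝ ι) (x : U),
      inner ℝ (ContinuousLinearMap.adjoint T e) x = T x i₀ := by
    intro T x
    rw [ContinuousLinearMap.adjoint_inner_left, he]
  have hfix : ∀ T ∈ C.Hom U, ∀ g ∈ stb C i₀,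
      C.act g ((ContinuousLinearMap.adjoint T e : U) : EuclideanSpace ℝ ι)
        = ((ContinuousLinearMap.adjoint T e : U) : EuclideanSpace ℝ ι) := by
    intro T hT g hg
    have hg' : g⁻¹ ∈ stb C i₀ := (stb C i₀).inv_mem hg
    have h1 : (⟨C.act g ((ContinuousLinearMap.adjoint T e : U) : EuclideanSpace ℝ ι),
        hU g _ (Subtype.coe_prop _)⟩ : U) = ContinuousLinearMap.adjoint T e := by
      refine ext_inner_right ℝ fun x => ?_
      rw [hin]
      have h2 : inner ℝ (C.act g ((ContinuousLinearMap.adjoint T e : U) : EuclideanSpace ℝ ι))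
          (x : EuclideanSpace ℝ ι) = inner ℝ ((ContinuousLinearMap.adjoint T e : U) :
          EuclideanSpace ℝ ι) (C.act g⁻¹ (x : EuclideanSpace ℝ ι)) := C.inner_act_left _ _ _
      have h3 : inner ℝ (ContinuousLinearMap.adjoint T e : U)
          (⟨C.act g⁻¹ x, hU g⁻¹ x x.2⟩ : U) = T ⟨C.act g⁻¹ x, hU g⁻¹ x x.2⟩ i₀ := hin T _
      have h4 : T ⟨C.act g⁻¹ x, hU g⁻¹ x x.2⟩ = C.act g⁻¹ (T x) := hT g⁻¹ x _ rfl
      have h5 : C.act g⁻¹ (T x) i₀ = T x i₀ := by
        have h6 := C.act_apply_smul g⁻¹ (T x) i₀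
        rw [hg'.1, hg'.2, one_mul] at h6
        exact h6
      rw [h4, h5] at h3
      rw [← h3]
      exact h2
    exact congrArg Subtype.val h1
  let L : C.Hom U →ₗ[ℝ] fixU C U (stb C i₀) :=
    { toFun := fun T => ⟨((ContinuousLinearMap.adjoint (T : U →L[ℝ] EuclideanSpace ℝ ι) e : U) :
        EuclideanSpace ℝ ι), Subtype.coe_prop _, hfix T T.2⟩
      map_add' := fun S T => Subtype.ext (by simp)
      map_smul' := fun r T => Subtype.ext (by simp) }
  have hL : Function.Injective L := by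
    intro S T hST
    have h0 : (ContinuousLinearMap.adjoint (S : U →L[ℝ] EuclideanSpace ℝ ι) e : U)
        = ContinuousLinearMap.adjoint (T : U →L[ℝ] EuclideanSpace ℝ ι) e := by
      have h00 : ((L S : fixU C U (stb C i₀)) : EuclideanSpace ℝ ι)
          = ((L T : fixU C U (stb C i₀)) : EuclideanSpace ℝ ι) := congrArg Subtype.val hST
      exact Subtype.ext h00
    have hall : ∀ x : U, (S : U →L[ℝ] EuclideanSpace ℝ ι) x i₀
        = (T : U →L[ℝ] EuclideanSpace ℝ ι) x i₀ := by
      intro x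
      rw [← hin, h0, hin]
    apply Subtype.ext
    ext x i
    obtain ⟨g, hg⟩ := MulAction.exists_smul_eq Γ i i₀
    have h1 := hall ⟨C.act g x, hU g x x.2⟩
    rw [S.2 g x ⟨C.act g x, hU g x x.2⟩ rfl, T.2 g x ⟨C.act g x, hU g x x.2⟩ rfl,
      ← hg, C.act_apply_smul, C.act_apply_smul] at h1
    refine mul_left_cancel₀ ?_ h1
    intro h2
    rcases C.sq g i with h3 | h3 <;> rw [h3] at h2 <;> norm_num at h2
  exact LinearMap.finrank_le_finrank_of_injective hL

end Pool.MP43e44c.GX
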