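import Pool.Agent.H.MP_43e44c_ag.GX.BsA

/-!
Averages of projections.
-/

set_option autoImplicit false

open Finset Module

namespace Pool.MP43e44c.GX

variable {Γ ι : Type*} [Group Γ] [Fintype Γ] [MulAction Γ ι] [Fintype ι] (C : Coc Γ ι)

/-- Parseval for a vector of a subspace. -/
theorem BsB_sum_sq {ι : Type*} [Fintype ι] {U : Submodule ℝ (EuclideanSpace ℝ ι)}
    {κ : Type*} [Fintype κ] (b : OrthonormalBasis κ ℝ U) {y : EuclideanSpace ℝ ι} (hy : y ∈ U) :
    ∑ i, (inner ℝ ((b i : U) : EuclideanSpace ℝ ι) y) ^ 2 = ‖y‖ ^ 2 := by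
  have h := b.sum_sq_norm_inner_right ⟨y, hy⟩
  rw [Submodule.coe_norm] at h
  rw [← h]
  refine Finset.sum_congr rfl fun i _ => ?_
  rw [Submodule.coe_inner, Real.norm_eq_abs, sq_abs]

/-- The norm of a projection in an orthonormal basis. -/
theorem BsB_proj_sq {ι : Type*} [Fintype ι] {B : Submodule ℝ (EuclideanSpace ℝ ι)}
    {κ : Type*} [Fintype κ] (b : OrthonormalBasis κ ℝ B) (y : EuclideanSpace ℝ ι) :
    ‖B.starProjection y‖ ^ 2 = ∑ i, (inner ℝ ((b i : B) : EuclideanSpace ℝ ι) y) ^ 2 := by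
  rw [← BsB_sum_sq b (Submodule.starProjection_apply_mem B y)]
  refine Finset.sum_congr rfl fun i _ => ?_
  rw [← Submodule.inner_starProjection_left_eq_right, Submodule.starProjection_eq_self_iff.2 (b i).2]

omit [Fintype Γ] in
/-- The trace of the projection. -/
theorem BsB_trace {U B : Submodule ℝ (EuclideanSpace ℝ ι)} (hU : C.Inv U) (hB : B ≤ U)
    {κ : Type*} [Fintype κ] (b : OrthonormalBasis κ ℝ U) (g : Γ) :
    ∑ i, ‖B.starProjection (C.act g ((b i : U) : EuclideanSpace ℝ ι))‖ ^ 2 = finrank ℝ B := by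
  have h1 : ∀ i, ‖B.starProjection (C.act g ((b i : U) : EuclideanSpace ℝ ι))‖ ^ 2
      = ∑ j, (inner ℝ ((stdOrthonormalBasis ℝ B j : B) : EuclideanSpace ℝ ι)
          (C.act g ((b i : U) : EuclideanSpace ℝ ι))) ^ 2 := fun i =>
    BsB_proj_sq (stdOrthonormalBasis ℝ B) _
  rw [Finset.sum_congr rfl fun i _ => h1 i, Finset.sum_comm]
  have h2 : ∀ j, ∑ i, (inner ℝ ((stdOrthonormalBasis ℝ B j : B) : EuclideanSpace ℝ ι)
      (C.act g ((b i : U) : EuclideanSpace ℝ ι))) ^ 2 = 1 := by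
    intro j
    have h3 : ∀ i, inner ℝ ((stdOrthonormalBasis ℝ B j : B) : EuclideanSpace ℝ ι)
        (C.act g ((b i : U) : EuclideanSpace ℝ ι)) = inner ℝ ((b i : U) : EuclideanSpace ℝ ι)
          (C.act g⁻¹ ((stdOrthonormalBasis ℝ B j : B) : EuclideanSpace ℝ ι)) := by
      intro i
      rw [real_inner_comm, C.inner_act_left]
    rw [Finset.sum_congr rfl fun i _ => by rw [h3 i],
      BsB_sum_sq b (hU _ _ (hB (stdOrthonormalBasis ℝ B j).2)), C.norm_act, ← Submodule.coe_norm,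
      (stdOrthonormalBasis ℝ B).norm_eq_one, one_pow]
  rw [Finset.sum_congr rfl fun j _ => h2 j]
  simp

/-- The averaged projection. -/
noncomputable def BsB_op {U : Submodule ℝ (EuclideanSpace ℝ ι)} (hU : C.Inv U)
    (B : Submodule ℝ (EuclideanSpace ℝ ι)) (hB : B ≤ U) : U →L[ℝ] U :=
  LinearMap.toContinuousLinearMap
    { toFun := fun x => ⟨∑ g : Γ, C.act g⁻¹ (B.starProjection (C.act g x)),
        U.sum_mem fun g _ => hU _ _ (hB (Submodule.starProjection_apply_mem B _))⟩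
      map_add' := fun x y => Subtype.ext (by
        simp only [Submodule.coe_add, map_add, Finset.sum_add_distrib])
      map_smul' := fun r x => Subtype.ext (by
        simp only [Submodule.coe_smul, map_smul, Finset.smul_sum, RingHom.id_apply]) }

theorem BsB_op_apply {U : Submodule ℝ (EuclideanSpace ℝ ι)} (hU : C.Inv U)
    (B : Submodule ℝ (EuclideanSpace ℝ ι)) (hB : B ≤ U) (x : U) :
    ((BsB_op C hU B hB x : U) : EuclideanSpace ℝ ι)
      = ∑ g : Γ, C.act g⁻¹ (B.starProjection (C.act g x)) := rfl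

theorem BsB_op_inner {U : Submodule ℝ (EuclideanSpace ℝ ι)} (hU : C.Inv U)
    (B : Submodule ℝ (EuclideanSpace ℝ ι)) (hB : B ≤ U) (x y : U) :
    inner ℝ (BsB_op C hU B hB x) y
      = ∑ g : Γ, inner ℝ (B.starProjection (C.act g x)) (B.starProjection (C.act g y)) := by
  rw [Submodule.coe_inner, BsB_op_apply, sum_inner]
  refine Finset.sum_congr rfl fun g _ => ?_
  rw [C.inner_act_left, inv_inv]
  conv_rhs => rw [← Submodule.inner_starProjection_left_eq_right,
    Submodule.starProjection_eq_self_iff.2 (Submodule.starProjection_apply_mem B _)]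

theorem BsB_op_mem {U : Submodule ℝ (EuclideanSpace ℝ ι)} (hU : C.Inv U)
    (B : Submodule ℝ (EuclideanSpace ℝ ι)) (hB : B ≤ U) : BsB_op C hU B hB ∈ C.rep2_end U := by
  intro h x y hxy
  rw [BsB_op_apply, BsB_op_apply, map_sum, ← hxy]
  refine Fintype.sum_equiv (Equiv.mulRight h⁻¹) _ _ fun g => ?_
  rw [Equiv.coe_mulRight, ← C.act_mul, ← C.act_mul, mul_inv_rev, inv_inv, mul_assoc, inv_mul_cancel,
    mul_one]

theorem BsB_op_star {U : Submodule ℝ (EuclideanSpace ℝ ι)} (hU : C.Inv U)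
    (B : Submodule ℝ (EuclideanSpace ℝ ι)) (hB : B ≤ U) :
    star (BsB_op C hU B hB) = BsB_op C hU B hB := by
  refine ContinuousLinearMap.ext fun x => ext_inner_left ℝ fun z => ?_
  rw [ContinuousLinearMap.star_eq_adjoint, ContinuousLinearMap.adjoint_inner_right, BsB_op_inner,
    real_inner_comm, BsB_op_inner]
  exact Finset.sum_congr rfl fun g _ => real_inner_comm _ _

/-- PROOF. `Q x = ∑_g ‖P_B (act g x)‖ ^ 2 = inner x (R x)` on `U`, where `R = ∑_g act g⁻¹ ∘ P_B ∘ act g`, restricted to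
`U`, is self-adjoint and commutes with the action; by minimality it is a scalar `μ` (`rep2_scalar` with
`rep2_end C U`, SB/Rep2.lean).  Taking the trace over an orthonormal basis of `U`:
`μ * finrank U = ∑_g tr (P_B restricted to U) = card Γ * finrank B` (as `B ≤ U`, and `act g` is an
isometry of `U`). -/
theorem avg_proj {U B : Submodule ℝ (EuclideanSpace ℝ ι)} (hU : C.Mnl U) (hB : B ≤ U)
    {x : EuclideanSpace ℝ ι} (hx : x ∈ U) :
    (∑ g : Γ, ‖B.starProjection (C.act g x)‖ ^ 2) * finrank ℝ U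
      = Fintype.card Γ * finrank ℝ B * ‖x‖ ^ 2 := by
  have : Nontrivial U := Submodule.nontrivial_iff_ne_bot.2 hU.2.1
  obtain ⟨μ, hμ⟩ := rep2_scalar (C.rep2_end U) (fun S hS => C.rep2_end_norm hU hS)
    (BsB_op_mem C hU.1 B hB) (BsB_op_star C hU.1 B hB)
  have h1 : ∀ y : U, ∑ g : Γ, ‖B.starProjection (C.act g (y : EuclideanSpace ℝ ι))‖ ^ 2
      = μ * ‖y‖ ^ 2 := by
    intro y
    have h2 := BsB_op_inner C hU.1 B hB y y
    rw [hμ, _root_.smul_apply, one_apply_eq_self, real_inner_smul_left,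
      real_inner_self_eq_norm_sq] at h2
    rw [h2]
    exact Finset.sum_congr rfl fun g _ => (real_inner_self_eq_norm_sq _).symm
  have h3 : ∑ i, ∑ g : Γ, ‖B.starProjection (C.act g
      ((stdOrthonormalBasis ℝ U i : U) : EuclideanSpace ℝ ι))‖ ^ 2 = finrank ℝ U * μ := by
    rw [Finset.sum_congr rfl fun i _ => h1 (stdOrthonormalBasis ℝ U i)]
    simp
  rw [Finset.sum_comm, Finset.sum_congr rfl fun g _ => BsB_trace C hU.1 hB _ g] at h3
  rw [Finset.sum_const, nsmul_eq_mul, Finset.card_univ] at h3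
  have h4 := h1 ⟨x, hx⟩
  rw [Submodule.coe_norm] at h4
  change ∑ g : Γ, ‖B.starProjection (C.act g x)‖ ^ 2 = μ * ‖x‖ ^ 2 at h4
  rw [h4, h3]
  ring

/-- PROOF. For an orthonormal basis `a` of `A` and `W = A ⊓ B.map (act g) ≤ A`,
`finrank W = ∑_a ‖P_W a‖ ^ 2 ≤ ∑_a ‖P_{act g B} a‖ ^ 2 = ∑_a ‖P_B (act g⁻¹ a)‖ ^ 2`.  Sum over `g` and use
`avg_proj`: `∑_g finrank W_g ≤ finrank A * card Γ * finrank B / finrank U`. -/
theorem exists_small {U A B : Submodule ℝ (EuclideanSpace ℝ ι)} (hU : C.Mnl U) (hA : A ≤ U)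
    (hB : B ≤ U) : ∃ g : Γ, finrank ℝ (A ⊓ B.map (C.act g) : Submodule ℝ (EuclideanSpace ℝ ι))
      * finrank ℝ U ≤ finrank ℝ A * finrank ℝ B := by
  by_contra hcon
  push Not at hcon
  have key : ∀ g : Γ, (finrank ℝ (A ⊓ B.map (C.act g) : Submodule ℝ (EuclideanSpace ℝ ι)) : ℝ)
      ≤ ∑ i, ‖B.starProjection (C.act g⁻¹
        ((stdOrthonormalBasis ℝ A i : A) : EuclideanSpace ℝ ι))‖ ^ 2 := by
    intro g
    set W := A ⊓ B.map (C.act g) with hW
    set w := stdOrthonormalBasis ℝ W with hw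
    have hwA : ∀ j, ((w j : W) : EuclideanSpace ℝ ι) ∈ A := fun j => (w j).2.1
    have hwB : ∀ j, C.act g⁻¹ ((w j : W) : EuclideanSpace ℝ ι) ∈ B := by
      intro j
      obtain ⟨y, hy, hyj⟩ := (w j).2.2
      rw [← hyj, C.act_inv_act]
      exact hy
    have horth : Orthonormal ℝ (fun j => C.act g⁻¹ ((w j : W) : EuclideanSpace ℝ ι)) := by
      refine ⟨fun j => ?_, fun i j hij => ?_⟩
      · rw [C.norm_act, ← Submodule.coe_norm, w.norm_eq_one]
      · change inner ℝ (C.act g⁻¹ ((w i : W) : EuclideanSpace ℝ ι))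
          (C.act g⁻¹ ((w j : W) : EuclideanSpace ℝ ι)) = 0
        rw [C.inner_act, ← Submodule.coe_inner]
        exact w.orthonormal.2 hij
    have h1 : (finrank ℝ W : ℝ) = ∑ j, ∑ i, (inner ℝ
        ((stdOrthonormalBasis ℝ A i : A) : EuclideanSpace ℝ ι)
        ((w j : W) : EuclideanSpace ℝ ι)) ^ 2 := by
      rw [Finset.sum_congr rfl fun j _ => BsB_sum_sq (stdOrthonormalBasis ℝ A) (hwA j)]
      have h2 : ∀ j, ‖((w j : W) : EuclideanSpace ℝ ι)‖ ^ 2 = 1 := by
        intro j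
        rw [← Submodule.coe_norm, w.norm_eq_one, one_pow]
      rw [Finset.sum_congr rfl fun j _ => h2 j]
      simp
    rw [h1, Finset.sum_comm]
    refine Finset.sum_le_sum fun i _ => ?_
    set a := ((stdOrthonormalBasis ℝ A i : A) : EuclideanSpace ℝ ι)
    have h3 : ∀ j, (inner ℝ a ((w j : W) : EuclideanSpace ℝ ι)) ^ 2
        = ‖(inner ℝ (C.act g⁻¹ ((w j : W) : EuclideanSpace ℝ ι))
          (B.starProjection (C.act g⁻¹ a)) : ℝ)‖ ^ 2 := by
      intro j
      rw [← Submodule.inner_starProjection_left_eq_right,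
        Submodule.starProjection_eq_self_iff.2 (hwB j), C.inner_act, real_inner_comm,
        Real.norm_eq_abs, sq_abs]
    rw [Finset.sum_congr rfl fun j _ => h3 j]
    exact horth.sum_inner_products_le (B.starProjection (C.act g⁻¹ a)) (s := Finset.univ)
  have hsum : ∑ g : Γ, (finrank ℝ (A ⊓ B.map (C.act g) : Submodule ℝ (EuclideanSpace ℝ ι)) : ℝ)
      * finrank ℝ U ≤ Fintype.card Γ * (finrank ℝ A * finrank ℝ B) := by
    rw [← Finset.sum_mul]
    calc (∑ g : Γ, (finrank ℝ (A ⊓ B.map (C.act g) : Submodule ℝ (EuclideanSpace ℝ ι)) : ℝ))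
          * finrank ℝ U
        ≤ (∑ g : Γ, ∑ i, ‖B.starProjection (C.act g⁻¹
            ((stdOrthonormalBasis ℝ A i : A) : EuclideanSpace ℝ ι))‖ ^ 2) * finrank ℝ U :=
          mul_le_mul_of_nonneg_right (Finset.sum_le_sum fun g _ => key g) (Nat.cast_nonneg _)
      _ = ∑ i, (∑ g : Γ, ‖B.starProjection (C.act g
            ((stdOrthonormalBasis ℝ A i : A) : EuclideanSpace ℝ ι))‖ ^ 2) * finrank ℝ U := by
          rw [Finset.sum_comm, Finset.sum_mul]
          refine Finset.sum_congr rfl fun i _ => ?_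
          congr 1
          exact Fintype.sum_equiv (Equiv.inv Γ) _ _ fun g => rfl
      _ = ∑ _i : Fin (finrank ℝ A), ((Fintype.card Γ : ℝ) * finrank ℝ B) := by
          refine Finset.sum_congr rfl fun i _ => ?_
          rw [avg_proj C hU hB (hA (stdOrthonormalBasis ℝ A i).2), ← Submodule.coe_norm,
            (stdOrthonormalBasis ℝ A).norm_eq_one, one_pow, mul_one]
      _ = Fintype.card Γ * (finrank ℝ A * finrank ℝ B) := by
          rw [Finset.sum_const, Finset.card_univ, Fintype.card_fin, nsmul_eq_mul]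
          ring
  have hlt : ∑ _g : Γ, ((finrank ℝ A : ℝ) * finrank ℝ B)
      < ∑ g : Γ, (finrank ℝ (A ⊓ B.map (C.act g) : Submodule ℝ (EuclideanSpace ℝ ι)) : ℝ)
        * finrank ℝ U := by
    refine Finset.sum_lt_sum_of_nonempty ⟨1, Finset.mem_univ _⟩ fun g _ => ?_
    exact_mod_cast hcon g
  rw [Finset.sum_const, Finset.card_univ, nsmul_eq_mul] at hlt
  exact absurd (hlt.trans_le hsum) (lt_irrefl _)

end Pool.MP43e44c.GX
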