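import Pool.Agent.H.MP_43e44c_ag.GX.BsB

/-!
A small index of the kernel of a minimal subspace.
-/

set_option autoImplicit false

open Finset Module

namespace Pool.MP43e44c.GX

variable {Γ ι : Type*} [Group Γ] [Fintype Γ] [MulAction Γ ι] [Fintype ι] (C : Coc Γ ι)

theorem bsC_fix_le (U : Submodule ℝ (EuclideanSpace ℝ ι)) (H : Subgroup Γ) : fixU C U H ≤ U :=
  fun _ hu => hu.1

theorem bsC_fix_anti (U : Submodule ℝ (EuclideanSpace ℝ ι)) {H K : Subgroup Γ} (h : H ≤ K) :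
    fixU C U K ≤ fixU C U H := fun _ hu => ⟨hu.1, fun g hg => hu.2 g (h hg)⟩

theorem bsC_conj_fix {U : Submodule ℝ (EuclideanSpace ℝ ι)} (hU : C.Inv U) (H : Subgroup Γ) (g : Γ)
    {u : EuclideanSpace ℝ ι} (hu : u ∈ fixU C U H) :
    C.act g u ∈ fixU C U (H.map (MulAut.conj g : Γ ≃* Γ).toMonoidHom) := by
  refine ⟨hU g u hu.1, ?_⟩
  rintro x ⟨y, hy, rfl⟩
  have h1 : (MulAut.conj g : Γ ≃* Γ).toMonoidHom y = g * y * g⁻¹ := rfl
  rw [h1, C.act_mul, C.act_inv_act, C.act_mul, hu.2 y hy]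

theorem bsC_conj_index (H : Subgroup Γ) (g : Γ) :
    (H.map (MulAut.conj g : Γ ≃* Γ).toMonoidHom).index = H.index :=
  Subgroup.index_map_of_bijective (MulAut.conj g : Γ ≃* Γ).bijective H

/-- The step. -/
theorem bsC_step {U : Submodule ℝ (EuclideanSpace ℝ ι)} (hU : C.Mnl U) (i₀ : ι) {M d N : ℕ}
    (hM : (stb C i₀).index ≤ M) (hN : finrank ℝ U = N)
    (hd : finrank ℝ ((fixU C U (stb C i₀))ᗮ ⊓ U : Submodule ℝ (EuclideanSpace ℝ ι)) = d) (k : ℕ) :
    ∃ (H : Subgroup Γ) (A : Submodule ℝ (EuclideanSpace ℝ ι)), H.index ≤ M ^ (k + 1) ∧ A ≤ U ∧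
      finrank ℝ A * N ^ k ≤ d ^ (k + 1) ∧ (fixU C U H)ᗮ ⊓ U ≤ A := by
  induction k with
  | zero =>
    refine ⟨stb C i₀, (fixU C U (stb C i₀))ᗮ ⊓ U, by simpa using hM, inf_le_right, ?_, le_rfl⟩
    rw [hd]
    simp
  | succ k ih =>
    obtain ⟨H, A, h1, h2, h3, h4⟩ := ih
    obtain ⟨g, hg⟩ := exists_small C hU h2 (inf_le_right : (fixU C U (stb C i₀))ᗮ ⊓ U ≤ U)
    rw [hN, hd] at hg
    refine ⟨H ⊓ (stb C i₀).map (MulAut.conj g : Γ ≃* Γ).toMonoidHom,
      A ⊓ ((fixU C U (stb C i₀))ᗮ ⊓ U).map (C.act g), ?_, inf_le_left.trans h2, ?_, ?_⟩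
    · refine Subgroup.index_inf_le.trans ?_
      rw [bsC_conj_index, pow_succ M (k + 1)]
      exact Nat.mul_le_mul h1 hM
    · calc finrank ℝ (A ⊓ ((fixU C U (stb C i₀))ᗮ ⊓ U).map (C.act g) :
              Submodule ℝ (EuclideanSpace ℝ ι)) * N ^ (k + 1)
          = (finrank ℝ (A ⊓ ((fixU C U (stb C i₀))ᗮ ⊓ U).map (C.act g) :
              Submodule ℝ (EuclideanSpace ℝ ι)) * N) * N ^ k := by ring
        _ ≤ (finrank ℝ A * d) * N ^ k := Nat.mul_le_mul_right _ hg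
        _ = (finrank ℝ A * N ^ k) * d := by ring
        _ ≤ d ^ (k + 1) * d := Nat.mul_le_mul_right _ h3
        _ = d ^ (k + 1 + 1) := by ring
    · rintro x ⟨hx1, hx2⟩
      refine ⟨h4 ⟨?_, hx2⟩, C.act g⁻¹ x, ⟨?_, hU.1 _ _ hx2⟩, C.act_act_inv g x⟩
      · exact Submodule.orthogonal_le (bsC_fix_anti C U inf_le_left) hx1
      · intro f hf
        have h5 : C.act g f ∈
            fixU C U (H ⊓ (stb C i₀).map (MulAut.conj g : Γ ≃* Γ).toMonoidHom) :=
          bsC_fix_anti C U inf_le_right (bsC_conj_fix C hU.1 _ g hf)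
        have h6 := hx1 _ h5
        rw [C.inner_act_left] at h6
        exact h6

/-- PROOF. Let `i₀ : ι`, `F = fixU C U (stb C i₀)`, `B₀ = U ⊓ Fᗮ`, of dimension `d ≤ N - h` (`hom_le_fix`).  By
`exists_small` there are `g_0 = 1, g_1, …, g_B` such that `A_k = ⨅_{l ≤ k} act g_l B₀` satisfies
`finrank A_k * N ^ k ≤ d ^ (k+1)`; so `finrank A_B * N ^ B ≤ (N - h) ^ (B+1) < N ^ B` and `A_B = ⊥`.  The
intersection of the `B + 1` conjugates `g_l (stb i₀) g_l⁻¹` fixes the `act g_l F`, whose sum is `U` (its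
orthogonal complement in `U` is `A_B`), so it is contained in `kerU C U`; its index is at most the product
of the indices (`Subgroup.index_inf_le`), and a conjugate has the same index. -/
theorem base_index [MulAction.IsPretransitive Γ ι] [Nonempty ι]
    {U : Submodule ℝ (EuclideanSpace ℝ ι)} (hU : C.Mnl U) {N h B : ℕ} (hN : finrank ℝ U = N)
    (hh : finrank ℝ (C.Hom U) = h) (hB : (N - h) ^ (B + 1) < N ^ B) :
    (kerU C U).index ≤ (2 * Fintype.card ι) ^ (B + 1) := by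
  obtain ⟨i₀⟩ := (inferInstance : Nonempty ι)
  have hF := hom_le_fix C hU.1 i₀
  rw [hh] at hF
  have hsum := Submodule.finrank_add_inf_finrank_orthogonal (bsC_fix_le C U (stb C i₀))
  rw [hN] at hsum
  have hd : finrank ℝ ((fixU C U (stb C i₀))ᗮ ⊓ U : Submodule ℝ (EuclideanSpace ℝ ι)) ≤ N - h := by
    omega
  obtain ⟨H, A, h1, h2, h3, h4⟩ := bsC_step C hU i₀ (stb_index C i₀) hN rfl B
  have hA : finrank ℝ A = 0 := by
    by_contra hne
    have h5 : 1 ≤ finrank ℝ A := Nat.one_le_iff_ne_zero.2 hne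
    have h6 : N ^ B ≤ (N - h) ^ (B + 1) :=
      calc N ^ B = 1 * N ^ B := (one_mul _).symm
        _ ≤ finrank ℝ A * N ^ B := Nat.mul_le_mul_right _ h5
        _ ≤ _ := h3
        _ ≤ _ := Nat.pow_le_pow_left hd _
    exact absurd hB (not_lt.2 h6)
  have hbot : A = ⊥ := Submodule.finrank_eq_zero.1 hA
  have h7 : fixU C U H = U := by
    have h8 := Submodule.finrank_add_inf_finrank_orthogonal (bsC_fix_le C U H)
    have h9 : ((fixU C U H)ᗮ ⊓ U : Submodule ℝ (EuclideanSpace ℝ ι)) = ⊥ :=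
      eq_bot_iff.2 (hbot ▸ h4)
    rw [h9, finrank_bot, add_zero] at h8
    exact Submodule.eq_of_le_of_finrank_eq (bsC_fix_le C U H) h8
  have h10 : H ≤ kerU C U := by
    intro g hg u hu
    rw [← h7] at hu
    exact hu.2 g hg
  exact (Subgroup.index_antitone h10).trans h1

end Pool.MP43e44c.GX
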