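import Mathlib

/-!
Numerical lemmas for the alternatives of one component.
-/

set_option autoImplicit false

open Finset

namespace Pool.MP43e44c.GX

theorem cmp_ev (A : ℝ) : ∃ n₀ : ℕ, 8 ≤ n₀ ∧ ∀ n : ℕ, n₀ ≤ n →
    1 ≤ Real.log (Real.log n) ∧ A * (Real.log (Real.log n)) ^ 2 < Real.log n := by
  have h1 : Filter.Tendsto (fun n : ℕ => Real.log (n : ℝ)) Filter.atTop Filter.atTop :=
    Real.tendsto_log_atTop.comp tendsto_natCast_atTop_atTop
  have h2 : Filter.Tendsto (fun n : ℕ => Real.log (Real.log (n : ℝ))) Filter.atTop Filter.atTop :=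
    Real.tendsto_log_atTop.comp h1
  have h3 := (Real.isLittleO_pow_log_id_atTop (n := 2)).bound
    (show (0 : ℝ) < 1 / (|A| + 1) by positivity)
  have h4 := h1.eventually h3
  obtain ⟨n₁, hn₁⟩ := Filter.eventually_atTop.1 h4
  obtain ⟨n₂, hn₂⟩ := Filter.eventually_atTop.1 (h2.eventually_ge_atTop 1)
  obtain ⟨n₃, hn₃⟩ := Filter.eventually_atTop.1 (h1.eventually_gt_atTop 0)
  refine ⟨max 8 (max n₁ (max n₂ n₃)), le_max_left _ _, fun n hn => ?_⟩
  have e1 := hn₁ n ((le_max_left _ _).trans ((le_max_right _ _).trans hn))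
  have e2 := hn₂ n ((le_max_left _ _).trans ((le_max_right _ _).trans
    ((le_max_right _ _).trans hn)))
  have e3 := hn₃ n ((le_max_right _ _).trans ((le_max_right _ _).trans
    ((le_max_right _ _).trans hn)))
  refine ⟨e2, ?_⟩
  rw [Real.norm_of_nonneg (sq_nonneg _), id_eq, Real.norm_of_nonneg e3.le] at e1
  have e4 : A * (Real.log (Real.log n)) ^ 2 ≤ |A| * (1 / (|A| + 1) * Real.log n) :=
    (mul_le_mul_of_nonneg_right (le_abs_self A) (sq_nonneg _)).trans
      (mul_le_mul_of_nonneg_left e1 (abs_nonneg A))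
  refine e4.trans_lt ?_
  have e5 : |A| * (1 / (|A| + 1) * Real.log n) = (|A| / (|A| + 1)) * Real.log n := by ring
  rw [e5]
  have e6 : |A| / (|A| + 1) < 1 := by
    rw [div_lt_one (by positivity)]
    linarith
  calc |A| / (|A| + 1) * Real.log n < 1 * Real.log n := mul_lt_mul_of_pos_right e6 e3
    _ = Real.log n := one_mul _

theorem cmp_pow {N d : ℕ} (hd : 1 ≤ d) (h : 2 * d ≤ N) :
    d ^ (Nat.log 2 N + 1) < N ^ (Nat.log 2 N) := by
  set B := Nat.log 2 N with hB
  have h1 : N < 2 ^ (B + 1) := Nat.lt_pow_succ_log_self (by norm_num) N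
  have h2 : (2 * d) ^ (B + 1) ≤ N ^ (B + 1) := Nat.pow_le_pow_left h _
  rw [mul_pow] at h2
  have h3 : 0 < d ^ (B + 1) := pow_pos hd _
  have h4 : N * d ^ (B + 1) < 2 ^ (B + 1) * d ^ (B + 1) := Nat.mul_lt_mul_of_pos_right h1 h3
  have h5 : N * d ^ (B + 1) < N * N ^ B := by
    have : N ^ (B + 1) = N * N ^ B := by ring
    omega
  exact Nat.lt_of_mul_lt_mul_left h5

theorem cmp_log {n N g : ℕ} (hn : 8 ≤ n) (hN : N ≤ n) (hN1 : 1 ≤ N) (hg1 : 1 ≤ g)
    (hg : g ≤ (2 * n) ^ (Nat.log 2 N + 1)) : Real.log g ≤ 8 * (Real.log n) ^ 2 := by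
  have hn' : (8 : ℝ) ≤ n := by exact_mod_cast hn
  have hl2 : (0.69 : ℝ) ≤ Real.log 2 := by linarith [Real.log_two_gt_d9]
  have hl8 : Real.log 8 = 3 * Real.log 2 := by
    rw [show (8 : ℝ) = 2 ^ 3 by norm_num, Real.log_pow]
    norm_num
  have hL : 2 ≤ Real.log n := by
    have h1 : Real.log 8 ≤ Real.log n := Real.log_le_log (by norm_num) hn'
    linarith
  have hl2' : Real.log 2 ≤ 0.7 := by linarith [Real.log_two_lt_d9]
  have hB : (Nat.log 2 N : ℝ) * Real.log 2 ≤ Real.log n := by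
    have h1 : 2 ^ Nat.log 2 N ≤ N := Nat.pow_log_le_self 2 (by omega)
    have h2 : ((2 : ℝ)) ^ Nat.log 2 N ≤ n := by exact_mod_cast h1.trans hN
    have h3 := Real.log_le_log (by positivity) h2
    rwa [Real.log_pow] at h3
  have hB2 : (Nat.log 2 N : ℝ) ≤ 1.5 * Real.log n := by
    have h0 : (0 : ℝ) ≤ (Nat.log 2 N : ℝ) := Nat.cast_nonneg _
    nlinarith
  have hg' : (g : ℝ) ≤ (2 * n) ^ (Nat.log 2 N + 1) := by exact_mod_cast hg
  have hg0 : (0 : ℝ) < g := by exact_mod_cast hg1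
  have h1 := Real.log_le_log hg0 hg'
  rw [Real.log_pow, Real.log_mul (by norm_num) (by linarith)] at h1
  push_cast at h1
  refine h1.trans ?_
  have h2 : (Nat.log 2 N : ℝ) + 1 ≤ 2 * Real.log n := by linarith
  have h3 : Real.log 2 + Real.log n ≤ 2 * Real.log n := by linarith
  calc ((Nat.log 2 N : ℝ) + 1) * (Real.log 2 + Real.log n)
      ≤ (2 * Real.log n) * (2 * Real.log n) := by
        apply mul_le_mul h2 h3 (by linarith) (by linarith)
    _ ≤ 8 * (Real.log n) ^ 2 := by nlinarith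

/-- From the chain of subgroups: `w 2 ^ j ≤ 4 n` for all `j` with `j d < w`, and `n ≤ w (log n) ^ 40`. -/
theorem cmp_chain {n w d : ℕ} (hn : 8 ≤ n) (hl : 1 ≤ Real.log (Real.log n))
    (hw : (n : ℝ) ≤ w * (Real.log n) ^ 40) (hd : 1 ≤ d)
    (h : ∀ j : ℕ, 1 ≤ j → j * d < w → w * 2 ^ j ≤ 4 * n) :
    (w : ℝ) ≤ 63 * Real.log (Real.log n) * d := by
  have hn' : (8 : ℝ) ≤ n := by exact_mod_cast hn
  set L := Real.log n with hL
  have hLp : 0 < L := Real.log_pos (by linarith)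
  set l := Real.log L with hl'
  by_contra hcon
  push Not at hcon
  have hwp : (0 : ℝ) < w := by
    rcases Nat.eq_zero_or_pos w with h0 | h0
    · rw [h0] at hw
      norm_num at hw
      linarith
    · exact_mod_cast h0
  set j := ⌊60 * l⌋₊ + 3 with hj
  have hj1 : (j : ℝ) ≤ 63 * l := by
    have h1 := Nat.floor_le (show 0 ≤ 60 * l by linarith)
    rw [hj]
    push_cast
    linarith
  have hj2 : 60 * l + 2 ≤ (j : ℝ) := by
    have h1 := Nat.lt_floor_add_one (60 * l)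
    rw [hj]
    push_cast
    linarith
  have hjw : j * d < w := by
    have h1 : (j : ℝ) * d ≤ 63 * l * d :=
      mul_le_mul_of_nonneg_right hj1 (Nat.cast_nonneg _)
    have h2 : ((j * d : ℕ) : ℝ) < w := by
      push_cast
      linarith
    exact_mod_cast h2
  have h1 := h j (by omega) hjw
  have h2 : (w : ℝ) * 2 ^ j ≤ 4 * n := by exact_mod_cast h1
  have h3 : (w : ℝ) * 2 ^ j ≤ w * (4 * L ^ 40) := by
    refine h2.trans ?_
    have : (w : ℝ) * (4 * L ^ 40) = 4 * (w * L ^ 40) := by ring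
    rw [this]
    linarith
  have h4 : (2 : ℝ) ^ j ≤ 4 * L ^ 40 := le_of_mul_le_mul_left h3 hwp
  have h5 := Real.log_le_log (by positivity) h4
  rw [Real.log_pow, Real.log_mul (by norm_num) (by positivity), Real.log_pow] at h5
  have hl4 : Real.log 4 = 2 * Real.log 2 := by
    rw [show (4 : ℝ) = 2 ^ 2 by norm_num, Real.log_pow]
    norm_num
  have hl2 : (0.69 : ℝ) ≤ Real.log 2 := by linarith [Real.log_two_gt_d9]
  rw [hl4] at h5
  push_cast at h5
  have h6 : (60 * l + 2) * Real.log 2 ≤ j * Real.log 2 :=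
    mul_le_mul_of_nonneg_right hj2 (by linarith)
  nlinarith

end Pool.MP43e44c.GX
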