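import Pool.Agent.H.MP_43e44c_ag.GX.Dim

/-!
Chains of subgroups generated by conjugates.
-/

set_option autoImplicit false

open Finset Module

namespace Pool.MP43e44c.GX

open Pool.MP43e44c.OD

universe u v

section

variable {k : Type} [Field k] {G : Type u} [Group G] [Fintype G] (W : WD k G) (i : Fin W.m)

/-- The right action of the group on the rows. -/
private noncomputable def Kfr_a (g : G) :
    (Fin (W.r i) → W.D i) →ₗ[k] (Fin (W.r i) → W.D i) where
  toFun u := Matrix.vecMul u (W.comp i (MonoidAlgebra.single g 1))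
  map_add' u v := Matrix.add_vecMul _ _ _
  map_smul' r u := by
    rw [Matrix.smul_vecMul]
    rfl

private theorem Kfr_a_apply (g : G) (u : Fin (W.r i) → W.D i) :
    Kfr_a W i g u = Matrix.vecMul u (W.comp i (MonoidAlgebra.single g 1)) := rfl

private theorem Kfr_a_mul (g h : G) (u : Fin (W.r i) → W.D i) :
    Kfr_a W i (g * h) u = Kfr_a W i h (Kfr_a W i g u) := by
  rw [Kfr_a_apply, Kfr_a_apply, Kfr_a_apply, Matrix.vecMul_vecMul, ← map_mul,
    MonoidAlgebra.single_mul_single, one_mul]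

private theorem Kfr_a_one (u : Fin (W.r i) → W.D i) : Kfr_a W i 1 u = u := by
  rw [Kfr_a_apply]
  have h : (MonoidAlgebra.single (1 : G) (1 : k)) = 1 := rfl
  rw [h, map_one, Matrix.vecMul_one]

/-- The rows fixed by a subgroup. -/
private noncomputable def Kfr_F (J : Subgroup G) : Submodule k (Fin (W.r i) → W.D i) where
  carrier := {u | ∀ g ∈ J, Kfr_a W i g u = u}
  zero_mem' := fun g _ => map_zero _
  add_mem' := fun {a b} ha hb g hg => by rw [map_add, ha g hg, hb g hg]
  smul_mem' := fun r a ha g hg => by rw [map_smul, ha g hg]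

private theorem Kfr_mem {J : Subgroup G} {u : Fin (W.r i) → W.D i} :
    u ∈ Kfr_F W i J ↔ ∀ g ∈ J, Kfr_a W i g u = u := Iff.rfl

/-- The stabilizer of a set of rows. -/
private def Kfr_st (F : Submodule k (Fin (W.r i) → W.D i)) : Subgroup G where
  carrier := {g | ∀ u ∈ F, Kfr_a W i g u = u}
  mul_mem' := fun {g h} hg hh u hu => by rw [Kfr_a_mul, hg u hu, hh u hu]
  one_mem' := fun u _ => Kfr_a_one W i u
  inv_mem' := fun {g} hg u hu => by
    have h1 := Kfr_a_mul W i g g⁻¹ u
    rw [mul_inv_cancel, Kfr_a_one, hg u hu] at h1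
    exact h1.symm

private theorem Kfr_stable {F : Submodule k (Fin (W.r i) → W.D i)}
    (hF : ∀ g, ∀ u ∈ F, Kfr_a W i g u ∈ F) (x : MonoidAlgebra k G) :
    ∀ u ∈ F, Matrix.vecMul u (W.comp i x) ∈ F := by
  intro u hu
  induction x using MonoidAlgebra.induction_linear with
  | zero =>
    rw [map_zero, Matrix.vecMul_zero]
    exact F.zero_mem
  | add x y hx hy =>
    rw [map_add, Matrix.vecMul_add]
    exact F.add_mem hx hy
  | single g r =>
    have h1 : MonoidAlgebra.single g r = r • MonoidAlgebra.single g (1 : k) := by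
      rw [MonoidAlgebra.smul_single, smul_eq_mul, mul_one]
    rw [h1, map_smul, Matrix.vecMul_smul]
    exact F.smul_mem _ (hF g u hu)

private theorem Kfr_top {F : Submodule k (Fin (W.r i) → W.D i)}
    (hF : ∀ g, ∀ u ∈ F, Kfr_a W i g u ∈ F) (h0 : F ≠ ⊥) : F = ⊤ := by
  obtain ⟨u, hu, hu0⟩ := F.exists_mem_ne_zero_of_ne_bot h0
  obtain ⟨a, ha⟩ := Function.ne_iff.1 hu0
  rw [Pi.zero_apply] at ha
  rw [eq_top_iff]
  intro v _
  obtain ⟨x, hx, -⟩ := W.exists_comp i (fun c b => if c = a then (u a)⁻¹ * v b else 0)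
  have h1 := Kfr_stable W i hF x u hu
  have h2 : Matrix.vecMul u (W.comp i x) = v := by
    rw [hx]
    funext b
    rw [Matrix.vecMul, dotProduct, Finset.sum_eq_single a]
    · show u a * (if a = a then (u a)⁻¹ * v b else 0) = v b
      rw [if_pos rfl, mul_inv_cancel_left₀ ha]
    · intro c _ hc
      show u c * (if c = a then (u a)⁻¹ * v b else 0) = 0
      rw [if_neg hc, mul_zero]
    · intro h
      exact absurd (mem_univ _) h
  rwa [h2] at h1

/-- The conjugate `g⁻¹ S g`. -/
private def Kfr_c (S : Subgroup G) (g : G) : Subgroup G := S.comap (MulAut.conj g).toMonoidHom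

private theorem Kfr_mem_c {S : Subgroup G} {g x : G} : x ∈ Kfr_c S g ↔ g * x * g⁻¹ ∈ S := Iff.rfl

private theorem Kfr_finrank_c (S : Subgroup G) (g : G) :
    finrank k (Kfr_F W i S) ≤ finrank k (Kfr_F W i (Kfr_c S g)) := by
  let L : Kfr_F W i S →ₗ[k] Kfr_F W i (Kfr_c S g) :=
    LinearMap.restrict (Kfr_a W i g) (fun u hu x hx => by
      have h1 : g * x = (g * x * g⁻¹) * g := by group
      rw [← Kfr_a_mul, h1, Kfr_a_mul, hu _ (Kfr_mem_c.1 hx)])
  refine LinearMap.finrank_le_finrank_of_injective (f := L) ?_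
  intro u v huv
  apply Subtype.ext
  have h1 : Kfr_a W i g (u : Fin (W.r i) → W.D i) = Kfr_a W i g v := congrArg Subtype.val huv
  have h2 : ∀ z, Kfr_a W i g⁻¹ (Kfr_a W i g z) = z := fun z => by
    rw [← Kfr_a_mul, mul_inv_cancel, Kfr_a_one]
  rw [← h2 u, h1, h2]

private theorem Kfr_finrank_top :
    finrank k (Fin (W.r i) → W.D i) = W.r i * finrank k (W.D i) := by
  rw [Module.finrank_pi_fintype, Finset.sum_const, Finset.card_univ, Fintype.card_fin,
    smul_eq_mul]

private theorem Kfr_step (S J : Subgroup G) (hS : Kfr_F W i S ≠ ⊤) (hJ : Kfr_F W i J ≠ ⊥) :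
    ∃ J' : Subgroup G, 2 * Nat.card J ≤ Nat.card J' ∧
      finrank k (Kfr_F W i J) + finrank k (Kfr_F W i S) ≤
        finrank k (Kfr_F W i J') + W.r i * finrank k (W.D i) := by
  have h1 : ∃ g, ¬ Kfr_c S g ≤ Kfr_st W i (Kfr_F W i J) := by
    by_contra hcon
    push Not at hcon
    let F : Submodule k (Fin (W.r i) → W.D i) := ⨅ g, Kfr_F W i (Kfr_c S g)
    have hmem : ∀ u, u ∈ F ↔ ∀ g, u ∈ Kfr_F W i (Kfr_c S g) := fun u => Submodule.mem_iInf _
    have hle : Kfr_F W i J ≤ F := fun u hu => (hmem u).2 fun g x hx => hcon g hx u hu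
    have hF0 : F ≠ ⊥ := fun h => hJ (le_bot_iff.1 (h ▸ hle))
    have hst : ∀ h, ∀ u ∈ F, Kfr_a W i h u ∈ F := by
      intro h u hu
      rw [hmem] at hu ⊢
      intro g x hx
      have e1 : h * x = (h * x * h⁻¹) * h := by group
      rw [← Kfr_a_mul, e1, Kfr_a_mul, hu (g * h⁻¹) (h * x * h⁻¹) ?_]
      rw [Kfr_mem_c] at hx ⊢
      have e2 : g * h⁻¹ * (h * x * h⁻¹) * (g * h⁻¹)⁻¹ = g * x * g⁻¹ := by group
      rw [e2]
      exact hx
    have htop := Kfr_top W i hst hF0
    apply hS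
    rw [eq_top_iff, ← htop]
    intro u hu s hs
    refine (hmem u).1 hu 1 s ?_
    rw [Kfr_mem_c, one_mul, inv_one, mul_one]
    exact hs
  obtain ⟨g, hg⟩ := h1
  refine ⟨J ⊔ Kfr_c S g, ?_, ?_⟩
  · have hle : J ≤ J ⊔ Kfr_c S g := le_sup_left
    obtain ⟨l, hk⟩ := Subgroup.card_dvd_of_le hle
    have hpos : 0 < Nat.card J := Nat.card_pos
    have hne : J ⊔ Kfr_c S g ≠ J := by
      intro h
      apply hg
      intro x hx u hu
      have h2 : x ∈ J := by
        rw [← h]
        exact (le_sup_right : Kfr_c S g ≤ J ⊔ Kfr_c S g) hx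
      exact hu x h2
    have hk2 : 2 ≤ l := by
      by_contra hk2
      have hk3 : l = 0 ∨ l = 1 := by omega
      rcases hk3 with rfl | rfl
      · rw [mul_zero] at hk
        have : 0 < Nat.card (J ⊔ Kfr_c S g : Subgroup G) := Nat.card_pos
        omega
      · rw [mul_one] at hk
        exact hne (Subgroup.eq_of_le_of_card_ge hle hk.le).symm
    rw [hk]
    nlinarith
  · have hF : Kfr_F W i J ⊓ Kfr_F W i (Kfr_c S g) ≤ Kfr_F W i (J ⊔ Kfr_c S g) := by
      rintro u ⟨hu1, hu2⟩
      have h2 : J ⊔ Kfr_c S g ≤ Kfr_st W i (Submodule.span k {u}) := by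
        refine sup_le (fun x hx v hv => ?_) (fun x hx v hv => ?_)
        · obtain ⟨r, rfl⟩ := Submodule.mem_span_singleton.1 hv
          rw [map_smul, hu1 x hx]
        · obtain ⟨r, rfl⟩ := Submodule.mem_span_singleton.1 hv
          rw [map_smul, hu2 x hx]
      intro x hx
      exact h2 hx u (Submodule.mem_span_singleton_self u)
    have h3 := Submodule.finrank_mono hF
    have h4 := Submodule.finrank_sup_add_finrank_inf_eq (Kfr_F W i J) (Kfr_F W i (Kfr_c S g))
    have h5 := Submodule.finrank_le (Kfr_F W i J ⊔ Kfr_F W i (Kfr_c S g))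
    rw [Kfr_finrank_top] at h5
    have h6 := Kfr_finrank_c W i S g
    omega

private theorem Kfr_claim (S : Subgroup G) (d : ℕ)
    (hd : W.r i * finrank k (W.D i) ≤ finrank k (Kfr_F W i S) + d)
    (hS : Kfr_F W i S ≠ ⊤) (j : ℕ) (hj : (j + 1) * d < W.r i * finrank k (W.D i)) :
    ∃ J : Subgroup G, 2 ^ j * Nat.card S ≤ Nat.card J ∧
      W.r i * finrank k (W.D i) ≤ finrank k (Kfr_F W i J) + (j + 1) * d := by
  induction j with
  | zero => exact ⟨S, by simp, by simpa using hd⟩
  | succ j ih =>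
    have e1 : (j + 1 + 1) * d = (j + 1) * d + d := by ring
    rw [e1] at hj
    obtain ⟨J, h1, h2⟩ := ih (by omega)
    have hJ : Kfr_F W i J ≠ ⊥ := by
      intro h
      rw [h, finrank_bot] at h2
      omega
    obtain ⟨J', h3, h4⟩ := Kfr_step W i S J hS hJ
    refine ⟨J', ?_, ?_⟩
    · rw [pow_succ]
      calc 2 ^ j * 2 * Nat.card S = 2 * (2 ^ j * Nat.card S) := by ring
        _ ≤ 2 * Nat.card J := Nat.mul_le_mul_left _ h1
        _ ≤ Nat.card J' := h3
    · rw [e1]
      omega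

private theorem Kfr_index (J : Subgroup G) (hJ : Kfr_F W i J ≠ ⊥) :
    W.r i * finrank k (W.D i) ≤ J.index := by
  classical
  obtain ⟨u, hu, hu0⟩ := (Kfr_F W i J).exists_mem_ne_zero_of_ne_bot hJ
  let f : G ⧸ J → (Fin (W.r i) → W.D i) := fun q => Kfr_a W i (q.out)⁻¹ u
  have hf : ∀ g, ∃ q, f q = Kfr_a W i g u := by
    intro g
    refine ⟨((g⁻¹ : G) : G ⧸ J), ?_⟩
    obtain ⟨x, hx⟩ := QuotientGroup.mk_out_eq_mul J g⁻¹
    show Kfr_a W i (((g⁻¹ : G) : G ⧸ J).out)⁻¹ u = _
    rw [hx, mul_inv_rev, inv_inv, Kfr_a_mul, hu _ (J.inv_mem x.2)]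
  have hspan : Submodule.span k (Set.range f) = ⊤ := by
    refine Kfr_top W i ?_ ?_
    · intro h v hv
      induction hv using Submodule.span_induction with
      | mem v hv =>
        obtain ⟨q, rfl⟩ := hv
        obtain ⟨q', hq'⟩ := hf ((q.out)⁻¹ * h)
        have h1 : Kfr_a W i h (f q) = f q' := by
          rw [hq', Kfr_a_mul]
        rw [h1]
        exact Submodule.subset_span ⟨q', rfl⟩
      | zero => rw [map_zero]; exact Submodule.zero_mem _
      | add v w _ _ hv hw => rw [map_add]; exact Submodule.add_mem _ hv hw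
      | smul r v _ hv => rw [map_smul]; exact Submodule.smul_mem _ _ hv
    · intro h
      obtain ⟨q, hq⟩ := hf 1
      rw [Kfr_a_one] at hq
      have h1 : u ∈ Submodule.span k (Set.range f) := by
        rw [← hq]
        exact Submodule.subset_span ⟨q, rfl⟩
      rw [h, Submodule.mem_bot] at h1
      exact hu0 h1
  have h1 := finrank_range_le_card (R := k) f
  rw [Set.finrank, hspan, finrank_top, Kfr_finrank_top] at h1
  rwa [Subgroup.index_eq_card, Nat.card_eq_fintype_card]

end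

namespace TS

variable {G : Type u} [Group G] {ι : Type v} (T : TS G ι) [Fintype G] [Fintype ι]

/-- PROOF. Write `M = (Fin r → D)` (rows) with the right action of `G` by `comp i (single g 1)`, of dimension
`w = r * finrank D` over `ℚ`, and for a subgroup `J` let `M^J` be the subspace of the rows fixed by `J`; `M^S = fixR` has
codimension `d = w - be`; `M^(g⁻¹ S g) = M^S * g`.  CLAIM: for `j ≥ 1` with `j d < w` there is a subgroup `J` with
`card J ≥ 2 ^ (j - 1) * cS` and codimension of `M^J` at most `j d`.  `j = 1`: `J = S`.  Step: `M^J` is not zero.  If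
all conjugates of `S` fixed `M^J` pointwise then `M^N ≠ 0`, `N` the normal closure of `S`; `M^N` is stable under `G`,
so it is all of `M` (`comp i` is surjective, `u * M_r(D)` is everything for a row `u ≠ 0`), and `be = w`, a contradiction to `hf`.  So some conjugate
`S' = g⁻¹ S g` is not contained in the pointwise stabilizer of `M^J`; `J' = J ⊔ S'` is strictly larger, so
`card J' ≥ 2 card J` (Lagrange), and `M^(J') = M^J ⊓ M^(S')` has codimension at most `(j + 1) d`.
CONCLUSION: for `j d < w` let `0 ≠ u ∈ M^J`.  The `u * comp i (single g 1)`, `g ∈ G`, span `M` over `ℚ` and depend only on the coset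
`J g`, so `w ≤ [G : J]`.  Hence `w * 2 ^ (j - 1) * cS ≤ card G ≤ 2 cS card ι` (`card_eq`, `bl ≥ 1`). -/
theorem kfour (W : WD ℚ G) {i : Fin W.m} (hf : T.be W i < W.r i * finrank ℚ (W.D i)) {j : ℕ}
    (hj : 1 ≤ j) (hd : j * (W.r i * finrank ℚ (W.D i) - T.be W i) < W.r i * finrank ℚ (W.D i)) :
    W.r i * finrank ℚ (W.D i) * 2 ^ j ≤ 4 * Fintype.card ι := by
  have e0 : Kfr_F W i T.S = T.fixR W i := rfl
  have hbe : finrank ℚ (Kfr_F W i T.S) = T.be W i := by rw [e0]; rfl
  obtain ⟨k, rfl⟩ : ∃ k, j = k + 1 := ⟨j - 1, by omega⟩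
  have hS : Kfr_F W i T.S ≠ ⊤ := by
    intro h
    rw [h, finrank_top, Kfr_finrank_top] at hbe
    omega
  obtain ⟨J, h1, h2⟩ := Kfr_claim W i T.S _ (by rw [hbe]; omega) hS k hd
  have hJ : Kfr_F W i J ≠ ⊥ := by
    intro h
    rw [h, finrank_bot] at h2
    omega
  have h3 := Kfr_index W i J hJ
  have h4 : J.index * Nat.card J = Nat.card G := J.index_mul_card
  have h5 := T.card_eq
  rw [← Nat.card_eq_fintype_card (α := G)] at h5
  have hpos : 0 < T.cS := Nat.card_pos
  have hbl := T.bl_pos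
  have h6 : Nat.card G ≤ 2 * T.cS * Fintype.card ι := by
    rw [← h5]
    exact Nat.le_mul_of_pos_left _ hbl
  have h7 : W.r i * finrank ℚ (W.D i) * (2 ^ k * T.cS) ≤ 2 * T.cS * Fintype.card ι :=
    calc W.r i * finrank ℚ (W.D i) * (2 ^ k * T.cS) ≤ J.index * Nat.card J :=
          Nat.mul_le_mul h3 h1
      _ ≤ _ := by rw [h4]; exact h6
  have h8 : W.r i * finrank ℚ (W.D i) * 2 ^ k ≤ 2 * Fintype.card ι := by
    refine Nat.le_of_mul_le_mul_right ?_ hpos
    calc W.r i * finrank ℚ (W.D i) * 2 ^ k * T.cS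
        = W.r i * finrank ℚ (W.D i) * (2 ^ k * T.cS) := by ring
      _ ≤ 2 * T.cS * Fintype.card ι := h7
      _ = 2 * Fintype.card ι * T.cS := by ring
  rw [pow_succ]
  calc W.r i * finrank ℚ (W.D i) * (2 ^ k * 2)
      = 2 * (W.r i * finrank ℚ (W.D i) * 2 ^ k) := by ring
    _ ≤ 2 * (2 * Fintype.card ι) := Nat.mul_le_mul_left _ h8
    _ = 4 * Fintype.card ι := by ring

end TS

end Pool.MP43e44c.GX
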