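import Pool.Agent.H.MP_43e44c_ag.GX.Row
import Pool.Agent.H.MP_43e44c_ag.GX.BgP

/-!
The bound from one prime in numerical form.
-/

set_option autoImplicit false

open Finset Module

namespace Pool.MP43e44c.GX

open Pool.MP43e44c.OD

universe u v

namespace TS

/-- `q ^ f u ^ e ≤ (6 S) ^ 3` for `u ≤ q ≤ 1`, `q ≤ 6 S`, `3 ≤ f + e`. -/
theorem Lvl_pow {q u S : ℝ} {f e : ℕ} (hu : 0 ≤ u) (huq : u ≤ q) (hq1 : q ≤ 1)
    (hqS : q ≤ 6 * S) (he : 3 ≤ f + e) : q ^ f * u ^ e ≤ 216 * S ^ 3 := by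
  have hq0 : 0 ≤ q := hu.trans huq
  calc q ^ f * u ^ e ≤ q ^ f * q ^ e :=
        mul_le_mul_of_nonneg_left (pow_le_pow_left₀ hu huq e) (pow_nonneg hq0 f)
    _ = q ^ (f + e) := (pow_add q f e).symm
    _ ≤ q ^ 3 := pow_le_pow_of_le_one hq0 hq1 he
    _ ≤ (6 * S) ^ 3 := pow_le_pow_left₀ hq0 hqS 3
    _ = 216 * S ^ 3 := by ring

/-- `0 ≤ √(a f) log (6 √(a f)) / n`. -/
theorem Lvl_nn {k : ℝ} (hk : 1 ≤ k) (n : ℕ) :
    0 ≤ Real.sqrt k * Real.log (6 * Real.sqrt k) / (n : ℝ) := by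
  have h1 : 1 ≤ Real.sqrt k := Real.one_le_sqrt.2 hk
  have h2 : 0 ≤ Real.log (6 * Real.sqrt k) := Real.log_nonneg (by linarith)
  positivity

/-- `levJ` with `exists_p`; `(3 / (2p)) ^ f (1/p) ^ e ≤ (3 / (2p)) ^ (f + e) ≤ (3 / (2p)) ^ 3`. -/
theorem lvl3 (C : ℝ) : ∃ C' : ℝ, 0 < C' ∧ ∃ n₀ : ℕ, ∀ {G : Type u} [Group G] {ι : Type v}
    (T : TS G ι) [Fintype G] [Fintype ι] (W : WD ℚ G) (i : Fin W.m), T.Odd W i →
    n₀ ≤ Fintype.card ι →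
    Real.log (Fintype.card G) ≤ 8 * (Real.log (Fintype.card ι)) ^ 2 →
    W.a i ≤ 2 * Fintype.card ι → W.f i ≤ C * Real.log (Fintype.card ι) → ∀ e : ℕ, 3 ≤ W.f i + e →
    (e = 0 ∨ (e = 1 ∧ T.bb W i < W.a i) ∨ (e = 2 ∧ T.bb W i < W.a i ∧ W.f i = 1 ∧
      ∀ x : ℕ, ¬ (W.a i = (x + 1) ^ 2 ∧ T.bb W i = (x + 1) * x))) →
    (((T.badI W i).ncard : ℕ) : ℝ) ≤ C' *
      (Real.sqrt (W.a i * W.f i) * Real.log (6 * Real.sqrt (W.a i * W.f i)) / Fintype.card ι) ^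
        (3 / 2 : ℝ) * 2 ^ Fintype.card ι := by
  obtain ⟨n₀, hn₀⟩ := exists_p C
  refine ⟨432, by norm_num, n₀, ?_⟩
  intro G _ ι T _ _ W i hi hn hg ha hf e he hc
  have hf1 : 1 ≤ W.f i := W.f_pos i
  have hfa : W.f i ≤ W.a i := W.f_le_a i
  obtain ⟨p, hpr, hp2, hpg, hpn, hpY, hp1⟩ := hn₀ (Fintype.card ι) (Fintype.card G) (W.a i)
    (W.f i) hn Fintype.card_pos hg hf1 hfa ha hf
  have : Fact p.Prime := ⟨hpr⟩
  have hp0 : (0 : ℝ) < p := by exact_mod_cast hpr.pos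
  have h1 := T.levJ hp2 hpg W hi hpn hc
  have haf : (1 : ℝ) ≤ (W.a i : ℝ) * W.f i := by
    have h2 : 1 ≤ W.a i * W.f i := Nat.mul_pos (hf1.trans hfa) hf1
    exact_mod_cast h2
  obtain ⟨Y, hY⟩ : ∃ Y : ℝ, Y = Real.sqrt (W.a i * W.f i) *
    Real.log (6 * Real.sqrt (W.a i * W.f i)) / Fintype.card ι := ⟨_, rfl⟩
  have hY0 : 0 ≤ Y := by
    rw [hY]
    exact Lvl_nn haf _
  rw [← hY] at hpY ⊢
  have hq : 3 / (2 * (p : ℝ)) = 3 / 2 * (1 / p) := by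
    field_simp
  have hu : 0 ≤ 1 / (p : ℝ) := by positivity
  have h3 := Lvl_pow (f := W.f i) (e := e) hu (by rw [hq]; linarith) hp1
    (by rw [hq]; linarith : 3 / (2 * (p : ℝ)) ≤ 6 * Real.sqrt Y) he
  have h4 : Real.sqrt Y ^ 3 = Y ^ (3 / 2 : ℝ) := by
    rw [Real.sqrt_eq_rpow, ← Real.rpow_natCast, ← Real.rpow_mul hY0]
    norm_num
  rw [h4] at h3
  have h5 : (0 : ℝ) < 2 ^ Fintype.card ι := by positivity
  calc (((T.badI W i).ncard : ℕ) : ℝ)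
      ≤ 2 * (3 / (2 * p)) ^ W.f i * (1 / p) ^ e * 2 ^ Fintype.card ι := h1
    _ = 2 * ((3 / (2 * (p : ℝ))) ^ W.f i * (1 / p) ^ e) * 2 ^ Fintype.card ι := by ring
    _ ≤ 2 * (216 * Y ^ (3 / 2 : ℝ)) * 2 ^ Fintype.card ι := by gcongr
    _ = 432 * Y ^ (3 / 2 : ℝ) * 2 ^ Fintype.card ι := by ring

/-- `f = 1`, `e = 1`: `levJ` with `exists_p`. -/
theorem lvl2 : ∃ C' : ℝ, 0 < C' ∧ ∃ n₀ : ℕ, ∀ {G : Type u} [Group G] {ι : Type v}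
    (T : TS G ι) [Fintype G] [Fintype ι] (W : WD ℚ G) (i : Fin W.m), T.Odd W i →
    n₀ ≤ Fintype.card ι →
    Real.log (Fintype.card G) ≤ 8 * (Real.log (Fintype.card ι)) ^ 2 →
    W.a i ≤ 2 * Fintype.card ι → W.f i = 1 → T.bb W i < W.a i →
    (((T.badI W i).ncard : ℕ) : ℝ) ≤ C' *
      (Real.sqrt (W.a i) * Real.log (6 * Real.sqrt (W.a i)) / Fintype.card ι) *
        2 ^ Fintype.card ι := by
  obtain ⟨n₀, hn₀⟩ := exists_p 1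
  refine ⟨48, by norm_num, max n₀ 3, ?_⟩
  intro G _ ι T _ _ W i hi hn hg ha hf hb
  have hf1 : 1 ≤ W.f i := W.f_pos i
  have hfa : W.f i ≤ W.a i := W.f_le_a i
  have hn3 : 3 ≤ Fintype.card ι := (le_max_right _ _).trans hn
  have hlog : (W.f i : ℝ) ≤ 1 * Real.log (Fintype.card ι) := by
    rw [hf, Nat.cast_one, one_mul, Real.le_log_iff_exp_le (by positivity)]
    have h2 := Real.exp_one_lt_d9
    have h3 : (3 : ℝ) ≤ Fintype.card ι := by exact_mod_cast hn3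
    linarith
  obtain ⟨p, hpr, hp2, hpg, hpn, hpY, hp1⟩ := hn₀ (Fintype.card ι) (Fintype.card G) (W.a i)
    (W.f i) ((le_max_left _ _).trans hn) Fintype.card_pos hg hf1 hfa ha hlog
  have : Fact p.Prime := ⟨hpr⟩
  have hp0 : (0 : ℝ) < p := by exact_mod_cast hpr.pos
  have h1 := T.levJ hp2 hpg W hi hpn (e := 1) (Or.inr (Or.inl ⟨rfl, hb⟩))
  have haf : (1 : ℝ) ≤ (W.a i : ℝ) := by
    exact_mod_cast hf1.trans hfa
  rw [hf, Nat.cast_one, mul_one] at hpY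
  rw [hf, pow_one, pow_one] at h1
  obtain ⟨Y, hY⟩ : ∃ Y : ℝ, Y = Real.sqrt (W.a i) *
    Real.log (6 * Real.sqrt (W.a i)) / Fintype.card ι := ⟨_, rfl⟩
  have hY0 : 0 ≤ Y := by
    rw [hY]
    exact Lvl_nn haf _
  rw [← hY] at hpY ⊢
  have hu : 0 ≤ 1 / (p : ℝ) := by positivity
  have h3 : (1 / (p : ℝ)) * (1 / p) ≤ 16 * Y := by
    calc (1 / (p : ℝ)) * (1 / p) ≤ (4 * Real.sqrt Y) * (4 * Real.sqrt Y) := by gcongr
      _ = 16 * (Real.sqrt Y * Real.sqrt Y) := by ring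
      _ = 16 * Y := by rw [Real.mul_self_sqrt hY0]
  have h5 : (0 : ℝ) < 2 ^ Fintype.card ι := by positivity
  have hq : 3 / (2 * (p : ℝ)) = 3 / 2 * (1 / p) := by
    field_simp
  calc (((T.badI W i).ncard : ℕ) : ℝ)
      ≤ 2 * (3 / (2 * p)) * (1 / p) * 2 ^ Fintype.card ι := h1
    _ = 3 * ((1 / (p : ℝ)) * (1 / p)) * 2 ^ Fintype.card ι := by rw [hq]; ring
    _ ≤ 3 * (16 * Y) * 2 ^ Fintype.card ι := by gcongr
    _ = 48 * Y * 2 ^ Fintype.card ι := by ring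

end TS

end Pool.MP43e44c.GX
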