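import Pool.Agent.H.MP_43e44c_ag.OD.WdC

/-!
Integral representations attached to the components.
-/

set_option autoImplicit false

open Finset Module

namespace Pool.MP43e44c.GX

open Pool.MP43e44c.OD

universe u v

theorem RfI_gen {G : Type u} [Group G] [Fintype G] {V : Type v} [AddCommGroup V] [Module ℚ V]
    [Module.Finite ℚ V] (A : G → V →ₗ[ℚ] V) (h1 : A 1 = LinearMap.id)
    (hm : ∀ g h u, A (g * h) u = A h (A g u)) :
    ∃ (ρ : G →* Matrix (Fin (finrank ℚ V)) (Fin (finrank ℚ V)) ℤ) (P : V ≃ₗ[ℚ] (Fin (finrank ℚ V) → ℚ)),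
      ∀ g u, P (A g u) = Matrix.vecMul (P u) ((ρ g).map (Int.cast : ℤ → ℚ)) := by
  classical
  let b := Module.finBasis ℚ V
  let L : Submodule ℤ V := Submodule.span ℤ (Set.range fun p : G × Fin (finrank ℚ V) => A p.1 (b p.2))
  have hLfin : Module.Finite ℤ L := Module.Finite.span_of_finite ℤ (Set.finite_range _)
  have hstab : ∀ g, ∀ x ∈ L, A g x ∈ L := by
    intro g x hx
    refine Submodule.span_induction ?_ ?_ ?_ ?_ hx
    · rintro _ ⟨p, rfl⟩
      apply Submodule.subset_span
      refine ⟨(p.1 * g, p.2), ?_⟩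
      show A (p.1 * g) (b p.2) = A g (A p.1 (b p.2))
      rw [hm]
    · rw [map_zero]
      exact L.zero_mem
    · intro x y _ _ hx hy
      rw [map_add]
      exact L.add_mem hx hy
    · intro n x _ hx
      rw [map_zsmul]
      exact L.smul_mem n hx
  have hbL : ∀ a, b a ∈ L := by
    intro a
    apply Submodule.subset_span
    refine ⟨(1, a), ?_⟩
    show A 1 (b a) = b a
    rw [h1, LinearMap.id_apply]
  have hat : IsAddTorsionFree V := .of_module_rat V
  have htf : Module.IsTorsionFree ℤ L := inferInstance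
  have hfree : Module.Free ℤ L := inferInstance
  let c := Module.finBasis ℤ L
  let v : Fin (finrank ℤ L) → V := fun k => (c k : V)
  have hvZ : LinearIndependent ℤ v := by
    have h2 := c.linearIndependent
    exact h2.map' L.subtype (Submodule.ker_subtype L)
  have hvQ : LinearIndependent ℚ v := hvZ.localization ℚ (nonZeroDivisors ℤ)
  have hLspan : ∀ x ∈ L, x ∈ Submodule.span ℚ (Set.range v) := by
    intro x hx
    have h3 := c.sum_repr ⟨x, hx⟩
    have h4 : x = ∑ k, (c.repr ⟨x, hx⟩ k) • v k := by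
      have h5 := congrArg (fun z : L => (z : V)) h3
      simp only [Submodule.coe_sum, Submodule.coe_smul] at h5
      exact h5.symm
    rw [h4]
    refine Submodule.sum_mem _ fun k _ => ?_
    rw [← Int.cast_smul_eq_zsmul ℚ]
    exact Submodule.smul_mem _ _ (Submodule.subset_span ⟨k, rfl⟩)
  have hspan : ⊤ ≤ Submodule.span ℚ (Set.range v) := by
    rw [← b.span_eq, Submodule.span_le]
    rintro _ ⟨a, rfl⟩
    exact hLspan _ (hbL a)
  let B : Basis (Fin (finrank ℤ L)) ℚ V := Basis.mk hvQ hspan
  have hB : ∀ k, B k = v k := fun k => Basis.mk_apply hvQ hspan k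
  have hcard : finrank ℤ L = finrank ℚ V := by
    rw [finrank_eq_card_basis B, Fintype.card_fin]
  let m : G → Matrix (Fin (finrank ℤ L)) (Fin (finrank ℤ L)) ℤ :=
    fun g k l => c.repr ⟨A g (v k), hstab g _ (c k).2⟩ l
  have hmv : ∀ g k, A g (v k) = ∑ l, ((m g k l : ℤ) : ℚ) • v l := by
    intro g k
    have h3 := c.sum_repr ⟨A g (v k), hstab g _ (c k).2⟩
    have h5 := congrArg (fun z : L => (z : V)) h3
    simp only [Submodule.coe_sum, Submodule.coe_smul] at h5
    rw [← h5]
    refine Finset.sum_congr rfl fun l _ => ?_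
    rw [Int.cast_smul_eq_zsmul]
  have hPm : ∀ g u, B.equivFun (A g u)
      = Matrix.vecMul (B.equivFun u) ((m g).map (Int.cast : ℤ → ℚ)) := by
    intro g u
    have h3 : A g u = ∑ l, (∑ k, B.equivFun u k * ((m g k l : ℤ) : ℚ)) • B l := by
      conv_lhs => rw [← B.sum_equivFun u]
      rw [map_sum]
      simp only [map_smul, hB, hmv, Finset.smul_sum, Finset.sum_smul, smul_smul]
      rw [Finset.sum_comm]
    rw [h3]
    funext l
    rw [Basis.equivFun_apply, map_sum, Finsupp.finsetSum_apply]
    simp only [map_smul, Basis.repr_self, Finsupp.smul_apply, Finsupp.single_apply, smul_eq_mul]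
    rw [Finset.sum_eq_single l]
    · rw [if_pos rfl, mul_one]
      rfl
    · intro j _ hj
      rw [if_neg hj, mul_zero]
    · simp
  have hinj : ∀ X Y : Matrix (Fin (finrank ℤ L)) (Fin (finrank ℤ L)) ℤ,
      (∀ u, Matrix.vecMul u (X.map (Int.cast : ℤ → ℚ)) = Matrix.vecMul u (Y.map (Int.cast : ℤ → ℚ))) →
      X = Y := by
    intro X Y h
    have h6 : X.map (Int.cast : ℤ → ℚ) = Y.map (Int.cast : ℤ → ℚ) := by
      ext i j
      have h7 := congrFun (h (Pi.single i 1)) j
      rw [Matrix.single_one_vecMul, Matrix.single_one_vecMul] at h7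
      exact h7
    ext i j
    have h7 := congrFun (congrFun h6 i) j
    rw [Matrix.map_apply, Matrix.map_apply] at h7
    exact_mod_cast h7
  let ρ : G →* Matrix (Fin (finrank ℤ L)) (Fin (finrank ℤ L)) ℤ :=
    { toFun := m
      map_one' := by
        apply hinj
        intro u
        have h8 := hPm 1 (B.equivFun.symm u)
        rw [h1, LinearMap.id_apply, LinearEquiv.apply_symm_apply] at h8
        rw [← h8, Matrix.map_one _ Int.cast_zero Int.cast_one, Matrix.vecMul_one]
      map_mul' := by
        intro g h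
        apply hinj
        intro u
        have h8 := hPm (g * h) (B.equivFun.symm u)
        rw [LinearEquiv.apply_symm_apply] at h8
        have h9 : (m g * m h).map (Int.cast : ℤ → ℚ)
            = (m g).map (Int.cast : ℤ → ℚ) * (m h).map (Int.cast : ℤ → ℚ) :=
          Matrix.map_mul (f := Int.castRingHom ℚ)
        rw [← h8, hm, hPm, hPm, LinearEquiv.apply_symm_apply, h9, Matrix.vecMul_vecMul] }
  have hfin : ∃ (ρ : G →* Matrix (Fin (finrank ℤ L)) (Fin (finrank ℤ L)) ℤ)
      (P : V ≃ₗ[ℚ] (Fin (finrank ℤ L) → ℚ)),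
      ∀ g u, P (A g u) = Matrix.vecMul (P u) ((ρ g).map (Int.cast : ℤ → ℚ)) :=
    ⟨ρ, B.equivFun, hPm⟩
  rw [hcard] at hfin
  exact hfin

/-- PROOF. The space `M = (Fin r → D)` of rows has dimension `d` over `ℚ`, with the right action of `G` by
`u ↦ u * comp i (single g 1)`.  Let `b_1, …, b_d` be a basis over `ℚ`, `L` the `ℤ`-span of the finitely many
`b_a * comp i (single g 1)`: stable under `G`, finitely generated, torsion free, so free, and its rank is `d` (it contains a basis and
a `ℤ`-basis is linearly independent over `ℚ`).  In a `ℤ`-basis of `L` the action is given by integral matrices. -/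
theorem int_rep {G : Type u} [Group G] [Fintype G] (W : WD ℚ G) (i : Fin W.m) {d : ℕ}
    (hd : W.r i * finrank ℚ (W.D i) = d) :
    ∃ (ρ : G →* Matrix (Fin d) (Fin d) ℤ) (P : (Fin (W.r i) → W.D i) ≃ₗ[ℚ] (Fin d → ℚ)),
      ∀ g u, P (Matrix.vecMul u (W.comp i (MonoidAlgebra.single g 1)))
        = Matrix.vecMul (P u) ((ρ g).map (Int.cast : ℤ → ℚ)) := by
  let A₀ : G → (Fin (W.r i) → W.D i) →+ (Fin (W.r i) → W.D i) := fun g =>
    { toFun := fun u => Matrix.vecMul u (W.comp i (MonoidAlgebra.single g 1))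
      map_zero' := Matrix.zero_vecMul _
      map_add' := fun a b => Matrix.add_vecMul _ a b }
  let A : G → (Fin (W.r i) → W.D i) →ₗ[ℚ] (Fin (W.r i) → W.D i) := fun g =>
    (A₀ g).toRatLinearMap
  have h1 : A 1 = LinearMap.id := by
    apply LinearMap.ext
    intro u
    show Matrix.vecMul u (W.comp i (MonoidAlgebra.single 1 1)) = u
    have h2 : (MonoidAlgebra.single (1 : G) (1 : ℚ)) = 1 := rfl
    rw [h2, map_one, Matrix.vecMul_one]
  have hm : ∀ g h u, A (g * h) u = A h (A g u) := by
    intro g h u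
    show Matrix.vecMul u (W.comp i (MonoidAlgebra.single (g * h) 1))
      = Matrix.vecMul (Matrix.vecMul u (W.comp i (MonoidAlgebra.single g 1)))
        (W.comp i (MonoidAlgebra.single h 1))
    rw [Matrix.vecMul_vecMul, ← map_mul, MonoidAlgebra.single_mul_single, one_mul]
  have hd' : finrank ℚ (Fin (W.r i) → W.D i) = d := by
    rw [← hd, Module.finrank_pi_fintype]
    simp
  have h := RfI_gen A h1 hm
  rw [hd'] at h
  exact h

end Pool.MP43e44c.GX
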