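import Pool.Agent.H.MP_43e44c_ag.GX.RfM
import Pool.Agent.H.MP_43e44c_ag.GX.RfI
import Pool.Agent.H.MP_43e44c_ag.GX.Pri
import Pool.Agent.H.MP_43e44c_ag.GX.Bas

/-!
Components of reflection type.
-/

set_option autoImplicit false

open Finset Module

namespace Pool.MP43e44c.GX

open Pool.MP43e44c.OD

universe u v

theorem RfD_arith {r δ be x : ℕ} (h1 : r ^ 2 * δ = (x + 1) ^ 2) (h2 : r * be = (x + 1) * x)
    (h3 : δ ∣ be) : δ = 1 ∧ r = x + 1 ∧ be = x := by
  have hr : r ∣ x + 1 := (Nat.pow_dvd_pow_iff two_ne_zero).mp ⟨δ, h1.symm⟩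
  obtain ⟨s, hs⟩ := hr
  have hr0 : 0 < r := by
    rcases Nat.eq_zero_or_pos r with h | h
    · rw [h, zero_mul] at hs
      omega
    · exact h
  have hs0 : 0 < s := by
    rcases Nat.eq_zero_or_pos s with h | h
    · rw [h, mul_zero] at hs
      omega
    · exact h
  have hδ : δ = s ^ 2 := by
    have h4 : r ^ 2 * δ = r ^ 2 * s ^ 2 := by
      rw [h1, hs]
      ring
    exact Nat.eq_of_mul_eq_mul_left (by positivity) h4
  have hbe : be = s * x := by
    have h4 : r * be = r * (s * x) := by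
      rw [h2, hs]
      ring
    exact Nat.eq_of_mul_eq_mul_left hr0 h4
  have hsx : s ∣ x := by
    rw [hδ, hbe, pow_two] at h3
    exact Nat.dvd_of_mul_dvd_mul_left hs0 h3
  have hs1 : s ∣ 1 := by
    have h5 : s ∣ x + 1 := ⟨r, by rw [hs, mul_comm]⟩
    exact (Nat.dvd_add_right hsx).mp h5
  have hs' : s = 1 := Nat.dvd_one.mp hs1
  subst hs'
  refine ⟨by rw [hδ, one_pow], by rw [hs, mul_one], by rw [hbe, one_mul]⟩

theorem RfD_cast_inj {r : ℕ} {X Y : Matrix (Fin r) (Fin r) ℤ}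
    (h : X.map (Int.cast : ℤ → ℚ) = Y.map (Int.cast : ℤ → ℚ)) : X = Y := by
  ext i j
  have h7 := congrFun (congrFun h i) j
  rw [Matrix.map_apply, Matrix.map_apply] at h7
  exact_mod_cast h7

theorem RfD_vec_inj {r : ℕ} {X Y : Matrix (Fin r) (Fin r) ℚ}
    (h : ∀ u, Matrix.vecMul u X = Matrix.vecMul u Y) : X = Y := by
  ext i j
  have h7 := congrFun (h (Pi.single i 1)) j
  rw [Matrix.single_one_vecMul, Matrix.single_one_vecMul] at h7
  exact h7

theorem RfD_cast_vecMul {r : ℕ} (u : Fin r → ℤ) (X : Matrix (Fin r) (Fin r) ℤ) :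
    (fun b => ((Matrix.vecMul u X b : ℤ) : ℚ))
      = Matrix.vecMul (fun a => ((u a : ℤ) : ℚ)) (X.map (Int.cast : ℤ → ℚ)) := by
  funext b
  simp only [Matrix.vecMul, dotProduct, Matrix.map_apply]
  push_cast
  rfl

/-- An integral multiple of a rational row. -/
theorem RfD_int_mul {r : ℕ} (w : Fin r → ℚ) : ∃ N : ℕ, 0 < N ∧ ∃ z : Fin r → ℤ,
    (fun a => ((z a : ℤ) : ℚ)) = (N : ℚ) • w := by
  refine ⟨∏ a, (w a).den, prod_pos fun a _ => (w a).pos, ?_⟩
  have h : ∀ a, ∃ b : ℤ, (b : ℚ) = ((∏ h, (w h).den : ℕ) : ℚ) * w a := by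
    intro a
    obtain ⟨c, hc⟩ := dvd_prod_of_mem (fun h => (w h).den) (mem_univ a)
    refine ⟨(c : ℤ) * (w a).num, ?_⟩
    rw [hc]
    have h1 : (w a).num = (w a) * ((w a).den : ℚ) := by
      rw [Rat.mul_den_eq_num]
    push_cast
    rw [h1]
    ring
  choose b hb using h
  refine ⟨b, ?_⟩
  funext a
  rw [Pi.smul_apply, smul_eq_mul, ← hb]

/-- The numerical part. -/
theorem RfD_num {C : ℝ} (hC : 0 < C) : ∃ N : ℕ, ∀ n : ℕ, N ≤ n →
    4 * (C * (2 + 8 * (Real.log n) ^ 2)) ≤ (n : ℝ) ^ (1 / 200 : ℝ) := by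
  have h1 : ∀ᶠ x : ℝ in Filter.atTop, (Real.log x) ^ (2 : ℝ) ≤ (1 / (64 * C)) * x ^ (1 / 200 : ℝ) := by
    have h2 := isLittleO_log_rpow_rpow_atTop (2 : ℝ) (s := (1 / 200 : ℝ)) (by norm_num)
    have h3 := h2.bound (c := 1 / (64 * C)) (by positivity)
    filter_upwards [h3, Filter.eventually_ge_atTop (1 : ℝ)] with x hx hx1
    rw [Real.norm_of_nonneg (Real.rpow_nonneg (Real.log_nonneg hx1) _),
      Real.norm_of_nonneg (Real.rpow_nonneg (by linarith) _)] at hx
    exact hx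
  have h4 : ∀ᶠ x : ℝ in Filter.atTop, 16 * C ≤ x ^ (1 / 200 : ℝ) :=
    (tendsto_rpow_atTop (by norm_num : (0 : ℝ) < 1 / 200)).eventually_ge_atTop _
  have h5 := (tendsto_natCast_atTop_atTop (R := ℝ)).eventually (h1.and h4)
  obtain ⟨N, hN⟩ := Filter.eventually_atTop.mp h5
  refine ⟨N, fun n hn => ?_⟩
  obtain ⟨h6, h7⟩ := hN n hn
  rw [Real.rpow_two] at h6
  have h8 : 32 * C * (Real.log n) ^ 2 ≤ (1 / 2) * (n : ℝ) ^ (1 / 200 : ℝ) := by
    have h9 := mul_le_mul_of_nonneg_left h6 (by positivity : 0 ≤ 32 * C)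
    calc 32 * C * (Real.log n) ^ 2 ≤ 32 * C * (1 / (64 * C) * (n : ℝ) ^ (1 / 200 : ℝ)) := h9
      _ = (1 / 2) * (n : ℝ) ^ (1 / 200 : ℝ) := by
        field_simp
        ring
  nlinarith

section

variable {G : Type u} [Group G] [Fintype G]

/-- `comp i` is surjective and the group elements span the group algebra. -/
theorem RfD_span {k : Type} [Field k] (W : WD k G) (i : Fin W.m)
    (X : Matrix (Fin (W.r i)) (Fin (W.r i)) (W.D i)) :
    ∃ c : G → k, X = ∑ g, c g • W.comp i (MonoidAlgebra.single g 1) := by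
  obtain ⟨x, hx1, -⟩ := W.exists_comp i X
  refine ⟨fun g => x.coeff g, ?_⟩
  have h1 : x = ∑ g, x.coeff g • (MonoidAlgebra.single g (1 : k)) := by
    have h2 : x = ofFun fun g => x.coeff g := by
      apply ma_ext
      intro g
      rw [ofFun_coeff]
    conv_lhs => rw [h2]
    unfold ofFun
    refine sum_congr rfl fun g _ => ?_
    rw [MonoidAlgebra.smul_single, smul_eq_mul, mul_one]
  rw [← hx1]
  conv_lhs => rw [h1]
  rw [map_sum]
  exact sum_congr rfl fun g _ => map_smul _ _ _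

theorem RfD_vecMul_smul {k : Type} [Field k] (W : WD k G) (i : Fin W.m) (c : k)
    (u : Fin (W.r i) → W.D i) (X : Matrix (Fin (W.r i)) (Fin (W.r i)) (W.D i)) :
    Matrix.vecMul u (c • X) = c • Matrix.vecMul u X := Matrix.vecMul_smul _ _ _

theorem RfD_vecMul_sum {D : Type*} [Ring D] {r : ℕ} {κ : Type*} (s : Finset κ)
    (M : κ → Matrix (Fin r) (Fin r) D) (u : Fin r → D) :
    Matrix.vecMul u (∑ a ∈ s, M a) = ∑ a ∈ s, Matrix.vecMul u (M a) := by
  classical
  induction s using Finset.induction_on with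
  | empty => simp
  | insert a s ha ih => rw [sum_insert ha, sum_insert ha, Matrix.vecMul_add, ih]

variable (W : WD ℚ G) (i : Fin W.m) {d : ℕ} (ρ : G →* Matrix (Fin d) (Fin d) ℤ)
  (P : (Fin (W.r i) → W.D i) ≃ₗ[ℚ] (Fin d → ℚ))
  (hP : ∀ g u, P (Matrix.vecMul u (W.comp i (MonoidAlgebra.single g 1)))
        = Matrix.vecMul (P u) ((ρ g).map (Int.cast : ℤ → ℚ)))

include hP

theorem RfD_P_comb (c : G → ℚ) (u : Fin (W.r i) → W.D i) :
    P (Matrix.vecMul u (∑ g, c g • W.comp i (MonoidAlgebra.single g 1)))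
      = Matrix.vecMul (P u) (∑ g, c g • (ρ g).map (Int.cast : ℤ → ℚ)) := by
  rw [RfD_vecMul_sum, RfD_vecMul_sum, map_sum]
  refine sum_congr rfl fun g _ => ?_
  rw [RfD_vecMul_smul, map_smul, hP, Matrix.vecMul_smul]

/-- The span of the matrices `ρ g`. -/
theorem RfD_span_top (hd : W.r i ^ 2 * finrank ℚ (W.D i) = d ^ 2) :
    Submodule.span ℚ (Set.range fun g => (ρ g).map (Int.cast : ℤ → ℚ)) = ⊤ := by
  classical
  -- the map from the component to the matrices
  let Ψ : Matrix (Fin (W.r i)) (Fin (W.r i)) (W.D i) →ₗ[ℚ] Matrix (Fin d) (Fin d) ℚ :=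
    { toFun := fun X => Matrix.of fun a b => P (Matrix.vecMul (P.symm (Pi.single a 1)) X) b
      map_add' := fun X Y => by
        ext a b
        show P (Matrix.vecMul (P.symm (Pi.single a 1)) (X + Y)) b
          = P (Matrix.vecMul (P.symm (Pi.single a 1)) X) b
            + P (Matrix.vecMul (P.symm (Pi.single a 1)) Y) b
        rw [Matrix.vecMul_add, map_add]
        rfl
      map_smul' := fun c X => by
        ext a b
        show P (Matrix.vecMul (P.symm (Pi.single a 1)) (c • X)) b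
          = c * P (Matrix.vecMul (P.symm (Pi.single a 1)) X) b
        rw [RfD_vecMul_smul, map_smul]
        rfl }
  have hΨ : ∀ g, Ψ (W.comp i (MonoidAlgebra.single g 1)) = (ρ g).map (Int.cast : ℤ → ℚ) := by
    intro g
    ext a b
    show P (Matrix.vecMul (P.symm (Pi.single a 1)) (W.comp i (MonoidAlgebra.single g 1))) b = _
    rw [hP, LinearEquiv.apply_symm_apply, Matrix.single_one_vecMul]
    rfl
  have hrow : ∀ X a, P (Matrix.vecMul (P.symm (Pi.single a 1)) X) = Ψ X a := fun X a => rfl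
  have hinj : Function.Injective Ψ := by
    rw [← LinearMap.ker_eq_bot, LinearMap.ker_eq_bot']
    intro X hX
    have h1 : ∀ a, Matrix.vecMul (P.symm (Pi.single a 1)) X = 0 := by
      intro a
      apply P.injective
      rw [hrow, hX, map_zero]
      rfl
    obtain ⟨c, hc⟩ := RfD_span W i X
    have h2 : ∀ u, Matrix.vecMul u X = 0 := by
      intro u
      apply P.injective
      rw [map_zero, hc, RfD_P_comb W i ρ P hP]
      have h3 : ∀ a, Matrix.vecMul (Pi.single a 1) (∑ g, c g • (ρ g).map (Int.cast : ℤ → ℚ))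
          = 0 := by
        intro a
        have h4 := RfD_P_comb W i ρ P hP c (P.symm (Pi.single a 1))
        rw [← hc, h1, map_zero, LinearEquiv.apply_symm_apply] at h4
        exact h4.symm
      have h5 : (∑ g, c g • (ρ g).map (Int.cast : ℤ → ℚ)) = 0 := by
        ext a b
        have h6 := congrFun (h3 a) b
        rw [Matrix.single_one_vecMul] at h6
        exact h6
      rw [h5, Matrix.vecMul_zero]
    funext a
    have h7 := h2 (Pi.single a 1)
    rw [Matrix.single_one_vecMul] at h7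
    exact h7
  have hsurj : Function.Surjective Ψ := by
    refine (LinearMap.injective_iff_surjective_of_finrank_eq_finrank ?_).mp hinj
    rw [finrank_matrix, finrank_matrix, Fintype.card_fin, Fintype.card_fin, finrank_self, mul_one,
      ← pow_two, ← pow_two]
    exact hd
  rw [eq_top_iff]
  intro Y _
  obtain ⟨X, rfl⟩ := hsurj Y
  obtain ⟨c, hc⟩ := RfD_span W i X
  rw [hc, map_sum]
  refine Submodule.sum_mem _ fun g _ => ?_
  rw [map_smul, hΨ]
  exact Submodule.smul_mem _ _ (Submodule.subset_span ⟨g, rfl⟩)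

variable {ι : Type v} (T : TS G ι)

theorem RfD_neg (hi : T.Odd W i) : ρ T.c = -1 := by
  apply RfD_cast_inj
  apply RfD_vec_inj
  intro w
  have h1 := hP T.c (P.symm w)
  have h2 : W.comp i (MonoidAlgebra.single T.c 1) = -1 := hi
  rw [h2, LinearEquiv.apply_symm_apply, Matrix.vecMul_neg, Matrix.vecMul_one, map_neg,
    LinearEquiv.apply_symm_apply] at h1
  rw [← h1]
  have h3 : (-1 : Matrix (Fin d) (Fin d) ℤ).map (Int.cast : ℤ → ℚ) = -1 := by
    ext a b
    rw [Matrix.map_apply, Matrix.neg_apply, Matrix.neg_apply, Int.cast_neg]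
    by_cases hab : a = b
    · rw [hab, Matrix.one_apply_eq, Matrix.one_apply_eq, Int.cast_one]
    · rw [Matrix.one_apply_ne hab, Matrix.one_apply_ne hab, Int.cast_zero]
  rw [h3, Matrix.vecMul_neg, Matrix.vecMul_one]

theorem RfD_mem_fix (u : Fin (W.r i) → W.D i) : P u ∈ fixQ ρ T.S ↔ u ∈ T.fixR W i := by
  constructor
  · intro h g hg
    apply P.injective
    rw [hP]
    exact h g hg
  · intro h g hg
    rw [← hP]
    exact congrArg P (h g hg)

theorem RfD_finrank : finrank ℚ (fixQ ρ T.S) = T.be W i := by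
  unfold TS.be
  symm
  refine LinearEquiv.finrank_eq (P.ofSubmodules _ _ ?_)
  ext w
  rw [Submodule.mem_map]
  constructor
  · rintro ⟨u, hu, rfl⟩
    exact (RfD_mem_fix W i ρ P hP T u).mpr hu
  · intro hw
    refine ⟨P.symm w, ?_, P.apply_symm_apply w⟩
    rw [← RfD_mem_fix W i ρ P hP T, LinearEquiv.apply_symm_apply]
    exact hw

theorem RfD_badZ [Fintype ι] : T.badI W i ⊆ badZ T ρ := by
  intro v hv
  rw [T.mem_badI_iff] at hv
  obtain ⟨u, hu0, hu1, hu2⟩ := hv
  have hw0 : P u ≠ 0 := by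
    intro h
    exact hu0 (P.injective (by rw [h, map_zero]))
  have hw1 : P u ∈ fixQ ρ T.S := (RfD_mem_fix W i ρ P hP T u).mpr hu1
  have hw2 : ∑ j, (if v j then (1 : ℚ) else -1) •
      Matrix.vecMul (P u) ((ρ (T.t j)).map (Int.cast : ℤ → ℚ)) = 0 := by
    have h1 : Matrix.vecMul u (W.comp i (T.el ℚ v))
        = ∑ j, (if v j then (1 : ℚ) else -1) •
          Matrix.vecMul u (W.comp i (MonoidAlgebra.single (T.t j) 1)) := by
      unfold TS.el
      rw [map_sum, RfD_vecMul_sum]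
      refine sum_congr rfl fun j _ => ?_
      rw [← RfD_vecMul_smul, ← map_smul, MonoidAlgebra.smul_single, smul_eq_mul, mul_one]
    have h2 := congrArg P h1
    rw [hu2, map_zero, map_sum] at h2
    rw [h2]
    refine sum_congr rfl fun j _ => ?_
    rw [map_smul, hP]
  obtain ⟨N, hN, z, hz⟩ := RfD_int_mul (P u)
  have hN' : (N : ℚ) ≠ 0 := by positivity
  refine ⟨z, ?_, ?_, ?_⟩
  · intro h
    apply hw0
    rw [h] at hz
    have h3 : (N : ℚ) • P u = 0 := by
      rw [← hz]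
      funext a
      simp
    exact (smul_eq_zero.mp h3).resolve_left hN'
  · intro s hs
    have h3 := RfD_cast_vecMul z (ρ s)
    rw [hz, Matrix.smul_vecMul, hw1 s hs, ← hz] at h3
    funext a
    have h4 := congrFun h3 a
    exact_mod_cast h4
  · have h5 : ∀ b, (((∑ j, (if v j then (1 : ℤ) else -1) • Matrix.vecMul z (ρ (T.t j))) b : ℤ) : ℚ)
        = 0 := by
      intro b
      have h6 := congrFun hw2 b
      rw [Finset.sum_apply] at h6 ⊢
      have h7 : ((N : ℚ)) * ∑ j, ((if v j then (1 : ℚ) else -1) •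
          Matrix.vecMul (P u) ((ρ (T.t j)).map (Int.cast : ℤ → ℚ))) b = 0 := by
        rw [h6]
        simp
      rw [← h7, Int.cast_sum, mul_sum]
      refine sum_congr rfl fun j _ => ?_
      have h8 := congrFun (RfD_cast_vecMul z (ρ (T.t j))) b
      rw [hz, Matrix.smul_vecMul] at h8
      rw [Pi.smul_apply, Pi.smul_apply, smul_eq_mul, smul_eq_mul, Int.cast_mul]
      have h9 : ((Matrix.vecMul z (ρ (T.t j)) b : ℤ) : ℚ)
          = (N : ℚ) * Matrix.vecMul (P u) ((ρ (T.t j)).map (Int.cast : ℤ → ℚ)) b := h8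
      rw [h9]
      split_ifs
      · push_cast
        ring
      · push_cast
        ring
    funext b
    have h10 := h5 b
    rw [Pi.zero_apply]
    exact_mod_cast h10

end

/-- PROOF. Let `r = W.r i`, `δ = finrank D`, `be = T.be W i`.  `r ^ 2 δ = (x+1) ^ 2` so `r ∣ x + 1`, `x + 1 = r s`,
`δ = s ^ 2`; `r be = (x+1) x`, so `be = s x`; `δ ∣ be` (`dvd_be`), so `s ∣ x` and `s ∣ x + 1`, `s = 1`.  So `δ = 1`, `r = x + 1`,
`be = x`.  Take `ρ`, `P` of `int_rep` (`d = r`).  `ρ c = -1` (`Odd`); the span of the `ρ g` over `ℚ` is everything: it is the image of the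
algebra `comp i (ℚ[G]) = M_r(D)`, `D = ℚ`, acting on the rows, of dimension `r ^ 2`; `fixQ ρ S = P (fixR)` has dimension `x`.  A bad `v`
(`mem_badI_iff`) gives a rational fixed row `P u ≠ 0`; an integral multiple shows `v ∈ badZ`.  The prime `l`: `exists_prime_ndvd` for
`M = 2 card G`, `x = C (1 + log M) ≤ n ^ (1/400)`.  `rf_main`. -/
theorem rfX : ∃ n₀ : ℕ, ∀ {G : Type u} [Group G] {ι : Type v} (T : TS G ι)
    [Fintype G] [Fintype ι] (W : WD ℚ G) (i : Fin W.m), T.Odd W i → n₀ ≤ Fintype.card ι →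
    Real.log (Fintype.card G) ≤ 8 * (Real.log (Fintype.card ι)) ^ 2 → ∀ x : ℕ, 2 ≤ x →
    W.a i = (x + 1) ^ 2 → T.bb W i = (x + 1) * x →
    ((x : ℝ) + 1) ≤ (Fintype.card ι : ℝ) ^ (1 / 200 : ℝ) →
    (((T.badI W i).ncard : ℕ) : ℝ) ≤ 4 * (Fintype.card ι : ℝ) ^ (-(11 / 10) : ℝ) *
      2 ^ Fintype.card ι := by
  obtain ⟨n₁, hmain⟩ := rf_main.{u, v}
  obtain ⟨C, hC, hprime⟩ := exists_prime_ndvd
  obtain ⟨n₂, hnum⟩ := RfD_num hC
  refine ⟨max n₁ n₂, ?_⟩
  intro G _ ι T _ _ W i hodd hn hlog x hx ha hb hxn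
  have ha' : W.r i ^ 2 * finrank ℚ (W.D i) = (x + 1) ^ 2 := ha
  have hb' : W.r i * T.be W i = (x + 1) * x := hb
  obtain ⟨h1, h2, h3⟩ := RfD_arith ha' hb' (T.dvd_be W i)
  obtain ⟨ρ, P, hP⟩ := int_rep W i (d := x + 1) (by rw [h1, mul_one, h2])
  have hM : 1 ≤ 2 * Fintype.card G := by
    have : 0 < Fintype.card G := Fintype.card_pos
    omega
  obtain ⟨l, hl, -, hl2, hl3⟩ := hprime (2 * Fintype.card G)
    (C * (1 + Real.log ((2 * Fintype.card G : ℕ) : ℝ))) hM le_rfl
  have hfl : Fact l.Prime := ⟨hl⟩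
  have hl4 : l ≠ 2 := by
    rintro rfl
    exact hl3 ⟨_, rfl⟩
  have hl5 : ¬ l ∣ Fintype.card G := fun h => hl3 (h.mul_left 2)
  have hl6 : (l : ℝ) ≤ (Fintype.card ι : ℝ) ^ (1 / 200 : ℝ) := by
    refine hl2.trans (le_trans ?_ (hnum _ (le_trans (le_max_right _ _) hn)))
    have hG : (0 : ℝ) < Fintype.card G := by exact_mod_cast Fintype.card_pos
    have h4 : Real.log ((2 * Fintype.card G : ℕ) : ℝ) ≤ 1 + 8 * (Real.log (Fintype.card ι)) ^ 2 := by
      push_cast
      rw [Real.log_mul two_ne_zero hG.ne']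
      have h5 : Real.log 2 ≤ 1 := by
        have := Real.log_two_lt_d9
        linarith
      linarith
    have h6 : C * (1 + Real.log ((2 * Fintype.card G : ℕ) : ℝ))
        ≤ C * (2 + 8 * (Real.log (Fintype.card ι)) ^ 2) := by
      apply mul_le_mul_of_nonneg_left _ hC.le
      linarith
    linarith
  have h7 := hmain T (r := x + 1) (l := l) ρ hl4 hl5 (RfD_neg W i ρ P hP T hodd)
    (RfD_span_top W i ρ P hP ha') (by rw [RfD_finrank W i ρ P hP T, h3]) (by omega)
    (le_trans (le_max_left _ _) hn) (by push_cast; exact hxn) hl6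
  refine le_trans ?_ h7
  exact_mod_cast Set.ncard_le_ncard (RfD_badZ W i ρ P hP T) (Set.toFinite _)

end Pool.MP43e44c.GX
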