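import Mathlib

/-!
Numerical statements for the real bound.
-/

set_option autoImplicit false

open Finset Module

namespace Pool.MP43e44c.GX

theorem RlN_T2 (N h : ℕ) (hh : h ≤ N) (hN : 1 ≤ N) (L t : ℝ) (hL : 0 ≤ L)
    (ht : t = Real.sqrt (16 * (3 + 2 * L / N))) :
    2 * h * 5 ^ (h - 1) * Real.sqrt 2 ^ N * Real.exp (-(t ^ 2 * N) / 16) ≤ 2 * Real.exp (-2 * L) := by
  have hN0 : (0 : ℝ) < N := by exact_mod_cast hN
  have ht2 : t ^ 2 = 16 * (3 + 2 * L / N) := by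
    rw [ht]
    exact Real.sq_sqrt (by positivity)
  have e1 : -(t ^ 2 * N) / 16 = N * (-3) + -2 * L := by
    rw [ht2]
    field_simp
    ring
  have e2 : Real.exp (-(t ^ 2 * N) / 16) = Real.exp (-3) ^ N * Real.exp (-2 * L) := by
    rw [e1, Real.exp_add, Real.exp_nat_mul]
  have h1 : (h : ℝ) ≤ 2 ^ N := by
    have : h ≤ 2 ^ N := hh.trans Nat.lt_two_pow_self.le
    exact_mod_cast this
  have h2 : (5 : ℝ) ^ (h - 1) ≤ 5 ^ N := pow_le_pow_right₀ (by norm_num) (by omega)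
  have h3 : Real.sqrt 2 ^ N ≤ (3 / 2 : ℝ) ^ N := by
    apply pow_le_pow_left₀ (Real.sqrt_nonneg _)
    rw [Real.sqrt_le_left (by norm_num)]
    norm_num
  have h4 : Real.exp (-3) ^ N ≤ (1 / 15 : ℝ) ^ N := by
    apply pow_le_pow_left₀ (Real.exp_pos _).le
    rw [Real.exp_neg, ← one_div]
    apply one_div_le_one_div_of_le (by norm_num)
    have h5 : Real.exp 3 = Real.exp 1 ^ 3 := by
      rw [← Real.exp_nat_mul]
      norm_num
    rw [h5]
    calc (15 : ℝ) ≤ (27 / 10) ^ 3 := by norm_num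
      _ ≤ Real.exp 1 ^ 3 := pow_le_pow_left₀ (by norm_num) (by linarith [Real.exp_one_gt_d9]) 3
  have h6 : (2 : ℝ) ^ N * 5 ^ N * (3 / 2) ^ N * (1 / 15) ^ N = 1 := by
    rw [← mul_pow, ← mul_pow, ← mul_pow]
    norm_num
  rw [e2]
  calc 2 * (h : ℝ) * 5 ^ (h - 1) * Real.sqrt 2 ^ N * (Real.exp (-3) ^ N * Real.exp (-2 * L))
      = 2 * ((h * 5 ^ (h - 1) * Real.sqrt 2 ^ N * Real.exp (-3) ^ N) * Real.exp (-2 * L)) := by ring
    _ ≤ 2 * ((2 ^ N * 5 ^ N * (3 / 2) ^ N * (1 / 15) ^ N) * Real.exp (-2 * L)) := by gcongr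
    _ = 2 * Real.exp (-2 * L) := by rw [h6, one_mul]

theorem RlN_T1 (N h : ℕ) (h1 : 1 ≤ h) (hh : h ≤ N) (k κ t : ℝ) (hk : 1 ≤ k) (ht : 1 ≤ t)
    (hκ : 0 ≤ κ) (hκ2 : κ ≤ 13 / 5 / Real.sqrt k) :
    2 * h * (1 + 8 * t * Real.sqrt k) ^ (h - 1) * κ ^ N ≤
      2 * (234 / 5 * t) ^ N / Real.sqrt k ^ (N - h + 1) := by
  obtain ⟨s, hs⟩ : ∃ s, s = Real.sqrt k := ⟨_, rfl⟩
  have hs1 : 1 ≤ s := by
    rw [hs]
    exact Real.one_le_sqrt.2 hk
  rw [← hs] at hκ2 ⊢
  have hs0 : 0 < s := by linarith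
  have ht0 : 0 < t := by linarith
  have hts : 1 ≤ t * s := by
    calc (1 : ℝ) = 1 * 1 := by ring
      _ ≤ t * s := mul_le_mul ht hs1 (by norm_num) ht0.le
  have e1 : (1 + 8 * t * s) ^ (h - 1) ≤ (9 * t) ^ N * s ^ (h - 1) := by
    calc (1 + 8 * t * s) ^ (h - 1) ≤ ((9 * t) * s) ^ (h - 1) := by
          apply pow_le_pow_left₀ (by positivity)
          linarith
      _ = (9 * t) ^ (h - 1) * s ^ (h - 1) := mul_pow _ _ _
      _ ≤ (9 * t) ^ N * s ^ (h - 1) := by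
          apply mul_le_mul_of_nonneg_right _ (by positivity)
          exact pow_le_pow_right₀ (by linarith) (by omega)
  have e2 : κ ^ N ≤ (13 / 5) ^ N / s ^ N := by
    rw [← div_pow]
    exact pow_le_pow_left₀ hκ hκ2 N
  have e3 : (h : ℝ) ≤ 2 ^ N := by
    have : h ≤ 2 ^ N := hh.trans Nat.lt_two_pow_self.le
    exact_mod_cast this
  have e4 : s ^ N = s ^ (h - 1) * s ^ (N - h + 1) := by
    rw [← pow_add]
    congr 1
    omega
  have e5 : (234 / 5 * t) ^ N = 2 ^ N * (9 * t) ^ N * (13 / 5) ^ N := by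
    rw [← mul_pow, ← mul_pow]
    congr 1
    ring
  calc 2 * (h : ℝ) * (1 + 8 * t * s) ^ (h - 1) * κ ^ N
      ≤ 2 * 2 ^ N * ((9 * t) ^ N * s ^ (h - 1)) * ((13 / 5) ^ N / s ^ N) := by gcongr
    _ = 2 * (234 / 5 * t) ^ N / s ^ (N - h + 1) := by
        rw [e4, e5]
        field_simp

theorem RlN_t1 (N : ℕ) (hN : 1 ≤ N) (L t : ℝ) (hL : 0 ≤ L)
    (ht : t = Real.sqrt (16 * (3 + 2 * L / N))) : 1 ≤ t := by
  have hN0 : (0 : ℝ) < N := by exact_mod_cast hN
  rw [ht]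
  apply Real.one_le_sqrt.2
  have : 0 ≤ 2 * L / N := by positivity
  linarith

theorem RlN_t9 (N : ℕ) (hN : 1 ≤ N) (L t : ℝ) (hLN : L ≤ N)
    (ht : t = Real.sqrt (16 * (3 + 2 * L / N))) : t ≤ 9 := by
  have hN0 : (0 : ℝ) < N := by exact_mod_cast hN
  rw [ht, Real.sqrt_le_left (by norm_num)]
  have : 2 * L / N ≤ 2 := by
    rw [div_le_iff₀ hN0]
    linarith
  linarith

theorem RlN_tL (N : ℕ) (hN : 1 ≤ N) (L t : ℝ) (hL : 1 ≤ L)
    (ht : t = Real.sqrt (16 * (3 + 2 * L / N))) : t ≤ 9 * Real.sqrt L := by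
  have hN0 : (1 : ℝ) ≤ N := by exact_mod_cast hN
  rw [ht, Real.sqrt_le_left (by positivity), mul_pow, Real.sq_sqrt (by linarith)]
  have : 2 * L / N ≤ 2 * L := div_le_self (by linarith) hN0
  linarith

theorem RlN_exp7 : (843 : ℝ) ≤ Real.exp 7 := by
  have h5 : Real.exp 7 = Real.exp 1 ^ 7 := by
    rw [← Real.exp_nat_mul]
    norm_num
  rw [h5]
  calc (843 : ℝ) ≤ (27 / 10) ^ 7 := by norm_num
    _ ≤ Real.exp 1 ^ 7 := pow_le_pow_left₀ (by norm_num) (by linarith [Real.exp_one_gt_d9]) 7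

/-- case `t ≤ 9 r`, `r = exp (ρ)`. -/
theorem RlN_T1b (N h : ℕ) (h1 : 1 ≤ h) (hh : h ≤ N) (k κ t ρ σ : ℝ) (hk : 1 ≤ k) (ht : 1 ≤ t)
    (hκ : 0 ≤ κ) (hκ2 : κ ≤ 13 / 5 / Real.sqrt k) (ht9 : t ≤ 9 * Real.exp ρ)
    (hσ : Real.exp (2 * σ) ≤ k) :
    2 * h * (1 + 8 * t * Real.sqrt k) ^ (h - 1) * κ ^ N ≤
      Real.exp (N * (7 + ρ) - ((N - h : ℕ) + 1) * σ) := by
  refine (RlN_T1 N h h1 hh k κ t hk ht hκ hκ2).trans ?_
  have hN : 1 ≤ N := h1.trans hh
  have hs : Real.exp σ ≤ Real.sqrt k := by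
    apply Real.le_sqrt_of_sq_le
    rw [← Real.exp_nat_mul]
    exact_mod_cast hσ
  have e1 : 2 * (234 / 5 * t) ^ N ≤ Real.exp (N * (7 + ρ)) := by
    rw [Real.exp_nat_mul, Real.exp_add]
    calc 2 * (234 / 5 * t) ^ N ≤ 2 ^ N * (234 / 5 * t) ^ N := by
          apply mul_le_mul_of_nonneg_right _ (by positivity)
          calc (2 : ℝ) = 2 ^ 1 := by norm_num
            _ ≤ 2 ^ N := pow_le_pow_right₀ (by norm_num) hN
      _ = (2 * (234 / 5 * t)) ^ N := (mul_pow _ _ _).symm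
      _ ≤ (Real.exp 7 * Real.exp ρ) ^ N := by
          apply pow_le_pow_left₀ (by positivity)
          have h2 := RlN_exp7
          calc 2 * (234 / 5 * t) ≤ 2 * (234 / 5 * (9 * Real.exp ρ)) := by gcongr
            _ ≤ 843 * Real.exp ρ := by
                have := Real.exp_pos ρ
                linarith
            _ ≤ Real.exp 7 * Real.exp ρ := by gcongr
  have e2 : Real.exp (((N - h : ℕ) + 1) * σ) ≤ Real.sqrt k ^ (N - h + 1) := by
    have : Real.exp (((N - h : ℕ) + 1) * σ) = Real.exp σ ^ (N - h + 1) := by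
      rw [← Real.exp_nat_mul]
      push_cast
      rfl
    rw [this]
    exact pow_le_pow_left₀ (Real.exp_pos _).le hs _
  rw [Real.exp_sub]
  exact div_le_div₀ (Real.exp_pos _).le e1 (Real.exp_pos _) e2

theorem RlN_fin (T1 T2 L a b : ℝ) (h1 : T1 ≤ Real.exp (-a * L)) (h2 : T2 ≤ 2 * Real.exp (-2 * L))
    (hab : b + 1 / 8 ≤ a) (ha : a ≤ 2) (hL : 16 ≤ L) : T1 + T2 ≤ Real.exp (L * (-b)) := by
  have h3 : Real.exp (-2 * L) ≤ Real.exp (-a * L) := by
    apply Real.exp_le_exp.2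
    nlinarith
  have h4 : (3 : ℝ) ≤ Real.exp (L / 8) := by
    calc (3 : ℝ) = 2 + 1 := by norm_num
      _ ≤ Real.exp 2 := Real.add_one_le_exp 2
      _ ≤ Real.exp (L / 8) := Real.exp_le_exp.2 (by linarith)
  have h5 : Real.exp (L / 8) * Real.exp (-a * L) ≤ Real.exp (L * (-b)) := by
    rw [← Real.exp_add]
    apply Real.exp_le_exp.2
    nlinarith
  have h6 : 3 * Real.exp (-a * L) ≤ Real.exp (L / 8) * Real.exp (-a * L) :=
    mul_le_mul_of_nonneg_right h4 (Real.exp_pos _).le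
  linarith

theorem RlN_ev0 (K : ℝ) : ∀ᶠ L : ℝ in Filter.atTop, 16 ≤ L ∧ 1 ≤ Real.log L ∧
    Real.log L ≤ L / 100 ∧ 1000 * L ≤ Real.exp (L / 5) ∧ K * Real.log L ^ 2 ≤ L / 100 := by
  have e1 := Filter.eventually_ge_atTop (16 : ℝ)
  have e2 := Real.tendsto_log_atTop.eventually_ge_atTop 1
  have e3 := Real.isLittleO_log_id_atTop.def (show (0 : ℝ) < 1 / 100 by norm_num)
  have e4 : ∀ᶠ L : ℝ in Filter.atTop, 5000 ≤ Real.exp (L / 5) / (L / 5) ^ 1 :=
    ((Real.tendsto_exp_div_pow_atTop 1).comp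
      (Filter.tendsto_id.atTop_div_const (show (0 : ℝ) < 5 by norm_num))).eventually_ge_atTop 5000
  have e5 := ((Real.isLittleO_pow_log_id_atTop (n := 2)).const_mul_left K).def
    (show (0 : ℝ) < 1 / 100 by norm_num)
  filter_upwards [e1, e2, e3, e4, e5] with L h1 h2 h3 h4 h5
  have hL0 : 0 < L := by linarith
  refine ⟨h1, h2, ?_, ?_, ?_⟩
  · rw [Real.norm_eq_abs, id, Real.norm_eq_abs, abs_of_pos hL0] at h3
    linarith [le_abs_self (Real.log L)]
  · rw [pow_one, le_div_iff₀ (by positivity)] at h4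
    linarith
  · rw [Real.norm_eq_abs, id, Real.norm_eq_abs, abs_of_pos hL0] at h5
    linarith [le_abs_self (K * Real.log L ^ 2)]

theorem RlN_ev (K : ℝ) : ∃ n₀ : ℕ, ∀ n : ℕ, n₀ ≤ n → 16 ≤ Real.log n ∧
    1 ≤ Real.log (Real.log n) ∧ Real.log (Real.log n) ≤ Real.log n / 100 ∧
    1000 * Real.log n ≤ Real.exp (Real.log n / 5) ∧
    K * Real.log (Real.log n) ^ 2 ≤ Real.log n / 100 := by
  have h := (Real.tendsto_log_atTop.comp tendsto_natCast_atTop_atTop).eventually (RlN_ev0 K)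
  obtain ⟨n₀, h0⟩ := Filter.eventually_atTop.1 h
  exact ⟨n₀, fun n hn => h0 n hn⟩

/-- case `N ≥ exp (3 L / 5)` -/
theorem RlN_a (N h : ℕ) (L k κ t : ℝ) (h1 : 1 ≤ h) (hh : h ≤ N) (hL : 16 ≤ L)
    (hLe : 1000 * L ≤ Real.exp (L / 5)) (h2N : 2 * (N : ℝ) ≤ Real.exp L) (h4 : (h : ℝ) ≤ 4 * k)
    (hk : 1 ≤ k) (hnk : Real.exp L = k * N) (hκ0 : 0 ≤ κ) (hκ : κ ≤ 97 / 100) (ht1 : 1 ≤ t)
    (ht9 : t ≤ 9) (hN : Real.exp (3 * L / 5) ≤ N) :
    2 * h * (1 + 8 * t * Real.sqrt k) ^ (h - 1) * κ ^ N ≤ Real.exp (-(5 / 4) * L) := by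
  have hk2 : k ≤ Real.exp (2 * L / 5) := by
    have h5 : k * Real.exp (3 * L / 5) ≤ Real.exp (2 * L / 5) * Real.exp (3 * L / 5) := by
      calc k * Real.exp (3 * L / 5) ≤ k * N := mul_le_mul_of_nonneg_left hN (by linarith)
        _ = Real.exp L := hnk.symm
        _ = Real.exp (2 * L / 5) * Real.exp (3 * L / 5) := by
            rw [← Real.exp_add]
            congr 1
            ring
    exact le_of_mul_le_mul_right h5 (Real.exp_pos _)
  obtain ⟨s, hs⟩ : ∃ s, s = Real.sqrt k := ⟨_, rfl⟩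
  have hs1 : 1 ≤ s := by
    rw [hs]
    exact Real.one_le_sqrt.2 hk
  have hs2 : s ≤ Real.exp (L / 5) := by
    rw [hs, Real.sqrt_le_left (Real.exp_pos _).le, ← Real.exp_nat_mul]
    refine hk2.trans (Real.exp_le_exp.2 ?_)
    push_cast
    linarith
  have hts : 1 ≤ t * s := by
    calc (1 : ℝ) = 1 * 1 := by ring
      _ ≤ t * s := mul_le_mul ht1 hs1 (by norm_num) (by linarith)
  have h81 : (81 : ℝ) ≤ Real.exp 5 := by
    have h5 : Real.exp 5 = Real.exp 1 ^ 5 := by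
      rw [← Real.exp_nat_mul]
      norm_num
    rw [h5]
    calc (81 : ℝ) ≤ (27 / 10) ^ 5 := by norm_num
      _ ≤ Real.exp 1 ^ 5 := pow_le_pow_left₀ (by norm_num) (by linarith [Real.exp_one_gt_d9]) 5
  have e1 : 1 + 8 * t * s ≤ Real.exp L := by
    calc 1 + 8 * t * s ≤ 9 * (t * s) := by linarith
      _ ≤ 9 * (9 * s) := by gcongr
      _ = 81 * s := by ring
      _ ≤ Real.exp 5 * Real.exp (L / 5) := by gcongr
      _ = Real.exp (5 + L / 5) := (Real.exp_add _ _).symm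
      _ ≤ Real.exp L := Real.exp_le_exp.2 (by linarith)
  have hEL : 1 ≤ Real.exp L := Real.one_le_exp (by linarith)
  have e2 : (1 + 8 * t * s) ^ (h - 1) ≤ Real.exp (h * L) := by
    rw [Real.exp_nat_mul]
    calc (1 + 8 * t * s) ^ (h - 1) ≤ Real.exp L ^ (h - 1) :=
          pow_le_pow_left₀ (by linarith) e1 _
      _ ≤ Real.exp L ^ h := pow_le_pow_right₀ hEL (Nat.sub_le _ _)
  have e3 : κ ^ N ≤ Real.exp (N * (-(3 / 100))) := by
    rw [Real.exp_nat_mul]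
    apply pow_le_pow_left₀ hκ0
    refine hκ.trans ?_
    have := Real.add_one_le_exp (-(3 / 100) : ℝ)
    linarith
  have e4 : 2 * (h : ℝ) ≤ Real.exp L := by
    have : (h : ℝ) ≤ N := by exact_mod_cast hh
    linarith
  rw [← hs]
  calc 2 * (h : ℝ) * (1 + 8 * t * s) ^ (h - 1) * κ ^ N
      ≤ Real.exp L * Real.exp (h * L) * Real.exp (N * (-(3 / 100))) := by
        apply mul_le_mul _ e3 (by positivity) (by positivity)
        exact mul_le_mul e4 e2 (by positivity) (by positivity)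
    _ = Real.exp (L + h * L + N * (-(3 / 100))) := by rw [Real.exp_add, Real.exp_add]
    _ ≤ Real.exp (-(5 / 4) * L) := by
        apply Real.exp_le_exp.2
        have hE1 : 1 ≤ Real.exp (2 * L / 5) := Real.one_le_exp (by linarith)
        have f1 : (h : ℝ) * L ≤ 4 * Real.exp (2 * L / 5) * L :=
          mul_le_mul_of_nonneg_right (by linarith) (by linarith)
        have f2 : Real.exp (2 * L / 5) * (1000 * L) ≤ Real.exp (3 * L / 5) := by
          calc Real.exp (2 * L / 5) * (1000 * L) ≤ Real.exp (2 * L / 5) * Real.exp (L / 5) := by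
                gcongr
            _ = Real.exp (3 * L / 5) := by
                rw [← Real.exp_add]
                congr 1
                ring
        have f3 : L ≤ Real.exp (2 * L / 5) * L := le_mul_of_one_le_left (by linarith) hE1
        linarith

/-- The purely numerical statement.  `n = k N`, `t = √(16 (3 + 2 log n / N))`, `κ` is the factor
`exp((1/4)^2/2) * (exp(1/2) * gk k)`.
PROOF, with `L = log n`, `l = log L` (`n` large, `A = 1000`):
(a) `N > n ^ (3/5)`: `h ≤ 4 n / N = 4 k`, `t ≤ 8`; `2 h (1 + 8 t √k) ^ (h - 1) κ ^ N ≤ exp(4 k log(100 √k) + …) (97/100) ^ N` is tiny as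
`k ≤ n ^ (2/5)`, `N ≥ n ^ (3/5)`; the second term is at most `2 h 5 ^ h (√2) ^ N exp(- 3 N - 2 L)`, with
`√2 ≤ exp(0.35)` and `h ≤ N / 10`.
(b) `L ≤ N ≤ n ^ (3/5)`: `k ≥ n ^ (2/5)`, `t ≤ 9`; the first term is at most
`2 N (73 √k) ^ (h - 1) (13 / (5 √k)) ^ N ≤ 2 N 190 ^ N k ^ (-(N - h + 1) / 2)`, and
`(N - h + 1) / 2 * log k ≥ (N - h) L / 5 ≥ A N l / 5`, so it is at most `exp(- 3 N) ≤ n ^ (-3)`.
(c) `N < L`: `t ≤ 9 √(L / N)`, the first term is at most
`2 N (190 √(L / N)) ^ N k ^ (-(N - h + 1) / 2)`, `k ≥ n / L`, with logarithm at most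
`log (2 L) + N (6 + l / 2) - (N - h + 1) / 2 * (L - l)`, and `N l ≤ (N - h) L / A`; as `N - h ≥ 2` it is at most
`- 9 / 8 * L - …`.  The second term is at most `2 N exp((1.61 + 0.35 - 3) N) n ^ (-2)` in (b) and (c). -/
theorem real_num : ∃ A : ℝ, 0 < A ∧ ∃ n₀ : ℕ, ∀ (n N h : ℕ) (k κ t : ℝ), n₀ ≤ n →
    1 ≤ h → h ≤ N → 2 * N ≤ n → h * N ≤ 4 * n → (n : ℝ) = k * N → 0 ≤ κ → κ ≤ 97 / 100 →
    κ ≤ 13 / 5 / Real.sqrt k → t = Real.sqrt (16 * (3 + 2 * Real.log n / N)) →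
    2 ≤ N - h → A * Real.log (Real.log n) * N ≤ ((N - h : ℕ) : ℝ) * Real.log n →
    2 * h * (1 + 8 * t * Real.sqrt k) ^ (h - 1) * κ ^ N
        + 2 * h * 5 ^ (h - 1) * Real.sqrt 2 ^ N * Real.exp (-(t ^ 2 * N) / 16)
      ≤ (n : ℝ) ^ (-(9 / 8) : ℝ) := by
  obtain ⟨n₀, hev⟩ := RlN_ev 0
  refine ⟨1000, by norm_num, n₀, ?_⟩
  intro n N h k κ t hn h1 hh h2N hhN hnk hκ0 hκ97 hκ2 ht hNh hA
  obtain ⟨hL16, hl1, hlL, hLe, -⟩ := hev n hn
  have hN1 : 1 ≤ N := h1.trans hh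
  have hn1 : 0 < n := by omega
  have hnR : (0 : ℝ) < n := by exact_mod_cast hn1
  have hNR : (1 : ℝ) ≤ N := by exact_mod_cast hN1
  have hN0 : (0 : ℝ) < N := by linarith
  have hexp : Real.exp (Real.log n) = n := Real.exp_log hnR
  rw [Real.rpow_def_of_pos hnR]
  generalize Real.log (n : ℝ) = L at ht hL16 hl1 hlL hLe hA hexp ⊢
  have hL0 : 0 < L := by linarith
  have hexpl : Real.exp (Real.log L) = L := Real.exp_log hL0
  generalize Real.log L = l at hl1 hlL hA hexpl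
  have h2N' : 2 * (N : ℝ) ≤ n := by exact_mod_cast h2N
  have hk2 : 2 ≤ k := by
    have : 2 * (N : ℝ) ≤ k * N := by rw [← hnk]; exact h2N'
    exact le_of_mul_le_mul_right this hN0
  have hk1 : 1 ≤ k := by linarith
  have ht1 : 1 ≤ t := RlN_t1 N hN1 L t hL0.le ht
  have hT2 := RlN_T2 N h hh hN1 L t hL0.le ht
  refine RlN_fin _ _ L (5 / 4) (9 / 8) ?_ hT2 (by norm_num) (by norm_num) hL16
  have hnk' : Real.exp L = k * N := by rw [hexp, hnk]
  obtain ⟨D, hD⟩ : ∃ D : ℝ, D = ((N - h : ℕ) : ℝ) := ⟨_, rfl⟩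
  have hD2 : 2 ≤ D := by rw [hD]; exact_mod_cast hNh
  rcases le_total (Real.exp (3 * L / 5)) N with hc | hc
  · -- case (a)
    have hLN : L ≤ N := by
      have : Real.exp (L / 5) ≤ Real.exp (3 * L / 5) := Real.exp_le_exp.2 (by linarith)
      linarith
    apply RlN_a N h L k κ t h1 hh hL16 hLe (by rw [hexp]; exact h2N') _ hk1 hnk' hκ0 hκ97 ht1
      (RlN_t9 N hN1 L t hLN ht) hc
    have h5 : (h : ℝ) * N ≤ 4 * k * N := by
      have h6 : (h : ℝ) * N ≤ 4 * n := by exact_mod_cast hhN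
      rw [mul_assoc, ← hnk]
      exact h6
    exact le_of_mul_le_mul_right h5 hN0
  · rcases le_total L N with hLN | hLN
    · -- case (b)
      have hσ : Real.exp (2 * (L / 5)) ≤ k := by
        have h5 : Real.exp (2 * (L / 5)) * N ≤ k * N := by
          calc Real.exp (2 * (L / 5)) * N ≤ Real.exp (2 * (L / 5)) * Real.exp (3 * L / 5) := by
                gcongr
            _ = Real.exp L := by
                rw [← Real.exp_add]
                congr 1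
                ring
            _ = k * N := hnk'
        exact le_of_mul_le_mul_right h5 hN0
      have h6 := RlN_T1b N h h1 hh k κ t 0 (L / 5) hk1 ht1 hκ0 hκ2
        (by rw [Real.exp_zero, mul_one]; exact RlN_t9 N hN1 L t hLN ht) hσ
      refine h6.trans (Real.exp_le_exp.2 ?_)
      rw [← hD] at hA ⊢
      have h7 : 1000 * (N : ℝ) ≤ D * L := by
        refine le_trans ?_ hA
        calc 1000 * (N : ℝ) = 1000 * 1 * N := by ring
          _ ≤ 1000 * l * N := by gcongr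
      linarith
    · -- case (c)
      have hσ : Real.exp (2 * ((L - l) / 2)) ≤ k := by
        have h5 : Real.exp (2 * ((L - l) / 2)) * L ≤ k * L := by
          calc Real.exp (2 * ((L - l) / 2)) * L = Real.exp (2 * ((L - l) / 2)) * Real.exp l := by
                rw [hexpl]
            _ = Real.exp L := by
                rw [← Real.exp_add]
                congr 1
                ring
            _ = k * N := hnk'
            _ ≤ k * L := by gcongr
        exact le_of_mul_le_mul_right h5 hL0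
      have hsq : Real.sqrt L ≤ Real.exp (l / 2) := by
        rw [Real.sqrt_le_left (Real.exp_pos _).le, ← Real.exp_nat_mul]
        apply le_of_eq
        rw [← hexpl]
        congr 1
        push_cast
        ring
      have h6 := RlN_T1b N h h1 hh k κ t (l / 2) ((L - l) / 2) hk1 ht1 hκ0 hκ2
        ((RlN_tL N hN1 L t (by linarith) ht).trans (by gcongr)) hσ
      refine h6.trans (Real.exp_le_exp.2 ?_)
      rw [← hD] at hA ⊢
      have h7 : (N : ℝ) * (7 + l / 2) ≤ 8 * (l * N) := by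
        have : (N : ℝ) ≤ l * N := le_mul_of_one_le_left hN0.le hl1
        linarith
      have h8 : (D + 1) * (99 / 100 * L / 2) ≤ (D + 1) * ((L - l) / 2) :=
        mul_le_mul_of_nonneg_left (by linarith) (by linarith)
      have h9 : 2 * L ≤ D * L := mul_le_mul_of_nonneg_right hD2 hL0.le
      linarith

/-- The numerical statement for very small subspaces: `N ≤ K log log n`.  As in (c) above the first
term is at most `2 N (190 √L) ^ N k ^ (-1/2)`, and `(190 √L) ^ (K l) = exp(O(l ^ 2)) ≤ n ^ (1/8)`. -/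
theorem real_num2 (K : ℝ) : ∃ n₀ : ℕ, ∀ (n N h : ℕ) (k κ t : ℝ), n₀ ≤ n →
    1 ≤ h → h ≤ N → 2 * N ≤ n → (n : ℝ) = k * N → 0 ≤ κ →
    κ ≤ 13 / 5 / Real.sqrt k → t = Real.sqrt (16 * (3 + 2 * Real.log n / N)) →
    (N : ℝ) ≤ K * Real.log (Real.log n) →
    2 * h * (1 + 8 * t * Real.sqrt k) ^ (h - 1) * κ ^ N
        + 2 * h * 5 ^ (h - 1) * Real.sqrt 2 ^ N * Real.exp (-(t ^ 2 * N) / 16)
      ≤ (n : ℝ) ^ (-(1 / 4) : ℝ) := by
  obtain ⟨n₀, hev⟩ := RlN_ev K
  refine ⟨n₀, ?_⟩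
  intro n N h k κ t hn h1 hh h2N hnk hκ0 hκ2 ht hNK
  obtain ⟨hL16, hl1, hlL, hLe, hK⟩ := hev n hn
  have hN1 : 1 ≤ N := h1.trans hh
  have hn1 : 0 < n := by omega
  have hnR : (0 : ℝ) < n := by exact_mod_cast hn1
  have hNR : (1 : ℝ) ≤ N := by exact_mod_cast hN1
  have hN0 : (0 : ℝ) < N := by linarith
  have hexp : Real.exp (Real.log n) = n := Real.exp_log hnR
  rw [Real.rpow_def_of_pos hnR]
  generalize Real.log (n : ℝ) = L at ht hL16 hl1 hlL hLe hK hNK hexp ⊢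
  have hL0 : 0 < L := by linarith
  have hexpl : Real.exp (Real.log L) = L := Real.exp_log hL0
  generalize Real.log L = l at hl1 hlL hK hNK hexpl
  have h2N' : 2 * (N : ℝ) ≤ n := by exact_mod_cast h2N
  have hk2 : 2 ≤ k := by
    have : 2 * (N : ℝ) ≤ k * N := by rw [← hnk]; exact h2N'
    exact le_of_mul_le_mul_right this hN0
  have hk1 : 1 ≤ k := by linarith
  have ht1 : 1 ≤ t := RlN_t1 N hN1 L t hL0.le ht
  have hT2 := RlN_T2 N h hh hN1 L t hL0.le ht
  refine RlN_fin _ _ L (3 / 8) (1 / 4) ?_ hT2 (by norm_num) (by norm_num) hL16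
  have hnk' : Real.exp L = k * N := by rw [hexp, hnk]
  have hNl : (N : ℝ) * l ≤ L / 100 := by
    calc (N : ℝ) * l ≤ (K * l) * l := mul_le_mul_of_nonneg_right hNK (by linarith)
      _ = K * l ^ 2 := by ring
      _ ≤ L / 100 := hK
  have hNNl : (N : ℝ) ≤ N * l := le_mul_of_one_le_right hN0.le hl1
  have hLN : (N : ℝ) ≤ L := by linarith
  have hσ : Real.exp (2 * ((L - l) / 2)) ≤ k := by
    have h5 : Real.exp (2 * ((L - l) / 2)) * L ≤ k * L := by
      calc Real.exp (2 * ((L - l) / 2)) * L = Real.exp (2 * ((L - l) / 2)) * Real.exp l := by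
            rw [hexpl]
        _ = Real.exp L := by
            rw [← Real.exp_add]
            congr 1
            ring
        _ = k * N := hnk'
        _ ≤ k * L := by gcongr
    exact le_of_mul_le_mul_right h5 hL0
  have hsq : Real.sqrt L ≤ Real.exp (l / 2) := by
    rw [Real.sqrt_le_left (Real.exp_pos _).le, ← Real.exp_nat_mul]
    apply le_of_eq
    rw [← hexpl]
    congr 1
    push_cast
    ring
  have h6 := RlN_T1b N h h1 hh k κ t (l / 2) ((L - l) / 2) hk1 ht1 hκ0 hκ2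
    ((RlN_tL N hN1 L t (by linarith) ht).trans (by gcongr)) hσ
  refine h6.trans (Real.exp_le_exp.2 ?_)
  have hD0 : (0 : ℝ) ≤ ((N - h : ℕ) : ℝ) := Nat.cast_nonneg _
  have h8 : 1 * ((L - l) / 2) ≤ (((N - h : ℕ) : ℝ) + 1) * ((L - l) / 2) :=
    mul_le_mul_of_nonneg_right (by linarith) (by linarith)
  linarith

end Pool.MP43e44c.GX
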