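import Pool.Agent.H.MP_43e44c_ag.GA.RealA
import Pool.Agent.H.MP_43e44c_ag.GX.RlN

/-!
Numerical forms of the real bound.
-/

set_option autoImplicit false

open Finset Module

namespace Pool.MP43e44c.GX

/-- The proportion of the sign vectors which are orthogonal to some image of a minimal subspace, for
large subspaces: as in the part `hlarge` of `core_count2` (SB/Core2.lean) every image is `U` itself, and
`card_sorth_le`. -/
theorem real_large {Γ ι : Type*} [Group Γ] [Fintype Γ] [MulAction Γ ι] [Fintype ι]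
    [DecidableEq ι] [MulAction.IsPretransitive Γ ι] (C : Coc Γ ι)
    {U : Submodule ℝ (EuclideanSpace ℝ ι)} (hU : C.Mnl U)
    (h2 : Fintype.card ι < 2 * finrank ℝ U) :
    (({v : ι → Bool | ∃ T ∈ C.Hom U, T ≠ 0 ∧
        SOrth v (LinearMap.range (T : U →ₗ[ℝ] EuclideanSpace ℝ ι))}.ncard : ℕ) : ℝ)
      * 2 ^ finrank ℝ U ≤ 2 ^ Fintype.card ι := by
  classical
  have hset : {v : ι → Bool | ∃ T ∈ C.Hom U, T ≠ 0 ∧
      SOrth v (LinearMap.range (T : U →ₗ[ℝ] EuclideanSpace ℝ ι))} =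
      ((univ.filter fun v : ι → Bool => ∃ T ∈ C.Hom U, T ≠ 0 ∧
        SOrth v (LinearMap.range (T : U →ₗ[ℝ] EuclideanSpace ℝ ι)) : Finset (ι → Bool)) :
        Set (ι → Bool)) := by
    rw [coe_filter]
    simp only [mem_univ, true_and]
  rw [hset, Set.ncard_coe_finset]
  have h3 : (univ.filter fun v : ι → Bool => ∃ T ∈ C.Hom U, T ≠ 0 ∧
        SOrth v (LinearMap.range (T : U →ₗ[ℝ] EuclideanSpace ℝ ι)))
      ⊆ univ.filter fun w : ι → Bool => SOrth w U := by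
    intro v hv
    obtain ⟨T, hT, hT0, hv⟩ := (mem_filter.1 hv).2
    have hTn : ‖T‖ ≠ 0 := fun h1 => hT0 (eq_zero_of_norm_hom C hU hT h1)
    have hinj : Function.Injective (T : U →ₗ[ℝ] EuclideanSpace ℝ ι) := by
      intro x y hxy
      have h1 : ‖T (x - y)‖ = 0 := by
        rw [map_sub]
        have : T x = T y := hxy
        rw [this, sub_self, norm_zero]
      rw [C.norm_hom hU hT] at h1
      have h4 := (mul_eq_zero.1 h1).resolve_left hTn
      rw [norm_eq_zero, sub_eq_zero] at h4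
      exact h4
    set W := LinearMap.range (T : U →ₗ[ℝ] EuclideanSpace ℝ ι) with hW
    have hfr : finrank ℝ W = finrank ℝ U := LinearMap.finrank_range_of_inj hinj
    have hint : W ⊓ U ≠ ⊥ := by
      intro h5
      have h6 := Submodule.finrank_sup_add_finrank_inf_eq W U
      rw [h5, finrank_bot, add_zero, hfr] at h6
      have h7 := Submodule.finrank_le (W ⊔ U)
      rw [finrank_euclideanSpace] at h7
      omega
    have hWinv : C.Inv (W ⊓ U) := fun g x hx => ⟨C.inv_range hU.1 hT g x hx.1, hU.1 g x hx.2⟩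
    have h5 := hU.2.2 (W ⊓ U) inf_le_right hWinv hint
    have h6 : U ≤ W := by rw [← h5]; exact inf_le_left
    exact mem_filter.2 ⟨mem_univ _, fun x hx => hv x (h6 hx)⟩
  have h4 := card_le_card h3
  have h5 := card_sorth_le U
  have h6 := (Nat.mul_le_mul_right (2 ^ finrank ℝ U) h4).trans h5
  exact_mod_cast h6

theorem RlC_cube {n : ℕ} (hn : 10 ≤ n) : n ^ 3 ≤ 2 ^ n := by
  induction n, hn using Nat.le_induction with
  | base => norm_num
  | succ n hn ih =>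
    have h1 : (n + 1) ^ 3 ≤ 2 * n ^ 3 := by nlinarith [Nat.pow_le_pow_left hn 2]
    have h2 : 2 ^ (n + 1) = 2 * 2 ^ n := by ring
    rw [h2]
    omega

theorem RlC_num {n N : ℕ} (hn : 10 ≤ n) (h : n < 2 * N) {x : ℝ} (hx : 0 ≤ x)
    (h1 : x * 2 ^ N ≤ 2 ^ n) : x ≤ (n : ℝ) ^ (-(9 / 8) : ℝ) * 2 ^ n := by
  have hnR : (1 : ℝ) ≤ n := by exact_mod_cast (by omega : 1 ≤ n)
  have hn0 : (0 : ℝ) < n := by linarith
  have h2 : (n : ℝ) ^ (9 / 8 : ℝ) ≤ 2 ^ N := by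
    have h3 : (n : ℝ) ^ (9 / 8 : ℝ) ≤ (n : ℝ) ^ (3 / 2 : ℝ) :=
      Real.rpow_le_rpow_of_exponent_le hnR (by norm_num)
    have h4 : ((n : ℝ) ^ (3 / 2 : ℝ)) ^ 2 ≤ ((2 : ℝ) ^ N) ^ 2 := by
      have h5 : ((n : ℝ) ^ (3 / 2 : ℝ)) ^ 2 = (n : ℝ) ^ 3 := by
        rw [← Real.rpow_natCast ((n : ℝ) ^ (3 / 2 : ℝ)) 2, ← Real.rpow_mul hn0.le,
          ← Real.rpow_natCast (n : ℝ) 3]
        norm_num
      rw [h5, ← pow_mul]
      have h6 : n ^ 3 ≤ 2 ^ (N * 2) :=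
        (RlC_cube hn).trans (Nat.pow_le_pow_right two_pos (by omega))
      exact_mod_cast h6
    have h7 : (n : ℝ) ^ (3 / 2 : ℝ) ≤ 2 ^ N :=
      (sq_le_sq₀ (Real.rpow_nonneg hn0.le _) (by positivity)).1 h4
    exact h3.trans h7
  have h3 : x * (n : ℝ) ^ (9 / 8 : ℝ) ≤ 2 ^ n :=
    (mul_le_mul_of_nonneg_left h2 hx).trans h1
  rw [Real.rpow_neg hn0.le, inv_mul_eq_div, le_div_iff₀ (Real.rpow_pos_of_pos hn0 _)]
  exact h3

theorem RlC_hom {Γ ι : Type*} [Group Γ] [Fintype Γ] [MulAction Γ ι] [Fintype ι]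
    [DecidableEq ι] [MulAction.IsPretransitive Γ ι] (C : Coc Γ ι)
    {U : Submodule ℝ (EuclideanSpace ℝ ι)} (hU : C.Mnl U) : 1 ≤ finrank ℝ (C.Hom U) := by
  have hntH : Nontrivial (C.Hom U) := by
    refine ⟨⟨⟨U.subtypeL, C.subtypeL_mem_hom U⟩, 0, fun h1 => ?_⟩⟩
    exact Coc.subtypeL_ne_zero hU.2.1 (congrArg Subtype.val h1)
  exact finrank_pos (R := ℝ) (M := C.Hom U)

/-- `card_single_le` (GA/RealA.lean), `kappa_le`, `kappa_le_sqrt`, `finrank_hom_mul_le`, `real_num`; for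
`n < 2 N`: `real_large`. -/
theorem real_good : ∃ A : ℝ, 0 < A ∧ ∃ n₀ : ℕ,
    ∀ {Γ ι : Type} [Group Γ] [Fintype Γ] [MulAction Γ ι] [Fintype ι]
      [DecidableEq ι] [MulAction.IsPretransitive Γ ι] (C : Coc Γ ι)
      {U : Submodule ℝ (EuclideanSpace ℝ ι)}, C.Mnl U → n₀ ≤ Fintype.card ι →
      2 ≤ finrank ℝ U - finrank ℝ (C.Hom U) →
      A * Real.log (Real.log (Fintype.card ι)) * finrank ℝ U
        ≤ ((finrank ℝ U - finrank ℝ (C.Hom U) : ℕ) : ℝ) * Real.log (Fintype.card ι) →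
    (({v : ι → Bool | ∃ T ∈ C.Hom U, T ≠ 0 ∧
        SOrth v (LinearMap.range (T : U →ₗ[ℝ] EuclideanSpace ℝ ι))}.ncard : ℕ) : ℝ)
      ≤ (Fintype.card ι : ℝ) ^ (-(9 / 8) : ℝ) * 2 ^ Fintype.card ι := by
  obtain ⟨A, hA, n₁, hnum⟩ := real_num
  refine ⟨A, hA, max n₁ 10, ?_⟩
  intro Γ ι _ _ _ _ _ _ C U hU hn0 hNh hlog
  obtain ⟨n, hn⟩ : ∃ n, n = Fintype.card ι := ⟨_, rfl⟩
  rw [← hn] at hn0 hlog ⊢
  have hn1 : n₁ ≤ n := (le_max_left _ _).trans hn0
  have hn10 : 10 ≤ n := (le_max_right _ _).trans hn0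
  have hne : Nonempty ι := Fintype.card_pos_iff.1 (by omega)
  obtain ⟨N, hN⟩ : ∃ N, N = finrank ℝ U := ⟨_, rfl⟩
  obtain ⟨h, hh⟩ : ∃ h, h = finrank ℝ (C.Hom U) := ⟨_, rfl⟩
  have hh1 : 1 ≤ h := by rw [hh]; exact RlC_hom C hU
  have hhN : h ≤ N := by rw [hh, hN]; exact C.finrank_hom_le hU
  have hhm : h * N ≤ 4 * n := by rw [hh, hN, hn]; exact C.finrank_hom_mul_le hU
  rw [← hN, ← hh] at hNh hlog
  by_cases h2 : n < 2 * N
  · have h3 := real_large C hU (by rw [← hn, ← hN]; exact h2)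
    rw [← hn, ← hN] at h3
    exact RlC_num hn10 h2 (by positivity) h3
  · push Not at h2
    have hN0 : 0 < N := by omega
    have hNR0 : (0 : ℝ) < N := by exact_mod_cast hN0
    have hnR : (1 : ℝ) ≤ n := by exact_mod_cast (by omega : 1 ≤ n)
    obtain ⟨k, hk⟩ : ∃ k : ℝ, k = n / N := ⟨_, rfl⟩
    have hc : (n : ℝ) = k * N := by rw [hk]; field_simp
    have hk2 : 2 ≤ k := by
      rw [hk, le_div_iff₀ hNR0]
      exact_mod_cast h2
    obtain ⟨t, ht⟩ : ∃ t : ℝ, t = Real.sqrt (16 * (3 + 2 * Real.log n / N)) := ⟨_, rfl⟩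
    have ht1 : 1 ≤ t := by
      rw [ht]
      apply Real.one_le_sqrt.2
      have : 0 ≤ 2 * Real.log n / N := by
        have := Real.log_nonneg hnR
        positivity
      linarith
    have h3 := GA.card_single_le C hU hN.symm (by rw [← hn]; exact hc) hk2 hh.symm ht1
    rw [← hn] at h3
    have h4 := hnum n N h k (Real.exp ((1 / 4) ^ 2 / 2) * (Real.exp (1 / 2) * gk k)) t hn1 hh1 hhN
      h2 hhm hc (mul_nonneg (Real.exp_pos _).le (mul_nonneg (Real.exp_pos _).le (gk_nonneg k)))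
      (kappa_le hk2) (kappa_le_sqrt hk2) ht hNh hlog
    refine h3.trans ?_
    rw [mul_comm ((n : ℝ) ^ (-(9 / 8) : ℝ))]
    exact mul_le_mul_of_nonneg_left h4 (by positivity)

/-- As `real_good`, with `real_num2`. -/
theorem real_weak (K : ℝ) : ∃ n₀ : ℕ,
    ∀ {Γ ι : Type} [Group Γ] [Fintype Γ] [MulAction Γ ι] [Fintype ι]
      [DecidableEq ι] [MulAction.IsPretransitive Γ ι] (C : Coc Γ ι)
      {U : Submodule ℝ (EuclideanSpace ℝ ι)}, C.Mnl U → n₀ ≤ Fintype.card ι →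
      (finrank ℝ U : ℝ) ≤ K * Real.log (Real.log (Fintype.card ι)) →
    (({v : ι → Bool | ∃ T ∈ C.Hom U, T ≠ 0 ∧
        SOrth v (LinearMap.range (T : U →ₗ[ℝ] EuclideanSpace ℝ ι))}.ncard : ℕ) : ℝ)
      ≤ (Fintype.card ι : ℝ) ^ (-(1 / 4) : ℝ) * 2 ^ Fintype.card ι := by
  obtain ⟨n₁, hnum⟩ := real_num2 K
  refine ⟨max n₁ 10, ?_⟩
  intro Γ ι _ _ _ _ _ _ C U hU hn0 hlog
  obtain ⟨n, hn⟩ : ∃ n, n = Fintype.card ι := ⟨_, rfl⟩
  rw [← hn] at hn0 hlog ⊢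
  have hn1 : n₁ ≤ n := (le_max_left _ _).trans hn0
  have hn10 : 10 ≤ n := (le_max_right _ _).trans hn0
  have hne : Nonempty ι := Fintype.card_pos_iff.1 (by omega)
  have hnR : (1 : ℝ) ≤ n := by exact_mod_cast (by omega : 1 ≤ n)
  obtain ⟨N, hN⟩ : ∃ N, N = finrank ℝ U := ⟨_, rfl⟩
  obtain ⟨h, hh⟩ : ∃ h, h = finrank ℝ (C.Hom U) := ⟨_, rfl⟩
  have hh1 : 1 ≤ h := by rw [hh]; exact RlC_hom C hU
  have hhN : h ≤ N := by rw [hh, hN]; exact C.finrank_hom_le hU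
  rw [← hN] at hlog
  by_cases h2 : n < 2 * N
  · have h3 := real_large C hU (by rw [← hn, ← hN]; exact h2)
    rw [← hn, ← hN] at h3
    refine (RlC_num hn10 h2 (by positivity) h3).trans ?_
    apply mul_le_mul_of_nonneg_right _ (by positivity)
    exact Real.rpow_le_rpow_of_exponent_le hnR (by norm_num)
  · push Not at h2
    have hN0 : 0 < N := by omega
    have hNR0 : (0 : ℝ) < N := by exact_mod_cast hN0
    obtain ⟨k, hk⟩ : ∃ k : ℝ, k = n / N := ⟨_, rfl⟩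
    have hc : (n : ℝ) = k * N := by rw [hk]; field_simp
    have hk2 : 2 ≤ k := by
      rw [hk, le_div_iff₀ hNR0]
      exact_mod_cast h2
    obtain ⟨t, ht⟩ : ∃ t : ℝ, t = Real.sqrt (16 * (3 + 2 * Real.log n / N)) := ⟨_, rfl⟩
    have ht1 : 1 ≤ t := by
      rw [ht]
      apply Real.one_le_sqrt.2
      have : 0 ≤ 2 * Real.log n / N := by
        have := Real.log_nonneg hnR
        positivity
      linarith
    have h3 := GA.card_single_le C hU hN.symm (by rw [← hn]; exact hc) hk2 hh.symm ht1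
    rw [← hn] at h3
    have h4 := hnum n N h k (Real.exp ((1 / 4) ^ 2 / 2) * (Real.exp (1 / 2) * gk k)) t hn1 hh1 hhN
      h2 hc (mul_nonneg (Real.exp_pos _).le (mul_nonneg (Real.exp_pos _).le (gk_nonneg k)))
      (kappa_le_sqrt hk2) ht hlog
    refine h3.trans ?_
    rw [mul_comm ((n : ℝ) ^ (-(1 / 4) : ℝ))]
    exact mul_le_mul_of_nonneg_left h4 (by positivity)

end Pool.MP43e44c.GX
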