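import Pool.Agent.H.MP_43e44c_ag.GX.RlB

/-!
A real minimal invariant subspace attached to a rational component.
-/

set_option autoImplicit false

open Finset Module

namespace Pool.MP43e44c.GX

open Pool.MP43e44c.OD

universe u v

section Gen

variable {Γ κ ι : Type*} [Group Γ] [MulAction Γ κ] [Fintype κ] [MulAction Γ ι] [Fintype ι]
  (C : Coc Γ κ) (C' : Coc Γ ι) {Y : Submodule ℝ (EuclideanSpace ℝ κ)}
  {R : Y →ₗ[ℝ] EuclideanSpace ℝ ι}


/-- An equivariant map from a minimal subspace is injective. -/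
theorem RlU_inj (hY : C.Mnl Y) (hR0 : R ≠ 0)
    (hR : ∀ (g : Γ) (y z : Y), C.act g y = z → R z = C'.act g (R y)) : Function.Injective R := by
  rw [injective_iff_map_eq_zero]
  by_contra hcon
  push Not at hcon
  obtain ⟨y₀, hy₀, hne⟩ := hcon
  have h1 := hY.2.2 ((LinearMap.ker R).map Y.subtype) (by rintro _ ⟨y, -, rfl⟩; exact y.2) (by
    rintro g _ ⟨y, hy, rfl⟩
    refine ⟨⟨C.act g y, hY.1 g y y.2⟩, ?_, rfl⟩
    have hy' : R y = 0 := hy
    show R ⟨C.act g y, hY.1 g y y.2⟩ = 0
    rw [hR g y _ rfl, hy', map_zero]) (by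
    intro h
    have h2 : (y₀ : EuclideanSpace ℝ κ) ∈ (LinearMap.ker R).map Y.subtype := ⟨y₀, hy₀, rfl⟩
    rw [h, Submodule.mem_bot] at h2
    exact hne (Subtype.ext h2))
  apply hR0
  ext1 y
  have h2 : (y : EuclideanSpace ℝ κ) ∈ (LinearMap.ker R).map Y.subtype := by
    rw [h1]
    exact y.2
  obtain ⟨z, hz, hzy⟩ := h2
  have h3 : z = y := Subtype.ext hzy
  rw [← h3]
  exact hz

/-- The image of a minimal subspace is minimal. -/
theorem RlU_mnl (hY : C.Mnl Y) (hR0 : R ≠ 0)
    (hR : ∀ (g : Γ) (y z : Y), C.act g y = z → R z = C'.act g (R y)) :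
    C'.Mnl (LinearMap.range R) := by
  refine ⟨?_, ?_, ?_⟩
  · rintro g _ ⟨y, rfl⟩
    exact ⟨⟨C.act g y, hY.1 g y y.2⟩, hR g y _ rfl⟩
  · intro h
    exact hR0 (LinearMap.range_eq_bot.1 h)
  · intro W hW hWI hW0
    apply le_antisymm hW
    have h1 := hY.2.2 ((W.comap R).map Y.subtype) (by rintro _ ⟨y, -, rfl⟩; exact y.2) (by
      rintro g _ ⟨y, hy, rfl⟩
      refine ⟨⟨C.act g y, hY.1 g y y.2⟩, ?_, rfl⟩
      have hy' : R y ∈ W := hy
      show R ⟨C.act g y, hY.1 g y y.2⟩ ∈ W
      rw [hR g y _ rfl]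
      exact hWI g _ hy') (by
      intro h
      obtain ⟨w, hw, hw0⟩ := Submodule.exists_mem_ne_zero_of_ne_bot hW0
      obtain ⟨y, rfl⟩ := hW hw
      have h2 : (y : EuclideanSpace ℝ κ) ∈ (W.comap R).map Y.subtype := ⟨y, hw, rfl⟩
      rw [h, Submodule.mem_bot] at h2
      have h3 : y = 0 := Subtype.ext h2
      rw [h3, map_zero] at hw0
      exact hw0 rfl)
    rintro _ ⟨y, rfl⟩
    have h2 : (y : EuclideanSpace ℝ κ) ∈ (W.comap R).map Y.subtype := by
      rw [h1]
      exact y.2
    obtain ⟨z, hz, hzy⟩ := h2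
    have h3 : z = y := Subtype.ext hzy
    rw [← h3]
    exact hz

/-- The intertwining operators from the image of a minimal subspace and the fixed vectors. -/
theorem RlU_hom [MulAction.IsPretransitive Γ ι] (hY : C.Mnl Y)
    (hR : ∀ (g : Γ) (y z : Y), C.act g y = z → R z = C'.act g (R y))
    {S : Subgroup Γ} {i₀ : ι} (hS : ∀ s ∈ S, ∀ x, C'.act s x i₀ = x i₀) :
    finrank ℝ (C'.Hom (LinearMap.range R)) ≤ finrank ℝ (fixU C Y S) := by
  classical
  let e : EuclideanSpace ℝ ι := EuclideanSpace.single i₀ (1 : ℝ)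
  have he : ∀ y : EuclideanSpace ℝ ι, inner ℝ e y = y i₀ := by
    intro y
    simp [e, EuclideanSpace.inner_single_left]
  let R' : Y →L[ℝ] LinearMap.range R := LinearMap.toContinuousLinearMap R.rangeRestrict
  have hR' : ∀ y : Y, ((R' y : LinearMap.range R) : EuclideanSpace ℝ ι) = R y := fun y => rfl
  have hRs : Function.Surjective R' := R.surjective_rangeRestrict
  have hin : ∀ (T : LinearMap.range R →L[ℝ] EuclideanSpace ℝ ι) (x : Y),
      inner ℝ (ContinuousLinearMap.adjoint (T.comp R') e) x = T (R' x) i₀ := by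
    intro T x
    rw [ContinuousLinearMap.adjoint_inner_left, he]
    rfl
  have hinv : C'.Inv (LinearMap.range R) := by
    rintro g _ ⟨y, rfl⟩
    exact ⟨⟨C.act g y, hY.1 g y y.2⟩, hR g y _ rfl⟩
  have hfix : ∀ T ∈ C'.Hom (LinearMap.range R), ∀ g ∈ S,
      C.act g ((ContinuousLinearMap.adjoint (T.comp R') e : Y) : EuclideanSpace ℝ κ)
        = ((ContinuousLinearMap.adjoint (T.comp R') e : Y) : EuclideanSpace ℝ κ) := by
    intro T hT g hg
    have hg' : g⁻¹ ∈ S := S.inv_mem hg
    have h1 : (⟨C.act g ((ContinuousLinearMap.adjoint (T.comp R') e : Y) : EuclideanSpace ℝ κ),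
        hY.1 g _ (Subtype.coe_prop _)⟩ : Y) = ContinuousLinearMap.adjoint (T.comp R') e := by
      refine ext_inner_right ℝ fun x => ?_
      rw [hin]
      have h2 : inner ℝ (C.act g ((ContinuousLinearMap.adjoint (T.comp R') e : Y) :
          EuclideanSpace ℝ κ)) (x : EuclideanSpace ℝ κ)
          = inner ℝ ((ContinuousLinearMap.adjoint (T.comp R') e : Y) :
          EuclideanSpace ℝ κ) (C.act g⁻¹ (x : EuclideanSpace ℝ κ)) := C.inner_act_left _ _ _
      have h3 : inner ℝ (ContinuousLinearMap.adjoint (T.comp R') e : Y)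
          (⟨C.act g⁻¹ x, hY.1 g⁻¹ x x.2⟩ : Y) = T (R' ⟨C.act g⁻¹ x, hY.1 g⁻¹ x x.2⟩) i₀ := hin T _
      have h4 : T (R' ⟨C.act g⁻¹ x, hY.1 g⁻¹ x x.2⟩) = C'.act g⁻¹ (T (R' x)) := by
        apply hT g⁻¹ (R' x)
        exact (hR g⁻¹ x ⟨C.act g⁻¹ x, hY.1 g⁻¹ x x.2⟩ rfl).symm
      rw [h4, hS g⁻¹ hg'] at h3
      rw [← h3]
      exact h2
    exact congrArg Subtype.val h1
  let L : C'.Hom (LinearMap.range R) →ₗ[ℝ] fixU C Y S :=
    { toFun := fun T => ⟨((ContinuousLinearMap.adjoint
        ((T : LinearMap.range R →L[ℝ] EuclideanSpace ℝ ι).comp R') e : Y) :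
        EuclideanSpace ℝ κ), Subtype.coe_prop _, hfix T T.2⟩
      map_add' := fun S T => Subtype.ext (by
        simp [ContinuousLinearMap.add_comp])
      map_smul' := fun r T => Subtype.ext (by
        simp [ContinuousLinearMap.smul_comp]) }
  have hL : Function.Injective L := by
    intro S T hST
    have h0 : (ContinuousLinearMap.adjoint
        ((S : LinearMap.range R →L[ℝ] EuclideanSpace ℝ ι).comp R') e : Y)
        = ContinuousLinearMap.adjoint
        ((T : LinearMap.range R →L[ℝ] EuclideanSpace ℝ ι).comp R') e := by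
      have h00 : ((L S : fixU C Y _) : EuclideanSpace ℝ κ)
          = ((L T : fixU C Y _) : EuclideanSpace ℝ κ) := congrArg Subtype.val hST
      exact Subtype.ext h00
    have hall : ∀ x : LinearMap.range R, (S : LinearMap.range R →L[ℝ] EuclideanSpace ℝ ι) x i₀
        = (T : LinearMap.range R →L[ℝ] EuclideanSpace ℝ ι) x i₀ := by
      intro x
      obtain ⟨y, rfl⟩ := hRs x
      rw [← hin, h0, hin]
    apply Subtype.ext
    ext x i
    obtain ⟨g, hg⟩ := MulAction.exists_smul_eq Γ i i₀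
    have h1 := hall ⟨C'.act g x, hinv g x x.2⟩
    rw [S.2 g x ⟨C'.act g x, hinv g x x.2⟩ rfl, T.2 g x ⟨C'.act g x, hinv g x x.2⟩ rfl,
      ← hg, C'.act_apply_smul, C'.act_apply_smul] at h1
    refine mul_left_cancel₀ ?_ h1
    intro h2
    rcases C'.sq g i with h3 | h3 <;> rw [h3] at h2 <;> norm_num at h2
  exact LinearMap.finrank_le_finrank_of_injective hL

end Gen

section Alg

variable {G : Type u} [Group G] [Fintype G]

theorem RlU_sum (a : MonoidAlgebra ℝ G) :
    a = ∑ g, a.coeff g • MonoidAlgebra.single g (1 : ℝ) := by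
  classical
  apply ma_ext
  intro h
  rw [coeff_sum']
  have h1 : ∀ g, (a.coeff g • MonoidAlgebra.single g (1 : ℝ) : MonoidAlgebra ℝ G).coeff h =
      if g = h then a.coeff g else 0 := by
    intro g
    rw [MonoidAlgebra.smul_single, MonoidAlgebra.coeff_single, Finsupp.single_apply, smul_eq_mul,
      mul_one]
  rw [sum_congr rfl fun g _ => h1 g, sum_ite_eq' univ h]
  simp

/-- The image of an invariant subspace is a left ideal. -/
theorem RlU_left {Y : Submodule ℝ (EuclideanSpace ℝ G)} (hY : (reg G).Inv Y)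
    (a : MonoidAlgebra ℝ G) {y : EuclideanSpace ℝ G} (hy : y ∈ Y) :
    mA.symm (a * mA y) ∈ Y := by
  have h1 : mA.symm (a * mA y) = ∑ g, a.coeff g • (reg G).act g y := by
    apply mA.injective
    rw [LinearEquiv.apply_symm_apply, map_sum]
    conv_lhs => rw [RlU_sum a]
    rw [sum_mul]
    refine sum_congr rfl fun g _ => ?_
    rw [map_smul, mA_act, smul_mul_assoc]
  rw [h1]
  exact Submodule.sum_mem _ fun g _ => Submodule.smul_mem _ _ (hY g y hy)

theorem RlU_toR_comm {x : MonoidAlgebra ℚ G} (hx : ∀ z, x * z = z * x) (a : MonoidAlgebra ℝ G) :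
    GA.toR x * a = a * GA.toR x := by
  have h1 : ∀ g : G, (MonoidAlgebra.single g 1 : MonoidAlgebra ℝ G)
      = GA.toR (MonoidAlgebra.single g 1) := by
    intro g
    apply ma_ext
    intro h
    rw [GA.RealB_coeff, MonoidAlgebra.coeff_single, MonoidAlgebra.coeff_single]
    by_cases hg : g = h
    · subst hg
      simp
    · rw [Finsupp.single_eq_of_ne' hg, Finsupp.single_eq_of_ne' hg, Rat.cast_zero]
  conv_lhs => rw [RlU_sum a]
  conv_rhs => rw [RlU_sum a]
  rw [sum_mul, mul_sum]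
  refine sum_congr rfl fun g _ => ?_
  rw [mul_smul_comm, smul_mul_assoc, h1, ← map_mul, ← map_mul, hx]

/-- The two-sided ideal of an element which is not zero at a component. -/
theorem RlU_ideal (W : WD ℚ G) (i : Fin W.m) {x : MonoidAlgebra ℚ G} (hx : W.comp i x ≠ 0) :
    ∃ z w : Fin (W.r i) → MonoidAlgebra ℚ G, W.e i = ∑ k, z k * x * w k := by
  classical
  obtain ⟨a, b, hab⟩ : ∃ a b, W.comp i x a b ≠ 0 := by
    by_contra hcon
    push Not at hcon
    exact hx (Matrix.ext hcon)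
  have h1 : ∀ k : Fin (W.r i), ∃ z, W.comp i z = Matrix.single k a (W.comp i x a b)⁻¹ ∧
      z * W.e i = z := fun k => W.exists_comp i _
  have h2 : ∀ k : Fin (W.r i), ∃ w, W.comp i w = Matrix.single b k 1 ∧ w * W.e i = w :=
    fun k => W.exists_comp i _
  choose z hz hz' using h1
  choose w hw hw' using h2
  refine ⟨z, w, ?_⟩
  apply W.comp_inj
  intro j
  rw [map_sum]
  by_cases hj : j = i
  · subst hj
    rw [W.comp_e_self]
    have h3 : ∀ k, W.comp j (z k * x * w k) = Matrix.single k k 1 := by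
      intro k
      rw [map_mul, map_mul, hz, hw]
      ext p q
      rw [Matrix.mul_apply, sum_eq_single b]
      · rw [Matrix.mul_apply, sum_eq_single a]
        · by_cases hp : k = p
          · subst hp
            by_cases hq : k = q
            · subst hq
              simp [hab]
            · simp [hq]
          · simp [hp]
        · intro l _ hl
          rw [Matrix.single_apply_of_col_ne _ _ (Ne.symm hl), zero_mul]
        · intro h
          exact absurd (mem_univ a) h
      · intro l _ hl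
        rw [Matrix.single_apply_of_row_ne (Ne.symm hl), mul_zero]
      · intro h
        exact absurd (mem_univ b) h
    rw [sum_congr rfl fun k _ => h3 k]
    ext p q
    rw [Matrix.sum_apply]
    by_cases hpq : p = q
    · subst hpq
      rw [Matrix.one_apply_eq, sum_eq_single p]
      · simp
      · intro l _ hl
        simp [hl]
      · intro h
        exact absurd (mem_univ p) h
    · rw [Matrix.one_apply_ne hpq]
      refine (sum_eq_zero fun l _ => ?_).symm
      by_cases hl : l = p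
      · subst hl
        simp [hpq]
      · simp [hl]
  · rw [W.comp_e_ne hj]
    refine (sum_eq_zero fun k _ => ?_).symm
    rw [map_mul, map_mul, (W.mul_e_iff i (z k)).1 (hz' k) j hj, zero_mul, zero_mul]

/-- An element which acts trivially on a subspace of a component. -/
theorem RlU_ker (W : WD ℚ G) (i : Fin W.m) {Y : Submodule ℝ (EuclideanSpace ℝ G)}
    (hY : (reg G).Inv Y) (hY0 : Y ≠ ⊥) (hYz : Y ≤ zI W i) {g : G}
    (hg : ∀ y ∈ Y, (reg G).act g y = y) : g ∈ TS.kerI W i := by
  show W.comp i (MonoidAlgebra.single g 1) = 1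
  by_contra hcon
  have h0 : W.comp i (MonoidAlgebra.single g 1 - 1) ≠ 0 := by
    intro h
    rw [map_sub, map_one, sub_eq_zero] at h
    exact hcon h
  obtain ⟨z, w, hzw⟩ := RlU_ideal W i h0
  apply hY0
  rw [eq_bot_iff]
  intro y hy
  rw [Submodule.mem_bot]
  have h1 : mA y * GA.toR (W.e i) = mA y := hYz hy
  have h2 : GA.toR (W.e i) * mA y = mA y := by
    rw [RlU_toR_comm (W.e_comm i), h1]
  have h3 : ∀ u ∈ Y, GA.toR (MonoidAlgebra.single g 1 - 1) * mA u = 0 := by
    intro u hu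
    have h4 : (GA.toR (MonoidAlgebra.single g 1) : MonoidAlgebra ℝ G)
        = MonoidAlgebra.single g 1 := by
      apply ma_ext
      intro h
      rw [GA.RealB_coeff, MonoidAlgebra.coeff_single, MonoidAlgebra.coeff_single]
      by_cases hg : g = h
      · subst hg
        simp
      · rw [Finsupp.single_eq_of_ne' hg, Finsupp.single_eq_of_ne' hg, Rat.cast_zero]
    rw [map_sub, map_one, sub_mul, one_mul, h4, ← mA_act, hg u hu, sub_self]
  apply mA.injective
  rw [map_zero, ← h2, hzw, map_sum, sum_mul]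
  refine sum_eq_zero fun k _ => ?_
  have h5 := RlU_left hY (GA.toR (w k)) hy
  have h6 := h3 _ h5
  rw [LinearEquiv.apply_symm_apply] at h6
  rw [map_mul, map_mul, mul_assoc, mul_assoc, h6, mul_zero]

end Alg

namespace Tr

variable {G : Type u} [Group G] {ι : Type v} (T : Tr G ι) [Fintype G] [Fintype ι]

/-- The subgroup fixes the first coordinate. -/
theorem RlU_stb {s : G} (hs : s ∈ T.S) (x : EuclideanSpace ℝ ι) :
    (letI := T.act; T.coc.act s x) (T.π 1) = x (T.π 1) := by
  have h1 : (T.ph (letI := T.act; T.coc.act s x)).coeff (1 : G)⁻¹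
      = (MonoidAlgebra.single s 1 * T.ph x).coeff (1 : G)⁻¹ := by rw [T.ph_act s x]
  rw [T.ph_coeff, MonoidAlgebra.coeff_single_mul_apply, one_mul, ← mul_inv_rev, T.ph_coeff,
    one_mul] at h1
  have h2 : T.π s = T.π 1 := by
    have := T.π_S hs 1
    rwa [mul_one] at this
  have h3 : T.sn s = T.sn 1 := by
    have := T.sn_S hs 1
    rwa [mul_one] at this
  rw [h2, h3] at h1
  refine mul_left_cancel₀ ?_ h1
  intro h4
  rcases T.sn_sq 1 with h5 | h5 <;> rw [h5] at h4 <;> norm_num at h4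

/-- PROOF. `exists_Y` for `V = zI W i` (not `⊥` by `zI_finrank`) and `H = S` gives `Y` with
`finrank (fixU Y S) * a ≤ bb * finrank Y` (`zI_finrank`, `zI_fix`).  Let `v₀` be bad, `R₀` as in `exists_R`,
`U = range R₀`.  `R₀` is injective (`Y` is minimal), so `U` is minimal and `finrank U = finrank Y`.  For `v` bad take
`R` from `exists_R` for `v` and the composition `R ∘ R₀⁻¹ : U → ℝ^ι` (continuous as linear map of finite
dimensional spaces), in `coc.Hom U`.  `finrank (Hom U) ≤ finrank (fixU Y S)`: a map `T' ∈ Hom U` gives the functional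
`y ↦ (T' (R₀ y)) (π 1)` on `Y`, which is invariant under `S` (for `s ∈ S`, `(act s x) (π 1) = x (π 1)`), so it is
`inner y_T y` with `y_T ∈ fixU Y S`; injective by transitivity.  Kernel: let `g` act trivially on `U`, so on `Y`:
`(g - 1) * mA y = 0` for `y ∈ Y`.  Suppose `comp i (g - 1) ≠ 0`.  Then `e_i = ∑ z_k (g - 1) w_k e_i` and
`mA y = e_i * mA y = ∑ z_k (g - 1) (w_k mA y) = 0` as `w_k mA y ∈ mA Y`, a contradiction (`e_i` is central, `e_i * mA y = mA y * e_i = mA y`). -/
theorem exists_U {W : WD ℚ G} {i : Fin W.m} (hi : T.Odd W i) (hne : (T.badI W i).Nonempty) :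
    letI := T.act
    ∃ U : Submodule ℝ (EuclideanSpace ℝ ι), T.coc.Mnl U ∧
      finrank ℝ (T.coc.Hom U) * W.a i ≤ T.bb W i * finrank ℝ U ∧
      (∀ v ∈ T.badI W i, ∃ R ∈ T.coc.Hom U, R ≠ 0 ∧
        SOrth v (LinearMap.range (R : U →ₗ[ℝ] EuclideanSpace ℝ ι))) ∧
      kerU T.coc U ≤ TS.kerI W i := by
  letI := T.act
  have htr := T.act_pretransitive
  have ha := zI_finrank W i
  have ha0 : 0 < W.a i := (W.f_pos i).trans_le (W.f_le_a i)
  have hV0 : zI W i ≠ ⊥ := by
    intro h
    rw [h, finrank_bot] at ha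
    omega
  obtain ⟨Y, hYz, hY, hdim⟩ := exists_Y (reg G) T.S (zI_inv W i) hV0
  obtain ⟨v₀, hv₀⟩ := hne
  obtain ⟨R₀, hR₀, hR₀e, -⟩ := T.exists_R hi hY hYz hv₀
  have hinj := RlU_inj (reg G) T.coc hY hR₀ hR₀e
  have hU := RlU_mnl (reg G) T.coc hY hR₀ hR₀e
  let e : Y ≃ₗ[ℝ] LinearMap.range R₀ := LinearEquiv.ofInjective R₀ hinj
  have he : ∀ y : Y, ((e y : LinearMap.range R₀) : EuclideanSpace ℝ ι) = R₀ y := fun y => rfl
  refine ⟨LinearMap.range R₀, hU, ?_, ?_, ?_⟩
  · have h1 := RlU_hom (reg G) T.coc hY hR₀e (fun s hs x => T.RlU_stb hs x)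
    have h2 : finrank ℝ Y = finrank ℝ (LinearMap.range R₀) := e.finrank_eq
    rw [← h2]
    calc finrank ℝ (T.coc.Hom (LinearMap.range R₀)) * W.a i
        ≤ finrank ℝ (fixU (reg G) Y T.S) * finrank ℝ (zI W i) := Nat.mul_le_mul h1 ha
      _ ≤ finrank ℝ (fixU (reg G) (zI W i) T.S) * finrank ℝ Y := hdim
      _ ≤ T.bb W i * finrank ℝ Y := Nat.mul_le_mul_right _ (zI_fix T.toTS W i)
  · intro v hv
    obtain ⟨R, hR, hRe, hRv⟩ := T.exists_R hi hY hYz hv
    refine ⟨LinearMap.toContinuousLinearMap (R.comp e.symm.toLinearMap), ?_, ?_, ?_⟩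
    · intro g x y hxy
      show R (e.symm y) = T.coc.act g (R (e.symm x))
      apply hRe
      have h1 : (⟨(reg G).act g (e.symm x), hY.1 g _ (e.symm x).2⟩ : Y) = e.symm y := by
        apply hinj
        rw [hR₀e g (e.symm x) _ rfl]
        have h2 : R₀ (e.symm x) = x := by rw [← he, LinearEquiv.apply_symm_apply]
        have h3 : R₀ (e.symm y) = y := by rw [← he, LinearEquiv.apply_symm_apply]
        rw [h2, h3]
        exact hxy
      exact congrArg Subtype.val h1
    · intro h
      apply hR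
      ext1 y
      have h1 := DFunLike.congr_fun h (e y)
      have h2 : R (e.symm (e y)) = 0 := h1
      rw [LinearEquiv.symm_apply_apply] at h2
      exact h2
    · rintro _ ⟨x, rfl⟩
      exact hRv (e.symm x)
  · intro g hg
    refine RlU_ker W i hY.1 hY.2.1 hYz ?_
    intro y hy
    have h1 : (⟨(reg G).act g y, hY.1 g y hy⟩ : Y) = ⟨y, hy⟩ := by
      apply hinj
      rw [hR₀e g ⟨y, hy⟩ _ rfl]
      exact hg _ ⟨⟨y, hy⟩, rfl⟩
    exact congrArg Subtype.val h1

end Tr

end Pool.MP43e44c.GX
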