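import Pool.Agent.H.MP_43e44c_ag.GX.BsC
import Pool.Agent.H.MP_43e44c_ag.GX.RlU
import Pool.Agent.H.MP_43e44c_ag.GX.RlC
import Pool.Agent.H.MP_43e44c_ag.GX.Kfr
import Pool.Agent.H.MP_43e44c_ag.GX.Big
import Pool.Agent.H.MP_43e44c_ag.GX.Lvl
import Pool.Agent.H.MP_43e44c_ag.GX.RfD
import Pool.Agent.H.MP_43e44c_ag.GX.AsmX
import Pool.Agent.H.MP_43e44c_ag.GX.CmpN

/-!
The alternatives for one component on which `S` acts nontrivially.
-/

set_option autoImplicit false

open Finset Module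

namespace Pool.MP43e44c.GX

open Pool.MP43e44c.OD

section

variable {G ι : Type} [Group G] (T : Tr G ι) [Fintype G] [Fintype ι]

theorem Cmp_bb_le {k : Type} [Field k] (h2 : (2 : k) ≠ 0) (hk : (T.cS : k) ≠ 0) (W : WD k G)
    (i : Fin W.m) (hi : T.Odd W i) : T.bb W i ≤ Fintype.card ι := by
  classical
  have h1 := T.sum_odd_bb h2 hk W
  have h3 := T.card_eq
  rw [T.bl_one, one_mul] at h3
  have h4 : T.bb W i ≤ ∑ j ∈ univ.filter (fun j : Fin W.m => T.Odd W j), T.bb W j :=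
    single_le_sum (f := fun j => T.bb W j) (fun _ _ => Nat.zero_le _)
      (mem_filter.mpr ⟨mem_univ _, hi⟩)
  have h5 : 2 * T.cS * T.bb W i ≤ 2 * T.cS * Fintype.card ι := by
    rw [← h3, ← h1]
    exact Nat.mul_le_mul_left _ h4
  have h6 : 0 < 2 * T.cS := by
    have := T.cS_pos
    omega
  exact Nat.le_of_mul_le_mul_left h5 h6

end

theorem cmpX : ∃ C c ε : ℝ, 0 < C ∧ 0 < c ∧ 0 < ε ∧ ∃ n₀ : ℕ, ∀ {G ι : Type} [Group G]
    (T : Tr G ι) [Fintype G] [Fintype ι] (W : WD ℚ G) (i : Fin W.m), T.Odd W i →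
    n₀ ≤ Fintype.card ι → T.bb W i < W.a i → 3 ≤ W.r i * finrank ℚ (W.D i) →
    (T.badI W i).Nonempty →
    BndX C c ε (Fintype.card ι) (W.a i) (T.bb W i) (W.f i)
      ((((T.badI W i).ncard : ℕ) : ℝ) / 2 ^ Fintype.card ι) := by
  classical
  obtain ⟨A, hA, n₁, hgood⟩ := real_good
  obtain ⟨n₂, hweak⟩ := real_weak 63
  obtain ⟨Cb, hCb, n₃, hbig⟩ := TS.bigX.{0, 0}
  obtain ⟨C3, hC3, n₄, hlv3⟩ := TS.lvl3.{0, 0} Cb
  obtain ⟨C2, hC2, n₅, hlv2⟩ := TS.lvl2.{0, 0}
  obtain ⟨n₆, hrf⟩ := rfX.{0, 0}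
  obtain ⟨n₇, hn₇, hev⟩ := cmp_ev (63 * A + 2 * A)
  refine ⟨Cb + C3 + C2 + 4, 1 / 10, 1 / 200, by positivity, by norm_num, by norm_num,
    n₁ + n₂ + n₃ + n₄ + n₅ + n₆ + n₇, ?_⟩
  intro G ι _ T _ _ W i hi hn hba hrd hne
  set n := Fintype.card ι with hnd
  have hn8 : 8 ≤ n := by omega
  have hn1 : (1 : ℝ) ≤ n := by
    have : (8 : ℝ) ≤ n := by exact_mod_cast hn8
    linarith
  have hnpos : (0 : ℝ) < n := by linarith
  obtain ⟨hl1, hlA⟩ := hev n (by omega)
  set L := Real.log n with hL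
  have hL0 : 0 ≤ L := Real.log_nonneg hn1
  set l := Real.log L with hl
  have hpow : (0 : ℝ) < 2 ^ n := by positivity
  have hdiv : ∀ {x : ℝ}, (((T.badI W i).ncard : ℕ) : ℝ) ≤ x * 2 ^ n →
      (((T.badI W i).ncard : ℕ) : ℝ) / 2 ^ n ≤ x := by
    intro x h
    rwa [div_le_iff₀ hpow]
  have hmono : ∀ {x y : ℝ}, 0 ≤ x → x ≤ y → ∀ {z : ℝ}, 0 ≤ z → x * z ≤ y * z :=
    fun _ h _ hz => mul_le_mul_of_nonneg_right h hz
  -- the subspace
  letI := T.act
  haveI := T.act_pretransitive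
  have hιne : Nonempty ι := Fintype.card_pos_iff.mp (by omega)
  obtain ⟨U, hU, hh, hcov, hker⟩ := T.exists_U hi hne
  set N := finrank ℝ U with hN
  set h := finrank ℝ (T.coc.Hom U) with hhd
  have hcS : (T.cS : ℚ) ≠ 0 := by exact_mod_cast T.cS_pos.ne'
  have ha1 : 1 ≤ W.a i := (W.f_pos i).trans_le (W.f_le_a i)
  have hbb1 : 1 ≤ T.bb W i := by
    unfold TS.bb
    exact Nat.mul_pos (Nat.pos_of_ne_zero (NeZero.ne (W.r i))) (T.be_pos W i hne)
  have hbbn : T.bb W i ≤ n := Cmp_bb_le T (k := ℚ) two_ne_zero hcS W i hi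
  -- the set which contains the bad vectors
  set Z : Set (ι → Bool) := {v : ι → Bool | ∃ T' ∈ T.coc.Hom U, T' ≠ 0 ∧
        SOrth v (LinearMap.range (T' : U →ₗ[ℝ] EuclideanSpace ℝ ι))} with hZ
  have hbZ : (((T.badI W i).ncard : ℕ) : ℝ) ≤ ((Z.ncard : ℕ) : ℝ) := by
    exact_mod_cast Set.ncard_le_ncard (fun v hv => hcov v hv) (Set.toFinite _)
  have hhN : h ≤ N := by
    obtain ⟨i₀⟩ := hιne
    refine (hom_le_fix T.coc hU.1 i₀).trans ?_
    have : fixU T.coc U (stb T.coc i₀) ≤ U := fun u hu => hu.1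
    exact Submodule.finrank_mono this
  have hNn : N ≤ n := by
    have h1 := Submodule.finrank_le U
    rwa [finrank_euclideanSpace] at h1
  have hN0 : 0 < N := by
    have hUne : U ≠ ⊥ := hU.2.1
    rw [Nat.pos_iff_ne_zero]
    intro h0
    exact hUne (Submodule.finrank_eq_zero.mp h0)
  have hh0 : 0 < h := by
    obtain ⟨v, hv⟩ := hne
    obtain ⟨R, hR, hR0, -⟩ := hcov v hv
    rw [hhd]
    have : Nontrivial (T.coc.Hom U) := ⟨⟨⟨R, hR⟩, 0, fun h => hR0 (congrArg Subtype.val h)⟩⟩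
    exact finrank_pos (R := ℝ) (M := T.coc.Hom U)
  have hhlt : h < N := by
    by_contra hcon
    have h1 : N ≤ h := by omega
    have h2 : N * W.a i ≤ T.bb W i * N := (Nat.mul_le_mul_right _ h1).trans hh
    rw [mul_comm N] at h2
    have h3 := Nat.le_of_mul_le_mul_right h2 hN0
    omega
  -- the good case
  by_cases hgc : 2 ≤ N - h ∧ A * l * N ≤ ((N - h : ℕ) : ℝ) * L
  · left
    have h1 := hgood T.coc hU (by omega) hgc.1 hgc.2
    refine hdiv ((hbZ.trans h1).trans ?_)
    apply mul_le_mul_of_nonneg_right _ hpow.le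
    have h2 : (n : ℝ) ^ (-(9 / 8) : ℝ) ≤ (n : ℝ) ^ (-(1 + 1 / 10) : ℝ) :=
      Real.rpow_le_rpow_of_exponent_le hn1 (by norm_num)
    have h3 : 0 ≤ (n : ℝ) ^ (-(1 + 1 / 10) : ℝ) := Real.rpow_nonneg hnpos.le _
    nlinarith
  have hgc' : N - h = 1 ∨ ((N - h : ℕ) : ℝ) * L < A * l * N := by
    by_contra hcon
    push Not at hcon
    exact hgc ⟨by omega, hcon.2⟩
  have hLA : 2 * A * l < L := by
    have h1 : l ≤ l ^ 2 := by nlinarith
    have h2 : 2 * A * l ≤ (63 * A + 2 * A) * l ^ 2 := by nlinarith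
    linarith
  have hNh : 2 * (N - h) ≤ N := by
    rcases hgc' with h1 | h1
    · omega
    · by_contra hcon
      have h2 : (N : ℝ) < 2 * ((N - h : ℕ) : ℝ) := by exact_mod_cast (by omega : N < 2 * (N - h))
      have h3 : (0 : ℝ) < N := by exact_mod_cast hN0
      have h4 : (N : ℝ) * L < N * (2 * A * l) := by nlinarith
      have h5 := lt_of_mul_lt_mul_left h4 h3.le
      linarith
  have ha2b : W.a i ≤ 2 * T.bb W i := by
    have h1 : N ≤ 2 * h := by omega
    have h2 : h * W.a i ≤ h * (2 * T.bb W i) := by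
      refine hh.trans ?_
      calc T.bb W i * N ≤ T.bb W i * (2 * h) := Nat.mul_le_mul_left _ h1
        _ = h * (2 * T.bb W i) := by ring
    exact Nat.le_of_mul_le_mul_left h2 hh0
  have ha2n : W.a i ≤ 2 * n := ha2b.trans (Nat.mul_le_mul_left _ hbbn)
  -- the quotient
  obtain ⟨Q, _, _, T', V, j, hQ, hVo, hVa, hVf, hVb, hVbad⟩ := T.exists_faithful W hi hne
  have hQlog : Real.log (Fintype.card Q) ≤ 8 * L ^ 2 := by
    have h1 : (kerU T.coc U).index ≤ (2 * n) ^ (Nat.log 2 N + 1) :=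
      base_index T.coc hU rfl rfl (cmp_pow (by omega) hNh)
    have h2 : (TS.kerI W i).index ≤ (kerU T.coc U).index := by
      apply Nat.le_of_dvd
      · exact Nat.pos_of_ne_zero Subgroup.index_ne_zero_of_finite
      · exact Subgroup.index_dvd_of_le hker
    have h3 : Fintype.card Q ≤ (2 * n) ^ (Nat.log 2 N + 1) := by
      rw [← Nat.card_eq_fintype_card, hQ]
      exact h2.trans h1
    exact cmp_log hn8 hNn hN0 Fintype.card_pos h3
  have hVa2n : V.a j ≤ 2 * n := by rw [hVa]; exact ha2n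
  have hVba : T'.bb V j < V.a j := by rw [hVa, hVb]; exact hba
  -- large center
  by_cases hf : Cb * L ≤ W.f i
  · have h1 := hbig T' V j hVo (by omega) hQlog hVa2n (by rw [hVf]; exact hf)
    rw [← hVbad, hVf] at h1
    rcases h1 with h1 | h1
    · left
      refine (hdiv h1).trans ?_
      have h2 : (n : ℝ) ^ (-2 : ℝ) ≤ (n : ℝ) ^ (-(1 + 1 / 10) : ℝ) :=
        Real.rpow_le_rpow_of_exponent_le hn1 (by norm_num)
      have h3 : 0 ≤ (n : ℝ) ^ (-(1 + 1 / 10) : ℝ) := Real.rpow_nonneg hnpos.le _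
      nlinarith
    · right; right; right
      refine ⟨h1, ?_⟩
      set w := W.r i * finrank ℚ (W.D i) with hw
      have hbew : T.be W i < w := by
        have h2 : W.r i * T.be W i < W.r i * w := by
          have h3 : W.a i = W.r i * w := by
            rw [hw]
            unfold WD.a
            ring
          rw [← h3]
          exact hba
        exact Nat.lt_of_mul_lt_mul_left h2
      have hfw : W.f i ≤ w := by
        refine (W.f_le_finrank i).trans ?_
        exact Nat.le_mul_of_pos_left _ (Nat.pos_of_ne_zero (NeZero.ne (W.r i)))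
      have hwn : (n : ℝ) ≤ w * L ^ 40 := by
        refine h1.trans ?_
        apply mul_le_mul_of_nonneg_right _ (by positivity)
        exact_mod_cast hfw
      have h2 := cmp_chain (n := n) (w := w) (d := w - T.be W i) hn8 hl1 hwn (by omega)
        (fun j' hj' hd => T.kfour W hbew hj' hd)
      have hNw : (N : ℝ) ≤ 63 * l * ((N - h : ℕ) : ℝ) := by
        have h3 : h * w ≤ T.be W i * N := by
          have h4 : W.r i * (h * w) ≤ W.r i * (T.be W i * N) := by
            have h5 : W.r i * (h * w) = h * W.a i := by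
              rw [hw]
              unfold WD.a
              ring
            have h6 : W.r i * (T.be W i * N) = T.bb W i * N := by
              unfold TS.bb
              ring
            rw [h5, h6]
            exact hh
          exact Nat.le_of_mul_le_mul_left h4 (Nat.pos_of_ne_zero (NeZero.ne (W.r i)))
        have hd0 : (0 : ℝ) < ((w - T.be W i : ℕ) : ℝ) := by exact_mod_cast (by omega : 0 < w - T.be W i)
        have hc1 : ((w - T.be W i : ℕ) : ℝ) = w - T.be W i := Nat.cast_sub hbew.le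
        have hc2 : ((N - h : ℕ) : ℝ) = N - h := Nat.cast_sub hhN
        have h3' : (h : ℝ) * w ≤ T.be W i * N := by exact_mod_cast h3
        have h7 : (N : ℝ) * ((w - T.be W i : ℕ) : ℝ) ≤ ((N - h : ℕ) : ℝ) * w := by
          rw [hc1, hc2]
          nlinarith
        have h8 : ((N - h : ℕ) : ℝ) * w ≤ ((N - h : ℕ) : ℝ) * (63 * l * ((w - T.be W i : ℕ) : ℝ)) :=
          mul_le_mul_of_nonneg_left h2 (Nat.cast_nonneg _)
        have h9 : (N : ℝ) * ((w - T.be W i : ℕ) : ℝ)
            ≤ (63 * l * ((N - h : ℕ) : ℝ)) * ((w - T.be W i : ℕ) : ℝ) := by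
          linarith
        exact le_of_mul_le_mul_right h9 hd0
      have hN63 : (N : ℝ) ≤ 63 * l := by
        rcases hgc' with h3 | h3
        · rw [h3] at hNw
          simpa using hNw
        · exfalso
          have h4 : (0 : ℝ) < ((N - h : ℕ) : ℝ) := by exact_mod_cast (by omega : 0 < N - h)
          have h5 : ((N - h : ℕ) : ℝ) * L < ((N - h : ℕ) : ℝ) * (63 * A * l ^ 2) := by
            refine h3.trans_le ?_
            have h6 : A * l * N ≤ A * l * (63 * l * ((N - h : ℕ) : ℝ)) :=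
              mul_le_mul_of_nonneg_left hNw (by positivity)
            refine h6.trans (le_of_eq ?_)
            ring
          have h6 := lt_of_mul_lt_mul_left h5 h4.le
          nlinarith
      have h3 := hweak T.coc hU (by omega) hN63
      refine hdiv ((hbZ.trans h3).trans ?_)
      apply mul_le_mul_of_nonneg_right _ hpow.le
      have h4 : 0 ≤ (n : ℝ) ^ (-(1 / 4) : ℝ) := Real.rpow_nonneg hnpos.le _
      nlinarith
  have hf' : (W.f i : ℝ) ≤ Cb * L := (not_le.mp hf).le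
  have hlog6 : 0 ≤ Real.log (6 * Real.sqrt (W.a i * W.f i)) := by
    apply Real.log_nonneg
    have h1 : (1 : ℝ) ≤ W.a i := by exact_mod_cast ha1
    have h2 : (1 : ℝ) ≤ W.f i := by exact_mod_cast W.f_pos i
    have h3 : 1 ≤ Real.sqrt (W.a i * W.f i) := by
      rw [Real.one_le_sqrt]
      nlinarith
    linarith
  have hlv : ∀ e : ℕ, 3 ≤ W.f i + e →
      (e = 0 ∨ (e = 1 ∧ T.bb W i < W.a i) ∨ (e = 2 ∧ T.bb W i < W.a i ∧ W.f i = 1 ∧
        ∀ x : ℕ, ¬ (W.a i = (x + 1) ^ 2 ∧ T.bb W i = (x + 1) * x))) →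
      BndX (Cb + C3 + C2 + 4) (1 / 10) (1 / 200) n (W.a i) (T.bb W i) (W.f i)
        ((((T.badI W i).ncard : ℕ) : ℝ) / 2 ^ n) := by
    intro e he1 he2
    right; left
    have h1 := hlv3 T' V j hVo (by omega) hQlog hVa2n (by rw [hVf]; exact hf') e
      (by rw [hVf]; exact he1) (by rw [hVf, hVa, hVb]; exact he2)
    rw [← hVbad, hVf, hVa] at h1
    refine ⟨?_, ha2b, (hdiv h1).trans ?_⟩
    · refine hf'.trans ?_
      apply mul_le_mul_of_nonneg_right _ hL0
      linarith
    · apply mul_le_mul_of_nonneg_right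
      · linarith
      · apply Real.rpow_nonneg
        positivity
  rcases Nat.lt_or_ge (W.f i) 3 with hf3 | hf3
  swap
  · exact hlv 0 (by omega) (Or.inl rfl)
  rcases Nat.lt_or_ge (W.f i) 2 with hf2 | hf2
  swap
  · exact hlv 1 (by omega) (Or.inr (Or.inl ⟨rfl, hba⟩))
  have hf1 : W.f i = 1 := by
    have := W.f_pos i
    omega
  by_cases hx : ∀ x : ℕ, ¬ (W.a i = (x + 1) ^ 2 ∧ T.bb W i = (x + 1) * x)
  · exact hlv 2 (by omega) (Or.inr (Or.inr ⟨rfl, hba, hf1, hx⟩))
  push Not at hx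
  obtain ⟨x, hx1, hx2⟩ := hx
  have hx0 : x ≠ 0 := by
    intro h0
    rw [h0] at hx2
    omega
  have hx1' : x ≠ 1 := by
    intro h0
    rw [h0] at hx1 hx2
    have h1 : W.a i = W.r i * (W.r i * finrank ℚ (W.D i)) := by
      unfold WD.a
      ring
    rw [hx1] at h1
    have hr0 : W.r i ≠ 0 := NeZero.ne (W.r i)
    have h2 : W.r i = 1 := by
      by_contra h3
      have h4 : 2 ≤ W.r i := by omega
      have h5 := Nat.mul_le_mul h4 hrd
      omega
    have h3 := T.dvd_be W i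
    have h4 : T.bb W i = T.be W i := by
      unfold TS.bb
      rw [h2, one_mul]
    rw [h2, one_mul, one_mul] at h1
    rw [← h4, ← h1, hx2] at h3
    norm_num at h3
  by_cases hxn : ((x : ℝ) + 1) ≤ (n : ℝ) ^ (1 / 200 : ℝ)
  · left
    have h1 := hrf T' V j hVo (by omega) hQlog x (by omega) (by rw [hVa]; exact hx1)
      (by rw [hVb]; exact hx2) hxn
    rw [← hVbad] at h1
    refine (hdiv h1).trans ?_
    have h2 : (n : ℝ) ^ (-(11 / 10) : ℝ) = (n : ℝ) ^ (-(1 + 1 / 10) : ℝ) := by norm_num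
    rw [h2]
    apply mul_le_mul_of_nonneg_right _ (Real.rpow_nonneg hnpos.le _)
    linarith
  · right; right; left
    have h1 := hlv2 T' V j hVo (by omega) hQlog hVa2n (by rw [hVf]; exact hf1) hVba
    rw [← hVbad, hVa] at h1
    refine ⟨ha2b, ?_, (hdiv h1).trans ?_⟩
    · have h2 : Real.sqrt (W.a i) = (x : ℝ) + 1 := by
        rw [hx1]
        push_cast
        exact Real.sqrt_sq (by positivity)
      rw [h2]
      exact (not_le.mp hxn).le
    · have h2 : 0 ≤ Real.log (6 * Real.sqrt (W.a i)) := by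
        have h3 := hlog6
        rwa [hf1, Nat.cast_one, mul_one] at h3
      apply mul_le_mul_of_nonneg_right
      · linarith
      · positivity

end Pool.MP43e44c.GX
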