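import Pool.Agent.H.MP_43e44c_ag.OD.WdC
import Pool.Agent.H.MP_43e44c_ag.MQ.Step

/-!
Finite groups with a central involution and a subgroup: sign vectors on cosets, odd components.
-/

set_option autoImplicit false

open Finset Module

namespace Pool.MP43e44c.GX

open Pool.MP43e44c.OD

universe u v

/-- A group with a central involution `c`, a subgroup `S` and a family `t` of elements such that every
union of cosets `S g ∪ S g c` contains the same number `bl` of the `t j`. -/
structure TS (G : Type u) [Group G] (ι : Type v) where
  /-- the involution -/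
  c : G
  ne : c ≠ 1
  sq : c * c = 1
  cen : ∀ g, g * c = c * g
  /-- the subgroup -/
  S : Subgroup G
  hc : c ∉ S
  /-- the family -/
  t : ι → G
  /-- the number of the elements in a class -/
  bl : ℕ
  bl_pos : 0 < bl
  fib : ∀ g : G, Nat.card {j : ι // t j * g⁻¹ ∈ S ∨ t j * g⁻¹ * c ∈ S} = bl

namespace TS

variable {G : Type u} [Group G] {ι : Type v} (T : TS G ι)

theorem mul_c_ne (g : G) : g * T.c ≠ g := fun h => T.ne (by simpa using h)

theorem c_inv : T.c⁻¹ = T.c := inv_eq_of_mul_eq_one_left T.sq

theorem mul_c_c (g : G) : g * T.c * T.c = g := by rw [mul_assoc, T.sq, mul_one]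

/-- The order of the subgroup. -/
noncomputable def cS : ℕ := Nat.card T.S

/-- The involution as an element of the group ring. -/
noncomputable def cc (R : Type*) [CommRing R] : MonoidAlgebra R G := MonoidAlgebra.single T.c 1

open Classical in
/-- The sum of the elements of the subgroup. -/
noncomputable def eS [Fintype G] (R : Type*) [CommRing R] : MonoidAlgebra R G :=
  ofFun fun g => if g ∈ T.S then (1 : R) else 0

theorem eS_coeff_mem [Fintype G] (R : Type*) [CommRing R] {g : G} (hg : g ∈ T.S) :
    (T.eS R).coeff g = 1 := by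
  classical
  unfold eS
  rw [ofFun_coeff, if_pos hg]

theorem eS_coeff_notMem [Fintype G] (R : Type*) [CommRing R] {g : G} (hg : g ∉ T.S) :
    (T.eS R).coeff g = 0 := by
  classical
  unfold eS
  rw [ofFun_coeff, if_neg hg]

section

variable [Fintype G]

/-- The components on which the involution acts as `- 1`. -/
def Odd {k : Type} [Field k] (W : WD k G) (i : Fin W.m) : Prop := W.comp i (T.cc k) = -1

/-- The components on which `S` acts trivially. -/
def Full {k : Type} [Field k] (W : WD k G) (i : Fin W.m) : Prop :=
  ∀ g ∈ T.S, W.comp i (MonoidAlgebra.single g 1) = 1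

/-- The rows which are fixed by `S`. -/
def fixR {k : Type} [Field k] (W : WD k G) (i : Fin W.m) : Submodule k (Fin (W.r i) → W.D i) where
  carrier := {u | ∀ g ∈ T.S, Matrix.vecMul u (W.comp i (MonoidAlgebra.single g 1)) = u}
  zero_mem' := fun g _ => by rw [Matrix.zero_vecMul]
  add_mem' := fun {a b} ha hb g hg => by rw [Matrix.add_vecMul, ha g hg, hb g hg]
  smul_mem' := fun r a ha g hg => by rw [Matrix.smul_vecMul, ha g hg]

/-- The dimension of the space of the fixed rows. -/
noncomputable def be {k : Type} [Field k] (W : WD k G) (i : Fin W.m) : ℕ := finrank k (T.fixR W i)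

/-- The dimension of the part of the space of the odd functions on the cosets which belongs to the
component. -/
noncomputable def bb {k : Type} [Field k] (W : WD k G) (i : Fin W.m) : ℕ := W.r i * T.be W i

end

variable [Fintype ι]

/-- The element of the group ring attached to a vector of signs. -/
noncomputable def el (R : Type*) [CommRing R] (v : ι → Bool) : MonoidAlgebra R G :=
  ∑ j, MonoidAlgebra.single (T.t j) (if v j then (1 : R) else -1)

theorem map_el [Fintype G] {R S : Type*} [CommRing R] [CommRing S] (f : R →+* S) (v : ι → Bool) :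
    MonoidAlgebra.mapRingHom G f (T.el R v) = T.el S v := by
  unfold el
  rw [map_sum]
  refine sum_congr rfl fun i _ => ?_
  apply ma_ext
  intro g
  rw [MonoidAlgebra.coeff_mapRingHom, MonoidAlgebra.coeff_single, MonoidAlgebra.coeff_single]
  by_cases h : v i <;> by_cases hg : T.t i = g <;> simp [h, hg]

theorem toQ_el [Fintype G] (v : ι → Bool) : toQ (T.el ℤ v) = T.el ℚ v := T.map_el _ v

theorem toP_el [Fintype G] (p : ℕ) (v : ι → Bool) : toP p (T.el ℤ v) = T.el (ZMod p) v := T.map_el _ v

variable [Fintype G]

/-- The sign vectors which are annihilated by an odd element which is invariant under `S` from the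
right. -/
def bad : Set (ι → Bool) :=
  {v | ∃ x : MonoidAlgebra ℚ G, x * T.cc ℚ = -x ∧ x * T.eS ℚ = (T.cS : ℚ) • x ∧ x ≠ 0 ∧
    x * T.el ℚ v = 0}

/-- The sign vectors which are bad for a component. -/
def badI (W : WD ℚ G) (i : Fin W.m) : Set (ι → Bool) :=
  {v | ∃ X : Matrix (Fin (W.r i)) (Fin (W.r i)) (W.D i), X ≠ 0 ∧
    X * W.comp i (T.eS ℚ) = (T.cS : ℚ) • X ∧ X * W.comp i (T.el ℚ v) = 0}

end TS

end Pool.MP43e44c.GX
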