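import Pool.Agent.H.MP_43e44c_ag.OD.WdC

/-!
Surjections of a group algebra onto a matrix algebra over a division ring factor through a component.
-/

set_option autoImplicit false

open Finset Module

namespace Pool.MP43e44c.GX

open Pool.MP43e44c.OD

universe u

/-- PROOF. The elements `ψ (e i)` are central idempotents of the simple ring `M_r(D)`
(`ψ` is surjective), with sum `1` and products `0`; a central idempotent is a scalar `ζ` (`wdB_central`) with
`ζ ^ 2 = ζ`, so `0` or `1`.  So `ψ (e i) = 1` for exactly one `i`, `ψ x = ψ (x * e i)`, and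
`φ X = ψ (W.φ.symm (Pi.single i X))` is a surjective homomorphism of algebras (`ψ x = φ (comp i x)` for all
`x`); its kernel is a proper two-sided ideal of the simple ring `M_{r i}(D i)`, so `0`
(`Matrix` over a division ring is simple; or directly: if `X ≠ 0` is in the kernel then
`E_{0a} X E_{b0} d` gives that `1` is in the kernel). -/
theorem exists_factor {k : Type} [Field k] {G : Type u} [Group G] [Fintype G] (W : WD k G) {r : ℕ}
    [NeZero r] {D : Type u} [DivisionRing D] [Algebra k D]
    (ψ : MonoidAlgebra k G →ₐ[k] Matrix (Fin r) (Fin r) D) (hψ : Function.Surjective ψ) :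
    ∃ (i : Fin W.m) (φ : Matrix (Fin (W.r i)) (Fin (W.r i)) (W.D i) ≃ₐ[k] Matrix (Fin r) (Fin r) D),
      ∀ x, φ (W.comp i x) = ψ x := by
  classical
  have hnt : Nontrivial (Matrix (Fin r) (Fin r) D) := inferInstance
  -- the images of the idempotents
  have h01 : ∀ i, ψ (W.e i) = 0 ∨ ψ (W.e i) = 1 := by
    intro i
    obtain ⟨ζ, -, h2⟩ := wdB_central (ψ (W.e i)) (fun X => by
      obtain ⟨x, rfl⟩ := hψ X
      rw [← map_mul, ← map_mul, W.e_comm])
    have h3 : ψ (W.e i) * ψ (W.e i) = ψ (W.e i) := by rw [← map_mul, W.e_mul_self]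
    have h4 : ζ * ζ = ζ := by
      have h5 := congrFun (congrFun h3 0) 0
      rw [h2, Matrix.diagonal_mul_diagonal, Matrix.diagonal_apply_eq,
        Matrix.diagonal_apply_eq] at h5
      exact h5
    rcases eq_or_ne ζ 0 with h5 | h5
    · left
      rw [h2, h5]
      exact Matrix.diagonal_zero
    · right
      have h6 : ζ = 1 := by
        have h7 : ζ⁻¹ * (ζ * ζ) = ζ⁻¹ * ζ := by rw [h4]
        rwa [← mul_assoc, inv_mul_cancel₀ h5, one_mul] at h7
      rw [h2, h6]
      exact Matrix.diagonal_one
  obtain ⟨i, hi⟩ : ∃ i, ψ (W.e i) = 1 := by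
    by_contra hcon
    push Not at hcon
    have h1 : ψ 1 = 0 := by
      rw [← W.sum_e, map_sum]
      exact sum_eq_zero fun i _ => (h01 i).resolve_right (hcon i)
    rw [map_one] at h1
    exact one_ne_zero h1
  -- the map of the component
  let L : Matrix (Fin (W.r i)) (Fin (W.r i)) (W.D i) →ₗ[k] Matrix (Fin r) (Fin r) D :=
    (ψ.toLinearMap.comp W.φ.symm.toLinearMap).comp
      (LinearMap.single k (fun i => Matrix (Fin (W.r i)) (Fin (W.r i)) (W.D i)) i)
  have hL : ∀ X, L X = ψ (W.φ.symm (Pi.single i X)) := fun X => rfl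
  let F : Matrix (Fin (W.r i)) (Fin (W.r i)) (W.D i) →ₐ[k] Matrix (Fin r) (Fin r) D :=
    AlgHom.ofLinearMap L (by rw [hL]; exact hi) (fun X Y => by
      rw [hL, hL, hL, ← map_mul, ← map_mul, ← Pi.single_mul])
  have hF : ∀ X, F X = ψ (W.φ.symm (Pi.single i X)) := fun X => rfl
  have hFc : ∀ x, F (W.comp i x) = ψ x := by
    intro x
    have h1 : W.φ.symm (Pi.single i (W.comp i x)) = x * W.e i := by
      apply W.comp_inj
      intro j
      by_cases hj : j = i
      · subst hj
        rw [WD.comp_apply, AlgEquiv.apply_symm_apply, Pi.single_eq_same, map_mul, W.comp_e_self,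
          mul_one]
      · rw [WD.comp_apply, AlgEquiv.apply_symm_apply, Pi.single_eq_of_ne hj, map_mul,
          W.comp_e_ne hj, mul_zero]
    rw [hF, h1, map_mul, hi, mul_one]
  have hinj : Function.Injective F := RingHom.injective F.toRingHom
  have hsurj : Function.Surjective F := by
    intro Y
    obtain ⟨x, rfl⟩ := hψ Y
    exact ⟨W.comp i x, hFc x⟩
  exact ⟨i, AlgEquiv.ofBijective F ⟨hinj, hsurj⟩, fun x => hFc x⟩

/-- The center of the matrix algebra. -/
private def facZ (k : Type) [Field k] (r : ℕ) (D : Type u) [DivisionRing D] [Algebra k D] :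
    Submodule k (Matrix (Fin r) (Fin r) D) where
  carrier := {Z | ∀ X, Z * X = X * Z}
  zero_mem' := fun X => by rw [zero_mul, mul_zero]
  add_mem' := fun {a b} ha hb X => by rw [add_mul, mul_add, ha X, hb X]
  smul_mem' := fun c Z hZ X => by rw [smul_mul_assoc, mul_smul_comm, hZ X]

private theorem fac_finrank (k : Type) [Field k] (r : ℕ) [NeZero r] (D : Type u) [DivisionRing D]
    [Algebra k D] : finrank k (facZ k r D) = finrank k (Subalgebra.center k D) := by
  symm
  have hz0 : 0 < r := Nat.pos_of_ne_zero (NeZero.ne r)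
  let L : Subalgebra.center k D →ₗ[k] Matrix (Fin r) (Fin r) D :=
    { toFun := fun ζ => Matrix.diagonal fun _ => (ζ : D)
      map_add' := fun x y => by
        rw [Matrix.diagonal_add]
        rfl
      map_smul' := fun c x => by
        rw [← Matrix.diagonal_smul]
        rfl }
  have hL : Function.Injective L := by
    intro x y hxy
    apply Subtype.ext
    have h := congrFun (congrFun hxy ⟨0, hz0⟩) ⟨0, hz0⟩
    change (Matrix.diagonal fun _ => (x : D)) _ _ = (Matrix.diagonal fun _ => (y : D)) _ _
      at h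
    rwa [Matrix.diagonal_apply_eq, Matrix.diagonal_apply_eq] at h
  have hr : LinearMap.range L = facZ k r D := by
    apply le_antisymm
    · rintro _ ⟨ζ, rfl⟩
      exact fun X => wdB_central' (ζ : D) (fun d => ((Subalgebra.mem_center_iff.mp ζ.2) d).symm) X
    · intro Z hZ
      obtain ⟨ζ, h3, h4⟩ := wdB_central Z hZ
      exact ⟨⟨ζ, Subalgebra.mem_center_iff.mpr fun d => (h3 d).symm⟩, h4.symm⟩
  rw [← LinearMap.finrank_range_of_inj hL, hr]

private theorem fac_one_iff (r : ℕ) [NeZero r] (D : Type u) [DivisionRing D] :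
    r = 1 ↔ ∀ X Y : Matrix (Fin r) (Fin r) D, X * Y = 0 → X = 0 ∨ Y = 0 := by
  constructor
  · intro h X Y hXY
    subst h
    have h1 := congrFun (congrFun hXY 0) 0
    rw [Matrix.mul_apply, Fin.sum_univ_one, Matrix.zero_apply] at h1
    rcases mul_eq_zero.1 h1 with h2 | h2
    · left
      ext i j
      rw [Subsingleton.elim i 0, Subsingleton.elim j 0, h2, Matrix.zero_apply]
    · right
      ext i j
      rw [Subsingleton.elim i 0, Subsingleton.elim j 0, h2, Matrix.zero_apply]
  · intro h
    by_contra hr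
    have h0 : 0 < r := Nat.pos_of_ne_zero (NeZero.ne r)
    have h2 : 1 < r := by omega
    have hne : (⟨0, h0⟩ : Fin r) ≠ ⟨1, h2⟩ := by
      intro h3
      have := congrArg Fin.val h3
      simp at this
    have hXY : Matrix.single (⟨0, h0⟩ : Fin r) (⟨0, h0⟩ : Fin r) (1 : D) *
        Matrix.single (⟨1, h2⟩ : Fin r) (⟨1, h2⟩ : Fin r) (1 : D) = 0 :=
      Matrix.single_mul_single_of_ne (1 : D) _ _ _ hne _
    rcases h _ _ hXY with h3 | h3
    · have h4 := congrFun (congrFun h3 ⟨0, h0⟩) ⟨0, h0⟩
      rw [Matrix.single_apply_same, Matrix.zero_apply] at h4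
      exact one_ne_zero h4
    · have h4 := congrFun (congrFun h3 ⟨1, h2⟩) ⟨1, h2⟩
      rw [Matrix.single_apply_same, Matrix.zero_apply] at h4
      exact one_ne_zero h4

/-- Dimensions of the algebras, of the centers (the center of the matrix algebra consists of the scalar
matrices with a central scalar, `wdB_central`), and `r = 1` iff the algebra has no zero divisors. -/
theorem inv_of_equiv {k : Type} [Field k] {r r' : ℕ} [NeZero r] [NeZero r'] {D D' : Type u}
    [DivisionRing D] [Algebra k D] [Module.Finite k D] [DivisionRing D'] [Algebra k D']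
    [Module.Finite k D']
    (φ : Matrix (Fin r) (Fin r) D ≃ₐ[k] Matrix (Fin r') (Fin r') D') :
    r ^ 2 * finrank k D = r' ^ 2 * finrank k D' ∧
      finrank k (Subalgebra.center k D) = finrank k (Subalgebra.center k D') ∧
      (r = 1 ↔ r' = 1) := by
  refine ⟨?_, ?_, ?_⟩
  · have h := LinearEquiv.finrank_eq φ.toLinearEquiv
    rw [finrank_matrix, finrank_matrix, Fintype.card_fin, Fintype.card_fin] at h
    rw [sq, sq]
    exact h
  · rw [← fac_finrank k r D, ← fac_finrank k r' D']
    have h1 : (facZ k r D).map (φ.toLinearEquiv : Matrix (Fin r) (Fin r) D →ₗ[k]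
        Matrix (Fin r') (Fin r') D') = facZ k r' D' := by
      apply le_antisymm
      · rintro _ ⟨Z, hZ, rfl⟩ X
        show φ Z * X = X * φ Z
        obtain ⟨Y, rfl⟩ := φ.surjective X
        rw [← map_mul, ← map_mul, hZ Y]
      · intro Z hZ
        refine ⟨φ.symm Z, ?_, φ.apply_symm_apply Z⟩
        intro X
        apply φ.injective
        rw [map_mul, map_mul, AlgEquiv.apply_symm_apply]
        exact hZ (φ X)
    rw [← h1]
    exact (LinearEquiv.finrank_eq (φ.toLinearEquiv.submoduleMap (facZ k r D)))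
  · rw [fac_one_iff r D, fac_one_iff r' D']
    constructor
    · intro h X Y hXY
      have h1 := h (φ.symm X) (φ.symm Y) (by rw [← map_mul, hXY, map_zero])
      rcases h1 with h2 | h2
      · left
        rw [← φ.apply_symm_apply X, h2, map_zero]
      · right
        rw [← φ.apply_symm_apply Y, h2, map_zero]
    · intro h X Y hXY
      have h1 := h (φ X) (φ Y) (by rw [← map_mul, hXY, map_zero])
      rcases h1 with h2 | h2
      · left
        rw [← φ.symm_apply_apply X, h2, map_zero]
      · right
        rw [← φ.symm_apply_apply Y, h2, map_zero]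

/-- The homomorphism of the group algebras. -/
noncomputable def mapQ {k : Type} [Field k] {G Q : Type u} [Group G] [Group Q] (q : G →* Q) :
    MonoidAlgebra k G →ₐ[k] MonoidAlgebra k Q := MonoidAlgebra.mapDomainAlgHom k k q

theorem mapQ_single {k : Type} [Field k] {G Q : Type u} [Group G] [Group Q] (q : G →* Q) (g : G)
    (a : k) : mapQ q (MonoidAlgebra.single g a : MonoidAlgebra k G) = MonoidAlgebra.single (q g) a := by
  unfold mapQ
  rw [MonoidAlgebra.mapDomainAlgHom_apply, MonoidAlgebra.mapDomain_single]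

theorem mapQ_surj {k : Type} [Field k] {G Q : Type u} [Group G] [Group Q] {q : G →* Q}
    (hq : Function.Surjective q) : Function.Surjective (mapQ (k := k) q) := by
  intro y
  induction y using MonoidAlgebra.induction_on with
  | of h =>
    obtain ⟨g, rfl⟩ := hq h
    exact ⟨MonoidAlgebra.single g 1, mapQ_single q g 1⟩
  | add x y hx hy =>
    obtain ⟨a, rfl⟩ := hx
    obtain ⟨b, rfl⟩ := hy
    exact ⟨a + b, map_add _ _ _⟩
  | smul c x hx =>
    obtain ⟨a, rfl⟩ := hx
    exact ⟨c • a, map_smul _ _ _⟩

/-- PROOF. `comp i` factors through `mapQ q`: define `ψ : k[Q] → M_r(D)` by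
`MonoidAlgebra.lift` of `h ↦ comp i (single g 1)`, `q g = h`; apply `exists_factor` (the target is
`Matrix (Fin (W.r i)) (Fin (W.r i)) (W.D i)`). -/
theorem quot_comp {k : Type} [Field k] {G Q : Type u} [Group G] [Group Q] [Fintype G] [Fintype Q]
    {q : G →* Q} (hq : Function.Surjective q) (W : WD k G) (V : WD k Q) (i : Fin W.m)
    (hi : ∀ g ∈ q.ker, W.comp i (MonoidAlgebra.single g 1) = 1) :
    ∃ (j : Fin V.m) (φ : Matrix (Fin (V.r j)) (Fin (V.r j)) (V.D j) ≃ₐ[k]
        Matrix (Fin (W.r i)) (Fin (W.r i)) (W.D i)),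
      ∀ x, φ (V.comp j (mapQ q x)) = W.comp i x := by
  classical
  have hwell : ∀ g g' : G, q g = q g' →
      W.comp i (MonoidAlgebra.single g 1) = W.comp i (MonoidAlgebra.single g' 1) := by
    intro g g' h
    have h1 : g'⁻¹ * g ∈ q.ker := by
      rw [MonoidHom.mem_ker, map_mul, map_inv, h, inv_mul_cancel]
    have h2 : (MonoidAlgebra.single g 1 : MonoidAlgebra k G) =
        MonoidAlgebra.single g' 1 * MonoidAlgebra.single (g'⁻¹ * g) 1 := by
      rw [MonoidAlgebra.single_mul_single, mul_one, mul_inv_cancel_left]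
    rw [h2, map_mul, hi _ h1, mul_one]
  let f : Q →* Matrix (Fin (W.r i)) (Fin (W.r i)) (W.D i) :=
    { toFun := fun h => W.comp i (MonoidAlgebra.single (Function.surjInv hq h) 1)
      map_one' := by
        have h1 : W.comp i (MonoidAlgebra.single (Function.surjInv hq 1) 1) =
            W.comp i (MonoidAlgebra.single 1 1) :=
          hwell _ _ (by rw [Function.surjInv_eq hq, map_one])
        rw [h1]
        exact map_one (W.comp i)
      map_mul' := fun a b => by
        have h1 : W.comp i (MonoidAlgebra.single (Function.surjInv hq (a * b)) 1) =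
            W.comp i (MonoidAlgebra.single (Function.surjInv hq a * Function.surjInv hq b) 1) :=
          hwell _ _ (by rw [Function.surjInv_eq hq, map_mul, Function.surjInv_eq hq,
            Function.surjInv_eq hq])
        rw [h1, ← map_mul, MonoidAlgebra.single_mul_single, mul_one] }
  let ψ : MonoidAlgebra k Q →ₐ[k] Matrix (Fin (W.r i)) (Fin (W.r i)) (W.D i) :=
    MonoidAlgebra.lift k _ Q f
  have hψ1 : ψ.comp (mapQ q) = W.comp i := by
    apply MonoidAlgebra.algHom_ext
    · intro g
      show ψ (mapQ q (MonoidAlgebra.single g 1)) = W.comp i (MonoidAlgebra.single g 1)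
      rw [mapQ_single]
      show (MonoidAlgebra.lift k _ Q f) (MonoidAlgebra.single (q g) 1) = _
      rw [MonoidAlgebra.lift_single, one_smul]
      exact hwell _ _ (Function.surjInv_eq hq (q g))
    · ext
  have hψ2 : ∀ x, ψ (mapQ q x) = W.comp i x := fun x => DFunLike.congr_fun hψ1 x
  have hψs : Function.Surjective ψ := by
    intro X
    obtain ⟨x, hx, -⟩ := W.exists_comp i X
    exact ⟨mapQ q x, by rw [hψ2, hx]⟩
  obtain ⟨j, φ, h⟩ := exists_factor V ψ hψs
  exact ⟨j, φ, fun x => by rw [h, hψ2]⟩

/-- `exists_factor` for `(V.comp j).comp (mapQ q)`. -/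
theorem infl_comp {k : Type} [Field k] {G Q : Type u} [Group G] [Group Q] [Fintype G] [Fintype Q]
    {q : G →* Q} (hq : Function.Surjective q) (W : WD k G) (V : WD k Q) (j : Fin V.m) :
    ∃ (i : Fin W.m) (φ : Matrix (Fin (W.r i)) (Fin (W.r i)) (W.D i) ≃ₐ[k]
        Matrix (Fin (V.r j)) (Fin (V.r j)) (V.D j)),
      ∀ x, φ (W.comp i x) = V.comp j (mapQ q x) := by
  have hs : Function.Surjective ((V.comp j).comp (mapQ q)) := by
    intro X
    obtain ⟨y, hy, -⟩ := V.exists_comp j X
    obtain ⟨x, rfl⟩ := mapQ_surj (k := k) hq y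
    exact ⟨x, hy⟩
  obtain ⟨i, φ, h⟩ := exists_factor W ((V.comp j).comp (mapQ q)) hs
  exact ⟨i, φ, fun x => h x⟩

/-- Two components which factor through the same map are equal: if `φ (W.comp i x) = φ' (W.comp i' x)`
for all `x` then `x = e i` shows `i = i'`. -/
theorem comp_unique {k : Type} [Field k] {G : Type u} [Group G] [Fintype G] (W : WD k G)
    {i i' : Fin W.m} {A : Type*} [Ring A] [Algebra k A]
    (φ : Matrix (Fin (W.r i)) (Fin (W.r i)) (W.D i) ≃ₐ[k] A)
    (φ' : Matrix (Fin (W.r i')) (Fin (W.r i')) (W.D i') ≃ₐ[k] A)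
    (h : ∀ x, φ (W.comp i x) = φ' (W.comp i' x)) : i = i' := by
  by_contra hne
  have h1 := h (W.e i)
  rw [W.comp_e_self, W.comp_e_ne (fun h2 => hne h2.symm), map_zero, map_one] at h1
  have h2 : (1 : Matrix (Fin (W.r i)) (Fin (W.r i)) (W.D i)) = 0 := by
    apply φ.injective
    rw [map_one, map_zero, h1]
  exact one_ne_zero h2

end Pool.MP43e44c.GX
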