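import Pool.Agent.H.MP_43e44c_ag.GX.Quo
import Pool.Agent.H.MP_43e44c_ag.GA.Odd

/-!
Components on which `S` acts trivially: reduction to the case of trivial `S` and blocks of size one.
-/

set_option autoImplicit false

open Finset Module

namespace Pool.MP43e44c.GX

open Pool.MP43e44c.OD

universe u v

namespace TS

/-- A numbering of the classes. -/
private theorem Inf_number {ι : Type v} {n : ℕ} (hn : 0 < n) [Nonempty ι] (s : Set ι) :
    ∃ (F : ZMod n → ι) (K : ι → ZMod n), Nat.card s = n →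
      (∀ a, F a ∈ s) ∧ (∀ a, K (F a) = a) ∧ ∀ j ∈ s, F (K j) = j := by
  classical
  by_cases hs : Nat.card s = n
  · have h1 : Finite s := Nat.finite_of_card_ne_zero (by rw [hs]; exact hn.ne')
    have h2 : NeZero n := ⟨hn.ne'⟩
    let _ : Fintype s := Fintype.ofFinite s
    have h3 : Fintype.card s = Fintype.card (ZMod n) := by
      rw [← Nat.card_eq_fintype_card, hs, ZMod.card]
    have e : s ≃ ZMod n := Fintype.equivOfCardEq h3
    refine ⟨fun a => (e.symm a : ι), fun j => if hj : j ∈ s then e ⟨j, hj⟩ else 0, fun _ =>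
      ⟨fun a => (e.symm a).2, fun a => ?_, fun j hj => ?_⟩⟩
    · beta_reduce
      rw [dif_pos (e.symm a).2]
      exact e.apply_symm_apply a
    · beta_reduce
      rw [dif_pos hj, e.symm_apply_apply]
  · exact ⟨fun _ => Classical.arbitrary ι, fun _ => 0, fun h => absurd h hs⟩

/-- PROOF. Every class `{j | t j = g or t j = g c}` has `bl` elements; number its elements by
`ZMod bl` (`bl_pos`), which gives `κ : ι → ZMod bl`; `H.t j = (t j, κ j)`, `H.c = (c, 1)`, and `H.π (g, a)` is the unique `j`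
in the class of `g` with `κ j = a`. -/
theorem exists_half {Q : Type u} [Group Q] {ι : Type v} [Fintype ι] (T : TS Q ι) (hS : T.S = ⊥) :
    ∃ H : GA.Half (Q × Multiplicative (ZMod T.bl)) ι, H.c = (T.c, 1) ∧
      ∀ j, (H.t j).1 = T.t j := by
  have hcg : ∀ g, T.c * g = g * T.c := fun g => (T.cen g).symm
  have hmem : ∀ (j : ι) (g : Q), (T.t j * g⁻¹ ∈ T.S ∨ T.t j * g⁻¹ * T.c ∈ T.S) ↔
      (T.t j = g ∨ T.t j = g * T.c) := by
    intro j g
    rw [hS, Subgroup.mem_bot, Subgroup.mem_bot, mul_inv_eq_one]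
    have h1 : T.t j * g⁻¹ * T.c = 1 ↔ T.t j = g * T.c := by
      rw [mul_eq_one_iff_eq_inv, T.c_inv, mul_inv_eq_iff_eq_mul, hcg]
    rw [h1]
  have hcls : ∀ g : Q, Nat.card ({j | T.t j = g ∨ T.t j = g * T.c} : Set ι) = T.bl := by
    intro g
    rw [← T.fib g]
    exact Nat.card_congr (Equiv.subtypeEquivRight fun j => (hmem j g).symm)
  have hne : Nonempty ι := by
    by_contra h
    rw [not_nonempty_iff] at h
    have h1 := T.fib 1
    rw [Nat.card_of_isEmpty] at h1
    exact T.bl_pos.ne h1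
  choose F K hFK using Inf_number (ι := ι) T.bl_pos
  have hc : ∀ g : Q, ({j | T.t j = g * T.c ∨ T.t j = g * T.c * T.c} : Set ι) =
      {j | T.t j = g ∨ T.t j = g * T.c} := by
    intro g
    ext j
    show (T.t j = g * T.c ∨ T.t j = g * T.c * T.c) ↔ (T.t j = g ∨ T.t j = g * T.c)
    rw [T.mul_c_c]
    exact or_comm
  have hcl : ∀ (g : Q) (j : ι), (T.t j = g ∨ T.t j = g * T.c) →
      ({l | T.t l = T.t j ∨ T.t l = T.t j * T.c} : Set ι) =
        {l | T.t l = g ∨ T.t l = g * T.c} := by
    intro g j hj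
    rcases hj with hj | hj
    · rw [hj]
    · rw [hj, hc]
  refine ⟨{ c := (T.c, 1)
            ne := fun h => T.ne (congrArg Prod.fst h)
            sq := Prod.ext T.sq (mul_one _)
            cen := fun g => Prod.ext (T.cen g.1) (by
              show g.2 * 1 = 1 * g.2
              rw [mul_one, one_mul])
            t := fun j => (T.t j, Multiplicative.ofAdd
              (K {l | T.t l = T.t j ∨ T.t l = T.t j * T.c} j))
            π := fun g => F {l | T.t l = g.1 ∨ T.t l = g.1 * T.c} (Multiplicative.toAdd g.2)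
            π_t := fun j => (hFK _ (hcls (T.t j))).2.2 j (Or.inl rfl)
            π_c := ?_
            t_π := ?_ }, rfl, fun j => rfl⟩
  · intro g
    show F {l | T.t l = g.1 * T.c ∨ T.t l = g.1 * T.c * T.c} (Multiplicative.toAdd (g.2 * 1)) =
      F {l | T.t l = g.1 ∨ T.t l = g.1 * T.c} (Multiplicative.toAdd g.2)
    rw [hc, mul_one]
  · intro g
    obtain ⟨h1, h2, h3⟩ := hFK _ (hcls g.1)
    have h4 : T.t (F {l | T.t l = g.1 ∨ T.t l = g.1 * T.c} (Multiplicative.toAdd g.2)) = g.1 ∨
      T.t (F {l | T.t l = g.1 ∨ T.t l = g.1 * T.c} (Multiplicative.toAdd g.2)) = g.1 * T.c :=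
      h1 (Multiplicative.toAdd g.2)
    have h5 := h2 (Multiplicative.toAdd g.2)
    have h6 := hcl g.1 _ h4
    generalize F {l | T.t l = g.1 ∨ T.t l = g.1 * T.c} (Multiplicative.toAdd g.2) = j at h4 h5 h6 ⊢
    rcases h4 with h4 | h4
    · left
      refine Prod.ext h4 ?_
      show Multiplicative.ofAdd (K {l | T.t l = T.t j ∨ T.t l = T.t j * T.c} j) = g.2
      rw [h6, h5, ofAdd_toAdd]
    · right
      refine Prod.ext h4 ?_
      show Multiplicative.ofAdd (K {l | T.t l = T.t j ∨ T.t l = T.t j * T.c} j) = g.2 * 1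
      rw [h6, h5, ofAdd_toAdd, mul_one]

/-- The component `i'` of `W'` corresponds to the component `i` of `W`. -/
private def InfRel {G G' Q : Type} [Group G] [Group G'] [Group Q] [Fintype G] [Fintype G']
    (q : G →* Q) (pr : G' →* Q) (W : WD ℚ G) (W' : WD ℚ G') (i : Fin W.m) (i' : Fin W'.m) : Prop :=
  ∃ φ : Matrix (Fin (W'.r i')) (Fin (W'.r i')) (W'.D i') ≃ₐ[ℚ]
      Matrix (Fin (W.r i)) (Fin (W.r i)) (W.D i),
    ∀ (x : MonoidAlgebra ℚ G) (z : MonoidAlgebra ℚ G'), mapQ pr z = mapQ q x →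
      φ (W'.comp i' z) = W.comp i x

private theorem Inf_rel {G G' Q : Type} [Group G] [Group G'] [Group Q] [Fintype G] [Fintype G']
    [Fintype Q] {q : G →* Q} (hq : Function.Surjective q) {pr : G' →* Q}
    (hpr : Function.Surjective pr) (W : WD ℚ G) (W' : WD ℚ G') (i : Fin W.m)
    (hi : ∀ g ∈ q.ker, W.comp i (MonoidAlgebra.single g 1) = 1) :
    ∃ i' : Fin W'.m, InfRel q pr W W' i i' := by
  obtain ⟨V⟩ := exists_wd ℚ Q (Nat.cast_ne_zero.2 Fintype.card_ne_zero)
  obtain ⟨j, φ, hφ⟩ := quot_comp hq W V i hi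
  obtain ⟨i', φ', hφ'⟩ := infl_comp hpr W' V j
  refine ⟨i', φ'.trans φ, fun x z hxz => ?_⟩
  rw [AlgEquiv.trans_apply, hφ', hxz, hφ]

private theorem Inf_inj {G G' Q : Type} [Group G] [Group G'] [Group Q] [Fintype G] [Fintype G']
    {q : G →* Q} {pr : G' →* Q} (hpr : Function.Surjective pr) (W : WD ℚ G) (W' : WD ℚ G')
    {i j : Fin W.m} {i' : Fin W'.m} (h : InfRel q pr W W' i i') (h' : InfRel q pr W W' j i') :
    i = j := by
  obtain ⟨φ, hφ⟩ := h
  obtain ⟨φ', hφ'⟩ := h'
  refine comp_unique W φ.symm φ'.symm fun x => ?_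
  obtain ⟨z, hz⟩ := mapQ_surj (k := ℚ) hpr (mapQ q x)
  rw [← hφ x z hz, ← hφ' x z hz, AlgEquiv.symm_apply_apply, AlgEquiv.symm_apply_apply]

private theorem Inf_ker_normal {G : Type u} [Group G] [Fintype G] (W : WD ℚ G) (i : Fin W.m) :
    (kerI W i).Normal := by
  constructor
  intro n hn g
  have hn' : W.comp i (MonoidAlgebra.single n 1) = 1 := hn
  show W.comp i (MonoidAlgebra.single (g * n * g⁻¹) 1) = 1
  have h1 : (MonoidAlgebra.single (g * n * g⁻¹) 1 : MonoidAlgebra ℚ G)
      = MonoidAlgebra.single g 1 * MonoidAlgebra.single n 1 * MonoidAlgebra.single g⁻¹ 1 := by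
    rw [MonoidAlgebra.single_mul_single, MonoidAlgebra.single_mul_single, one_mul, one_mul]
  have h2 : (1 : MonoidAlgebra ℚ G)
      = MonoidAlgebra.single g 1 * MonoidAlgebra.single g⁻¹ 1 := by
    rw [MonoidAlgebra.single_mul_single, one_mul, mul_inv_cancel, MonoidAlgebra.one_def]
  rw [h1, map_mul, map_mul, hn', mul_one, ← map_mul, ← h2, map_one]

private theorem Inf_one_ne {G : Type u} [Group G] [Fintype G] (W : WD ℚ G) (i : Fin W.m) :
    (1 : Matrix (Fin (W.r i)) (Fin (W.r i)) (W.D i)) ≠ -1 := by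
  intro h
  have h1 : (2 : ℚ) • (1 : Matrix (Fin (W.r i)) (Fin (W.r i)) (W.D i)) = 0 := by
    rw [two_smul]
    nth_rewrite 2 [h]
    exact add_neg_cancel _
  rcases smul_eq_zero.1 h1 with h2 | h2
  · norm_num at h2
  · exact one_ne_zero h2

/-- PROOF. Let `i₀` be one of the components in question, `N` the normal closure of `S`,
`Q = G ⧸ N`, `q` the projection.  `N ≤ kerI W i` for every full component `i`, so `c ∉ N`
(`comp i₀ (cc) = -1`), and `S.map q = ⊥`; `exists_quot`, `exists_half`, `G' = Q × Multiplicative (ZMod bl)`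
(the universe of `ZMod bl` is `0`: use `ULift` or take `G : Type` if there is a problem), `W'` a
Wedderburn decomposition of `G'` (`exists_wd`).  For a full odd component `i` let `j` be as in `quot_comp` and
`F i` as in `infl_comp` for the projection `G' → Q`.  The composition of the isomorphisms sends
`W'.comp (F i) (single (q g, a) 1)` to `W.comp i (single g 1)`; so `H.el` corresponds to `T.el`, and `badI` is
contained (`X * comp i (el v) = 0`, the condition on `eS` is dropped).  `F` is injective by `comp_unique`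
(the relation determines `e i`).  The numerical statements: `inv_of_equiv`. -/
theorem exists_full {G : Type} [Group G] {ι : Type} [Fintype ι] (T : TS G ι) [Fintype G] (W : WD ℚ G)
    (hex : ∃ i, T.Odd W i ∧ T.Full W i) :
    ∃ (G' : Type) (_ : Group G') (_ : Fintype G') (H : GA.Half G' ι) (W' : WD ℚ G')
      (F : Fin W.m → Fin W'.m), (∀ i, T.Odd W i → T.Full W i →
        H.Odd W' (F i) ∧ T.badI W i ⊆ H.badI W' (F i) ∧ W'.a (F i) = W.a i ∧
        (W'.r (F i) = 1 ↔ W.r i = 1)) ∧
      ∀ i i', T.Odd W i → T.Full W i → T.Odd W i' → T.Full W i' → F i = F i' → i = i' := by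
  classical
  obtain ⟨i0, hi0, hf0⟩ := hex
  have hN : ∀ i, T.Full W i → Subgroup.normalClosure (T.S : Set G) ≤ kerI W i := by
    intro i hi
    have h1 := Inf_ker_normal W i
    exact Subgroup.normalClosure_le_normal fun s hs => hi s hs
  have hcN : T.c ∉ Subgroup.normalClosure (T.S : Set G) := by
    intro h
    have h1 : W.comp i0 (MonoidAlgebra.single T.c 1) = 1 := hN i0 hf0 h
    have h2 : W.comp i0 (MonoidAlgebra.single T.c 1) = -1 := hi0
    exact Inf_one_ne W i0 (h1.symm.trans h2)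
  have hSN : T.S ≤ Subgroup.normalClosure (T.S : Set G) := Subgroup.subset_normalClosure
  have hNn : (Subgroup.normalClosure (T.S : Set G)).Normal := inferInstance
  generalize Subgroup.normalClosure (T.S : Set G) = N at hN hcN hSN hNn
  have hq : Function.Surjective (QuotientGroup.mk' N) := QuotientGroup.mk'_surjective N
  let _ : Fintype (G ⧸ N) := Fintype.ofFinite _
  have hbot : T.S.map (QuotientGroup.mk' N) = ⊥ := by
    rw [Subgroup.map_eq_bot_iff, QuotientGroup.ker_mk']
    exact hSN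
  obtain ⟨T', hT1, hT2, hT3⟩ := T.exists_quot hq (by
    rw [hbot, Subgroup.mem_bot]
    exact fun h => hcN ((QuotientGroup.eq_one_iff T.c).1 h))
  obtain ⟨H, hH1, hH2⟩ := T'.exists_half (hT2.trans hbot)
  have hnz : NeZero T'.bl := ⟨T'.bl_pos.ne'⟩
  let _ : Fintype ((G ⧸ N) × Multiplicative (ZMod T'.bl)) := Fintype.ofFinite _
  obtain ⟨W'⟩ := exists_wd ℚ ((G ⧸ N) × Multiplicative (ZMod T'.bl))
    (Nat.cast_ne_zero.2 Fintype.card_ne_zero)
  have hpr : Function.Surjective (MonoidHom.fst (G ⧸ N) (Multiplicative (ZMod T'.bl))) :=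
    Prod.fst_surjective
  have hker : ∀ i, T.Full W i → ∀ g ∈ (QuotientGroup.mk' N).ker,
      W.comp i (MonoidAlgebra.single g 1) = 1 := by
    intro i hi g hg
    rw [QuotientGroup.ker_mk'] at hg
    exact hN i hi hg
  have hex' : ∀ i, ∃ i', T.Full W i → InfRel (QuotientGroup.mk' N)
      (MonoidHom.fst (G ⧸ N) (Multiplicative (ZMod T'.bl))) W W' i i' := by
    intro i
    by_cases hi : T.Full W i
    · obtain ⟨i', h⟩ := Inf_rel hq hpr W W' i (hker i hi)
      exact ⟨i', fun _ => h⟩
    · obtain ⟨i', _⟩ := Inf_rel hq hpr W W' i0 (hker i0 hf0)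
      exact ⟨i', fun h => absurd h hi⟩
  choose F hF using hex'
  refine ⟨_, inferInstance, inferInstance, H, W', F, ?_, ?_⟩
  · intro i hio hif
    obtain ⟨φ, hφ⟩ := hF i hif
    have hcc : mapQ (MonoidHom.fst (G ⧸ N) (Multiplicative (ZMod T'.bl))) (H.cc ℚ) =
        mapQ (QuotientGroup.mk' N) (T.cc ℚ) := by
      unfold GA.Half.cc TS.cc
      rw [mapQ_single, mapQ_single, hH1, ← hT1]
      rfl
    have hel : ∀ v, mapQ (MonoidHom.fst (G ⧸ N) (Multiplicative (ZMod T'.bl))) (H.el ℚ v) =
        mapQ (QuotientGroup.mk' N) (T.el ℚ v) := by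
      intro v
      unfold GA.Half.el TS.el
      rw [map_sum, map_sum]
      refine sum_congr rfl fun j _ => ?_
      rw [mapQ_single, mapQ_single, ← hT3, ← hH2]
      rfl
    obtain ⟨h1, h2, h3⟩ := inv_of_equiv φ
    refine ⟨?_, ?_, h1, h3⟩
    · have h4 : φ (W'.comp (F i) (H.cc ℚ)) = φ (-1) := by
        rw [hφ _ _ hcc, map_neg, map_one]
        exact hio
      exact φ.injective h4
    · rintro v ⟨X, hX, -, hXv⟩
      refine ⟨φ.symm X, ?_, ?_⟩
      · intro h
        apply hX
        have h4 := congrArg φ h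
        rwa [AlgEquiv.apply_symm_apply, map_zero] at h4
      · apply φ.injective
        rw [map_mul, AlgEquiv.apply_symm_apply, hφ _ _ (hel v), hXv, map_zero]
  · intro i i' _ hi _ hi' h
    have h1 := hF i hi
    have h2 := hF i' hi'
    rw [← h] at h2
    exact Inf_inj hpr W W' h1 h2

end TS

end Pool.MP43e44c.GX
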