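import Pool.Agent.H.MP_43e44c_ag.GA.FinG
import Pool.Agent.H.MP_43e44c_ag.GX.Inf

/-!
The sum over the components which are not small, for the components on which `S` acts trivially.
-/

set_option autoImplicit false

open Finset Module

namespace Pool.MP43e44c.GX

open Pool.MP43e44c.OD

theorem Rest_three_iff {k : Type} [Field k] {G : Type*} [Group G] [Fintype G] (W : WD k G)
    (i : Fin W.m) : 3 ≤ W.r i * finrank k (W.D i) ↔
      (3 ≤ W.a i ∧ ¬ (W.r i = 2 ∧ finrank k (W.D i) = 1)) := by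
  have ha : W.a i = W.r i ^ 2 * finrank k (W.D i) := rfl
  have hr : 1 ≤ W.r i := Nat.pos_of_ne_zero (NeZero.ne (W.r i))
  rw [ha]
  set r := W.r i
  set d := finrank k (W.D i)
  constructor
  · intro h
    refine ⟨?_, ?_⟩
    · calc 3 ≤ r * d := h
        _ ≤ r ^ 2 * d := Nat.mul_le_mul_right _ (by nlinarith)
    · rintro ⟨h1, h2⟩
      rw [h1, h2] at h
      omega
  · rintro ⟨h1, h2⟩
    rcases Nat.lt_or_ge r 3 with h3 | h3
    · have h4 : r = 1 ∨ r = 2 := by omega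
      rcases h4 with h4 | h4
      · rw [h4] at h1 ⊢
        omega
      · rw [h4] at h1 ⊢
        have h5 : d ≠ 1 := fun h => h2 ⟨h4, h⟩
        have h6 : d ≠ 0 := by
          intro h
          rw [h] at h1
          omega
        omega
    · have h6 : d ≠ 0 := by
        intro h
        rw [h] at h1
        omega
      calc 3 ≤ r := h3
        _ = r * 1 := (mul_one r).symm
        _ ≤ r * d := Nat.mul_le_mul_left _ (Nat.one_le_iff_ne_zero.mpr h6)

/-- The components of a group with a central involution which are not small. -/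
theorem group_rest (hA : GA.HypA) (hB : GA.HypB) (hS3 : GA.HypS3) :
    ∃ C c : ℝ, 0 < C ∧ 0 < c ∧ ∀ {G : Type} [Group G] {ι : Type} (H : GA.Half G ι) [Fintype G]
      [Fintype ι] (W : WD ℚ G), 2 ≤ Fintype.card ι → ∀ S : Finset (Fin W.m),
      (∀ i ∈ S, H.Odd W i ∧ 3 ≤ W.r i * finrank ℚ (W.D i)) →
      ∑ i ∈ S, (((H.badI W i).ncard : ℕ) : ℝ) ≤ C * (Fintype.card ι : ℝ) ^ (-c) *
        2 ^ Fintype.card ι := by
  classical
  obtain ⟨C₀, c₀, c₁, Δ₀, hC₀, hc₀, hc₁, hbnd⟩ := GA.FinG_bnd hA hB hS3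
  obtain ⟨C, c, hC, hc, hasm⟩ := GA.assembleG hC₀ hc₀ hc₁ Δ₀
  refine ⟨C, c, hC, hc, ?_⟩
  intro G _ ι H _ _ W hn S hS
  have hn1 : 1 ≤ Fintype.card ι := by omega
  have hpow : (0 : ℝ) < 2 ^ Fintype.card ι := by positivity
  have h4 := hasm (Fintype.card ι) hn1 S W.a W.f
    (fun i => (((H.badI W i).ncard : ℕ) : ℝ) / 2 ^ Fintype.card ι) (by
      have h5 := H.sum_odd_a (k := ℚ) two_ne_zero W
      rw [← h5]
      refine sum_le_sum_of_subset ?_
      intro i hi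
      rw [mem_filter]
      exact ⟨mem_univ _, (hS i hi).1⟩) (by
      intro i hi
      have h6 := (Rest_three_iff W i).mp (hS i hi).2
      exact hbnd H W i hn (hS i hi).1 h6.1 h6.2)
  rw [← sum_div, div_le_iff₀ hpow] at h4
  exact h4

/-- The components on which `S` acts trivially. -/
theorem full_rest (hA : GA.HypA) (hB : GA.HypB) (hS3 : GA.HypS3) :
    ∃ C c : ℝ, 0 < C ∧ 0 < c ∧ ∀ {G : Type} [Group G] {ι : Type} [Fintype ι] (T : TS G ι)
      [Fintype G] (W : WD ℚ G), 2 ≤ Fintype.card ι → ∀ S : Finset (Fin W.m),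
      (∀ i ∈ S, T.Odd W i ∧ T.Full W i ∧ 3 ≤ W.r i * finrank ℚ (W.D i)) →
      ∑ i ∈ S, (((T.badI W i).ncard : ℕ) : ℝ) ≤ C * (Fintype.card ι : ℝ) ^ (-c) *
        2 ^ Fintype.card ι := by
  classical
  obtain ⟨C, c, hC, hc, hrest⟩ := group_rest hA hB hS3
  refine ⟨C, c, hC, hc, ?_⟩
  intro G _ ι _ T _ W hn S hS
  rcases S.eq_empty_or_nonempty with h0 | ⟨i0, hi0⟩
  · rw [h0, sum_empty]
    positivity
  obtain ⟨G', _, _, H, W', F, hF, hinj⟩ :=
    T.exists_full W ⟨i0, (hS i0 hi0).1, (hS i0 hi0).2.1⟩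
  have h1 : ∑ i ∈ S, (((T.badI W i).ncard : ℕ) : ℝ) ≤
      ∑ i ∈ S, (((H.badI W' (F i)).ncard : ℕ) : ℝ) := by
    refine sum_le_sum fun i hi => ?_
    have h2 := (hF i (hS i hi).1 (hS i hi).2.1).2.1
    exact_mod_cast Set.ncard_le_ncard h2 (Set.toFinite _)
  have h2 : ∑ i ∈ S, (((H.badI W' (F i)).ncard : ℕ) : ℝ) =
      ∑ j ∈ S.image F, (((H.badI W' j).ncard : ℕ) : ℝ) := by
    rw [sum_image]
    intro i hi i' hi' h
    exact hinj i i' (hS i hi).1 (hS i hi).2.1 (hS i' hi').1 (hS i' hi').2.1 h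
  rw [h2] at h1
  refine h1.trans (hrest H W' hn _ ?_)
  intro j hj
  obtain ⟨i, hi, rfl⟩ := mem_image.mp hj
  obtain ⟨g1, _, g3, g4⟩ := hF i (hS i hi).1 (hS i hi).2.1
  refine ⟨g1, ?_⟩
  have h5 := (Rest_three_iff W i).mp (hS i hi).2.2
  rw [Rest_three_iff, g3]
  refine ⟨h5.1, ?_⟩
  rintro ⟨h6, h7⟩
  have ha' : W'.a (F i) = W'.r (F i) ^ 2 * finrank ℚ (W'.D (F i)) := rfl
  have ha : W.a i = W.r i ^ 2 * finrank ℚ (W.D i) := rfl
  rw [h6, h7, g3, ha] at ha'
  have h8 : W.r i ≠ 1 := fun h => by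
    have := g4.mpr h
    omega
  have hr : W.r i ≠ 0 := NeZero.ne (W.r i)
  have h9 : W.r i < 3 := by
    by_contra h10
    push_neg at h10
    have hd : finrank ℚ (W.D i) ≠ 0 := by
      intro h
      rw [h] at ha'
      omega
    nlinarith [Nat.one_le_iff_ne_zero.mpr hd, Nat.mul_le_mul h10 h10]
  have h10 : W.r i = 2 := by omega
  apply h5.2
  refine ⟨h10, ?_⟩
  rw [h10] at ha'
  omega

end Pool.MP43e44c.GX
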