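import Pool.Agent.H.MP_43e44c_ag.GX.CmpX
import Pool.Agent.H.MP_43e44c_ag.GX.Rest

/-!
The sum over the components which are not small.
-/

set_option autoImplicit false

open Finset Module

namespace Pool.MP43e44c.GX

open Pool.MP43e44c.OD

/-- The proportion of the sign vectors which are bad for some component of dimension at least three. -/
theorem sum_rest (hA : GA.HypA) (hB : GA.HypB) (hS3 : GA.HypS3) :
    ∃ C c : ℝ, 0 < C ∧ 0 < c ∧ ∀ {G ι : Type} [Group G] (T : Tr G ι) [Fintype G] [Fintype ι]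
      (W : WD ℚ G), 2 ≤ Fintype.card ι → ∀ S : Finset (Fin W.m),
      (∀ i ∈ S, T.Odd W i ∧ 3 ≤ W.r i * finrank ℚ (W.D i)) →
      ∑ i ∈ S, (((T.badI W i).ncard : ℕ) : ℝ) ≤ C * (Fintype.card ι : ℝ) ^ (-c) *
        2 ^ Fintype.card ι := by
  classical
  obtain ⟨C1, c1, hC1, hc1, hfull⟩ := full_rest hA hB hS3
  obtain ⟨C2, c2, ε, hC2, hc2, hε, n₀, hcmp⟩ := cmpX
  obtain ⟨C3, c3, hC3, hc3, hasm⟩ := assembleX hC2 hc2 hε
  set c : ℝ := min (min c1 c3) 1 with hc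
  have hcpos : 0 < c := lt_min (lt_min hc1 hc3) one_pos
  have hcc1 : c ≤ c1 := (min_le_left _ _).trans (min_le_left _ _)
  have hcc3 : c ≤ c3 := (min_le_left _ _).trans (min_le_right _ _)
  have hcc : c ≤ 1 := min_le_right _ _
  refine ⟨C1 + C3 + (n₀ : ℝ) ^ 2 + 1, c, by positivity, hcpos, ?_⟩
  intro G ι _ T _ _ W hn S hS
  set n := Fintype.card ι with hnd
  have hn1 : (1 : ℝ) ≤ n := by exact_mod_cast (by omega : 1 ≤ n)
  have hnpos : (0 : ℝ) < n := by linarith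
  have hpow : (0 : ℝ) < 2 ^ n := by positivity
  have hr := Real.rpow_pos_of_pos hnpos (-c)
  have hcS : (T.cS : ℚ) ≠ 0 := by exact_mod_cast T.cS_pos.ne'
  set S1 := S.filter fun i => T.Full W i with hS1
  set S2 := (S.filter fun i => ¬ T.Full W i).filter fun i => (T.badI W i).Nonempty with hS2
  have hb0 : ∀ i, (0 : ℝ) ≤ (((T.badI W i).ncard : ℕ) : ℝ) := fun i => Nat.cast_nonneg _
  have hsplit : ∑ i ∈ S, (((T.badI W i).ncard : ℕ) : ℝ) =
      ∑ i ∈ S1, (((T.badI W i).ncard : ℕ) : ℝ) + ∑ i ∈ S2, (((T.badI W i).ncard : ℕ) : ℝ) := by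
    rw [← sum_filter_add_sum_filter_not S (fun i => T.Full W i), hS1]
    congr 1
    rw [hS2, sum_filter (s := S.filter fun i => ¬ T.Full W i)]
    refine sum_congr rfl fun i _ => ?_
    split_ifs with h
    · rfl
    · rw [Set.not_nonempty_iff_eq_empty.mp h, Set.ncard_empty, Nat.cast_zero]
  have h1 : ∑ i ∈ S1, (((T.badI W i).ncard : ℕ) : ℝ) ≤ C1 * (n : ℝ) ^ (-c) * 2 ^ n := by
    have h2 := hfull T.toTS W hn S1 (by
      intro i hi
      rw [hS1, mem_filter] at hi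
      exact ⟨(hS i hi.1).1, hi.2, (hS i hi.1).2⟩)
    refine h2.trans ?_
    apply mul_le_mul_of_nonneg_right _ hpow.le
    apply mul_le_mul_of_nonneg_left _ hC1.le
    exact Real.rpow_le_rpow_of_exponent_le hn1 (by linarith)
  -- the other components
  have hsumbb : ∑ i ∈ S2, T.bb W i ≤ n := by
    have h2 := T.sum_odd_bb (k := ℚ) two_ne_zero hcS W
    have h3 := T.card_eq
    rw [T.bl_one, one_mul] at h3
    have h4 : ∑ i ∈ S2, T.bb W i ≤ ∑ i ∈ univ.filter (fun i : Fin W.m => T.Odd W i), T.bb W i := by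
      refine sum_le_sum_of_subset ?_
      intro i hi
      rw [hS2, mem_filter, mem_filter] at hi
      exact mem_filter.mpr ⟨mem_univ _, (hS i hi.1.1).1⟩
    have h5 : 2 * T.cS * ∑ i ∈ S2, T.bb W i ≤ 2 * T.cS * n := by
      rw [hnd, ← h3, ← h2]
      exact Nat.mul_le_mul_left _ h4
    have h6 : 0 < 2 * T.cS := by
      have := T.cS_pos
      omega
    exact Nat.le_of_mul_le_mul_left h5 h6
  have hS2' : ∀ i ∈ S2, T.Odd W i ∧ 3 ≤ W.r i * finrank ℚ (W.D i) ∧ T.bb W i < W.a i ∧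
      (T.badI W i).Nonempty := by
    intro i hi
    rw [hS2, mem_filter, mem_filter] at hi
    refine ⟨(hS i hi.1.1).1, (hS i hi.1.1).2, ?_, hi.2⟩
    exact lt_of_le_of_ne (T.bb_le W i) fun h => hi.1.2 ((T.bb_eq_iff W i).mp h)
  have hbb1 : ∀ i ∈ S2, 1 ≤ T.bb W i := by
    intro i hi
    unfold TS.bb
    exact Nat.mul_pos (Nat.pos_of_ne_zero (NeZero.ne (W.r i))) (T.be_pos W i (hS2' i hi).2.2.2)
  have hle1 : ∀ i, (((T.badI W i).ncard : ℕ) : ℝ) / 2 ^ n ≤ 1 := by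
    intro i
    rw [div_le_one hpow]
    have h1 : (T.badI W i).ncard ≤ 2 ^ n := by
      refine (Set.ncard_le_card _).trans (le_of_eq ?_)
      rw [Nat.card_eq_fintype_card, Fintype.card_fun, Fintype.card_bool]
    exact_mod_cast h1
  have h2 : ∑ i ∈ S2, (((T.badI W i).ncard : ℕ) : ℝ) ≤
      (C3 + (n₀ : ℝ) ^ 2 + 1) * (n : ℝ) ^ (-c) * 2 ^ n := by
    rw [← div_le_iff₀ hpow, sum_div]
    rcases Nat.lt_or_ge n n₀ with hlt | hge
    · have h3 : ∑ i ∈ S2, (((T.badI W i).ncard : ℕ) : ℝ) / 2 ^ n ≤ n := by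
        refine (sum_le_sum fun i hi => (hle1 i).trans ?_).trans
          (by exact_mod_cast hsumbb : (∑ i ∈ S2, (T.bb W i : ℝ)) ≤ n)
        exact_mod_cast hbb1 i hi
      refine h3.trans ?_
      have h4 : (n : ℝ) ^ (-(1 : ℝ)) ≤ (n : ℝ) ^ (-c) :=
        Real.rpow_le_rpow_of_exponent_le hn1 (by linarith)
      rw [Real.rpow_neg_one] at h4
      have h5 : (n : ℝ) ≤ n₀ := by exact_mod_cast hlt.le
      have h6 : (n : ℝ) = (n : ℝ) ^ 2 * (n : ℝ)⁻¹ := by field_simp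
      have h7 : (n : ℝ) ^ 2 * (n : ℝ)⁻¹ ≤ (n₀ : ℝ) ^ 2 * (n : ℝ) ^ (-c) := by
        apply mul_le_mul _ h4 (by positivity) (by positivity)
        exact pow_le_pow_left₀ hnpos.le h5 2
      rw [← h6] at h7
      nlinarith
    · have h3 := hasm n (by omega) S2 W.a (fun i => T.bb W i) W.f
        (fun i => (((T.badI W i).ncard : ℕ) : ℝ) / 2 ^ n) hsumbb (by
          intro i hi
          obtain ⟨g1, g2, g3, g4⟩ := hS2' i hi
          refine ⟨hbb1 i hi, ?_, (W.f_pos i).trans_le (W.f_le_a i), by positivity, hle1 i,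
            hcmp T W i g1 hge g3 g2 g4⟩
          refine (W.f_le_finrank i).trans ?_
          refine (Nat.le_of_dvd (T.be_pos W i g4) (T.dvd_be W i)).trans ?_
          exact Nat.le_mul_of_pos_left _ (Nat.pos_of_ne_zero (NeZero.ne (W.r i))))
      refine h3.trans ?_
      have h4 : (n : ℝ) ^ (-c3) ≤ (n : ℝ) ^ (-c) :=
        Real.rpow_le_rpow_of_exponent_le hn1 (by linarith)
      have h5 : C3 * (n : ℝ) ^ (-c3) ≤ C3 * (n : ℝ) ^ (-c) := mul_le_mul_of_nonneg_left h4 hC3.le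
      nlinarith [sq_nonneg (n₀ : ℝ)]
  rw [hsplit]
  have h3 : (C1 + C3 + (n₀ : ℝ) ^ 2 + 1) * (n : ℝ) ^ (-c) * 2 ^ n =
      C1 * (n : ℝ) ^ (-c) * 2 ^ n + (C3 + (n₀ : ℝ) ^ 2 + 1) * (n : ℝ) ^ (-c) * 2 ^ n := by ring
  rw [h3]
  exact add_le_add h1 h2

end Pool.MP43e44c.GX
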