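import Pool.Agent.H.MP_43e44c_ag.GX.Dim
import Pool.Agent.H.MP_43e44c_ag.GX.Fac

/-!
Quotient groups.
-/

set_option autoImplicit false

open Finset Module

namespace Pool.MP43e44c.GX

open Pool.MP43e44c.OD

universe u v

namespace TS

variable {G Q : Type u} [Group G] [Group Q] {ι : Type v} (T : TS G ι) [Fintype G] [Fintype Q]
  [Fintype ι]

theorem Quo_card (u : G) [DecidablePred fun x : G => u * x⁻¹ ∈ T.S] :
    (univ.filter fun x : G => u * x⁻¹ ∈ T.S).card = T.cS := by
  classical
  have h1 : T.cS = (univ.filter fun x : G => x ∈ T.S).card := by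
    unfold cS
    rw [Nat.card_eq_fintype_card, Fintype.card_subtype]
  rw [h1]
  refine Finset.card_bij (fun x _ => u * x⁻¹) ?_ ?_ ?_
  · intro x hx
    rw [Finset.mem_filter] at hx ⊢
    exact ⟨Finset.mem_univ _, hx.2⟩
  · intro a _ b _ hab
    exact inv_injective (mul_left_cancel hab)
  · intro y hy
    rw [Finset.mem_filter] at hy
    refine ⟨y⁻¹ * u, ?_, ?_⟩
    · rw [Finset.mem_filter]
      refine ⟨Finset.mem_univ _, ?_⟩
      rw [mul_inv_rev, inv_inv, mul_inv_cancel_left]
      exact hy.2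
    · rw [mul_inv_rev, inv_inv, mul_inv_cancel_left]

open Classical in
theorem Quo_count (S1 : Subgroup G) (hle : T.S ≤ S1) (hc : T.c ∉ S1) (g : G) :
    T.cS * (univ.filter fun j : ι => T.t j * g⁻¹ ∈ S1 ∨ T.t j * g⁻¹ * T.c ∈ S1).card
      = (univ.filter fun x : G => x ∈ S1).card * T.bl := by
  classical
  let r : G → ι → Prop := fun x j =>
    T.t j * (x * g)⁻¹ ∈ T.S ∨ T.t j * (x * g)⁻¹ * T.c ∈ T.S
  have h0 := Finset.sum_card_bipartiteAbove_eq_sum_card_bipartiteBelow
    (s := univ.filter fun x : G => x ∈ S1) (t := (univ : Finset ι)) r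
  have h1 : ∑ a ∈ univ.filter (fun x : G => x ∈ S1),
      ((univ : Finset ι).bipartiteAbove r a).card
      = (univ.filter fun x : G => x ∈ S1).card * T.bl := by
    rw [Finset.sum_congr rfl (g := fun _ => T.bl), Finset.sum_const, smul_eq_mul]
    intro x _
    rw [← T.fib (x * g), Nat.card_eq_fintype_card, Fintype.card_subtype]
    rfl
  have h2 : ∀ j ∈ (univ : Finset ι),
      ((univ.filter (fun x : G => x ∈ S1)).bipartiteBelow r j).card
      = if T.t j * g⁻¹ ∈ S1 ∨ T.t j * g⁻¹ * T.c ∈ S1 then T.cS else 0 := by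
    intro j _
    generalize hu : T.t j * g⁻¹ = u
    have hr : ∀ x, r x j ↔ (u * x⁻¹ ∈ T.S ∨ (u * T.c) * x⁻¹ ∈ T.S) := by
      intro x
      have e1 : T.t j * (x * g)⁻¹ = u * x⁻¹ := by rw [mul_inv_rev, ← mul_assoc, hu]
      have e2 : u * x⁻¹ * T.c = (u * T.c) * x⁻¹ := by
        rw [mul_assoc, T.cen, ← mul_assoc]
      show (T.t j * (x * g)⁻¹ ∈ T.S ∨ T.t j * (x * g)⁻¹ * T.c ∈ T.S) ↔ _
      rw [e1, e2]
    have hcS : ∀ w ∈ S1, w * T.c ∉ S1 := by
      intro w hw h
      exact hc ((S1.mul_mem_cancel_left hw).mp h)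
    split_ifs with hj
    · rcases hj with hj | hj
      · rw [← T.Quo_card u]
        congr 1
        ext x
        simp only [Finset.mem_bipartiteBelow, Finset.mem_filter, Finset.mem_univ, true_and]
        rw [hr]
        constructor
        · rintro ⟨hx, h | h⟩
          · exact h
          · exfalso
            have h3 := hle h
            have h4 : u * T.c ∈ S1 := by
              have := S1.mul_mem h3 hx
              rwa [inv_mul_cancel_right] at this
            exact hcS u hj h4
        · intro h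
          refine ⟨?_, Or.inl h⟩
          have h3 := S1.mul_mem (S1.inv_mem (hle h)) hj
          rwa [mul_inv_rev, inv_inv, inv_mul_cancel_right] at h3
      · rw [← T.Quo_card (u * T.c)]
        congr 1
        ext x
        simp only [Finset.mem_bipartiteBelow, Finset.mem_filter, Finset.mem_univ, true_and]
        rw [hr]
        constructor
        · rintro ⟨hx, h | h⟩
          · exfalso
            have h3 := hle h
            have h4 : u ∈ S1 := by
              have := S1.mul_mem h3 hx
              rwa [inv_mul_cancel_right] at this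
            exact hcS u h4 hj
          · exact h
        · intro h
          refine ⟨?_, Or.inr h⟩
          have h3 := S1.mul_mem (S1.inv_mem (hle h)) hj
          rwa [mul_inv_rev, inv_inv, inv_mul_cancel_right] at h3
    · rw [Finset.card_eq_zero, Finset.eq_empty_iff_forall_notMem]
      intro x hx
      simp only [Finset.mem_bipartiteBelow, Finset.mem_filter, Finset.mem_univ, true_and] at hx
      rw [hr] at hx
      apply hj
      rcases hx with ⟨hx, h | h⟩
      · left
        have := S1.mul_mem (hle h) hx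
        rwa [inv_mul_cancel_right] at this
      · right
        have := S1.mul_mem (hle h) hx
        rwa [inv_mul_cancel_right] at this
  rw [h1, Finset.sum_congr rfl h2, Finset.sum_ite, Finset.sum_const_zero, add_zero,
    Finset.sum_const, smul_eq_mul] at h0
  rw [h0, mul_comm]

/-- PROOF. `c' = q c`, `S' = S.map q`, `t' = q ∘ t`.  Let `N = q.ker`; `t' j * (q g)⁻¹ ∈ S'` iff
`t j * g⁻¹ ∈ S ⊔ N = S N`.  The number of the `j` with `t j ∈ S N g ∪ S N g c` does not depend on `g`: multiplied
by `cS` it is `card (S N) * bl` (double counting of the pairs `(x, j)`, `x ∈ S N g`, `t j ∈ S x ∪ S x c`; for given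
`j` the set of the `x` is empty or a coset of `S`, since `c ∉ S N`).  It is positive. -/
theorem exists_quot {q : G →* Q} (hq : Function.Surjective q) (hc : q T.c ∉ T.S.map q) :
    ∃ T' : TS Q ι, T'.c = q T.c ∧ T'.S = T.S.map q ∧ ∀ j, T'.t j = q (T.t j) := by
  classical
  set S1 : Subgroup G := (T.S.map q).comap q with hS1
  have hle : T.S ≤ S1 := Subgroup.le_comap_map _ _
  have hcS1 : T.c ∉ S1 := fun h => hc h
  have hcount := T.Quo_count S1 hle hcS1
  have hcSpos : 0 < T.cS := T.cS_pos
  have hS1pos : 0 < (univ.filter fun x : G => x ∈ S1).card :=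
    Finset.card_pos.mpr ⟨1, by simp [S1.one_mem]⟩
  let m : ℕ := (univ.filter fun j : ι => T.t j * (1 : G)⁻¹ ∈ S1 ∨ T.t j * (1 : G)⁻¹ * T.c ∈ S1).card
  have hm : ∀ g : G, (univ.filter fun j : ι =>
      T.t j * g⁻¹ ∈ S1 ∨ T.t j * g⁻¹ * T.c ∈ S1).card = m := by
    intro g
    exact Nat.eq_of_mul_eq_mul_left hcSpos ((hcount g).trans (hcount 1).symm)
  have hmpos : 0 < m := by
    have h := hcount 1
    have h2 : 0 < T.cS * m := by
      show 0 < T.cS * (univ.filter fun j : ι =>
        T.t j * (1 : G)⁻¹ ∈ S1 ∨ T.t j * (1 : G)⁻¹ * T.c ∈ S1).card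
      rw [h]
      exact Nat.mul_pos hS1pos T.bl_pos
    exact Nat.pos_of_mul_pos_left h2
  refine ⟨{ c := q T.c
            ne := fun h => hc (h ▸ Subgroup.one_mem _)
            sq := by rw [← map_mul, T.sq, map_one]
            cen := fun g' => by
              obtain ⟨g, rfl⟩ := hq g'
              rw [← map_mul, ← map_mul, T.cen]
            S := T.S.map q
            hc := hc
            t := fun j => q (T.t j)
            bl := m
            bl_pos := hmpos
            fib := fun g' => by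
              obtain ⟨g, rfl⟩ := hq g'
              rw [← hm g, Nat.card_eq_fintype_card, Fintype.card_subtype]
              congr 1
              ext j
              simp only [Finset.mem_filter, Finset.mem_univ, true_and]
              rw [← map_inv, ← map_mul, ← map_mul]
              rfl }, rfl, rfl, fun j => rfl⟩

/-- The matrices which are fixed by the subgroup. -/
def Quo_fixM (W : WD ℚ G) (i : Fin W.m) :
    Submodule ℚ (Matrix (Fin (W.r i)) (Fin (W.r i)) (W.D i)) where
  carrier := {X | ∀ g ∈ T.S, X * W.comp i (MonoidAlgebra.single g 1) = X}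
  zero_mem' := fun g _ => by rw [Matrix.zero_mul]
  add_mem' := fun {a b} ha hb g hg => by rw [Matrix.add_mul, ha g hg, hb g hg]
  smul_mem' := fun r a ha g hg => by rw [Matrix.smul_mul, ha g hg]

theorem Quo_mem_fixM {W : WD ℚ G} {i : Fin W.m}
    {X : Matrix (Fin (W.r i)) (Fin (W.r i)) (W.D i)} :
    X ∈ T.Quo_fixM W i ↔ ∀ g ∈ T.S, X * W.comp i (MonoidAlgebra.single g 1) = X := Iff.rfl

theorem Quo_mem_iff {W : WD ℚ G} {i : Fin W.m}
    {X : Matrix (Fin (W.r i)) (Fin (W.r i)) (W.D i)} :
    X ∈ T.Quo_fixM W i ↔ ∀ a, X a ∈ T.fixR W i := by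
  rw [Quo_mem_fixM]
  constructor
  · intro h a g hg
    have h1 := congrFun (h g hg) a
    rw [Matrix.mul_apply_eq_vecMul] at h1
    exact h1
  · intro h g hg
    funext a
    rw [Matrix.mul_apply_eq_vecMul]
    exact h a g hg

theorem Quo_eS_iff {W : WD ℚ G} {i : Fin W.m}
    {X : Matrix (Fin (W.r i)) (Fin (W.r i)) (W.D i)} :
    X * W.comp i (T.eS ℚ) = (T.cS : ℚ) • X ↔ X ∈ T.Quo_fixM W i := by
  have hk : (T.cS : ℚ) ≠ 0 := by
    have := T.cS_pos
    exact_mod_cast this.ne'
  rw [T.mul_comp_eS_iff hk, Quo_mem_iff]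

theorem Quo_finrank (W : WD ℚ G) (i : Fin W.m) :
    finrank ℚ (T.Quo_fixM W i) = T.bb W i := by
  let e : T.Quo_fixM W i ≃ₗ[ℚ] (Fin (W.r i) → T.fixR W i) :=
    { toFun := fun X a => ⟨X.1 a, (T.Quo_mem_iff.mp X.2) a⟩
      map_add' := fun X Y => rfl
      map_smul' := fun c X => rfl
      invFun := fun f => ⟨fun a => (f a).1, T.Quo_mem_iff.mpr fun a => (f a).2⟩
      left_inv := fun X => rfl
      right_inv := fun f => rfl }
  rw [LinearEquiv.finrank_eq e, Module.finrank_pi_fintype]
  rw [Finset.sum_const, Finset.card_univ, Fintype.card_fin, smul_eq_mul]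
  rfl

/-- PROOF. The relation `φ (V.comp j (mapQ q x)) = W.comp i x` (`quot_comp`) transports everything:
`mapQ q (cc) = cc`, `mapQ q (el v) = el v`, and `mapQ q (eS) = (cS / cS') • eS`.  `bb` can be computed as the dimension of
`{X | X * comp i (single s 1) = X for all s ∈ S}` (rows in `fixR`), which corresponds under `φ`. -/
theorem quot_transport {q : G →* Q} {T' : TS Q ι} (hc : T'.c = q T.c) (hS : T'.S = T.S.map q)
    (ht : ∀ j, T'.t j = q (T.t j)) (W : WD ℚ G) (V : WD ℚ Q) {i : Fin W.m} {j : Fin V.m}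
    (φ : Matrix (Fin (V.r j)) (Fin (V.r j)) (V.D j) ≃ₐ[ℚ]
        Matrix (Fin (W.r i)) (Fin (W.r i)) (W.D i))
    (hφ : ∀ x, φ (V.comp j (mapQ q x)) = W.comp i x) :
    (T'.Odd V j ↔ T.Odd W i) ∧ V.a j = W.a i ∧ V.f j = W.f i ∧ T'.bb V j = T.bb W i ∧
      T.badI W i = T'.badI V j := by
  classical
  have hmem : ∀ X : Matrix (Fin (V.r j)) (Fin (V.r j)) (V.D j),
      φ X ∈ T.Quo_fixM W i ↔ X ∈ T'.Quo_fixM V j := by
    intro X
    rw [Quo_mem_fixM, Quo_mem_fixM]
    constructor
    · intro h g' hg'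
      rw [hS] at hg'
      obtain ⟨g, hg, rfl⟩ := Subgroup.mem_map.mp hg'
      apply φ.injective
      have h1 := h g hg
      rw [← hφ, mapQ_single] at h1
      rw [map_mul]
      exact h1
    · intro h g hg
      have h1 := h (q g) (by rw [hS]; exact Subgroup.mem_map_of_mem _ hg)
      have h2 := congrArg φ h1
      rw [map_mul] at h2
      rw [← hφ, mapQ_single]
      exact h2
  have hel : ∀ v : ι → Bool, φ (V.comp j (T'.el ℚ v)) = W.comp i (T.el ℚ v) := by
    intro v
    rw [← hφ]
    congr 2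
    unfold el
    rw [map_sum]
    refine Finset.sum_congr rfl fun a _ => ?_
    rw [mapQ_single, ht]
  have hinv := inv_of_equiv φ
  refine ⟨?_, hinv.1, hinv.2.1, ?_, ?_⟩
  · unfold Odd cc
    have h1 : φ (V.comp j (MonoidAlgebra.single T'.c 1)) = W.comp i (MonoidAlgebra.single T.c 1) := by
      rw [← hφ, mapQ_single, hc]
    constructor
    · intro h
      rw [← h1, h, map_neg, map_one]
    · intro h
      apply φ.injective
      rw [h1, h, map_neg, map_one]
  · rw [← Quo_finrank, ← Quo_finrank]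
    have h1 : T.Quo_fixM W i = (T'.Quo_fixM V j).map (φ.toLinearEquiv : _ →ₗ[ℚ] _) := by
      ext Y
      rw [Submodule.mem_map]
      constructor
      · intro hY
        refine ⟨φ.symm Y, ?_, ?_⟩
        · rw [← hmem, AlgEquiv.apply_symm_apply]
          exact hY
        · exact AlgEquiv.apply_symm_apply φ Y
      · rintro ⟨X, hX, rfl⟩
        exact (hmem X).mpr hX
    rw [h1]
    exact (LinearEquiv.finrank_map_eq φ.toLinearEquiv _).symm
  · ext v
    constructor
    · rintro ⟨X, h0, h1, h2⟩
      refine ⟨φ.symm X, ?_, ?_, ?_⟩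
      · intro h
        apply h0
        rw [← AlgEquiv.apply_symm_apply φ X, h, map_zero]
      · rw [Quo_eS_iff, ← hmem, AlgEquiv.apply_symm_apply, ← Quo_eS_iff]
        exact h1
      · apply φ.injective
        rw [map_mul, AlgEquiv.apply_symm_apply, hel, h2, map_zero]
    · rintro ⟨X, h0, h1, h2⟩
      refine ⟨φ X, ?_, ?_, ?_⟩
      · intro h
        apply h0
        apply φ.injective
        rw [h, map_zero]
      · rw [Quo_eS_iff, hmem, ← Quo_eS_iff]
        exact h1
      · rw [← hel, ← map_mul, h2, map_zero]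

/-- The kernel of a component. -/
def kerI (W : WD ℚ G) (i : Fin W.m) : Subgroup G where
  carrier := {g | W.comp i (MonoidAlgebra.single g 1) = 1}
  one_mem' := by
    show W.comp i (MonoidAlgebra.single 1 1) = 1
    rw [← MonoidAlgebra.one_def, map_one]
  mul_mem' := fun {a b} ha hb => by
    have ha' : W.comp i (MonoidAlgebra.single a 1) = 1 := ha
    have hb' : W.comp i (MonoidAlgebra.single b 1) = 1 := hb
    show W.comp i (MonoidAlgebra.single (a * b) 1) = 1
    have h : (MonoidAlgebra.single (a * b) 1 : MonoidAlgebra ℚ G)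
        = MonoidAlgebra.single a 1 * MonoidAlgebra.single b 1 := by
      rw [MonoidAlgebra.single_mul_single, one_mul]
    rw [h, map_mul, ha', hb', one_mul]
  inv_mem' := fun {a} ha => by
    have ha' : W.comp i (MonoidAlgebra.single a 1) = 1 := ha
    show W.comp i (MonoidAlgebra.single a⁻¹ 1) = 1
    have h : (1 : MonoidAlgebra ℚ G)
        = MonoidAlgebra.single a⁻¹ 1 * MonoidAlgebra.single a 1 := by
      rw [MonoidAlgebra.single_mul_single, one_mul, inv_mul_cancel, MonoidAlgebra.one_def]
    have h2 := congrArg (W.comp i) h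
    rw [map_mul, map_one, ha', mul_one] at h2
    exact h2.symm

theorem Quo_normal (W : WD ℚ G) (i : Fin W.m) : (kerI W i).Normal := by
  constructor
  intro n hn g
  have hn' : W.comp i (MonoidAlgebra.single n 1) = 1 := hn
  show W.comp i (MonoidAlgebra.single (g * n * g⁻¹) 1) = 1
  have h : (MonoidAlgebra.single (g * n * g⁻¹) 1 : MonoidAlgebra ℚ G)
      = MonoidAlgebra.single g 1 * MonoidAlgebra.single n 1 * MonoidAlgebra.single g⁻¹ 1 := by
    rw [MonoidAlgebra.single_mul_single, MonoidAlgebra.single_mul_single, one_mul, one_mul]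
  rw [h, map_mul, map_mul, hn', mul_one, ← map_mul, MonoidAlgebra.single_mul_single, one_mul,
    mul_inv_cancel, ← MonoidAlgebra.one_def, map_one]

theorem Quo_notMem (W : WD ℚ G) {i : Fin W.m} (hi : T.Odd W i) (h : (T.badI W i).Nonempty)
    {s : G} (hs : s ∈ T.S) (hN : s⁻¹ * T.c ∈ kerI W i) : False := by
  have hbe := T.be_pos W i h
  have h1 : W.comp i (MonoidAlgebra.single (s⁻¹ * T.c) 1) = 1 := hN
  have h2 : (MonoidAlgebra.single T.c 1 : MonoidAlgebra ℚ G)
      = MonoidAlgebra.single s 1 * MonoidAlgebra.single (s⁻¹ * T.c) 1 := by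
    rw [MonoidAlgebra.single_mul_single, one_mul, mul_inv_cancel_left]
  have h3 : W.comp i (MonoidAlgebra.single s 1) = -1 := by
    have h4 : W.comp i (MonoidAlgebra.single T.c 1) = -1 := hi
    rw [h2, map_mul, h1, mul_one] at h4
    exact h4
  have hne : T.fixR W i ≠ ⊥ := by
    intro hb
    unfold be at hbe
    rw [hb, finrank_bot] at hbe
    exact lt_irrefl _ hbe
  obtain ⟨u, hu, hu0⟩ := Submodule.exists_mem_ne_zero_of_ne_bot hne
  have h5 := hu s hs
  rw [h3, Matrix.vecMul_neg, Matrix.vecMul_one] at h5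
  apply hu0
  have h6 : (2 : ℚ) • u = 0 := by
    rw [two_smul]
    nth_rewrite 1 [← h5]
    exact neg_add_cancel u
  exact (smul_eq_zero.mp h6).resolve_left two_ne_zero

/-- PROOF. `Q = G ⧸ kerI W i`.  `q c ∉ S.map q`: otherwise `c = s g` with `s ∈ S`, `g ∈ kerI`, so
`comp i (single s 1) = -1`, and a fixed row `u` satisfies `u = - u`, so `be = 0`, a contradiction to
`be_pos`.  `exists_quot`, `quot_comp`, `quot_transport`. -/
theorem exists_faithful (W : WD ℚ G) {i : Fin W.m} (hi : T.Odd W i) (h : (T.badI W i).Nonempty) :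
    ∃ (Q : Type u) (_ : Group Q) (_ : Fintype Q) (T' : TS Q ι) (V : WD ℚ Q) (j : Fin V.m),
      Nat.card Q = (kerI W i).index ∧ T'.Odd V j ∧ V.a j = W.a i ∧ V.f j = W.f i ∧
      T'.bb V j = T.bb W i ∧ T.badI W i = T'.badI V j := by
  classical
  have := Quo_normal W i
  have fQ : Fintype (G ⧸ kerI W i) := Fintype.ofFinite _
  let q : G →* G ⧸ kerI W i := QuotientGroup.mk' (kerI W i)
  have hq : Function.Surjective q := QuotientGroup.mk'_surjective _
  have hc : q T.c ∉ T.S.map q := by
    intro hm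
    obtain ⟨s, hs, hsc⟩ := Subgroup.mem_map.mp hm
    exact T.Quo_notMem W hi h hs (QuotientGroup.eq.mp hsc)
  obtain ⟨T', h1, h2, h3⟩ := T.exists_quot hq hc
  obtain ⟨V⟩ : Nonempty (WD ℚ (G ⧸ kerI W i)) := exists_wd ℚ (G ⧸ kerI W i) (Nat.cast_ne_zero.mpr Fintype.card_ne_zero)
  obtain ⟨j, φ, hφ⟩ := quot_comp hq W V i (by
    intro g hg
    rw [QuotientGroup.ker_mk'] at hg
    exact hg)
  obtain ⟨h4, h5, h6, h7, h8⟩ := T.quot_transport h1 h2 h3 W V φ hφ
  exact ⟨G ⧸ kerI W i, inferInstance, fQ, T', V, j, rfl, h4.mpr hi, h5, h6, h7, h8⟩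

end TS

end Pool.MP43e44c.GX
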