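import Mathlib

/-!
Integral representations: fixed lattices, orthogonality relations modulo a prime.
-/

set_option autoImplicit false

open Finset Module

namespace Pool.MP43e44c.GX

/-- The rational rows fixed by a subgroup. -/
def fixQ {Q : Type*} [Group Q] {r : ℕ} (ρ : Q →* Matrix (Fin r) (Fin r) ℤ) (S : Subgroup Q) :
    Submodule ℚ (Fin r → ℚ) where
  carrier := {u | ∀ s ∈ S, Matrix.vecMul u ((ρ s).map (Int.cast : ℤ → ℚ)) = u}
  zero_mem' := fun s _ => Matrix.zero_vecMul _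
  add_mem' := fun {a b} ha hb s hs => by rw [Matrix.add_vecMul, ha s hs, hb s hs]
  smul_mem' := fun c a ha s hs => by rw [Matrix.smul_vecMul, ha s hs]

/-- The integral fixed rows. -/
def RfA_L {Q : Type*} [Group Q] {r : ℕ} (ρ : Q →* Matrix (Fin r) (Fin r) ℤ) (S : Subgroup Q) :
    Submodule ℤ (Fin r → ℤ) where
  carrier := {u | ∀ s ∈ S, Matrix.vecMul u (ρ s) = u}
  zero_mem' := fun s _ => Matrix.zero_vecMul _
  add_mem' := fun {a b} ha hb s hs => by rw [Matrix.add_vecMul, ha s hs, hb s hs]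
  smul_mem' := fun c a ha s hs => by rw [Matrix.smul_vecMul, ha s hs]

/-- The embedding of the integral rows in the rational rows. -/
def RfA_c (r : ℕ) : (Fin r → ℤ) →ₗ[ℤ] (Fin r → ℚ) where
  toFun u j := (u j : ℚ)
  map_add' u v := by
    funext j
    simp
  map_smul' c u := by
    funext j
    simp

theorem RfA_c_inj (r : ℕ) : Function.Injective (RfA_c r) := by
  intro u v h
  funext j
  have h1 : (u j : ℚ) = v j := congrFun h j
  exact_mod_cast h1

theorem RfA_vecMul {r : ℕ} (u : Fin r → ℤ) (A : Matrix (Fin r) (Fin r) ℤ) :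
    Matrix.vecMul (RfA_c r u) (A.map (Int.cast : ℤ → ℚ)) = RfA_c r (Matrix.vecMul u A) := by
  funext j
  change ∑ i, (u i : ℚ) * ((A i j : ℤ) : ℚ) = ((∑ i, u i * A i j : ℤ) : ℚ)
  push_cast
  rfl

theorem RfA_mem {Q : Type*} [Group Q] {r : ℕ} (ρ : Q →* Matrix (Fin r) (Fin r) ℤ)
    (S : Subgroup Q) (u : Fin r → ℤ) : RfA_c r u ∈ fixQ ρ S ↔ u ∈ RfA_L ρ S := by
  constructor
  · intro h s hs
    have h1 := h s hs
    rw [RfA_vecMul] at h1
    exact RfA_c_inj r h1
  · intro h s hs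
    have h1 : Matrix.vecMul u (ρ s) = u := h s hs
    rw [RfA_vecMul, h1]

theorem RfA_den {r : ℕ} (w : Fin r → ℚ) : ∃ (N : ℤ) (u : Fin r → ℤ), N ≠ 0 ∧
    (N : ℚ) • w = RfA_c r u := by
  classical
  refine ⟨∏ j, ((w j).den : ℤ), fun j => (∏ i ∈ univ.erase j, ((w i).den : ℤ)) * (w j).num, ?_, ?_⟩
  · refine Finset.prod_ne_zero_iff.2 fun j _ => ?_
    exact_mod_cast (w j).den_nz
  · funext j
    change ((∏ j, ((w j).den : ℤ) : ℤ) : ℚ) * w j =
      (((∏ i ∈ univ.erase j, ((w i).den : ℤ)) * (w j).num : ℤ) : ℚ)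
    rw [← Finset.mul_prod_erase univ (fun i => ((w i).den : ℤ)) (mem_univ j)]
    push_cast
    have h1 : ((w j).den : ℚ) * w j = (w j).num := by
      rw [mul_comm]
      exact Rat.mul_den_eq_num (w j)
    rw [← h1]
    ring

theorem RfA_exists {Q : Type*} [Group Q] {r : ℕ} (ρ : Q →* Matrix (Fin r) (Fin r) ℤ)
    (S : Subgroup Q) : ∃ n : ℕ, n = finrank ℚ (fixQ ρ S) ∧
      Nonempty (Basis (Fin n) ℤ (RfA_L ρ S)) := by
  obtain ⟨n, β⟩ := Submodule.basisOfPid (Pi.basisFun ℤ (Fin r)) (RfA_L ρ S)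
  refine ⟨n, ?_, ⟨β⟩⟩
  let v : Fin n → fixQ ρ S := fun i => ⟨RfA_c r (β i).1, (RfA_mem ρ S _).2 (β i).2⟩
  have hli : LinearIndependent ℚ v := by
    have h1 : LinearIndependent ℤ (fun i => (β i).1) :=
      β.linearIndependent.map' (RfA_L ρ S).subtype (Submodule.ker_subtype _)
    have h2 : LinearIndependent ℤ (fun i => RfA_c r (β i).1) :=
      h1.map' (RfA_c r) (LinearMap.ker_eq_bot.2 (RfA_c_inj r))
    have h3 : LinearIndependent ℚ (fun i => RfA_c r (β i).1) :=
      (LinearIndependent.iff_fractionRing ℤ ℚ).1 h2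
    exact LinearIndependent.of_comp (fixQ ρ S).subtype h3
  have hsp : ⊤ ≤ Submodule.span ℚ (Set.range v) := by
    rintro ⟨w, hw⟩ -
    obtain ⟨N, u, hN, hu⟩ := RfA_den w
    have hN' : (N : ℚ) ≠ 0 := by exact_mod_cast hN
    have h1 : RfA_c r u ∈ fixQ ρ S := by
      rw [← hu]
      exact (fixQ ρ S).smul_mem _ hw
    have h2 : u ∈ RfA_L ρ S := (RfA_mem ρ S u).1 h1
    have h3 := β.sum_repr ⟨u, h2⟩
    have h4 : (⟨w, hw⟩ : fixQ ρ S) = (N : ℚ)⁻¹ • ∑ i, ((β.repr ⟨u, h2⟩ i : ℤ) : ℚ) • v i := by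
      apply Subtype.ext
      have h5 : w = (N : ℚ)⁻¹ • RfA_c r u := by
        rw [← hu, smul_smul, inv_mul_cancel₀ hN', one_smul]
      have h6 : u = ∑ i, β.repr ⟨u, h2⟩ i • (β i).1 := by
        have h7 := congrArg Subtype.val h3
        rw [Submodule.coe_sum] at h7
        exact h7.symm
      rw [Submodule.coe_smul, Submodule.coe_sum]
      change w = (N : ℚ)⁻¹ • ∑ i, ((β.repr ⟨u, h2⟩ i : ℤ) : ℚ) • RfA_c r (β i).1
      rw [h5]
      congr 1
      conv_lhs => rw [h6, map_sum]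
      refine Finset.sum_congr rfl fun i _ => ?_
      rw [map_smul, Int.cast_smul_eq_zsmul]
    rw [h4]
    refine Submodule.smul_mem _ _ (Submodule.sum_mem _ fun i _ => Submodule.smul_mem _ _ ?_)
    exact Submodule.subset_span ⟨i, rfl⟩
  rw [Module.finrank_eq_card_basis (Basis.mk hli hsp), Fintype.card_fin]

/-- PROOF. `L = {u : Fin r → ℤ | u * ρ s = u for s ∈ S}` is a free `ℤ`-module; let `B` be the matrix whose rows
are a basis.  `m` is the rank over `ℚ` of the fixed space (a rational fixed row has an integral multiple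
in `L`; a `ℤ`-basis of `L` is linearly independent over `ℚ`).  If `y * B = 0` modulo `l`, lift `y` to
an integral row: `y * B = l • w`, `w ∈ L` (as `l • (w * ρ s - w) = 0`), `w = y' * B`, `y = l • y'`. -/
theorem exists_B {Q : Type*} [Group Q] {r : ℕ} (ρ : Q →* Matrix (Fin r) (Fin r) ℤ)
    (S : Subgroup Q) : ∃ B : Matrix (Fin (finrank ℚ (fixQ ρ S))) (Fin r) ℤ,
      (∀ s ∈ S, B * ρ s = B) ∧
      (∀ u : Fin r → ℤ, (∀ s ∈ S, Matrix.vecMul u (ρ s) = u) → ∃ y, u = Matrix.vecMul y B) ∧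
      ∀ l : ℕ, l.Prime → ∀ y : Fin (finrank ℚ (fixQ ρ S)) → ZMod l,
        Matrix.vecMul y (B.map (Int.cast : ℤ → ZMod l)) = 0 → y = 0 := by
  obtain ⟨n, hn, ⟨β⟩⟩ := RfA_exists ρ S
  rw [← hn]
  let B : Matrix (Fin n) (Fin r) ℤ := fun i j => (β i).1 j
  have hv : ∀ y : Fin n → ℤ, Matrix.vecMul y B = (∑ i, y i • β i : RfA_L ρ S).1 := by
    intro y
    rw [Submodule.coe_sum]
    funext j
    rw [Finset.sum_apply]
    rfl
  have hex : ∀ u : Fin r → ℤ, (∀ s ∈ S, Matrix.vecMul u (ρ s) = u) →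
      ∃ y : Fin n → ℤ, u = Matrix.vecMul y B := by
    intro u hu
    refine ⟨fun i => β.repr ⟨u, hu⟩ i, ?_⟩
    rw [hv, β.sum_repr]
  refine ⟨B, ?_, hex, ?_⟩
  · intro s hs
    ext i j
    exact congrFun ((β i).2 s hs) j
  · intro l hl y hy
    have hl0 : (l : ℤ) ≠ 0 := by exact_mod_cast hl.ne_zero
    have : NeZero l := ⟨hl.ne_zero⟩
    let y' : Fin n → ℤ := fun i => ((y i).val : ℤ)
    have hy' : ∀ i, ((y' i : ℤ) : ZMod l) = y i := by
      intro i
      change (((y i).val : ℤ) : ZMod l) = y i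
      rw [Int.cast_natCast, ZMod.natCast_zmod_val]
    have hdvd : ∀ j, (l : ℤ) ∣ Matrix.vecMul y' B j := by
      intro j
      rw [← ZMod.intCast_zmod_eq_zero_iff_dvd]
      have h1 := congrFun hy j
      have h2 : Matrix.vecMul y (B.map (Int.cast : ℤ → ZMod l)) j =
          ∑ i, y i * ((B i j : ℤ) : ZMod l) := rfl
      rw [h2] at h1
      have h3 : Matrix.vecMul y' B j = ∑ i, y' i * B i j := rfl
      have h4 : ((Matrix.vecMul y' B j : ℤ) : ZMod l) = ∑ i, y i * ((B i j : ℤ) : ZMod l) := by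
        rw [h3, Int.cast_sum]
        refine Finset.sum_congr rfl fun i _ => ?_
        rw [Int.cast_mul, hy']
      rw [h4, h1]
      rfl
    choose w hw using hdvd
    have hw' : Matrix.vecMul y' B = (l : ℤ) • w := by
      funext j
      exact hw j
    have hwL : ∀ s ∈ S, Matrix.vecMul w (ρ s) = w := by
      intro s hs
      have h1 : (l : ℤ) • Matrix.vecMul w (ρ s) = (l : ℤ) • w := by
        rw [← Matrix.smul_vecMul, ← hw', hv]
        exact (∑ i, y' i • β i : RfA_L ρ S).2 s hs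
      exact smul_right_injective _ hl0 h1
    obtain ⟨y'', hy''⟩ := hex w hwL
    have h1 : (∑ i, y' i • β i : RfA_L ρ S) = (l : ℤ) • ∑ i, y'' i • β i := by
      apply Subtype.ext
      rw [Submodule.coe_smul, ← hv, ← hv, hw', hy'']
    have h2 : ∀ i, y' i = (l : ℤ) * y'' i := by
      intro i
      have h3 := congrArg (fun z => β.repr z i) h1
      simp only [map_smul, Finsupp.smul_apply, smul_eq_mul] at h3
      rw [β.repr_sum_self, β.repr_sum_self] at h3
      exact h3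
    funext i
    rw [← hy', h2, Int.cast_mul, Int.cast_natCast, CharP.cast_eq_zero, zero_mul]
    rfl

end Pool.MP43e44c.GX
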