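import Pool.Agent.H.MP_43e44c_ag.GX.Dim

/-!
The weight of a function in a space which is invariant under right translations.
-/

set_option autoImplicit false

open Finset Module

namespace Pool.MP43e44c.GX

universe u v

/-- A space of functions of dimension at most `D` is determined by its values at `D` points. -/
theorem RfW_points {Q : Type u} [Fintype Q] {k : Type} [Field k] (D : ℕ) :
    ∀ F : Submodule k (Q → k), finrank k F ≤ D →
      ∃ A : Finset Q, A.card ≤ D ∧ ∀ f ∈ F, (∀ g ∈ A, f g = 0) → f = 0 := by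
  classical
  induction D with
  | zero =>
    intro F hF
    refine ⟨∅, le_rfl, fun f hf _ => ?_⟩
    have h1 : finrank k F = 0 := Nat.le_zero.mp hF
    rw [Submodule.finrank_eq_zero] at h1
    rw [h1] at hf
    exact (Submodule.mem_bot k).mp hf
  | succ D ih =>
    intro F hF
    by_cases h0 : F = ⊥
    · refine ⟨∅, Nat.zero_le _, fun f hf _ => ?_⟩
      rw [h0] at hf
      exact (Submodule.mem_bot k).mp hf
    · obtain ⟨f, hf, hf0⟩ := Submodule.exists_mem_ne_zero_of_ne_bot h0
      obtain ⟨g, hg⟩ := Function.ne_iff.mp hf0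
      have hlt : F ⊓ LinearMap.ker (LinearMap.proj g : (Q → k) →ₗ[k] k) < F := by
        refine lt_of_le_of_ne inf_le_left fun h => ?_
        have h1 : f ∈ F ⊓ LinearMap.ker (LinearMap.proj g : (Q → k) →ₗ[k] k) := by
          rw [h]
          exact hf
        exact hg (LinearMap.mem_ker.mp h1.2)
      have h1 := Submodule.finrank_lt_finrank_of_lt hlt
      obtain ⟨A, hA, hA2⟩ := ih _ (by omega :
        finrank k ↥(F ⊓ LinearMap.ker (LinearMap.proj g : (Q → k) →ₗ[k] k)) ≤ D)
      refine ⟨insert g A, (card_insert_le _ _).trans (by omega), fun e he he0 => ?_⟩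
      apply hA2 e
      · exact ⟨he, LinearMap.mem_ker.mpr (he0 g (mem_insert_self _ _))⟩
      · exact fun a ha => he0 a (mem_insert_of_mem ha)

/-- PROOF. Choose `D' ≤ D` points `g_k` such that evaluation at the `g_k` is injective on `F`.  For every `x`
the function `g ↦ h (g * x)` is in `F` and not zero, so `h (g_k x) ≠ 0` for some `k`.  Sum over `x`:
`card Q ≤ D * #{g | h g ≠ 0}`, and `bl * #{g | h g ≠ 0} = 2 cS * #{j | h (t j) ≠ 0}` (`sum_unif`),
`bl * card Q = 2 cS card ι` (`card_eq`). -/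
theorem weight {Q : Type u} [Group Q] {ι : Type v} (T : TS Q ι) [Fintype Q] [Fintype ι] {l : ℕ}
    [Fact l.Prime] (h : Q → ZMod l) (hodd : ∀ g, h (g * T.c) = -h g)
    (hS : ∀ s ∈ T.S, ∀ g, h (s * g) = h g) (h0 : h ≠ 0) {D : ℕ}
    (F : Submodule (ZMod l) (Q → ZMod l)) (hF : finrank (ZMod l) F ≤ D)
    (htr : ∀ x, (fun g => h (g * x)) ∈ F) :
    Fintype.card ι ≤ D * {j : ι | h (T.t j) ≠ 0}.ncard := by
  classical
  obtain ⟨A, hA, hA2⟩ := RfW_points D F hF
  obtain ⟨g0, hg0⟩ := Function.ne_iff.mp h0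
  let W : Q → ℕ := fun g => if h g = 0 then 0 else 1
  have h1 : ∀ x, 1 ≤ ∑ a ∈ A, W (a * x) := by
    intro x
    by_contra hx
    have h2 : ∑ a ∈ A, W (a * x) = 0 := by omega
    rw [sum_eq_zero_iff] at h2
    have h3 := hA2 _ (htr x) (fun a ha => by
      have h4 := h2 a ha
      by_contra h5
      simp only [W, if_neg h5] at h4
      exact one_ne_zero h4)
    have h4 := congrFun h3 (g0 * x⁻¹)
    simp only [inv_mul_cancel_right, Pi.zero_apply] at h4
    exact hg0 h4
  have h2 : Fintype.card Q ≤ D * ∑ g, W g := by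
    calc Fintype.card Q = ∑ _x : Q, 1 := by simp
      _ ≤ ∑ x : Q, ∑ a ∈ A, W (a * x) := sum_le_sum fun x _ => h1 x
      _ = ∑ a ∈ A, ∑ x : Q, W (a * x) := sum_comm
      _ = ∑ a ∈ A, ∑ g, W g := sum_congr rfl fun a _ =>
          Fintype.sum_equiv (Equiv.mulLeft a) _ _ fun x => rfl
      _ = A.card * ∑ g, W g := by rw [sum_const, smul_eq_mul]
      _ ≤ D * ∑ g, W g := Nat.mul_le_mul_right _ hA
  have h3 := T.sum_unif W (fun s hs g => by simp only [W, hS s hs g])
    (fun g => by simp only [W, hodd g, neg_eq_zero])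
  have h4 := T.card_eq
  have h5 : {j : ι | h (T.t j) ≠ 0}.ncard = ∑ j, W (T.t j) := by
    rw [Set.ncard_eq_toFinset_card', card_eq_sum_ones]
    rw [show ∑ j, W (T.t j) = ∑ j, if h (T.t j) ≠ 0 then 1 else 0 from
      sum_congr rfl fun j _ => by
        simp only [W]
        by_cases hj : h (T.t j) = 0
        · rw [if_pos hj, if_neg (not_not.mpr hj)]
        · rw [if_neg hj, if_pos hj]]
    rw [← sum_filter]
    refine sum_congr ?_ fun _ _ => rfl
    ext j
    simp
  rw [h5]
  rw [smul_eq_mul, smul_eq_mul] at h3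
  have h6 : 0 < 2 * T.cS := Nat.mul_pos two_pos T.cS_pos
  refine Nat.le_of_mul_le_mul_left ?_ h6
  calc 2 * T.cS * Fintype.card ι = T.bl * Fintype.card Q := h4.symm
    _ ≤ T.bl * (D * ∑ g, W g) := Nat.mul_le_mul_left _ h2
    _ = D * (T.bl * ∑ g, W g) := by ring
    _ = D * (2 * T.cS * ∑ j, W (T.t j)) := by rw [h3]
    _ = 2 * T.cS * (D * ∑ j, W (T.t j)) := by ring

end Pool.MP43e44c.GX
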