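import Pool.Agent.H.MP_43e44c_ag.GX.RfA
import Pool.Agent.H.MP_43e44c_ag.GX.RfW
import Pool.Agent.H.MP_43e44c_ag.MD.Nz

/-!
Matrix coefficients, energies and unique lifting.
-/

set_option autoImplicit false

open Finset Module

namespace Pool.MP43e44c.GX

universe u v

section

variable {Q : Type u} [Group Q] {ι : Type v} (T : TS Q ι) [Fintype Q] [Fintype ι] {r m : ℕ}
  (ρ : Q →* Matrix (Fin r) (Fin r) ℤ) (B : Matrix (Fin m) (Fin r) ℤ)

/-- Matrix coefficients. -/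
def mc (q : ℕ) (y : Fin m → ZMod q) (ξ : Fin r → ZMod q) (g : Q) : ZMod q :=
  Matrix.vecMul y ((B * ρ g).map (Int.cast : ℤ → ZMod q)) ⬝ᵥ ξ

/-- The distance of `a / q` to the nearest integer. -/
noncomputable def nm (q : ℕ) (a : ZMod q) : ℝ := |(a.valMinAbs : ℝ)| / q

/-- The energy. -/
noncomputable def en (q : ℕ) (y : Fin m → ZMod q) (ξ : Fin r → ZMod q) : ℝ :=
  ∑ j, nm q (2 * mc ρ B q y ξ (T.t j)) ^ 2

/-- The pairs of primitive vectors with small energy. -/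
def Pr (l k : ℕ) (E : ℝ) : Set ((Fin m → ZMod (l ^ k)) × (Fin r → ZMod (l ^ k))) :=
  {z | (∃ a, IsUnit (z.1 a)) ∧ (∃ a, IsUnit (z.2 a)) ∧ en T ρ B (l ^ k) z.1 z.2 ≤ E}

theorem RfB_map_mul (R : Type*) [CommRing R] {a b c : ℕ} (M : Matrix (Fin a) (Fin b) ℤ)
    (N : Matrix (Fin b) (Fin c) ℤ) :
    (M * N).map (Int.cast : ℤ → R) = M.map (Int.cast : ℤ → R) * N.map (Int.cast : ℤ → R) :=
  Matrix.map_mul (f := Int.castRingHom R)

/-- The integral matrix coefficients. -/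
def RfB_mz (y : Fin m → ℤ) (ξ : Fin r → ℤ) (g : Q) : ℤ := Matrix.vecMul y (B * ρ g) ⬝ᵥ ξ

theorem RfB_mc_cast (q : ℕ) (y : Fin m → ℤ) (ξ : Fin r → ℤ) (g : Q) :
    mc ρ B q (fun a => ((y a : ℤ) : ZMod q)) (fun a => ((ξ a : ℤ) : ZMod q)) g
      = ((RfB_mz ρ B y ξ g : ℤ) : ZMod q) := by
  unfold mc RfB_mz
  simp only [dotProduct, Matrix.vecMul, Matrix.map_apply]
  push_cast
  rfl

/-- The matrix coefficient attached to a row. -/
def RfB_f {l : ℕ} (u w : Fin r → ZMod l) (g : Q) : ZMod l :=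
  Matrix.vecMul u ((ρ g).map (Int.cast : ℤ → ZMod l)) ⬝ᵥ w

theorem RfB_f_mul {l : ℕ} (u w : Fin r → ZMod l) (g x : Q) :
    RfB_f ρ u w (g * x) = RfB_f ρ u (Matrix.mulVec ((ρ x).map (Int.cast : ℤ → ZMod l)) w) g := by
  unfold RfB_f
  rw [map_mul, RfB_map_mul, Matrix.dotProduct_mulVec, Matrix.vecMul_vecMul]

theorem RfB_f_left {l : ℕ} {u : Fin r → ZMod l} {s : Q}
    (hu : Matrix.vecMul u ((ρ s).map (Int.cast : ℤ → ZMod l)) = u) (w : Fin r → ZMod l) (g : Q) :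
    RfB_f ρ u w (s * g) = RfB_f ρ u w g := by
  unfold RfB_f
  rw [map_mul, RfB_map_mul, ← Matrix.vecMul_vecMul, hu]

theorem RfB_f_odd {l : ℕ} (hc : ρ T.c = -1) (u w : Fin r → ZMod l) (g : Q) :
    RfB_f ρ u w (g * T.c) = - RfB_f ρ u w g := by
  rw [RfB_f_mul]
  have h1 : Matrix.mulVec ((ρ T.c).map (Int.cast : ℤ → ZMod l)) w = -w := by
    rw [hc]
    have h2 : (-1 : Matrix (Fin r) (Fin r) ℤ).map (Int.cast : ℤ → ZMod l) = -1 := by
      ext i j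
      rw [Matrix.map_apply, Matrix.neg_apply, Matrix.neg_apply, Int.cast_neg]
      by_cases h : i = j
      · subst h
        rw [Matrix.one_apply_eq, Matrix.one_apply_eq, Int.cast_one]
      · rw [Matrix.one_apply_ne h, Matrix.one_apply_ne h, Int.cast_zero]
    rw [h2, Matrix.neg_mulVec, Matrix.one_mulVec]
  rw [h1]
  unfold RfB_f
  rw [dotProduct_neg]

/-- The linear map `w ↦ f u w`. -/
def RfB_L {l : ℕ} (u : Fin r → ZMod l) : (Fin r → ZMod l) →ₗ[ZMod l] (Q → ZMod l) where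
  toFun w := RfB_f ρ u w
  map_add' w w' := by
    funext g
    show RfB_f ρ u (w + w') g = RfB_f ρ u w g + RfB_f ρ u w' g
    unfold RfB_f
    rw [dotProduct_add]
  map_smul' a w := by
    funext g
    show RfB_f ρ u (a • w) g = a * RfB_f ρ u w g
    unfold RfB_f
    rw [dotProduct_smul, smul_eq_mul]

variable {l : ℕ} [Fact l.Prime]

theorem RfB_w1 (hc : ρ T.c = -1) {u : Fin r → ZMod l}
    (hu : ∀ s ∈ T.S, Matrix.vecMul u ((ρ s).map (Int.cast : ℤ → ZMod l)) = u)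
    (w : Fin r → ZMod l) (h0 : RfB_f ρ u w ≠ 0) :
    Fintype.card ι ≤ r * {j : ι | RfB_f ρ u w (T.t j) ≠ 0}.ncard := by
  refine weight T (RfB_f ρ u w) (RfB_f_odd T ρ hc u w)
    (fun s hs g => RfB_f_left ρ (hu s hs) w g) h0 (LinearMap.range (RfB_L ρ u)) ?_ ?_
  · refine (LinearMap.finrank_range_le _).trans ?_
    rw [finrank_fin_fun]
  · intro x
    refine ⟨Matrix.mulVec ((ρ x).map (Int.cast : ℤ → ZMod l)) w, ?_⟩
    funext g
    exact (RfB_f_mul ρ u w g x).symm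

theorem RfB_w2 (hc : ρ T.c = -1) {u u' : Fin r → ZMod l}
    (hu : ∀ s ∈ T.S, Matrix.vecMul u ((ρ s).map (Int.cast : ℤ → ZMod l)) = u)
    (hu' : ∀ s ∈ T.S, Matrix.vecMul u' ((ρ s).map (Int.cast : ℤ → ZMod l)) = u')
    (w w' : Fin r → ZMod l) (h : Q → ZMod l) (hh : ∀ g, h g = RfB_f ρ u w g + RfB_f ρ u' w' g)
    (h0 : h ≠ 0) :
    Fintype.card ι ≤ (r + r) * {j : ι | h (T.t j) ≠ 0}.ncard := by
  refine weight T h ?_ ?_ h0
    (LinearMap.range ((RfB_L ρ u).coprod (RfB_L ρ u'))) ?_ ?_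
  · intro g
    rw [hh, hh, RfB_f_odd T ρ hc, RfB_f_odd T ρ hc]
    ring
  · intro s hs g
    rw [hh, hh, RfB_f_left ρ (hu s hs), RfB_f_left ρ (hu' s hs)]
  · refine (LinearMap.finrank_range_le _).trans ?_
    rw [finrank_prod, finrank_fin_fun]
  · intro x
    refine ⟨(Matrix.mulVec ((ρ x).map (Int.cast : ℤ → ZMod l)) w,
      Matrix.mulVec ((ρ x).map (Int.cast : ℤ → ZMod l)) w'), ?_⟩
    funext g
    rw [LinearMap.coprod_apply]
    show RfB_f ρ u _ g + RfB_f ρ u' _ g = h (g * x)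
    rw [hh, RfB_f_mul, RfB_f_mul]

/-- The energy of a function modulo `l`. -/
theorem RfB_energy (hl2 : l ≠ 2) (h : ι → ZMod l) {E : ℝ}
    (hE : ∑ j, MD.nz (2 * h j) ^ 2 ≤ E) : ({j : ι | h j ≠ 0}.ncard : ℝ) ≤ E * (l : ℝ) ^ 2 := by
  classical
  have hl : l.Prime := Fact.out
  haveI : NeZero l := ⟨hl.ne_zero⟩
  have hlR : (0 : ℝ) < l := Nat.cast_pos.2 hl.pos
  have h5 : ({j : ι | h j ≠ 0}.ncard : ℝ) * (1 / (l : ℝ)) ^ 2 ≤ E := by
    refine le_trans ?_ hE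
    have h6 : {j : ι | h j ≠ 0}.ncard = (univ.filter fun j : ι => h j ≠ 0).card := by
      rw [← Set.ncard_coe_finset]
      congr 1
      ext k
      simp
    rw [h6, ← nsmul_eq_mul, ← sum_const]
    refine le_trans (sum_le_sum fun k hk => ?_)
      (sum_le_sum_of_subset_of_nonneg (filter_subset _ _) fun k _ _ => sq_nonneg _)
    rw [mem_filter] at hk
    have h7 : (2 * h k : ZMod l) ≠ 0 := by
      refine mul_ne_zero ?_ hk.2
      intro h8
      have h9 : ((2 : ℕ) : ZMod l) = 0 := by exact_mod_cast h8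
      rw [ZMod.natCast_eq_zero_iff] at h9
      exact hl2 ((Nat.prime_dvd_prime_iff_eq hl Nat.prime_two).1 h9)
    exact pow_le_pow_left₀ (by positivity) (MD.nz_ge h7) 2
  have h10 : ({j : ι | h j ≠ 0}.ncard : ℝ) * (1 / (l : ℝ)) ^ 2 * (l : ℝ) ^ 2 ≤ E * (l : ℝ) ^ 2 :=
    mul_le_mul_of_nonneg_right h5 (by positivity)
  have h11 : ({j : ι | h j ≠ 0}.ncard : ℝ) * (1 / (l : ℝ)) ^ 2 * (l : ℝ) ^ 2
      = {j : ι | h j ≠ 0}.ncard := by
    field_simp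
  linarith

theorem RfB_nm (q : ℕ) (a : ZMod q) : nm q a = MD.nz a := rfl

/-- The row `y * B` is fixed by `S`. -/
theorem RfB_fix (hB : ∀ s ∈ T.S, B * ρ s = B) (y : Fin m → ZMod l) :
    ∀ s ∈ T.S, Matrix.vecMul (Matrix.vecMul y (B.map (Int.cast : ℤ → ZMod l)))
      ((ρ s).map (Int.cast : ℤ → ZMod l)) = Matrix.vecMul y (B.map (Int.cast : ℤ → ZMod l)) := by
  intro s hs
  rw [Matrix.vecMul_vecMul, ← RfB_map_mul, hB s hs]

theorem RfB_mz_cast (y : Fin m → ℤ) (ξ : Fin r → ℤ) (g : Q) :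
    ((RfB_mz ρ B y ξ g : ℤ) : ZMod l)
      = RfB_f ρ (Matrix.vecMul (fun a => ((y a : ℤ) : ZMod l)) (B.map (Int.cast : ℤ → ZMod l)))
        (fun a => ((ξ a : ℤ) : ZMod l)) g := by
  rw [← RfB_mc_cast]
  unfold mc RfB_f
  rw [Matrix.vecMul_vecMul, RfB_map_mul]

/-- A rank one matrix which is orthogonal to the representation. -/
theorem RfB_trace (u w : Fin r → ZMod l) (g : Q) :
    ((ρ g).map (Int.cast : ℤ → ZMod l) * Matrix.vecMulVec w u).trace = RfB_f ρ u w g := by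
  unfold RfB_f
  rw [Matrix.mul_vecMulVec, Matrix.trace_vecMulVec, dotProduct_comm, Matrix.dotProduct_mulVec]

theorem RfB_unit {k : ℕ} (hk : 1 ≤ k) (a : ℤ) : IsUnit ((a : ℤ) : ZMod (l ^ k)) ↔
    ((a : ℤ) : ZMod l) ≠ 0 := by
  have hl : l.Prime := Fact.out
  rw [ZMod.coe_int_isUnit_iff_isCoprime, Ne, ZMod.intCast_zmod_eq_zero_iff_dvd]
  have hp : Prime (l : ℤ) := Nat.prime_iff_prime_int.1 hl
  rw [Nat.cast_pow, IsCoprime.pow_left_iff (by omega)]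
  exact Irreducible.coprime_iff_not_dvd hp.irreducible

theorem RfB_exists_int {n q : ℕ} (y : Fin n → ZMod q) :
    ∃ y0 : Fin n → ℤ, y = fun a => ((y0 a : ℤ) : ZMod q) :=
  ⟨fun a => (y a).valMinAbs, funext fun a => (ZMod.coe_valMinAbs _).symm⟩

/-- The reduction. -/
def RfB_red {n l k : ℕ} (y : Fin n → ZMod (l ^ (k + 1))) : Fin n → ZMod (l ^ k) :=
  fun a => (((y a).valMinAbs : ℤ) : ZMod (l ^ k))

theorem RfB_red_cast {n l k : ℕ} (y : Fin n → ℤ) :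
    RfB_red (l := l) (k := k) (fun a => ((y a : ℤ) : ZMod (l ^ (k + 1))))
      = fun a => ((y a : ℤ) : ZMod (l ^ k)) := by
  funext a
  unfold RfB_red
  have h1 := ZMod.coe_valMinAbs ((y a : ℤ) : ZMod (l ^ (k + 1)))
  rw [ZMod.intCast_eq_intCast_iff_dvd_sub] at h1 ⊢
  refine dvd_trans ?_ h1
  exact_mod_cast pow_dvd_pow l (Nat.le_succ k)

theorem RfB_pow_mul {k : ℕ} {x y : ℤ} (h : (x : ZMod l) = (y : ZMod l)) :
    (((l : ℤ) ^ k * x : ℤ) : ZMod (l ^ (k + 1))) = (((l : ℤ) ^ k * y : ℤ) : ZMod (l ^ (k + 1))) := by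
  rw [ZMod.intCast_eq_intCast_iff_dvd_sub] at h ⊢
  obtain ⟨c, hc⟩ := h
  refine ⟨c, ?_⟩
  rw [← mul_sub, hc]
  push_cast
  ring

theorem RfB_exists_sub {k : ℕ} {x y : ℤ} (h : (x : ZMod (l ^ k)) = (y : ZMod (l ^ k))) :
    ∃ c : ℤ, y = x + (l : ℤ) ^ k * c := by
  rw [ZMod.intCast_eq_intCast_iff_dvd_sub] at h
  obtain ⟨c, hc⟩ := h
  refine ⟨c, ?_⟩
  push_cast at hc
  linarith

theorem RfB_mz_add (k : ℕ) (y η : Fin m → ℤ) (ξ ζ : Fin r → ℤ) (g : Q) :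
    RfB_mz ρ B (fun a => y a + (l : ℤ) ^ k * η a) (fun a => ξ a + (l : ℤ) ^ k * ζ a) g
      = RfB_mz ρ B y ξ g + (l : ℤ) ^ k * (RfB_mz ρ B η ξ g + RfB_mz ρ B y ζ g)
        + (l : ℤ) ^ k * (l : ℤ) ^ k * RfB_mz ρ B η ζ g := by
  have e1 : (fun a => y a + (l : ℤ) ^ k * η a) = y + ((l : ℤ) ^ k) • η := rfl
  have e2 : (fun a => ξ a + (l : ℤ) ^ k * ζ a) = ξ + ((l : ℤ) ^ k) • ζ := rfl
  unfold RfB_mz
  rw [e1, e2, Matrix.add_vecMul, Matrix.smul_vecMul, add_dotProduct, dotProduct_add,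
    dotProduct_add, smul_dotProduct, smul_dotProduct, dotProduct_smul, dotProduct_smul]
  simp only [smul_eq_mul]
  ring

end

section

variable {Q : Type u} [Group Q] {ι : Type v} (T : TS Q ι) [Fintype Q] [Fintype ι] {r m : ℕ}
  (ρ : Q →* Matrix (Fin r) (Fin r) ℤ) (B : Matrix (Fin m) (Fin r) ℤ)

variable {l : ℕ} [Fact l.Prime] (hl2 : l ≠ 2) (hc : ρ T.c = -1) (hB : ∀ s ∈ T.S, B * ρ s = B)
  (hBl : ∀ y : Fin m → ZMod l, Matrix.vecMul y (B.map (Int.cast : ℤ → ZMod l)) = 0 → y = 0)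
  (hsch : ∀ A : Matrix (Fin r) (Fin r) (ZMod l),
    (∀ g, ((ρ g).map (Int.cast : ℤ → ZMod l) * A).trace = 0) → A = 0)

include hl2 hc hB hsch in
/-- The relation between two pairs in a fibre. -/
theorem RfB_zero {k : ℕ} (hk : 1 ≤ k) {E : ℝ} (hE : 8 * (r : ℝ) * l ^ 2 * E < Fintype.card ι)
    (y η : Fin m → ℤ) (ξ ζ : Fin r → ℤ)
    (h1 : en T ρ B (l ^ (k + 1)) (fun a => ((y a : ℤ) : ZMod (l ^ (k + 1))))
      (fun a => ((ξ a : ℤ) : ZMod (l ^ (k + 1)))) ≤ E)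
    (h2 : en T ρ B (l ^ (k + 1))
      (fun a => ((y a + (l : ℤ) ^ k * η a : ℤ) : ZMod (l ^ (k + 1))))
      (fun a => ((ξ a + (l : ℤ) ^ k * ζ a : ℤ) : ZMod (l ^ (k + 1)))) ≤ E) (a b : Fin r) :
    (ξ a : ZMod l) *
        Matrix.vecMul (fun a => ((η a : ℤ) : ZMod l)) (B.map (Int.cast : ℤ → ZMod l)) b +
      (ζ a : ZMod l) *
        Matrix.vecMul (fun a => ((y a : ℤ) : ZMod l)) (B.map (Int.cast : ℤ → ZMod l)) b = 0 := by
  have hl : l.Prime := Fact.out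
  haveI : NeZero (l ^ (k + 1)) := ⟨(pow_pos hl.pos _).ne'⟩
  haveI : NeZero l := ⟨hl.ne_zero⟩
  obtain ⟨u, hu⟩ : ∃ u, u = Matrix.vecMul (fun a => ((y a : ℤ) : ZMod l))
    (B.map (Int.cast : ℤ → ZMod l)) := ⟨_, rfl⟩
  obtain ⟨v, hv⟩ : ∃ v, v = Matrix.vecMul (fun a => ((η a : ℤ) : ZMod l))
    (B.map (Int.cast : ℤ → ZMod l)) := ⟨_, rfl⟩
  rw [← hu, ← hv]
  obtain ⟨h, hh⟩ : ∃ h : Q → ZMod l,
    h = fun g => ((RfB_mz ρ B η ξ g + RfB_mz ρ B y ζ g : ℤ) : ZMod l) := ⟨_, rfl⟩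
  have hh2 : ∀ g, h g = RfB_f ρ v (fun a => ((ξ a : ℤ) : ZMod l)) g
      + RfB_f ρ u (fun a => ((ζ a : ℤ) : ZMod l)) g := by
    intro g
    rw [hh, hu, hv]
    show ((RfB_mz ρ B η ξ g + RfB_mz ρ B y ζ g : ℤ) : ZMod l) = _
    rw [Int.cast_add, RfB_mz_cast, RfB_mz_cast]
  have h0 : h = 0 := by
    by_contra hne
    have h3 := RfB_w2 T ρ hc (by rw [hv]; exact RfB_fix T ρ B hB _)
      (by rw [hu]; exact RfB_fix T ρ B hB _) _ _ h hh2 hne
    have h4 : ∀ j : ι, MD.nz (2 * h (T.t j)) ^ 2 ≤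
        2 * nm (l ^ (k + 1)) (2 * mc ρ B (l ^ (k + 1))
          (fun a => ((y a + (l : ℤ) ^ k * η a : ℤ) : ZMod (l ^ (k + 1))))
          (fun a => ((ξ a + (l : ℤ) ^ k * ζ a : ℤ) : ZMod (l ^ (k + 1)))) (T.t j)) ^ 2 +
        2 * nm (l ^ (k + 1)) (2 * mc ρ B (l ^ (k + 1))
          (fun a => ((y a : ℤ) : ZMod (l ^ (k + 1))))
          (fun a => ((ξ a : ℤ) : ZMod (l ^ (k + 1)))) (T.t j)) ^ 2 := by
      intro j
      rw [RfB_nm, RfB_nm]
      refine le_trans (le_of_eq ?_) (MD.nz_sub_sq_le _ _)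
      congr 1
      have e1 : (2 * h (T.t j) : ZMod l)
          = ((2 * (RfB_mz ρ B η ξ (T.t j) + RfB_mz ρ B y ζ (T.t j)) : ℤ) : ZMod l) := by
        rw [hh]
        push_cast
        ring
      rw [e1, ← MD.nz_smul k]
      congr 1
      rw [RfB_mc_cast, RfB_mc_cast, RfB_mz_add, Int.cast_add (_ + _)]
      have e2 : (((l : ℤ) ^ k * (l : ℤ) ^ k * RfB_mz ρ B η ζ (T.t j) : ℤ) : ZMod (l ^ (k + 1)))
          = 0 := by
        rw [ZMod.intCast_zmod_eq_zero_iff_dvd]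
        apply Dvd.dvd.mul_right
        push_cast
        rw [← pow_add]
        exact pow_dvd_pow _ (by omega)
      rw [e2]
      push_cast
      ring
    have h5 : ∑ j : ι, MD.nz (2 * h (T.t j)) ^ 2 ≤ 4 * E := by
      refine (sum_le_sum fun j _ => h4 j).trans ?_
      rw [sum_add_distrib, ← mul_sum, ← mul_sum]
      unfold en at h1 h2
      linarith
    have h6 := RfB_energy hl2 (fun j => h (T.t j)) h5
    have h7 : (Fintype.card ι : ℝ) ≤ ((r : ℝ) + r) * {j : ι | h (T.t j) ≠ 0}.ncard := by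
      exact_mod_cast h3
    have h8 : ((r : ℝ) + r) * {j : ι | h (T.t j) ≠ 0}.ncard
        ≤ ((r : ℝ) + r) * (4 * E * (l : ℝ) ^ 2) :=
      mul_le_mul_of_nonneg_left h6 (by positivity)
    have h9 : ((r : ℝ) + r) * (4 * E * (l : ℝ) ^ 2) = 8 * (r : ℝ) * l ^ 2 * E := by ring
    linarith
  have h3 := hsch (Matrix.vecMulVec (fun a => ((ξ a : ℤ) : ZMod l)) v +
    Matrix.vecMulVec (fun a => ((ζ a : ℤ) : ZMod l)) u) (by
    intro g
    rw [mul_add, Matrix.trace_add, RfB_trace, RfB_trace, ← hh2, h0]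
    rfl)
  have h4 := congrFun (congrFun h3 a) b
  rw [Matrix.add_apply, Matrix.vecMulVec_apply, Matrix.vecMulVec_apply] at h4
  exact h4

include hl2 hc hB hBl hsch

/-- PROOF. Let `(y, ξ)` be in the set (level `1`, `ZMod (l ^ 1)`), `u = y * B ≠ 0` (`hBl`), `ξ ≠ 0`, so the matrix
`A = (ξ_a u_b)` is not zero and `h g = u ρ(g) ξ = tr(ρ(g) A)` is not the zero function (`hsch`).  It is odd, left
`S`-invariant, its right translates lie in the space of the `g ↦ u ρ(g) η` of dimension at most `r`; `weight`: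
`h (t j) ≠ 0` for at least `card ι / r` of the `j`, and then `2 h (t j) ≠ 0` and `nm ≥ 1 / l`. -/
theorem base_zero {E : ℝ} (hE : (r : ℝ) * l ^ 2 * E < Fintype.card ι) :
    Pr T ρ B l 1 E = ∅ := by
  rw [Set.eq_empty_iff_forall_notMem]
  rintro ⟨y, ξ⟩ ⟨⟨a, ha⟩, ⟨b, hb⟩, hen⟩
  simp only at ha hb hen
  obtain ⟨y0, rfl⟩ := RfB_exists_int y
  obtain ⟨ξ0, rfl⟩ := RfB_exists_int ξ
  rw [RfB_unit le_rfl] at ha hb
  obtain ⟨u, hu⟩ : ∃ u, u = Matrix.vecMul (fun a => ((y0 a : ℤ) : ZMod l))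
    (B.map (Int.cast : ℤ → ZMod l)) := ⟨_, rfl⟩
  obtain ⟨w, hw⟩ : ∃ w : Fin r → ZMod l, w = fun a => ((ξ0 a : ℤ) : ZMod l) := ⟨_, rfl⟩
  have hu0 : u ≠ 0 := fun h => ha (congrFun (hBl _ (hu.symm.trans h)) a)
  have hf0 : RfB_f ρ u w ≠ 0 := by
    intro h
    have h1 := hsch (Matrix.vecMulVec w u) (fun g => by
      rw [RfB_trace]
      exact congrFun h g)
    obtain ⟨c, hc'⟩ := Function.ne_iff.1 hu0
    have h2 := congrFun (congrFun h1 b) c
    rw [Matrix.vecMulVec_apply] at h2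
    refine mul_ne_zero ?_ hc' h2
    rw [hw]
    exact hb
  have h3 := RfB_w1 T ρ hc (by rw [hu]; exact RfB_fix T ρ B hB _) w hf0
  have h4 : ∑ j, MD.nz (2 * RfB_f ρ u w (T.t j)) ^ 2 ≤ E := by
    refine le_trans (le_of_eq ?_) hen
    unfold en
    refine sum_congr rfl fun j _ => ?_
    rw [RfB_nm, RfB_mc_cast, hu, hw, ← RfB_mz_cast]
    congr 1
    have key : ∀ (q : ℕ) (z : ℤ), q = l → MD.nz (2 * ((z : ℤ) : ZMod l))
        = MD.nz (2 * ((z : ℤ) : ZMod q)) := by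
      rintro q z rfl
      rfl
    exact key _ _ (pow_one l)
  have h6 := RfB_energy hl2 (fun j => RfB_f ρ u w (T.t j)) h4
  have h7 : (Fintype.card ι : ℝ) ≤ (r : ℝ) * {j : ι | RfB_f ρ u w (T.t j) ≠ 0}.ncard := by
    exact_mod_cast h3
  have h8 : (r : ℝ) * {j : ι | RfB_f ρ u w (T.t j) ≠ 0}.ncard ≤ (r : ℝ) * (E * (l : ℝ) ^ 2) :=
    mul_le_mul_of_nonneg_left h6 (by positivity)
  have h9 : (r : ℝ) * (E * (l : ℝ) ^ 2) = (r : ℝ) * l ^ 2 * E := by ring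
  linarith

/-- PROOF (unique lifting). Reduction modulo `l ^ k` maps `Pr (k+1) E` to `Pr k (l ^ 2 E)`, since
`nm (l^k) (a mod l^k) ≤ l * nm (l^(k+1)) a`.  CLAIM: every fibre has at most `l` elements.  Let `(y, ξ)`, `(y', ξ')` be in the same fibre:
`y' = y + l^k y₁`, `ξ' = ξ + l^k ξ₁`, so `mc' g - mc g = l^k h(g)` with `h g = y₁ B ρ(g) ξ + y B ρ(g) ξ₁` modulo `l`
(`k ≥ 1`).  `h` is odd, left `S`-invariant, its right translates lie in a space of dimension at most `2 r`.  If `h ≠ 0` then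
`∑_j nm l (2 h (t j)) ^ 2 ≥ card ι / (2 r l ^ 2)` (`weight`), but `nm l (2 h) = nm (2 mc' - 2 mc) ≤ nm (2 mc') + nm (2 mc)`, so the sum is at
most `4 E`, a contradiction.  So `h = 0`, and by `hsch` `ξ (y₁ B) + ξ₁ (y B) = 0` as matrices modulo `l`; `ξ ≠ 0`, `y B ≠ 0` modulo `l`, so
`y₁ B = μ y B`, `y₁ = μ y`, `ξ₁ = - μ ξ` modulo `l`.  So there are at most `l` possibilities for `(y₁, ξ₁)` modulo `l`. -/
theorem lift_step {k : ℕ} (hk : 1 ≤ k) {E : ℝ}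
    (hE : 8 * (r : ℝ) * l ^ 2 * E < Fintype.card ι) :
    (Pr T ρ B l (k + 1) E).ncard ≤ l * (Pr T ρ B l k (l ^ 2 * E)).ncard := by
  classical
  have hl : l.Prime := Fact.out
  haveI : NeZero (l ^ (k + 1)) := ⟨(pow_pos hl.pos _).ne'⟩
  haveI : NeZero (l ^ k) := ⟨(pow_pos hl.pos _).ne'⟩
  haveI : NeZero l := ⟨hl.ne_zero⟩
  rw [Set.ncard_eq_toFinset_card', Set.ncard_eq_toFinset_card']
  refine card_le_mul_card_image_of_maps_to
    (f := fun z : (Fin m → ZMod (l ^ (k + 1))) × (Fin r → ZMod (l ^ (k + 1))) =>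
      ((RfB_red z.1, RfB_red z.2) : (Fin m → ZMod (l ^ k)) × (Fin r → ZMod (l ^ k)))) ?_ _ ?_
  · rintro ⟨y, ξ⟩ hz
    rw [Set.mem_toFinset] at hz ⊢
    obtain ⟨⟨a, ha⟩, ⟨b, hb⟩, hen⟩ := hz
    simp only at ha hb hen
    obtain ⟨y0, rfl⟩ := RfB_exists_int y
    obtain ⟨ξ0, rfl⟩ := RfB_exists_int ξ
    rw [RfB_unit (by omega)] at ha hb
    simp only
    rw [RfB_red_cast, RfB_red_cast]
    refine ⟨⟨a, ?_⟩, ⟨b, ?_⟩, ?_⟩
    · exact (RfB_unit hk _).2 ha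
    · exact (RfB_unit hk _).2 hb
    · refine le_trans ?_ (mul_le_mul_of_nonneg_left hen (by positivity))
      show en T ρ B (l ^ k) _ _ ≤ _
      unfold en
      rw [mul_sum]
      refine sum_le_sum fun j _ => ?_
      rw [RfB_nm, RfB_nm, RfB_mc_cast, RfB_mc_cast, ← mul_pow]
      have h1 := MD.nz_red (ℓ := l) k (2 * RfB_mz ρ B y0 ξ0 (T.t j))
      push_cast at h1
      exact pow_le_pow_left₀ (MD.nz_nonneg _) h1 2
  · intro q _
    obtain ⟨A, hA⟩ : ∃ A, A = (Pr T ρ B l (k + 1) E).toFinset.filter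
      (fun z : (Fin m → ZMod (l ^ (k + 1))) × (Fin r → ZMod (l ^ (k + 1))) =>
      ((RfB_red z.1, RfB_red z.2) : (Fin m → ZMod (l ^ k)) × (Fin r → ZMod (l ^ k))) = q) :=
      ⟨_, rfl⟩
    rw [← hA]
    rcases A.eq_empty_or_nonempty with h0 | ⟨⟨y, ξ⟩, hp₀⟩
    · rw [h0, card_empty]
      exact Nat.zero_le _
    have hmem : ∀ z ∈ A, z ∈ Pr T ρ B l (k + 1) E ∧ RfB_red z.1 = q.1 ∧ RfB_red z.2 = q.2 := by
      intro z hz
      rw [hA, mem_filter, Set.mem_toFinset] at hz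
      refine ⟨hz.1, ?_, ?_⟩
      · rw [← hz.2]
      · rw [← hz.2]
    obtain ⟨⟨⟨a, ha⟩, ⟨b, hb⟩, hen⟩, hr1, hr2⟩ := hmem _ hp₀
    simp only at ha hb hen hr1 hr2
    obtain ⟨y0, rfl⟩ := RfB_exists_int y
    obtain ⟨ξ0, rfl⟩ := RfB_exists_int ξ
    rw [RfB_unit (by omega)] at ha hb
    rw [RfB_red_cast] at hr1 hr2
    have hd : ∀ z ∈ A, ∃ d : (Fin m → ℤ) × (Fin r → ℤ),
        z.1 = (fun a => ((y0 a + (l : ℤ) ^ k * d.1 a : ℤ) : ZMod (l ^ (k + 1)))) ∧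
        z.2 = (fun a => ((ξ0 a + (l : ℤ) ^ k * d.2 a : ℤ) : ZMod (l ^ (k + 1)))) := by
      rintro ⟨z1, z2⟩ hz
      obtain ⟨-, h1, h2⟩ := hmem _ hz
      simp only at h1 h2 ⊢
      obtain ⟨x1, rfl⟩ := RfB_exists_int z1
      obtain ⟨x2, rfl⟩ := RfB_exists_int z2
      rw [RfB_red_cast, ← hr1] at h1
      rw [RfB_red_cast, ← hr2] at h2
      have e1 : ∀ a, ∃ c : ℤ, x1 a = y0 a + (l : ℤ) ^ k * c :=
        fun a => RfB_exists_sub (congrFun h1 a).symm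
      have e2 : ∀ a, ∃ c : ℤ, x2 a = ξ0 a + (l : ℤ) ^ k * c :=
        fun a => RfB_exists_sub (congrFun h2 a).symm
      choose d1 hd1 using e1
      choose d2 hd2 using e2
      refine ⟨(d1, d2), funext fun a => ?_, funext fun a => ?_⟩
      · rw [hd1]
      · rw [hd2]
    choose! D hD using hd
    have hrel : ∀ z ∈ A, ∀ a b : Fin r, (ξ0 a : ZMod l) *
        Matrix.vecMul (fun a => (((D z).1 a : ℤ) : ZMod l)) (B.map (Int.cast : ℤ → ZMod l)) b +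
      ((D z).2 a : ZMod l) *
        Matrix.vecMul (fun a => ((y0 a : ℤ) : ZMod l)) (B.map (Int.cast : ℤ → ZMod l)) b = 0 := by
      intro z hz
      obtain ⟨⟨-, -, h1⟩, -⟩ := hmem z hz
      obtain ⟨h2, h3⟩ := hD z hz
      rw [h2, h3] at h1
      exact RfB_zero T ρ B hl2 hc hB hsch hk hE y0 _ ξ0 _ hen h1
    have hu0 : Matrix.vecMul (fun a => ((y0 a : ℤ) : ZMod l)) (B.map (Int.cast : ℤ → ZMod l)) ≠ 0 :=
      fun h => ha (congrFun (hBl _ h) a)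
    obtain ⟨c, hc'⟩ := Function.ne_iff.1 hu0
    have hcard : A.card ≤ (univ : Finset (ZMod l)).card := by
      refine Finset.card_le_card_of_injOn (fun z => ((D z).2 b : ZMod l)) (fun _ _ => mem_univ _) ?_
      intro z hz z' hz' heq
      have hz : z ∈ A := hz
      have hz' : z' ∈ A := hz'
      simp only at heq
      have g1 : Matrix.vecMul (fun a => (((D z).1 a : ℤ) : ZMod l)) (B.map (Int.cast : ℤ → ZMod l))
          = Matrix.vecMul (fun a => (((D z').1 a : ℤ) : ZMod l))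
            (B.map (Int.cast : ℤ → ZMod l)) := by
        funext e
        have h1 := hrel z hz b e
        have h2 := hrel z' hz' b e
        rw [heq] at h1
        exact mul_left_cancel₀ hb (add_right_cancel (h1.trans h2.symm))
      have g2 : (fun a => (((D z).1 a : ℤ) : ZMod l)) = fun a => (((D z').1 a : ℤ) : ZMod l) := by
        rw [← sub_eq_zero]
        apply hBl
        rw [Matrix.sub_vecMul, g1, sub_self]
      have g3 : ∀ a, (((D z).2 a : ℤ) : ZMod l) = (((D z').2 a : ℤ) : ZMod l) := by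
        intro a
        have h1 := hrel z hz a c
        have h2 := hrel z' hz' a c
        rw [g1] at h1
        exact mul_right_cancel₀ hc' (add_left_cancel (h1.trans h2.symm))
      obtain ⟨h1, h2⟩ := hD z hz
      obtain ⟨h3, h4⟩ := hD z' hz'
      apply Prod.ext
      · rw [h1, h3]
        funext a
        rw [Int.cast_add, Int.cast_add (y0 a), RfB_pow_mul (congrFun g2 a)]
      · rw [h2, h4]
        funext a
        rw [Int.cast_add, Int.cast_add (ξ0 a), RfB_pow_mul (g3 a)]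
    rwa [card_univ, ZMod.card] at hcard

/-- Iteration of `lift_step`. -/
theorem RfB_iter {j : ℕ} (hj : 1 ≤ j) (s : ℕ) : ∀ {E : ℝ}, 0 ≤ E →
    8 * (r : ℝ) * l ^ (2 * s) * E < Fintype.card ι →
    (Pr T ρ B l (j + s) E).ncard ≤ l ^ s * (Pr T ρ B l j (l ^ (2 * s) * E)).ncard := by
  have hl1 : (1 : ℝ) ≤ (l : ℝ) := by
    exact_mod_cast (Fact.out : l.Prime).one_lt.le
  induction s with
  | zero =>
    intro E _ _
    rw [pow_zero, one_mul, mul_zero, pow_zero, one_mul, add_zero]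
  | succ s ih =>
    intro E hE0 hE
    have hpow : (l : ℝ) ^ (2 * (s + 1)) = (l : ℝ) ^ (2 * s) * (l : ℝ) ^ 2 := by
      rw [← pow_add]
      congr 1
    have h1 : 8 * (r : ℝ) * l ^ 2 * E < Fintype.card ι := by
      refine lt_of_le_of_lt ?_ hE
      have h2 : (l : ℝ) ^ 2 ≤ (l : ℝ) ^ (2 * (s + 1)) := pow_le_pow_right₀ hl1 (by omega)
      exact mul_le_mul_of_nonneg_right (mul_le_mul_of_nonneg_left h2 (by positivity)) hE0
    have h2 := lift_step T ρ B hl2 hc hB hBl hsch (k := j + s) (by omega) h1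
    have h3 := ih (E := (l : ℝ) ^ 2 * E) (by positivity) (by
      refine lt_of_eq_of_lt ?_ hE
      rw [hpow]
      ring)
    have h4 : (l : ℝ) ^ (2 * (s + 1)) * E = (l : ℝ) ^ (2 * s) * ((l : ℝ) ^ 2 * E) := by
      rw [hpow]
      ring
    rw [h4, pow_succ, mul_comm (l ^ s) l, mul_assoc, ← add_assoc]
    exact h2.trans (Nat.mul_le_mul_left _ h3)

/-- Iterate `lift_step` (`E ≥ 0`, otherwise the sets are empty) and use `base_zero`, or the trivial bound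
`l ^ ((k - t) (m + r))` for the number of all the pairs at level `k - t`. -/
theorem lift_all {E : ℝ} (hE0 : 0 ≤ E) {t : ℕ}
    (hE : 8 * (r : ℝ) * l ^ (2 * t) * E < Fintype.card ι) {k : ℕ} (hk : 1 ≤ k) :
    (k ≤ t → Pr T ρ B l k E = ∅) ∧
      (t < k → (Pr T ρ B l k E).ncard ≤ l ^ t * l ^ ((k - t) * (m + r))) := by
  have hl : l.Prime := Fact.out
  have hl1 : (1 : ℝ) ≤ (l : ℝ) := by exact_mod_cast hl.one_lt.le
  haveI : ∀ i, NeZero (l ^ i) := fun i => ⟨(pow_pos hl.pos _).ne'⟩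
  have hfin : ∀ i, Finite ((Fin m → ZMod (l ^ i)) × (Fin r → ZMod (l ^ i))) := fun i =>
    inferInstance
  constructor
  · intro hkt
    obtain ⟨s, rfl⟩ : ∃ s, k = 1 + s := ⟨k - 1, by omega⟩
    have h1 : 8 * (r : ℝ) * l ^ (2 * s) * E < Fintype.card ι := by
      refine lt_of_le_of_lt ?_ hE
      have h2 : (l : ℝ) ^ (2 * s) ≤ (l : ℝ) ^ (2 * t) := pow_le_pow_right₀ hl1 (by omega)
      exact mul_le_mul_of_nonneg_right (mul_le_mul_of_nonneg_left h2 (by positivity)) hE0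
    have h2 := RfB_iter T ρ B hl2 hc hB hBl hsch le_rfl s hE0 h1
    have h3 : (r : ℝ) * l ^ 2 * ((l : ℝ) ^ (2 * s) * E) < Fintype.card ι := by
      refine lt_of_le_of_lt ?_ hE
      have h4 : (l : ℝ) ^ (2 * (1 + s)) ≤ (l : ℝ) ^ (2 * t) := pow_le_pow_right₀ hl1 (by omega)
      have h5 : (r : ℝ) * l ^ 2 * ((l : ℝ) ^ (2 * s) * E)
          = 1 * (r : ℝ) * l ^ (2 * (1 + s)) * E := by
        rw [mul_add, pow_add]
        ring
      rw [h5]
      refine mul_le_mul_of_nonneg_right (mul_le_mul ?_ h4 (by positivity) (by positivity)) hE0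
      exact mul_le_mul_of_nonneg_right (by norm_num) (Nat.cast_nonneg r)
    rw [base_zero T ρ B hl2 hc hB hBl hsch h3, Set.ncard_empty, mul_zero] at h2
    exact (Set.ncard_eq_zero (Set.toFinite _)).1 (Nat.le_zero.1 h2)
  · intro htk
    obtain ⟨j, hj, rfl⟩ : ∃ j, 1 ≤ j ∧ k = j + t := ⟨k - t, by omega, by omega⟩
    refine (RfB_iter T ρ B hl2 hc hB hBl hsch hj t hE0 hE).trans
      (Nat.mul_le_mul_left _ ?_)
    rw [Nat.add_sub_cancel]
    refine (Set.ncard_le_card _).trans (le_of_eq ?_)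
    rw [Nat.card_prod, Nat.card_fun, Nat.card_fun, Nat.card_zmod, Nat.card_fin, Nat.card_fin,
      ← pow_mul, ← pow_mul, ← pow_add, ← mul_add]

end

end Pool.MP43e44c.GX
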