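import Pool.Agent.H.MP_43e44c_ag.GX.RfB
import Pool.Agent.H.MP_43e44c_ag.OD.CosS
import Pool.Agent.H.MP_43e44c_ag.MQ.Fou

/-!
The union bound modulo powers of a prime.
-/

set_option autoImplicit false

open Finset Module

namespace Pool.MP43e44c.GX

universe u v

variable {Q : Type u} [Group Q] {ι : Type v} (T : TS Q ι) [Fintype Q] [Fintype ι] {r m : ℕ}
  (ρ : Q →* Matrix (Fin r) (Fin r) ℤ) (B : Matrix (Fin m) (Fin r) ℤ)

/-- The sign vectors with a nonzero integral fixed row in the kernel. -/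
def badZ : Set (ι → Bool) :=
  {v | ∃ u : Fin r → ℤ, u ≠ 0 ∧ (∀ s ∈ T.S, Matrix.vecMul u (ρ s) = u) ∧
    ∑ j, (if v j then (1 : ℤ) else -1) • Matrix.vecMul u (ρ (T.t j)) = 0}

open Classical in
/-- The sum over the pairs of primitive vectors. -/
noncomputable def SS (l k : ℕ) [NeZero l] : ℝ :=
  ∑ z ∈ (univ : Finset ((Fin m → ZMod (l ^ k)) × (Fin r → ZMod (l ^ k)))).filter
      (fun z => (∃ a, IsUnit (z.1 a)) ∧ ∃ a, IsUnit (z.2 a)),
    ∏ j, |Real.cos (2 * Real.pi * ((mc ρ B (l ^ k) z.1 z.2 (T.t j)).val : ℝ) / (l ^ k : ℕ))|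

private theorem RfC_cos {q : ℕ} [NeZero q] (a : ZMod q) :
    |Real.cos (2 * Real.pi * (a.val : ℝ) / (q : ℕ))| ≤ Real.exp (-(4 * nm q (2 * a) ^ 2)) := by
  have hq : (0 : ℝ) < q := Nat.cast_pos.2 (Nat.pos_of_ne_zero (NeZero.ne q))
  have h1 : ((2 * (a.val : ℤ) : ℤ) : ZMod q) = (((2 * a).valMinAbs : ℤ) : ZMod q) := by
    rw [ZMod.coe_valMinAbs]
    push_cast
    rw [ZMod.natCast_zmod_val]
  obtain ⟨t, ht⟩ : (q : ℤ) ∣ 2 * (a.val : ℤ) - (2 * a).valMinAbs := by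
    rw [← ZMod.intCast_zmod_eq_zero_iff_dvd, Int.cast_sub, h1, sub_self]
  have ht' : 2 * (a.val : ℝ) = ((2 * a).valMinAbs : ℝ) + q * t := by
    have h2 : (2 * (a.val : ℤ) : ℤ) = (2 * a).valMinAbs + q * t := by linarith
    exact_mod_cast h2
  have h3 : 2 * Real.pi * (a.val : ℝ) / (q : ℕ) =
      Real.pi * ((2 * a).valMinAbs : ℝ) / q + t * Real.pi := by
    have h4 : 2 * Real.pi * (a.val : ℝ) = Real.pi * (2 * (a.val : ℝ)) := by ring
    rw [h4, ht']
    field_simp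
  have h5 : |Real.cos (2 * Real.pi * (a.val : ℝ) / (q : ℕ))| =
      |Real.cos (Real.pi * nm q (2 * a))| := by
    rw [h3, Real.cos_add_int_mul_pi, abs_mul, abs_zpow, abs_neg, abs_one, one_zpow, one_mul]
    unfold nm
    rw [← Real.cos_abs (Real.pi * ((2 * a).valMinAbs : ℝ) / q), abs_div, abs_mul,
      abs_of_pos Real.pi_pos, abs_of_pos hq, mul_div_assoc]
  have h6 : 0 ≤ nm q (2 * a) := by
    unfold nm
    positivity
  have h7 : nm q (2 * a) ≤ 1 / 2 := by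
    unfold nm
    rw [div_le_iff₀ hq]
    have h8 := ZMod.natAbs_valMinAbs_le (2 * a)
    have h9 : (((2 * a).valMinAbs.natAbs : ℕ) : ℝ) = |((2 * a).valMinAbs : ℝ)| := by
      rw [← Int.cast_abs, Int.abs_eq_natAbs]
      simp
    rw [← h9]
    have h10 : 2 * (2 * a).valMinAbs.natAbs ≤ q := by omega
    have h11 : 2 * (((2 * a).valMinAbs.natAbs : ℕ) : ℝ) ≤ q := by exact_mod_cast h10
    linarith
  have h12 : 0 ≤ Real.pi * nm q (2 * a) := mul_nonneg Real.pi_pos.le h6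
  have h13 : Real.pi * nm q (2 * a) ≤ Real.pi / 2 := by
    have := mul_le_mul_of_nonneg_left h7 Real.pi_pos.le
    linarith
  rw [h5, abs_of_nonneg (Real.cos_nonneg_of_mem_Icc ⟨by linarith [Real.pi_pos], h13⟩)]
  refine (OD.cosS_cos_le h12 h13).trans (Real.exp_le_exp.2 ?_)
  have h14 : (3 : ℝ) < Real.pi := Real.pi_gt_three
  have h15 : 8 ≤ Real.pi ^ 2 := by nlinarith
  have h16 : 0 ≤ nm q (2 * a) ^ 2 := sq_nonneg _
  rw [mul_pow]
  nlinarith

/-- PROOF. `|cos (2 π a / q)| = |cos (π nm(2a))| ≤ exp(- (π nm(2a)) ^ 2 / 2) ≤ exp(- 4 nm(2a) ^ 2)` (`cosS_cos_le` in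
OD/CosS.lean), so the product is at most `exp(- 4 en)`.  The pairs with `en ≤ E` contribute at most `1`, the others at most
`exp(- 4 E)`, and there are at most `l ^ (k (m + r))` pairs. -/
theorem SS_le {l : ℕ} [Fact l.Prime] (k : ℕ) (E : ℝ) :
    SS T ρ B l k ≤ (Pr T ρ B l k E).ncard + (l : ℝ) ^ (k * (m + r)) * Real.exp (-(4 * E)) := by
  classical
  set F : Finset ((Fin m → ZMod (l ^ k)) × (Fin r → ZMod (l ^ k))) :=
    univ.filter (fun z => (∃ a, IsUnit (z.1 a)) ∧ ∃ a, IsUnit (z.2 a)) with hF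
  have hterm : ∀ z : (Fin m → ZMod (l ^ k)) × (Fin r → ZMod (l ^ k)),
      ∏ j, |Real.cos (2 * Real.pi * ((mc ρ B (l ^ k) z.1 z.2 (T.t j)).val : ℝ) / (l ^ k : ℕ))| ≤
        Real.exp (-(4 * en T ρ B (l ^ k) z.1 z.2)) := by
    intro z
    have h1 : Real.exp (-(4 * en T ρ B (l ^ k) z.1 z.2)) =
        ∏ j, Real.exp (-(4 * nm (l ^ k) (2 * mc ρ B (l ^ k) z.1 z.2 (T.t j)) ^ 2)) := by
      rw [← Real.exp_sum, sum_neg_distrib, ← mul_sum]
      rfl
    rw [h1]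
    exact prod_le_prod (fun j _ => abs_nonneg _) fun j _ => RfC_cos _
  have hen : ∀ z : (Fin m → ZMod (l ^ k)) × (Fin r → ZMod (l ^ k)),
      0 ≤ en T ρ B (l ^ k) z.1 z.2 := fun z => sum_nonneg fun j _ => sq_nonneg _
  have hsplit : ∀ z ∈ F,
      ∏ j, |Real.cos (2 * Real.pi * ((mc ρ B (l ^ k) z.1 z.2 (T.t j)).val : ℝ) / (l ^ k : ℕ))| ≤
        (if en T ρ B (l ^ k) z.1 z.2 ≤ E then (1 : ℝ) else 0) + Real.exp (-(4 * E)) := by
    intro z _
    refine (hterm z).trans ?_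
    by_cases h : en T ρ B (l ^ k) z.1 z.2 ≤ E
    · rw [if_pos h]
      have h1 : Real.exp (-(4 * en T ρ B (l ^ k) z.1 z.2)) ≤ 1 := by
        rw [Real.exp_le_one_iff]
        linarith [hen z]
      have h2 := (Real.exp_pos (-(4 * E))).le
      linarith
    · rw [if_neg h, zero_add]
      exact Real.exp_le_exp.2 (by linarith [not_le.1 h])
  have hPr : (Pr T ρ B l k E).ncard =
      (F.filter fun z => en T ρ B (l ^ k) z.1 z.2 ≤ E).card := by
    rw [← Set.ncard_coe_finset]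
    congr 1
    ext z
    simp only [Pr, hF, coe_filter, mem_filter, mem_univ, true_and, Set.mem_ofPred_eq, and_assoc]
  have hcard : (F.card : ℝ) ≤ (l : ℝ) ^ (k * (m + r)) := by
    have h1 : F.card ≤ Fintype.card ((Fin m → ZMod (l ^ k)) × (Fin r → ZMod (l ^ k))) :=
      card_le_univ F
    have h2 : Fintype.card ((Fin m → ZMod (l ^ k)) × (Fin r → ZMod (l ^ k))) =
        l ^ (k * (m + r)) := by
      rw [Fintype.card_prod, Fintype.card_fun, Fintype.card_fun, ZMod.card, Fintype.card_fin,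
        Fintype.card_fin, ← pow_add, ← pow_mul]
    rw [h2] at h1
    exact_mod_cast h1
  unfold SS
  rw [← hF]
  refine (sum_le_sum hsplit).trans ?_
  rw [sum_add_distrib, sum_const, nsmul_eq_mul, ← sum_filter, sum_const, nsmul_eq_mul, mul_one,
    hPr]
  have h3 := mul_le_mul_of_nonneg_right hcard (Real.exp_pos (-(4 * E))).le
  linarith

end Pool.MP43e44c.GX
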