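import Pool.Agent.H.MP_43e44c_ag.GX.RfC

/-!
The union bound modulo powers of a prime.
-/

set_option autoImplicit false

open Finset Module

namespace Pool.MP43e44c.GX

universe u v

/-! ### Characters -/

theorem RfF_orth {q : ℕ} [NeZero q] {d : ℕ} (y : Fin d → ZMod q) :
    ∑ θ : Fin d → ZMod q, (ZMod.stdAddChar (∑ l, θ l * y l) : ℂ) =
      if (∀ l, y l = 0) then (q : ℂ) ^ d else 0 := by
  classical
  have h1 : ∀ θ : Fin d → ZMod q, (ZMod.stdAddChar (∑ l, θ l * y l) : ℂ) =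
      ∏ l, ZMod.stdAddChar (θ l * y l) := fun θ => fou_sum _ _ _
  rw [Finset.sum_congr rfl fun θ _ => h1 θ]
  have h2 := Finset.prod_univ_sum (fun _ : Fin d => (Finset.univ : Finset (ZMod q)))
    (fun l t => (ZMod.stdAddChar (t * y l) : ℂ))
  rw [Fintype.piFinset_univ] at h2
  rw [← h2]
  have h3 : ∀ l, ∑ t : ZMod q, (ZMod.stdAddChar (t * y l) : ℂ) =
      if y l = 0 then (q : ℂ) else 0 := by
    intro l
    rw [AddChar.sum_mulShift (y l) (ZMod.isPrimitive_stdAddChar q), ZMod.card]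
    split_ifs <;> simp
  rw [Finset.prod_congr rfl fun l _ => h3 l]
  split_ifs with h
  · rw [Finset.prod_congr rfl fun l _ => if_pos (h l), prod_const, card_univ, Fintype.card_fin]
  · push Not at h
    obtain ⟨l, hl⟩ := h
    exact Finset.prod_eq_zero (mem_univ l) (if_neg hl)

open Classical in
/-- The sign vectors in the kernel of a matrix. -/
noncomputable def RfF_Z {ι : Type*} [Fintype ι] {q d : ℕ} (A : Matrix (Fin d) ι (ZMod q)) :
    Finset (ι → Bool) :=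
  univ.filter fun v : ι → Bool => ∀ l, ∑ i, A l i * svr (ZMod q) v i = 0

theorem RfF_mod {ι : Type*} [Fintype ι] {q : ℕ} [NeZero q] {d : ℕ}
    (A : Matrix (Fin d) ι (ZMod q)) :
    ((RfF_Z A).card : ℝ) * (q : ℝ) ^ d
      ≤ 2 ^ Fintype.card ι * ∑ θ : Fin d → ZMod q,
        ∏ i, |Real.cos (2 * Real.pi * ((∑ l, θ l * A l i).val : ℝ) / q)| := by
  classical
  unfold RfF_Z
  have h1 : (((univ.filter fun v : ι → Bool => ∀ l, ∑ i, A l i * svr (ZMod q) v i = 0).card : ℕ) :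
      ℂ) * (q : ℂ) ^ d = ∑ v : ι → Bool, ∑ θ : Fin d → ZMod q,
        (ZMod.stdAddChar (∑ l, θ l * ∑ i, A l i * svr (ZMod q) v i) : ℂ) := by
    rw [Finset.sum_congr rfl fun v _ => RfF_orth (fun l => ∑ i, A l i * svr (ZMod q) v i),
      ← Finset.sum_filter, sum_const, nsmul_eq_mul]
  rw [sum_comm] at h1
  have h2 : ∀ θ : Fin d → ZMod q, ∑ v : ι → Bool,
      (ZMod.stdAddChar (∑ l, θ l * ∑ i, A l i * svr (ZMod q) v i) : ℂ) =
      ((∏ i, (2 * Real.cos (2 * Real.pi * ((∑ l, θ l * A l i).val : ℝ) / q)) : ℝ) : ℂ) := by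
    intro θ
    have h3 : ∀ v : ι → Bool, (ZMod.stdAddChar (∑ l, θ l * ∑ i, A l i * svr (ZMod q) v i) : ℂ) =
        ∏ i, ZMod.stdAddChar ((∑ l, θ l * A l i) * (if v i then 1 else -1)) := by
      intro v
      rw [← fou_sum]
      congr 1
      simp only [mul_sum, sum_mul]
      rw [sum_comm]
      refine sum_congr rfl fun i _ => sum_congr rfl fun l _ => ?_
      unfold svr
      ring
    rw [Finset.sum_congr rfl fun v _ => h3 v]
    have h4 := Finset.prod_univ_sum (fun _ : ι => (Finset.univ : Finset Bool))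
      (fun i b => (ZMod.stdAddChar ((∑ l, θ l * A l i) * (if b then 1 else -1)) : ℂ))
    rw [Fintype.piFinset_univ] at h4
    rw [← h4, Complex.ofReal_prod]
    refine prod_congr rfl fun i _ => ?_
    rw [← fou_cos, Fintype.sum_bool]
    simp
  rw [Finset.sum_congr rfl fun θ _ => h2 θ, ← Complex.ofReal_sum] at h1
  have h5 : (((univ.filter fun v : ι → Bool => ∀ l, ∑ i, A l i * svr (ZMod q) v i = 0).card : ℕ) :
      ℝ) * (q : ℝ) ^ d = ∑ θ : Fin d → ZMod q,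
        ∏ i, (2 * Real.cos (2 * Real.pi * ((∑ l, θ l * A l i).val : ℝ) / q)) := by
    exact_mod_cast h1
  rw [h5, mul_sum]
  refine sum_le_sum fun θ _ => ?_
  refine (le_abs_self _).trans ?_
  rw [abs_prod]
  have h6 : ∀ i, |2 * Real.cos (2 * Real.pi * ((∑ l, θ l * A l i).val : ℝ) / q)| =
      2 * |Real.cos (2 * Real.pi * ((∑ l, θ l * A l i).val : ℝ) / q)| := by
    intro i
    rw [abs_mul, abs_two]
  rw [prod_congr rfl fun i _ => h6 i, prod_mul_distrib, prod_const, card_univ]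

theorem RfF_cos {q : ℕ} [NeZero q] (X : ℤ) :
    Real.cos (2 * Real.pi * (((X : ZMod q)).val : ℝ) / q) =
      Real.cos (2 * Real.pi * (X : ℝ) / q) := by
  have h1 : (((X : ZMod q).val : ℕ) : ℤ) = X % q := ZMod.val_intCast X
  have h2 : X % q + q * (X / q) = X := Int.emod_add_mul_ediv X q
  have hq : (q : ℝ) ≠ 0 := by exact_mod_cast NeZero.ne q
  have h3 : (X : ℝ) = (((X : ZMod q).val : ℕ) : ℝ) + q * ((X / q : ℤ) : ℝ) := by
    have h4 : X = (((X : ZMod q).val : ℕ) : ℤ) + q * (X / q) := by rw [h1, h2]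
    have h5 := congrArg (fun z : ℤ => (z : ℝ)) h4
    simp only [Int.cast_add, Int.cast_natCast, Int.cast_mul] at h5
    exact h5
  have h6 : 2 * Real.pi * (X : ℝ) / q =
      2 * Real.pi * (((X : ZMod q)).val : ℝ) / q + ((X / q : ℤ) : ℝ) * (2 * Real.pi) := by
    conv_lhs => rw [h3]
    field_simp
  rw [h6, Real.cos_add_int_mul_two_pi]

/-! ### Reduction and multiplication -/

section

variable {l : ℕ} [Fact l.Prime]

/-- Reduction. -/
def RfF_red {m i k : ℕ} (l : ℕ) (hk : k ≤ i) (y : Fin m → ZMod (l ^ i)) : Fin m → ZMod (l ^ k) :=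
  fun a => ZMod.castHom (pow_dvd_pow l hk) (ZMod (l ^ k)) (y a)

/-- Multiplication with a power of the prime. -/
def RfF_up {r : ℕ} (l i k : ℕ) (ξ : Fin r → ZMod (l ^ k)) : Fin r → ZMod (l ^ i) :=
  fun b => (((l : ℤ) ^ (i - k) * ((ξ b).val : ℤ) : ℤ) : ZMod (l ^ i))

variable {Q : Type u} [Group Q] {r m : ℕ}
  (ρ : Q →* Matrix (Fin r) (Fin r) ℤ) (B : Matrix (Fin m) (Fin r) ℤ)

theorem RfF_mc (q : ℕ) (y : Fin m → ℤ) (ξ : Fin r → ℤ) (g : Q) :
    mc ρ B q (fun a => (y a : ZMod q)) (fun b => (ξ b : ZMod q)) g =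
      ((∑ b, (∑ a, y a * (B * ρ g) a b) * ξ b : ℤ) : ZMod q) := by
  unfold mc
  simp only [dotProduct, Matrix.vecMul, Matrix.map_apply]
  push_cast
  rfl

theorem RfF_fac {i k : ℕ} (hk : k ≤ i) (y : Fin m → ZMod (l ^ i)) (ξ : Fin r → ZMod (l ^ k))
    (g : Q) :
    Real.cos (2 * Real.pi * ((mc ρ B (l ^ i) y (RfF_up l i k ξ) g).val : ℝ) / (l ^ i : ℕ)) =
      Real.cos (2 * Real.pi * ((mc ρ B (l ^ k) (RfF_red l hk y) ξ g).val : ℝ) / (l ^ k : ℕ)) := by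
  obtain ⟨Y, hY⟩ : ∃ Y : Fin m → ℤ, y = fun a => (Y a : ZMod (l ^ i)) :=
    ⟨fun a => ((y a).val : ℤ), funext fun a => by
      rw [Int.cast_natCast, ZMod.natCast_zmod_val]⟩
  obtain ⟨X, hX⟩ : ∃ X : Fin r → ℤ, X = fun b => ((ξ b).val : ℤ) := ⟨_, rfl⟩
  have hX1 : ξ = fun b => (X b : ZMod (l ^ k)) := by
    rw [hX]
    funext b
    rw [Int.cast_natCast, ZMod.natCast_zmod_val]
  have hX2 : RfF_up l i k ξ = fun b => (((l : ℤ) ^ (i - k) * X b : ℤ) : ZMod (l ^ i)) := by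
    rw [hX]
    rfl
  have hr : RfF_red l hk y = fun a => (Y a : ZMod (l ^ k)) := by
    rw [hY]
    funext a
    unfold RfF_red
    rw [map_intCast]
  rw [hr, hX2, hY, RfF_mc]
  have h2 : mc ρ B (l ^ k) (fun a => (Y a : ZMod (l ^ k))) ξ g =
      ((∑ b, (∑ a, Y a * (B * ρ g) a b) * X b : ℤ) : ZMod (l ^ k)) := by
    rw [hX1, RfF_mc]
  rw [h2, RfF_cos, RfF_cos]
  congr 1
  have h3 : ∑ b, (∑ a, Y a * (B * ρ g) a b) * ((l : ℤ) ^ (i - k) * X b) =
      (l : ℤ) ^ (i - k) * ∑ b, (∑ a, Y a * (B * ρ g) a b) * X b := by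
    rw [mul_sum]
    refine sum_congr rfl fun b _ => ?_
    ring
  rw [h3]
  have hl0 : (l : ℝ) ≠ 0 := by exact_mod_cast (Fact.out : l.Prime).ne_zero
  have h4 : ((l ^ i : ℕ) : ℝ) = (l : ℝ) ^ (i - k) * ((l ^ k : ℕ) : ℝ) := by
    push_cast
    rw [← pow_add]
    congr 1
    omega
  rw [h4]
  have h5 : ((l ^ k : ℕ) : ℝ) ≠ 0 := by
    push_cast
    positivity
  rw [Int.cast_mul, Int.cast_pow, Int.cast_natCast]
  field_simp

/-- Every nonzero vector is a multiple of a primitive one. -/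
theorem RfF_ex {i : ℕ} (ξ : Fin r → ZMod (l ^ i)) (h0 : ξ ≠ 0) :
    ∃ k ∈ Finset.Icc 1 i, ∃ ξ' : Fin r → ZMod (l ^ k), (∃ a, IsUnit (ξ' a)) ∧
      RfF_up l i k ξ' = ξ := by
  have hl : l.Prime := Fact.out
  have h1 : ∃ e < i, (∀ a, l ^ e ∣ (ξ a).val) ∧ ¬ ∀ a, l ^ (e + 1) ∣ (ξ a).val := by
    by_contra hcon
    push Not at hcon
    have h2 : ∀ e ≤ i, ∀ a, l ^ e ∣ (ξ a).val := by
      intro e
      induction e with
      | zero => intro _ a; simp
      | succ e ih =>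
        intro he
        exact hcon e (by omega) (ih (by omega))
    apply h0
    funext a
    have h3 := h2 i le_rfl a
    have h4 : (ξ a).val < l ^ i := ZMod.val_lt (ξ a)
    have h5 : (ξ a).val = 0 := Nat.eq_zero_of_dvd_of_lt h3 h4
    rw [Pi.zero_apply]
    exact (ZMod.val_eq_zero (ξ a)).1 h5
  obtain ⟨e, he, hd, hnd⟩ := h1
  push Not at hnd
  obtain ⟨a₀, ha₀⟩ := hnd
  refine ⟨i - e, by rw [Finset.mem_Icc]; omega,
    fun b => (((ξ b).val / l ^ e : ℕ) : ZMod (l ^ (i - e))), ⟨a₀, ?_⟩, ?_⟩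
  · rw [ZMod.isUnit_iff_coprime]
    apply Nat.Coprime.pow_right
    rw [Nat.coprime_comm, hl.coprime_iff_not_dvd]
    intro hdiv
    apply ha₀
    obtain ⟨t, ht⟩ := hdiv
    refine ⟨t, ?_⟩
    rw [pow_succ, mul_assoc, ← ht, Nat.mul_div_cancel' (hd a₀)]
  · funext b
    unfold RfF_up
    have h6 : (((ξ b).val / l ^ e : ℕ) : ZMod (l ^ (i - e))).val = (ξ b).val / l ^ e := by
      rw [ZMod.val_natCast]
      apply Nat.mod_eq_of_lt
      rw [Nat.div_lt_iff_lt_mul (pow_pos hl.pos e), ← pow_add]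
      have h7 : i - e + e = i := by omega
      rw [h7]
      exact ZMod.val_lt (ξ b)
    rw [h6]
    have h8 : i - (i - e) = e := by omega
    rw [h8]
    have h9 : ((l : ℤ) ^ e * (((ξ b).val / l ^ e : ℕ) : ℤ) : ℤ) = (((ξ b).val : ℕ) : ℤ) := by
      have h10 := Nat.mul_div_cancel' (hd b)
      exact_mod_cast h10
    rw [h9, Int.cast_natCast, ZMod.natCast_zmod_val]

/-- The fibres of the reduction. -/
theorem RfF_fib {i k : ℕ} (hk : k ≤ i) (z : Fin m → ZMod (l ^ k))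
    (s : Finset (Fin m → ZMod (l ^ i))) (hs : ∀ y ∈ s, RfF_red l hk y = z) :
    s.card ≤ l ^ ((i - k) * m) := by
  classical
  have hl : l.Prime := Fact.out
  have h1 : ∀ y : Fin m → ZMod (l ^ i), ∀ a, (y a).val / l ^ k < l ^ (i - k) := by
    intro y a
    rw [Nat.div_lt_iff_lt_mul (pow_pos hl.pos k), ← pow_add]
    have h7 : i - k + k = i := by omega
    rw [h7]
    exact ZMod.val_lt (y a)
  have h2 : s.card ≤ (univ : Finset (Fin m → Fin (l ^ (i - k)))).card := by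
    refine Finset.card_le_card_of_injOn (fun y a => ⟨(y a).val / l ^ k, h1 y a⟩)
      (fun _ _ => Finset.mem_coe.2 (mem_univ _)) ?_
    intro y hy y' hy' h
    funext a
    apply ZMod.val_injective
    have h3 : (y a).val / l ^ k = (y' a).val / l ^ k := by
      have := congrFun h a
      exact congrArg Fin.val this
    have h4 : (y a).val % l ^ k = (y' a).val % l ^ k := by
      have h5 : RfF_red l hk y a = RfF_red l hk y' a := by rw [hs y hy, hs y' hy']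
      unfold RfF_red at h5
      rw [ZMod.castHom_apply, ZMod.castHom_apply, ← ZMod.natCast_val, ← ZMod.natCast_val] at h5
      have h6 := congrArg ZMod.val h5
      rwa [ZMod.val_natCast, ZMod.val_natCast] at h6
    rw [← Nat.div_add_mod (y a).val (l ^ k), h3, h4, Nat.div_add_mod]
  refine h2.trans ?_
  rw [card_univ, Fintype.card_fun, Fintype.card_fin, Fintype.card_fin, ← pow_mul]

/-- Comparison of sums. -/
theorem RfF_sum {α β : Type*} (s : Finset α) (t : Finset β) (f : α → ℝ) (h : β → ℝ)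
    (h0 : ∀ b ∈ t, 0 ≤ h b) (g : β → α) (hg : ∀ a ∈ s, ∃ b ∈ t, g b = a ∧ f a ≤ h b) :
    ∑ a ∈ s, f a ≤ ∑ b ∈ t, h b := by
  classical
  rcases s.eq_empty_or_nonempty with rfl | ⟨a₀, ha₀⟩
  · rw [sum_empty]
    exact sum_nonneg h0
  have : Nonempty β := ⟨(hg a₀ ha₀).choose⟩
  choose! φ h1 h2 h3 using hg
  calc ∑ a ∈ s, f a ≤ ∑ a ∈ s, h (φ a) := sum_le_sum h3
    _ = ∑ b ∈ s.image φ, h b := by
        rw [sum_image]
        intro a ha a' ha' haa
        rw [← h2 a ha, haa, h2 a' ha']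
    _ ≤ ∑ b ∈ t, h b := by
        refine sum_le_sum_of_subset_of_nonneg ?_ fun b hb _ => h0 b hb
        intro b hb
        obtain ⟨a, ha, rfl⟩ := mem_image.1 hb
        exact h1 a ha

end

/-! ### Bad vectors -/

section

variable {l : ℕ} [Fact l.Prime] {Q : Type u} [Group Q] {ι : Type v} (T : TS Q ι) [Fintype ι]
  {r m : ℕ} (ρ : Q →* Matrix (Fin r) (Fin r) ℤ) (B : Matrix (Fin m) (Fin r) ℤ)

theorem RfF_div (v : ι → Bool) (b₀ : Fin r) (N : ℕ) : ∀ u : Fin r → ℤ, u b₀ ≠ 0 →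
    (u b₀).natAbs ≤ N → (∀ s ∈ T.S, Matrix.vecMul u (ρ s) = u) →
    ∑ j, (if v j then (1 : ℤ) else -1) • Matrix.vecMul u (ρ (T.t j)) = 0 →
    ∃ u' : Fin r → ℤ, (∃ b, ¬ (l : ℤ) ∣ u' b) ∧ (∀ s ∈ T.S, Matrix.vecMul u' (ρ s) = u') ∧
      ∑ j, (if v j then (1 : ℤ) else -1) • Matrix.vecMul u' (ρ (T.t j)) = 0 := by
  have hl : l.Prime := Fact.out
  have hl0 : (l : ℤ) ≠ 0 := by exact_mod_cast hl.ne_zero
  induction N with
  | zero =>
    intro u h0 h1
    exact absurd (Int.natAbs_eq_zero.1 (Nat.le_zero.1 h1)) h0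
  | succ N ih =>
    intro u h0 h1 h2 h3
    by_cases hd : ∀ b, (l : ℤ) ∣ u b
    · choose u' hu' using hd
      have hu : u = (l : ℤ) • u' := by
        funext b
        rw [Pi.smul_apply, smul_eq_mul, ← hu' b]
      have hinj : ∀ w w' : Fin r → ℤ, (l : ℤ) • w = (l : ℤ) • w' → w = w' := by
        intro w w' hw
        funext b
        have := congrFun hw b
        rw [Pi.smul_apply, Pi.smul_apply, smul_eq_mul, smul_eq_mul] at this
        exact mul_left_cancel₀ hl0 this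
      refine ih u' ?_ ?_ ?_ ?_
      · intro h
        apply h0
        rw [hu' b₀, h, mul_zero]
      · have h4 : (u b₀).natAbs = l * (u' b₀).natAbs := by
          rw [hu' b₀, Int.natAbs_mul, Int.natAbs_natCast]
        have h5 : (u' b₀).natAbs ≠ 0 := by
          intro h
          apply h0
          rw [hu' b₀, Int.natAbs_eq_zero.1 h, mul_zero]
        have h6 : 2 ≤ l := hl.two_le
        have h7 : 2 * (u' b₀).natAbs ≤ l * (u' b₀).natAbs := Nat.mul_le_mul_right _ h6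
        omega
      · intro s hs
        apply hinj
        rw [← Matrix.smul_vecMul, ← hu, h2 s hs]
      · apply hinj
        rw [smul_zero, smul_sum, ← h3]
        refine sum_congr rfl fun j _ => ?_
        rw [hu, Matrix.smul_vecMul, smul_comm]
    · push Not at hd
      exact ⟨u, hd, h2, h3⟩

theorem RfF_prim (hBf : ∀ u : Fin r → ℤ, (∀ s ∈ T.S, Matrix.vecMul u (ρ s) = u) →
      ∃ y, u = Matrix.vecMul y B) {v : ι → Bool} (hv : v ∈ badZ T ρ) :
    ∃ y : Fin m → ℤ, (∃ a, ¬ (l : ℤ) ∣ y a) ∧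
      ∀ b, ∑ j, Matrix.vecMul y (B * ρ (T.t j)) b * svr ℤ v j = 0 := by
  obtain ⟨u, h0, h1, h2⟩ := hv
  obtain ⟨b₀, hb₀⟩ := Function.ne_iff.1 h0
  obtain ⟨u', ⟨b, hb⟩, h3, h4⟩ := RfF_div (l := l) T ρ v b₀ (u b₀).natAbs u hb₀ le_rfl h1 h2
  obtain ⟨y, hy⟩ := hBf u' h3
  refine ⟨y, ?_, ?_⟩
  · by_contra hcon
    push Not at hcon
    apply hb
    rw [hy]
    unfold Matrix.vecMul dotProduct
    exact Finset.dvd_sum fun a _ => Dvd.dvd.mul_right (hcon a) _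
  · intro b'
    have h5 := congrFun h4 b'
    rw [Finset.sum_apply, Pi.zero_apply] at h5
    rw [← h5]
    refine sum_congr rfl fun j _ => ?_
    rw [Pi.smul_apply, hy, Matrix.vecMul_vecMul, smul_eq_mul, mul_comm]
    rfl

/-- The matrix of a vector. -/
def RfF_A (q : ℕ) (y : Fin m → ZMod q) : Matrix (Fin r) ι (ZMod q) :=
  fun b j => Matrix.vecMul y ((B * ρ (T.t j)).map (Int.cast : ℤ → ZMod q)) b

theorem RfF_many (hBf : ∀ u : Fin r → ℤ, (∀ s ∈ T.S, Matrix.vecMul u (ρ s) = u) →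
      ∃ y, u = Matrix.vecMul y B) {i : ℕ} (hi : 1 ≤ i) {v : ι → Bool} (hv : v ∈ badZ T ρ)
    (s : Finset (Fin m → ZMod (l ^ i)))
    (hs : ∀ y, y ∈ s ↔ (∃ a, IsUnit (y a)) ∧ v ∈ RfF_Z (RfF_A T ρ B (l ^ i) y)) :
    l ^ (i - 1) * (l - 1) ≤ s.card := by
  classical
  have hl : l.Prime := Fact.out
  obtain ⟨y, ⟨a, ha⟩, hy⟩ := RfF_prim (l := l) T ρ B hBf hv
  have hau : IsUnit ((y a : ℤ) : ZMod (l ^ i)) := by
    rw [ZMod.coe_int_isUnit_iff_isCoprime]
    have h1 : IsCoprime (l : ℤ) (y a) :=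
      (Nat.prime_iff_prime_int.1 hl).irreducible.coprime_iff_not_dvd.2 ha
    push_cast
    exact h1.pow_left
  have h2 : (univ : Finset (ZMod (l ^ i))ˣ).card ≤ s.card := by
    refine Finset.card_le_card_of_injOn
      (fun (w : (ZMod (l ^ i))ˣ) (a : Fin m) => (w : ZMod (l ^ i)) * ((y a : ℤ) : ZMod (l ^ i)))
      ?_ ?_
    · intro w _
      rw [Finset.mem_coe, hs]
      refine ⟨⟨a, w.isUnit.mul hau⟩, ?_⟩
      unfold RfF_Z
      rw [mem_filter]
      refine ⟨mem_univ _, fun b => ?_⟩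
      have h3 := congrArg (Int.cast : ℤ → ZMod (l ^ i)) (hy b)
      rw [Int.cast_sum, Int.cast_zero] at h3
      have h4 : ∀ j, RfF_A T ρ B (l ^ i)
          (fun a => (w : ZMod (l ^ i)) * ((y a : ℤ) : ZMod (l ^ i))) b j *
          svr (ZMod (l ^ i)) v j = (w : ZMod (l ^ i)) *
            ((Matrix.vecMul y (B * ρ (T.t j)) b * svr ℤ v j : ℤ) : ZMod (l ^ i)) := by
        intro j
        have h5 : ((svr ℤ v j : ℤ) : ZMod (l ^ i)) = svr (ZMod (l ^ i)) v j := by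
          unfold svr
          split_ifs <;> simp
        rw [Int.cast_mul, h5, ← mul_assoc]
        congr 1
        unfold RfF_A Matrix.vecMul dotProduct
        rw [Int.cast_sum, mul_sum]
        refine sum_congr rfl fun c _ => ?_
        change ((w : ZMod (l ^ i)) * ((y c : ℤ) : ZMod (l ^ i))) *
          (((B * ρ (T.t j)) c b : ℤ) : ZMod (l ^ i)) =
          (w : ZMod (l ^ i)) * ((y c * (B * ρ (T.t j)) c b : ℤ) : ZMod (l ^ i))
        rw [Int.cast_mul]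
        ring
      rw [sum_congr rfl fun j _ => h4 j, ← mul_sum, h3, mul_zero]
    · intro w _ w' _ h
      have h6 := congrFun h a
      apply Units.ext
      exact hau.mul_right_cancel h6
  rw [card_univ, ZMod.card_units_eq_totient, Nat.totient_prime_pow hl (by omega)] at h2
  exact h2

end

section

variable {Q : Type u} [Group Q] {ι : Type v} (T : TS Q ι) [Fintype Q] [Fintype ι] {r m : ℕ}
  (ρ : Q →* Matrix (Fin r) (Fin r) ℤ) (B : Matrix (Fin m) (Fin r) ℤ)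

/-- The product of the cosines. -/
noncomputable def RfF_P (q : ℕ) (y : Fin m → ZMod q) (ξ : Fin r → ZMod q) : ℝ :=
  ∏ j, |Real.cos (2 * Real.pi * ((mc ρ B q y ξ (T.t j)).val : ℝ) / (q : ℕ))|

omit [Fintype Q] in
theorem RfF_P_nonneg (q : ℕ) (y : Fin m → ZMod q) (ξ : Fin r → ZMod q) :
    0 ≤ RfF_P T ρ B q y ξ := prod_nonneg fun _ _ => abs_nonneg _

omit [Fintype Q] in
theorem RfF_P_zero (q : ℕ) [NeZero q] (y : Fin m → ZMod q) : RfF_P T ρ B q y 0 = 1 := by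
  unfold RfF_P
  refine prod_eq_one fun j _ => ?_
  have h : mc ρ B q y 0 (T.t j) = 0 := by
    unfold mc
    rw [dotProduct_zero]
  rw [h, ZMod.val_zero, Nat.cast_zero, mul_zero, zero_div, Real.cos_zero, abs_one]

omit [Fintype Q] in
theorem RfF_P_up {l : ℕ} [Fact l.Prime] {i k : ℕ} (hk : k ≤ i) (y : Fin m → ZMod (l ^ i))
    (ξ : Fin r → ZMod (l ^ k)) :
    RfF_P T ρ B (l ^ i) y (RfF_up l i k ξ) = RfF_P T ρ B (l ^ k) (RfF_red l hk y) ξ := by
  unfold RfF_P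
  exact prod_congr rfl fun j _ => by rw [RfF_fac ρ B hk y ξ (T.t j)]

omit [Fintype Q] in
/-- The count for one vector. -/
theorem RfF_one {q : ℕ} [NeZero q] (y : Fin m → ZMod q) :
    ((RfF_Z (RfF_A T ρ B q y)).card : ℝ) * (q : ℝ) ^ r
      ≤ 2 ^ Fintype.card ι * ∑ ξ : Fin r → ZMod q, RfF_P T ρ B q y ξ := by
  refine (RfF_mod (RfF_A T ρ B q y)).trans (le_of_eq ?_)
  congr 1
  refine sum_congr rfl fun ξ _ => ?_
  unfold RfF_P
  refine prod_congr rfl fun j _ => ?_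
  have h : ∑ b, ξ b * RfF_A T ρ B q y b j = mc ρ B q y ξ (T.t j) := by
    unfold mc dotProduct RfF_A
    exact sum_congr rfl fun b _ => mul_comm _ _
  rw [h]

open Classical in
/-- The primitive vectors. -/
noncomputable def RfF_pr (d q : ℕ) [NeZero q] : Finset (Fin d → ZMod q) :=
  univ.filter fun y => ∃ a, IsUnit (y a)

theorem RfF_mem_pr {d q : ℕ} [NeZero q] {y : Fin d → ZMod q} :
    y ∈ RfF_pr d q ↔ ∃ a, IsUnit (y a) := by
  unfold RfF_pr
  rw [mem_filter]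
  exact and_iff_right (mem_univ _)

omit [Fintype Q] in
theorem RfF_SS {l : ℕ} [Fact l.Prime] (k : ℕ) :
    SS T ρ B l k = ∑ y ∈ RfF_pr m (l ^ k), ∑ ξ ∈ RfF_pr r (l ^ k), RfF_P T ρ B (l ^ k) y ξ := by
  classical
  rw [← sum_product']
  unfold SS
  refine sum_congr ?_ fun _ _ => rfl
  ext z
  rw [mem_filter, mem_product, RfF_mem_pr, RfF_mem_pr]
  exact and_iff_right (mem_univ _)

omit [Fintype Q] in
/-- The sum over the vectors for one level. -/
theorem RfF_lev {l : ℕ} [Fact l.Prime] {i k : ℕ} (hk : k ≤ i) :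
    ∑ y ∈ RfF_pr m (l ^ i), ∑ ξ ∈ RfF_pr r (l ^ k), RfF_P T ρ B (l ^ k) (RfF_red l hk y) ξ ≤
      (l : ℝ) ^ ((i - k) * m) *
        ∑ y ∈ RfF_pr m (l ^ k), ∑ ξ ∈ RfF_pr r (l ^ k), RfF_P T ρ B (l ^ k) y ξ := by
  classical
  have h1 := Finset.sum_comp (s := RfF_pr m (l ^ i))
    (fun z => ∑ ξ ∈ RfF_pr r (l ^ k), RfF_P T ρ B (l ^ k) z ξ) (RfF_red l hk)
  rw [h1, mul_sum]
  have hnn : ∀ z, 0 ≤ ∑ ξ ∈ RfF_pr r (l ^ k), RfF_P T ρ B (l ^ k) z ξ := fun z =>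
    sum_nonneg fun ξ _ => RfF_P_nonneg T ρ B _ z ξ
  calc _ ≤ ∑ z ∈ (RfF_pr m (l ^ i)).image (RfF_red l hk), (l : ℝ) ^ ((i - k) * m) *
        ∑ ξ ∈ RfF_pr r (l ^ k), RfF_P T ρ B (l ^ k) z ξ := by
        refine sum_le_sum fun z _ => ?_
        rw [nsmul_eq_mul]
        refine mul_le_mul_of_nonneg_right ?_ (hnn z)
        have h2 := RfF_fib (l := l) hk z ((RfF_pr m (l ^ i)).filter fun y => RfF_red l hk y = z)
          (fun y hy => (mem_filter.1 hy).2)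
        exact_mod_cast h2
    _ ≤ _ := by
        refine sum_le_sum_of_subset_of_nonneg ?_ fun z _ _ => mul_nonneg (by positivity) (hnn z)
        intro z hz
        obtain ⟨y, hy, rfl⟩ := mem_image.1 hz
        obtain ⟨a, ha⟩ := RfF_mem_pr.1 hy
        exact RfF_mem_pr.2 ⟨a, ha.map (ZMod.castHom (pow_dvd_pow l hk) (ZMod (l ^ k)))⟩

omit [Fintype Q] in
/-- The sum over the characters. -/
theorem RfF_split {l : ℕ} [Fact l.Prime] {i : ℕ} (y : Fin m → ZMod (l ^ i)) :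
    ∑ ξ : Fin r → ZMod (l ^ i), RfF_P T ρ B (l ^ i) y ξ ≤
      1 + ∑ k ∈ (Finset.Icc 1 i).attach, ∑ ξ ∈ RfF_pr r (l ^ (k : ℕ)),
        RfF_P T ρ B (l ^ (k : ℕ)) (RfF_red l (Finset.mem_Icc.1 k.2).2 y) ξ := by
  classical
  rw [← Finset.add_sum_erase univ _ (mem_univ (0 : Fin r → ZMod (l ^ i))), RfF_P_zero]
  refine add_le_add le_rfl ?_
  have h1 : ∑ k ∈ (Finset.Icc 1 i).attach, ∑ ξ ∈ RfF_pr r (l ^ (k : ℕ)),
        RfF_P T ρ B (l ^ (k : ℕ)) (RfF_red l (Finset.mem_Icc.1 k.2).2 y) ξ =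
      ∑ z ∈ (Finset.Icc 1 i).attach.sigma (fun k => RfF_pr r (l ^ (k : ℕ))),
        RfF_P T ρ B (l ^ (z.1 : ℕ)) (RfF_red l (Finset.mem_Icc.1 z.1.2).2 y) z.2 := by
    rw [sum_sigma]
  rw [h1]
  refine RfF_sum _ _ _ _ (fun z _ => RfF_P_nonneg T ρ B _ _ _)
    (fun z => RfF_up l i (z.1 : ℕ) z.2) ?_
  intro ξ hξ
  obtain ⟨k, hk, ξ', h2, h3⟩ := RfF_ex ξ (ne_of_mem_erase hξ)
  refine ⟨⟨⟨k, hk⟩, ξ'⟩, ?_, h3, ?_⟩
  · rw [mem_sigma]
    exact ⟨mem_attach _ _, RfF_mem_pr.2 h2⟩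
  · have h4 := RfF_P_up T ρ B (Finset.mem_Icc.1 hk).2 y ξ'
    rw [h3] at h4
    exact h4.le

/-- PROOF. Let `q = l ^ i`.  For `v` bad let `u` be as in `badZ`, not divisible by `l` (divide by a power of `l`), `u = y * B` with
`y ≠ 0` modulo `l`.  The reduction of `y` modulo `q` is primitive and so are its multiples by the `l ^ i - l ^ (i-1)` units `λ`, and
`∑ ± λ y B ρ(t j) = 0` modulo `q`.  So `(l ^ i - l ^ (i-1)) ncard(badZ) ≤ ∑_{y primitive} #{v | ∑ ± y B ρ(t j) = 0 mod q}`.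
For fixed `y`, `q ^ r #{v | …} = 2 ^ n ∑_ξ ∏_j cos(2 π mc(y, ξ)(t j) / q)`, `ξ ∈ (ZMod q) ^ r` (orthogonality of the additive characters
of `(ZMod q) ^ r`).  `ξ = 0` contributes `1`.  A `ξ ≠ 0` is `l ^ (i-k) ξ'` for a unique `k`, `1 ≤ k ≤ i`, and a unique primitive `ξ'` modulo `l ^ k`;
`mc_q(y, ξ) / q = mc_{l^k}(y mod l^k, ξ') / l^k` modulo `1`, and every primitive `y'` modulo `l ^ k` is the reduction of `l ^ ((i-k) m)`
primitive `y`. -/
theorem rf_fourier {l : ℕ} [Fact l.Prime]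
    (hBf : ∀ u : Fin r → ℤ, (∀ s ∈ T.S, Matrix.vecMul u (ρ s) = u) → ∃ y, u = Matrix.vecMul y B)
    (hB : ∀ s ∈ T.S, B * ρ s = B) {i : ℕ} (hi : 1 ≤ i) :
    ((l : ℝ) ^ i - (l : ℝ) ^ (i - 1)) * ((badZ T ρ).ncard : ℕ) * (l : ℝ) ^ (i * r)
      ≤ 2 ^ Fintype.card ι * ((l : ℝ) ^ (i * m) +
        ∑ k ∈ Finset.Icc 1 i, (l : ℝ) ^ ((i - k) * m) * SS T ρ B l k) := by
  classical
  have hl : l.Prime := Fact.out
  obtain ⟨bz, hbz⟩ : ∃ bz : Finset (ι → Bool), ∀ v, v ∈ bz ↔ v ∈ badZ T ρ :=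
    ⟨univ.filter (fun v => v ∈ badZ T ρ), fun v => by
      rw [mem_filter]
      exact and_iff_right (mem_univ _)⟩
  have hcard : (badZ T ρ).ncard = bz.card := by
    rw [← Set.ncard_coe_finset]
    congr 1
    ext v
    rw [Finset.mem_coe, hbz]
  have h1 : l ^ (i - 1) * (l - 1) * bz.card ≤
      ∑ y ∈ RfF_pr m (l ^ i), (RfF_Z (RfF_A T ρ B (l ^ i) y)).card := by
    have h2 : ∑ v ∈ bz,
        ((RfF_pr m (l ^ i)).filter fun y => v ∈ RfF_Z (RfF_A T ρ B (l ^ i) y)).card ≤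
        ∑ y ∈ RfF_pr m (l ^ i), (RfF_Z (RfF_A T ρ B (l ^ i) y)).card := by
      simp only [card_filter]
      rw [sum_comm]
      refine sum_le_sum fun y _ => ?_
      rw [← card_filter]
      exact card_le_card fun v hv => (mem_filter.1 hv).2
    refine le_trans ?_ h2
    rw [mul_comm, ← smul_eq_mul, ← Finset.sum_const]
    refine sum_le_sum fun v hv => ?_
    exact RfF_many T ρ B hBf hi ((hbz v).1 hv) _ (fun y => by rw [mem_filter, RfF_mem_pr])
  have h3 : ((l : ℝ) ^ i - (l : ℝ) ^ (i - 1)) * ((badZ T ρ).ncard : ℕ) ≤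
      ∑ y ∈ RfF_pr m (l ^ i), ((RfF_Z (RfF_A T ρ B (l ^ i) y)).card : ℝ) := by
    have h4 : ((l : ℝ) ^ i - (l : ℝ) ^ (i - 1)) * ((badZ T ρ).ncard : ℕ) =
        ((l ^ (i - 1) * (l - 1) * bz.card : ℕ) : ℝ) := by
      rw [hcard, Nat.cast_mul, Nat.cast_mul, Nat.cast_sub hl.one_le, Nat.cast_pow, Nat.cast_one]
      congr 1
      obtain ⟨j, rfl⟩ : ∃ j, i = j + 1 := ⟨i - 1, by omega⟩
      rw [Nat.add_sub_cancel]
      ring
    rw [h4]
    exact_mod_cast h1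
  have h5 : ∀ y : Fin m → ZMod (l ^ i),
      ((RfF_Z (RfF_A T ρ B (l ^ i) y)).card : ℝ) * (l : ℝ) ^ (i * r) ≤
      2 ^ Fintype.card ι * ∑ ξ : Fin r → ZMod (l ^ i), RfF_P T ρ B (l ^ i) y ξ := by
    intro y
    have h6 := RfF_one T ρ B y
    rw [Nat.cast_pow, ← pow_mul] at h6
    exact h6
  have h7 : ∑ y ∈ RfF_pr m (l ^ i), ∑ ξ : Fin r → ZMod (l ^ i), RfF_P T ρ B (l ^ i) y ξ ≤
      (l : ℝ) ^ (i * m) + ∑ k ∈ Finset.Icc 1 i, (l : ℝ) ^ ((i - k) * m) * SS T ρ B l k := by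
    refine (sum_le_sum fun y _ => RfF_split T ρ B y).trans ?_
    rw [sum_add_distrib]
    refine add_le_add ?_ ?_
    · rw [sum_const, nsmul_eq_mul, mul_one]
      have h8 : (RfF_pr m (l ^ i)).card ≤ l ^ (i * m) := by
        refine (card_le_univ _).trans ?_
        rw [Fintype.card_fun, Fintype.card_fin, ZMod.card, ← pow_mul]
      exact_mod_cast h8
    · rw [sum_comm, ← Finset.sum_attach (Finset.Icc 1 i)
        (fun k => (l : ℝ) ^ ((i - k) * m) * SS T ρ B l k)]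
      refine sum_le_sum fun k _ => ?_
      rw [RfF_SS]
      exact RfF_lev T ρ B (Finset.mem_Icc.1 k.2).2
  calc ((l : ℝ) ^ i - (l : ℝ) ^ (i - 1)) * ((badZ T ρ).ncard : ℕ) * (l : ℝ) ^ (i * r)
      ≤ (∑ y ∈ RfF_pr m (l ^ i), ((RfF_Z (RfF_A T ρ B (l ^ i) y)).card : ℝ)) *
          (l : ℝ) ^ (i * r) := mul_le_mul_of_nonneg_right h3 (by positivity)
    _ = ∑ y ∈ RfF_pr m (l ^ i), ((RfF_Z (RfF_A T ρ B (l ^ i) y)).card : ℝ) *
          (l : ℝ) ^ (i * r) := sum_mul _ _ _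
    _ ≤ ∑ y ∈ RfF_pr m (l ^ i), 2 ^ Fintype.card ι *
          ∑ ξ : Fin r → ZMod (l ^ i), RfF_P T ρ B (l ^ i) y ξ := sum_le_sum fun y _ => h5 y
    _ = 2 ^ Fintype.card ι * ∑ y ∈ RfF_pr m (l ^ i),
          ∑ ξ : Fin r → ZMod (l ^ i), RfF_P T ρ B (l ^ i) y ξ := (mul_sum _ _ _).symm
    _ ≤ _ := mul_le_mul_of_nonneg_left h7 (by positivity)

end

end Pool.MP43e44c.GX
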