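import Mathlib

/-!
The numerical part of the union bound modulo powers of a prime.
-/

set_option autoImplicit false

open Finset Module

namespace Pool.MP43e44c.GX

theorem RfN_ev : ∃ n₀ : ℕ, 3 ≤ n₀ ∧ ∀ n : ℕ, n₀ ≤ n →
    8 * Real.log n ≤ (n : ℝ) ^ (1 / 200 : ℝ) ∧ 4 * Real.log n ≤ (n : ℝ) ^ (1 / 4 : ℝ) := by
  have h : ∀ D s : ℝ, 0 < s → ∀ᶠ n : ℕ in Filter.atTop, D * Real.log n ≤ (n : ℝ) ^ s := by
    intro D s hs
    have h := ((isLittleO_log_rpow_atTop hs).const_mul_left D).def one_pos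
    have h2 := tendsto_natCast_atTop_atTop.eventually h
    filter_upwards [h2] with n hn
    calc D * (Real.log n) ≤ ‖D * (Real.log n)‖ := le_abs_self _
      _ ≤ 1 * ‖(n : ℝ) ^ s‖ := hn
      _ = (n : ℝ) ^ s := by rw [one_mul, Real.norm_of_nonneg (by positivity)]
  obtain ⟨N, hN⟩ := Filter.eventually_atTop.mp ((h 8 (1 / 200) (by norm_num)).and
    (h 4 (1 / 4) (by norm_num)))
  exact ⟨max N 3, le_max_right _ _, fun n hn => hN n (le_trans (le_max_left _ _) hn)⟩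

/-- The choice of `t`. -/
theorem RfN_t {n l : ℕ} {A : ℝ} (hA : 0 < A) (hl : 2 ≤ l) (h0 : A < n) :
    ∃ t : ℕ, A * (l : ℝ) ^ (2 * t) < n ∧ (n : ℝ) ≤ A * (l : ℝ) ^ (2 * (t + 1)) := by
  classical
  have hl1 : (1 : ℝ) < l := by exact_mod_cast (by omega : 1 < l)
  have hex : ∃ t : ℕ, (n : ℝ) ≤ A * (l : ℝ) ^ (2 * (t + 1)) := by
    obtain ⟨m, hm⟩ := pow_unbounded_of_one_lt ((n : ℝ) / A) hl1
    refine ⟨m, ?_⟩
    rw [div_lt_iff₀ hA] at hm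
    calc (n : ℝ) ≤ (l : ℝ) ^ m * A := hm.le
      _ ≤ (l : ℝ) ^ (2 * (m + 1)) * A :=
          mul_le_mul_of_nonneg_right (pow_le_pow_right₀ hl1.le (by omega)) hA.le
      _ = _ := mul_comm _ _
  refine ⟨Nat.find hex, ?_, Nat.find_spec hex⟩
  rcases Nat.eq_zero_or_pos (Nat.find hex) with h | h
  · rw [h]
    simpa using h0
  · have := Nat.find_min hex (m := Nat.find hex - 1) (by omega)
    rw [show Nat.find hex - 1 + 1 = Nat.find hex by omega] at this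
    exact not_le.mp this

/-- The choice of `i`. -/
theorem RfN_i {l : ℕ} {x : ℝ} (hx : 1 < x) (hl : 3 ≤ l) :
    ∃ i : ℕ, x ≤ (l : ℝ) ^ (i + 1) ∧ (l : ℝ) ^ i < x ∧ (i : ℝ) ≤ Real.log x := by
  classical
  have hl3 : (3 : ℝ) ≤ l := by exact_mod_cast hl
  have hex : ∃ i : ℕ, x ≤ (l : ℝ) ^ (i + 1) := by
    obtain ⟨m, hm⟩ := pow_unbounded_of_one_lt x (by linarith : (1 : ℝ) < l)
    exact ⟨m, hm.le.trans (pow_le_pow_right₀ (by linarith) (by omega))⟩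
  have hlt : (l : ℝ) ^ (Nat.find hex) < x := by
    rcases Nat.eq_zero_or_pos (Nat.find hex) with h | h
    · rw [h]
      simpa using hx
    · have := Nat.find_min hex (m := Nat.find hex - 1) (by omega)
      rw [show Nat.find hex - 1 + 1 = Nat.find hex by omega] at this
      exact not_le.mp this
  refine ⟨Nat.find hex, Nat.find_spec hex, hlt, ?_⟩
  rw [Real.le_log_iff_exp_le (by linarith)]
  have h1 : Real.exp ((Nat.find hex : ℕ) : ℝ) = (Real.exp 1) ^ (Nat.find hex) := by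
    rw [← Real.exp_nat_mul, mul_one]
  rw [h1]
  refine le_trans (pow_le_pow_left₀ (Real.exp_pos 1).le ?_ _) hlt.le
  have := Real.exp_one_lt_d9
  linarith

/-- The bound of one term of the sum. -/
theorem RfN_term {n r l t i k : ℕ} {sk : ℝ} (hn : 3 ≤ n) (hr : 3 ≤ r) (hl : 3 ≤ l)
    (hi : (l : ℝ) ^ i ≤ (n : ℝ) ^ (111 / 200 : ℝ)) (ht : (n : ℝ) ^ (39 / 40 : ℝ) ≤ (l : ℝ) ^ (2 * t))
    (hki : k ≤ i)
    (h1 : k ≤ t → sk ≤ (l : ℝ) ^ (k * (r - 1 + r)) * Real.exp (-(4 * (r * Real.log n))))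
    (h2 : t < k → sk ≤ (l : ℝ) ^ t * (l : ℝ) ^ ((k - t) * (r - 1 + r)) +
        (l : ℝ) ^ (k * (r - 1 + r)) * Real.exp (-(4 * (r * Real.log n)))) :
    (l : ℝ) ^ ((i - k) * (r - 1)) * sk ≤ (l : ℝ) ^ (i * (r - 1)) * (2 * (n : ℝ) ^ (-(1 / 4) : ℝ)) := by
  have hn3 : (3 : ℝ) ≤ n := by exact_mod_cast hn
  have hn0 : (0 : ℝ) < n := by linarith
  have hl3 : (3 : ℝ) ≤ l := by exact_mod_cast hl
  have hl0 : (0 : ℝ) < l := by linarith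
  have hr3 : (3 : ℝ) ≤ r := by exact_mod_cast hr
  obtain ⟨q, rfl⟩ : ∃ q, r = q + 1 := ⟨r - 1, by omega⟩
  obtain ⟨j, rfl⟩ : ∃ j, i = k + j := ⟨i - k, by omega⟩
  simp only [Nat.add_sub_cancel, Nat.add_sub_cancel_left] at *
  -- the power `l ^ (k r)`
  have hkr : (l : ℝ) ^ (k * (q + 1)) ≤ (n : ℝ) ^ ((111 / 200 : ℝ) * ((q + 1 : ℕ) : ℝ)) := by
    calc (l : ℝ) ^ (k * (q + 1)) ≤ (l : ℝ) ^ ((k + j) * (q + 1)) :=
          pow_le_pow_right₀ (by linarith) (Nat.mul_le_mul_right _ (by omega))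
      _ = ((l : ℝ) ^ (k + j)) ^ (q + 1) := by rw [pow_mul]
      _ ≤ ((n : ℝ) ^ (111 / 200 : ℝ)) ^ (q + 1) := pow_le_pow_left₀ (by positivity) hi _
      _ = (n : ℝ) ^ ((111 / 200 : ℝ) * ((q + 1 : ℕ) : ℝ)) := by
          rw [← Real.rpow_natCast, ← Real.rpow_mul hn0.le]
  have hA : (l : ℝ) ^ (j * q) * ((l : ℝ) ^ (k * (q + (q + 1))) *
      Real.exp (-(4 * (((q + 1 : ℕ) : ℝ) * Real.log n)))) ≤
      (l : ℝ) ^ ((k + j) * q) * (n : ℝ) ^ (-(1 / 4) : ℝ) := by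
    have e1 : (l : ℝ) ^ (j * q) * ((l : ℝ) ^ (k * (q + (q + 1))) *
        Real.exp (-(4 * (((q + 1 : ℕ) : ℝ) * Real.log n)))) =
        (l : ℝ) ^ ((k + j) * q) * ((l : ℝ) ^ (k * (q + 1)) *
          Real.exp (-(4 * (((q + 1 : ℕ) : ℝ) * Real.log n)))) := by
      have e0 : (l : ℝ) ^ (j * q) * (l : ℝ) ^ (k * (q + (q + 1))) =
          (l : ℝ) ^ ((k + j) * q) * (l : ℝ) ^ (k * (q + 1)) := by
        rw [← pow_add, ← pow_add]
        congr 1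
        ring
      rw [← mul_assoc, e0, mul_assoc]
    rw [e1]
    refine mul_le_mul_of_nonneg_left ?_ (by positivity)
    have e2 : Real.exp (-(4 * (((q + 1 : ℕ) : ℝ) * Real.log n))) =
        (n : ℝ) ^ (-(4 * ((q + 1 : ℕ) : ℝ))) := by
      rw [Real.rpow_def_of_pos hn0]
      congr 1
      ring
    rw [e2]
    calc (l : ℝ) ^ (k * (q + 1)) * (n : ℝ) ^ (-(4 * ((q + 1 : ℕ) : ℝ)))
        ≤ (n : ℝ) ^ ((111 / 200 : ℝ) * ((q + 1 : ℕ) : ℝ)) * (n : ℝ) ^ (-(4 * ((q + 1 : ℕ) : ℝ))) :=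
          mul_le_mul_of_nonneg_right hkr (by positivity)
      _ = (n : ℝ) ^ ((111 / 200 : ℝ) * ((q + 1 : ℕ) : ℝ) + -(4 * ((q + 1 : ℕ) : ℝ))) := by
          rw [Real.rpow_add hn0]
      _ ≤ (n : ℝ) ^ (-(1 / 4) : ℝ) :=
          Real.rpow_le_rpow_of_exponent_le (by linarith) (by linarith)
  rcases Nat.lt_or_ge t k with htk | htk
  · have hB : (l : ℝ) ^ (j * q) * ((l : ℝ) ^ t * (l : ℝ) ^ ((k - t) * (q + (q + 1)))) ≤
        (l : ℝ) ^ ((k + j) * q) * (n : ℝ) ^ (-(1 / 4) : ℝ) := by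
      obtain ⟨m, rfl⟩ : ∃ m, k = t + m := ⟨k - t, by omega⟩
      simp only [Nat.add_sub_cancel_left] at *
      have e1 : (l : ℝ) ^ (j * q) * ((l : ℝ) ^ t * (l : ℝ) ^ (m * (q + (q + 1)))) *
          ((l : ℝ) ^ (2 * t)) ^ q = (l : ℝ) ^ ((t + m + j) * q) * (l : ℝ) ^ ((t + m) * (q + 1)) := by
        rw [← pow_mul, ← pow_add, ← pow_add, ← pow_add, ← pow_add]
        congr 1
        ring
      have e2 : ((n : ℝ) ^ (39 / 40 : ℝ)) ^ q ≤ ((l : ℝ) ^ (2 * t)) ^ q :=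
        pow_le_pow_left₀ (by positivity) ht _
      have e3 : ((n : ℝ) ^ (39 / 40 : ℝ)) ^ q = (n : ℝ) ^ ((39 / 40 : ℝ) * (q : ℝ)) := by
        rw [← Real.rpow_natCast, ← Real.rpow_mul hn0.le]
      rw [e3] at e2
      have hp : 0 < (n : ℝ) ^ ((39 / 40 : ℝ) * (q : ℝ)) := by positivity
      refine le_of_mul_le_mul_right ?_ hp
      calc (l : ℝ) ^ (j * q) * ((l : ℝ) ^ t * (l : ℝ) ^ (m * (q + (q + 1)))) *
            (n : ℝ) ^ ((39 / 40 : ℝ) * (q : ℝ))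
          ≤ (l : ℝ) ^ (j * q) * ((l : ℝ) ^ t * (l : ℝ) ^ (m * (q + (q + 1)))) *
            ((l : ℝ) ^ (2 * t)) ^ q := mul_le_mul_of_nonneg_left e2 (by positivity)
        _ = (l : ℝ) ^ ((t + m + j) * q) * (l : ℝ) ^ ((t + m) * (q + 1)) := e1
        _ ≤ (l : ℝ) ^ ((t + m + j) * q) * (n : ℝ) ^ ((111 / 200 : ℝ) * ((q + 1 : ℕ) : ℝ)) :=
            mul_le_mul_of_nonneg_left hkr (by positivity)
        _ ≤ (l : ℝ) ^ ((t + m + j) * q) * (n : ℝ) ^ (-(1 / 4) + (39 / 40 : ℝ) * (q : ℝ)) := by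
            refine mul_le_mul_of_nonneg_left ?_ (by positivity)
            refine Real.rpow_le_rpow_of_exponent_le (by linarith) ?_
            push_cast at hr3 ⊢
            linarith
        _ = (l : ℝ) ^ ((t + m + j) * q) * (n : ℝ) ^ (-(1 / 4) : ℝ) *
            (n : ℝ) ^ ((39 / 40 : ℝ) * (q : ℝ)) := by
            rw [Real.rpow_add hn0, mul_assoc]
    calc (l : ℝ) ^ (j * q) * sk ≤ (l : ℝ) ^ (j * q) * ((l : ℝ) ^ t * (l : ℝ) ^ ((k - t) * (q + (q + 1))) +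
          (l : ℝ) ^ (k * (q + (q + 1))) * Real.exp (-(4 * (((q + 1 : ℕ) : ℝ) * Real.log n)))) :=
          mul_le_mul_of_nonneg_left (h2 htk) (by positivity)
      _ = (l : ℝ) ^ (j * q) * ((l : ℝ) ^ t * (l : ℝ) ^ ((k - t) * (q + (q + 1)))) +
          (l : ℝ) ^ (j * q) * ((l : ℝ) ^ (k * (q + (q + 1))) *
            Real.exp (-(4 * (((q + 1 : ℕ) : ℝ) * Real.log n)))) := by ring
      _ ≤ _ := by linarith
  · have hpos : 0 ≤ (l : ℝ) ^ ((k + j) * q) * (n : ℝ) ^ (-(1 / 4) : ℝ) := by positivity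
    calc (l : ℝ) ^ (j * q) * sk ≤ (l : ℝ) ^ (j * q) * ((l : ℝ) ^ (k * (q + (q + 1))) *
            Real.exp (-(4 * (((q + 1 : ℕ) : ℝ) * Real.log n)))) :=
          mul_le_mul_of_nonneg_left (h1 htk) (by positivity)
      _ ≤ _ := by linarith

/-- The numerical part.  PROOF. `E = r log n`, `t` maximal with `8 r l ^ (2t) E < n`, `i` minimal with
`n ^ (11/20) ≤ l ^ i`; `ε = 1/200`.  So `l ^ i ≤ l n ^ (11/20)`, `n ≤ 8 r ^ 2 l ^ (2t+2) log n`, `l ^ (2t) ≥ n ^ (1 - 5 ε)`.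
By hypothesis `s k ≤ 0 + l^(k(2r-1)) exp(-4E)` for `k ≤ t` and `s k ≤ l^t l^((k-t)(2r-1)) + l^(k(2r-1)) exp(-4E)` for `k > t`.
`l^(-k(r-1)) l^t l^((k-t)(2r-1)) = l^(kr - t(2r-2)) ≤ n^((11/20 + ε) r - (1 - 5ε)(r-1)) ≤ n^(-1/4)` for `r ≥ 3`, and
`l^(kr) exp(-4E) ≤ n^(r) n^(-4r)`.  The sum over `k ≤ i ≤ 2 log n` of these is at most `1`.  Then
`B ≤ l/(l-1) l^(-i) l^(-ir) l^(i(r-1)) (1 + 1) ≤ 4 l^(-2i) ≤ 4 n^(-11/10)`. -/
theorem rf_num : ∃ n₀ : ℕ, ∀ (n r l : ℕ) (b : ℝ) (s : ℕ → ℝ), n₀ ≤ n → 3 ≤ r → 3 ≤ l →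
    (r : ℝ) ≤ (n : ℝ) ^ (1 / 200 : ℝ) → (l : ℝ) ≤ (n : ℝ) ^ (1 / 200 : ℝ) →
    (∀ (E : ℝ) (t k : ℕ), 0 ≤ E → 8 * (r : ℝ) * l ^ (2 * t) * E < n → 1 ≤ k →
      (k ≤ t → s k ≤ (l : ℝ) ^ (k * (r - 1 + r)) * Real.exp (-(4 * E))) ∧
      (t < k → s k ≤ (l : ℝ) ^ t * (l : ℝ) ^ ((k - t) * (r - 1 + r)) +
        (l : ℝ) ^ (k * (r - 1 + r)) * Real.exp (-(4 * E)))) →
    (∀ i : ℕ, 1 ≤ i → ((l : ℝ) ^ i - (l : ℝ) ^ (i - 1)) * b * (l : ℝ) ^ (i * r)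
      ≤ (l : ℝ) ^ (i * (r - 1)) + ∑ k ∈ Finset.Icc 1 i, (l : ℝ) ^ ((i - k) * (r - 1)) * s k) →
    b ≤ 4 * (n : ℝ) ^ (-(11 / 10) : ℝ) := by
  obtain ⟨n₀, hn₀3, hn₀⟩ := RfN_ev
  refine ⟨n₀, ?_⟩
  intro n r l b s hn hr hl hrn hln H1 H2
  obtain ⟨hev1, hev2⟩ := hn₀ n hn
  have hn3' : 3 ≤ n := by omega
  have hn3 : (3 : ℝ) ≤ n := by exact_mod_cast hn3'
  have hn0 : (0 : ℝ) < n := by linarith
  have hl3 : (3 : ℝ) ≤ l := by exact_mod_cast hl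
  have hl0 : (0 : ℝ) < l := by linarith
  have hr3 : (3 : ℝ) ≤ r := by exact_mod_cast hr
  have hL1 : 1 ≤ Real.log n := by
    rw [Real.le_log_iff_exp_le hn0]
    have := Real.exp_one_lt_d9
    linarith
  -- the number `A = 8 r ^ 2 log n`
  have hA0 : 0 < 8 * (r : ℝ) * (r * Real.log n) := by positivity
  have hr2 : (r : ℝ) * r ≤ (n : ℝ) ^ (1 / 100 : ℝ) := by
    calc (r : ℝ) * r ≤ (n : ℝ) ^ (1 / 200 : ℝ) * (n : ℝ) ^ (1 / 200 : ℝ) :=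
          mul_le_mul hrn hrn (by positivity) (by positivity)
      _ = (n : ℝ) ^ (1 / 100 : ℝ) := by
          rw [← Real.rpow_add hn0]
          norm_num
  have hl2 : (l : ℝ) ^ 2 ≤ (n : ℝ) ^ (1 / 100 : ℝ) := by
    calc (l : ℝ) ^ 2 = (l : ℝ) * l := sq _
      _ ≤ (n : ℝ) ^ (1 / 200 : ℝ) * (n : ℝ) ^ (1 / 200 : ℝ) :=
          mul_le_mul hln hln (by positivity) (by positivity)
      _ = (n : ℝ) ^ (1 / 100 : ℝ) := by
          rw [← Real.rpow_add hn0]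
          norm_num
  have hAle : 8 * (r : ℝ) * (r * Real.log n) ≤ (n : ℝ) ^ (3 / 200 : ℝ) := by
    calc 8 * (r : ℝ) * (r * Real.log n) = (r : ℝ) * r * (8 * Real.log n) := by ring
      _ ≤ (n : ℝ) ^ (1 / 100 : ℝ) * (n : ℝ) ^ (1 / 200 : ℝ) :=
          mul_le_mul hr2 hev1 (by positivity) (by positivity)
      _ = (n : ℝ) ^ (3 / 200 : ℝ) := by
          rw [← Real.rpow_add hn0]
          norm_num
  have hAn : 8 * (r : ℝ) * (r * Real.log n) < n := by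
    refine lt_of_le_of_lt hAle ?_
    calc (n : ℝ) ^ (3 / 200 : ℝ) < (n : ℝ) ^ (1 : ℝ) :=
          Real.rpow_lt_rpow_of_exponent_lt (by linarith) (by norm_num)
      _ = n := Real.rpow_one _
  obtain ⟨t, ht1, ht2⟩ := RfN_t hA0 (by omega : 2 ≤ l) hAn
  have ht : (n : ℝ) ^ (39 / 40 : ℝ) ≤ (l : ℝ) ^ (2 * t) := by
    have hp : 0 < (n : ℝ) ^ (1 / 40 : ℝ) := by positivity
    refine le_of_mul_le_mul_right ?_ hp
    calc (n : ℝ) ^ (39 / 40 : ℝ) * (n : ℝ) ^ (1 / 40 : ℝ) = n := by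
          rw [← Real.rpow_add hn0]
          norm_num
      _ ≤ 8 * (r : ℝ) * (r * Real.log n) * (l : ℝ) ^ (2 * (t + 1)) := ht2
      _ = (l : ℝ) ^ (2 * t) * (8 * (r : ℝ) * (r * Real.log n) * (l : ℝ) ^ 2) := by ring
      _ ≤ (l : ℝ) ^ (2 * t) * ((n : ℝ) ^ (3 / 200 : ℝ) * (n : ℝ) ^ (1 / 100 : ℝ)) :=
          mul_le_mul_of_nonneg_left (mul_le_mul hAle hl2 (by positivity) (by positivity))
            (by positivity)
      _ = (l : ℝ) ^ (2 * t) * (n : ℝ) ^ (1 / 40 : ℝ) := by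
          rw [← Real.rpow_add hn0]
          norm_num
  have hx1 : 1 < (n : ℝ) ^ (11 / 20 : ℝ) := Real.one_lt_rpow (by linarith) (by norm_num)
  obtain ⟨i', hi1, hi2, hi3⟩ := RfN_i hx1 hl
  have hi : (l : ℝ) ^ (i' + 1) ≤ (n : ℝ) ^ (111 / 200 : ℝ) := by
    calc (l : ℝ) ^ (i' + 1) = (l : ℝ) ^ i' * l := pow_succ _ _
      _ ≤ (n : ℝ) ^ (11 / 20 : ℝ) * (n : ℝ) ^ (1 / 200 : ℝ) :=
          mul_le_mul hi2.le hln (by positivity) (by positivity)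
      _ = (n : ℝ) ^ (111 / 200 : ℝ) := by
          rw [← Real.rpow_add hn0]
          norm_num
  have hicard : 2 * ((i' + 1 : ℕ) : ℝ) ≤ (n : ℝ) ^ (1 / 4 : ℝ) := by
    have h1 : Real.log ((n : ℝ) ^ (11 / 20 : ℝ)) = 11 / 20 * Real.log n := Real.log_rpow hn0 _
    rw [h1] at hi3
    push_cast
    linarith
  -- the sum
  have hsum : ∑ k ∈ Finset.Icc 1 (i' + 1), (l : ℝ) ^ ((i' + 1 - k) * (r - 1)) * s k ≤
      (l : ℝ) ^ ((i' + 1) * (r - 1)) := by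
    have hq : 2 * ((i' + 1 : ℕ) : ℝ) * (n : ℝ) ^ (-(1 / 4) : ℝ) ≤ 1 := by
      rw [Real.rpow_neg hn0.le, ← div_eq_mul_inv, div_le_one (by positivity)]
      exact hicard
    calc ∑ k ∈ Finset.Icc 1 (i' + 1), (l : ℝ) ^ ((i' + 1 - k) * (r - 1)) * s k
        ≤ ∑ k ∈ Finset.Icc 1 (i' + 1), (l : ℝ) ^ ((i' + 1) * (r - 1)) *
            (2 * (n : ℝ) ^ (-(1 / 4) : ℝ)) := by
          refine Finset.sum_le_sum fun k hk => ?_
          obtain ⟨hk1, hk2⟩ := Finset.mem_Icc.mp hk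
          obtain ⟨g1, g2⟩ := H1 (r * Real.log n) t k (by positivity)
            (by
              calc 8 * (r : ℝ) * (l : ℝ) ^ (2 * t) * (r * Real.log n) =
                  8 * (r : ℝ) * (r * Real.log n) * (l : ℝ) ^ (2 * t) := by ring
                _ < n := ht1) hk1
          exact RfN_term hn3' hr hl hi ht hk2 g1 g2
      _ = (l : ℝ) ^ ((i' + 1) * (r - 1)) * (2 * ((i' + 1 : ℕ) : ℝ) * (n : ℝ) ^ (-(1 / 4) : ℝ)) := by
          rw [Finset.sum_const, Nat.card_Icc, nsmul_eq_mul, Nat.add_sub_cancel]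
          ring
      _ ≤ (l : ℝ) ^ ((i' + 1) * (r - 1)) * 1 := mul_le_mul_of_nonneg_left hq (by positivity)
      _ = _ := mul_one _
  have hmain := H2 (i' + 1) (by omega)
  rw [Nat.add_sub_cancel] at hmain
  have hnpos : 0 < (n : ℝ) ^ (-(11 / 10) : ℝ) := by positivity
  rcases le_or_gt b 0 with hb | hb
  · linarith
  -- `b l ^ (2 i) ≤ 3`
  have hkey : b * ((l : ℝ) ^ (i' + 1)) ^ 2 ≤ 3 := by
    have h1 : (2 / 3 : ℝ) * (l : ℝ) ^ (i' + 1) ≤ (l : ℝ) ^ (i' + 1) - (l : ℝ) ^ i' := by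
      have : 0 < (l : ℝ) ^ i' := by positivity
      rw [pow_succ]
      nlinarith
    have hp : 0 < (l : ℝ) ^ ((i' + 1) * (r - 1)) := by positivity
    have h2 : (l : ℝ) ^ ((i' + 1) * r) = (l : ℝ) ^ ((i' + 1) * (r - 1)) * (l : ℝ) ^ (i' + 1) := by
      rw [← pow_add]
      congr 1
      obtain ⟨q, rfl⟩ : ∃ q, r = q + 1 := ⟨r - 1, by omega⟩
      rw [Nat.add_sub_cancel]
      ring
    have h3 : (2 / 3 : ℝ) * (l : ℝ) ^ (i' + 1) * b * (l : ℝ) ^ ((i' + 1) * r) ≤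
        2 * (l : ℝ) ^ ((i' + 1) * (r - 1)) := by
      calc (2 / 3 : ℝ) * (l : ℝ) ^ (i' + 1) * b * (l : ℝ) ^ ((i' + 1) * r)
          ≤ ((l : ℝ) ^ (i' + 1) - (l : ℝ) ^ i') * b * (l : ℝ) ^ ((i' + 1) * r) :=
            mul_le_mul_of_nonneg_right (mul_le_mul_of_nonneg_right h1 hb.le) (by positivity)
        _ ≤ _ := hmain
        _ ≤ 2 * (l : ℝ) ^ ((i' + 1) * (r - 1)) := by linarith
    rw [h2] at h3
    have h4 : (2 / 3 * (b * ((l : ℝ) ^ (i' + 1)) ^ 2)) * (l : ℝ) ^ ((i' + 1) * (r - 1)) ≤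
        2 * (l : ℝ) ^ ((i' + 1) * (r - 1)) := by
      calc (2 / 3 * (b * ((l : ℝ) ^ (i' + 1)) ^ 2)) * (l : ℝ) ^ ((i' + 1) * (r - 1)) =
          (2 / 3 : ℝ) * (l : ℝ) ^ (i' + 1) * b * ((l : ℝ) ^ ((i' + 1) * (r - 1)) *
            (l : ℝ) ^ (i' + 1)) := by ring
        _ ≤ _ := h3
    have h5 := le_of_mul_le_mul_right h4 hp
    linarith
  have hsq : (n : ℝ) ^ (11 / 10 : ℝ) ≤ ((l : ℝ) ^ (i' + 1)) ^ 2 := by
    calc (n : ℝ) ^ (11 / 10 : ℝ) = ((n : ℝ) ^ (11 / 20 : ℝ)) ^ 2 := by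
          rw [← Real.rpow_natCast, ← Real.rpow_mul hn0.le]
          norm_num
      _ ≤ _ := pow_le_pow_left₀ (by positivity) hi1 2
  have hfin : b ≤ 3 * (n : ℝ) ^ (-(11 / 10) : ℝ) := by
    rw [Real.rpow_neg hn0.le, ← div_eq_mul_inv, le_div_iff₀ (by positivity)]
    exact le_trans (mul_le_mul_of_nonneg_left hsq hb.le) hkey
  linarith

end Pool.MP43e44c.GX
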