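import Mathlib

/-!
Orthogonality relations modulo a prime.
-/

set_option autoImplicit false

open Finset Module

namespace Pool.MP43e44c.GX

/-- The averaging operator. -/
private noncomputable def RfSth {Q : Type*} [Group Q] [Fintype Q] {r : ℕ}
    (P : Q → Matrix (Fin r) (Fin r) ℚ) :
    Matrix (Fin r) (Fin r) ℚ →ₗ[ℚ] Matrix (Fin r) (Fin r) ℚ where
  toFun X := ∑ g, (X * P g⁻¹).trace • P g
  map_add' X Y := by
    simp only [add_mul, Matrix.trace_add, add_smul, sum_add_distrib]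
  map_smul' a X := by
    simp only [smul_mul_assoc, Matrix.trace_smul, smul_assoc, RingHom.id_apply, smul_sum]

private theorem RfSth_apply {Q : Type*} [Group Q] [Fintype Q] {r : ℕ}
    (P : Q → Matrix (Fin r) (Fin r) ℚ) (X : Matrix (Fin r) (Fin r) ℚ) :
    RfSth P X = ∑ g, (X * P g⁻¹).trace • P g := rfl

private theorem RfS_left {Q : Type*} [Group Q] [Fintype Q] {r : ℕ}
    {P : Q → Matrix (Fin r) (Fin r) ℚ} (hm : ∀ g h, P (g * h) = P g * P h)
    (hspan : Submodule.span ℚ (Set.range P) = ⊤) (Y X : Matrix (Fin r) (Fin r) ℚ) :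
    RfSth P (Y * X) = Y * RfSth P X := by
  have hY : Y ∈ Submodule.span ℚ (Set.range P) := by rw [hspan]; exact Submodule.mem_top
  induction hY using Submodule.span_induction with
  | mem Y hY =>
    obtain ⟨h, rfl⟩ := hY
    rw [RfSth_apply, RfSth_apply, mul_sum, ← Equiv.sum_comp (Equiv.mulLeft h)]
    refine sum_congr rfl fun g _ => ?_
    have e1 : (P h * X * P (h * g)⁻¹).trace = (X * P g⁻¹).trace := by
      rw [mul_assoc, Matrix.trace_mul_comm, mul_assoc, ← hm, mul_inv_rev, inv_mul_cancel_right]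
    rw [Equiv.coe_mulLeft, e1, hm, mul_smul_comm]
  | zero => rw [zero_mul, map_zero, zero_mul]
  | add Y Z _ _ hY hZ => rw [add_mul, map_add, hY, hZ, add_mul]
  | smul a Y _ hY => rw [smul_mul_assoc, map_smul, hY, smul_mul_assoc]

private theorem RfS_right {Q : Type*} [Group Q] [Fintype Q] {r : ℕ}
    {P : Q → Matrix (Fin r) (Fin r) ℚ} (hm : ∀ g h, P (g * h) = P g * P h)
    (hspan : Submodule.span ℚ (Set.range P) = ⊤) (Y X : Matrix (Fin r) (Fin r) ℚ) :
    RfSth P (X * Y) = RfSth P X * Y := by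
  have hY : Y ∈ Submodule.span ℚ (Set.range P) := by rw [hspan]; exact Submodule.mem_top
  induction hY using Submodule.span_induction with
  | mem Y hY =>
    obtain ⟨h, rfl⟩ := hY
    rw [RfSth_apply, RfSth_apply, sum_mul, ← Equiv.sum_comp (Equiv.mulRight h)]
    refine sum_congr rfl fun g _ => ?_
    have e1 : (X * P h * P (g * h)⁻¹).trace = (X * P g⁻¹).trace := by
      rw [mul_assoc, ← hm, mul_inv_rev, mul_inv_cancel_left]
    rw [Equiv.coe_mulRight, e1, hm, smul_mul_assoc]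
  | zero => rw [mul_zero, map_zero, mul_zero]
  | add Y Z _ _ hY hZ => rw [mul_add, map_add, hY, hZ, mul_add]
  | smul a Y _ hY => rw [mul_smul_comm, map_smul, hY, mul_smul_comm]

/-- The rational form of the orthogonality relations. -/
private theorem RfS_rat {Q : Type*} [Group Q] [Fintype Q] {r : ℕ}
    {P : Q → Matrix (Fin r) (Fin r) ℚ} (h1 : P 1 = 1) (hm : ∀ g h, P (g * h) = P g * P h)
    (hspan : Submodule.span ℚ (Set.range P) = ⊤) (X : Matrix (Fin r) (Fin r) ℚ) :
    (r : ℚ) • ∑ g, (X * P g⁻¹).trace • P g = (Fintype.card Q : ℚ) • X := by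
  set C := RfSth P 1 with hC
  have hX : ∀ X, RfSth P X = X * C := fun X => by
    rw [hC, ← RfS_left hm hspan, mul_one]
  have hX' : ∀ X, RfSth P X = C * X := fun X => by
    rw [hC, ← RfS_right hm hspan, one_mul]
  obtain ⟨a, ha⟩ : C ∈ Set.range (Matrix.scalar (Fin r)) := by
    rw [Matrix.mem_range_scalar_iff_commute_single]
    intro i j _
    show Matrix.single i j 1 * C = C * Matrix.single i j 1
    rw [← hX, ← hX']
  have hscal : ∀ X, RfSth P X = a • X := by
    intro X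
    rw [hX', ← ha, Matrix.scalar_apply, ← Matrix.smul_one_eq_diagonal, smul_mul_assoc, one_mul]
  -- the double sum
  have hsum : ∑ i : Fin r, ∑ j : Fin r, RfSth P (Matrix.single i j 1) * Matrix.single j i 1
      = (Fintype.card Q : ℚ) • (1 : Matrix (Fin r) (Fin r) ℚ) := by
    have e1 : ∀ i j : Fin r, RfSth P (Matrix.single i j 1) * Matrix.single j i 1 =
        ∑ g, P g * Matrix.single j i (P g⁻¹ j i) := by
      intro i j
      rw [RfSth_apply, sum_mul]
      refine sum_congr rfl fun g _ => ?_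
      have e2 : (Matrix.single i j 1 * P g⁻¹).trace = P g⁻¹ j i := by
        rw [Matrix.trace_mul_comm, Matrix.trace_mul_single]
        simp
      rw [e2, smul_mul_assoc, ← mul_smul_comm, Matrix.smul_single, smul_eq_mul, mul_one]
    have e3 : ∀ g, ∑ i : Fin r, ∑ j : Fin r, P g * Matrix.single j i (P g⁻¹ j i) = 1 := by
      intro g
      simp_rw [← mul_sum]
      rw [sum_comm, ← Matrix.matrix_eq_sum_single (P g⁻¹), ← hm, mul_inv_cancel, h1]
    calc ∑ i : Fin r, ∑ j : Fin r, RfSth P (Matrix.single i j 1) * Matrix.single j i 1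
        = ∑ i : Fin r, ∑ j : Fin r, ∑ g, P g * Matrix.single j i (P g⁻¹ j i) :=
          sum_congr rfl fun i _ => sum_congr rfl fun j _ => e1 i j
      _ = ∑ g, ∑ i : Fin r, ∑ j : Fin r, P g * Matrix.single j i (P g⁻¹ j i) := by
          rw [sum_congr rfl fun i _ => sum_comm, sum_comm]
      _ = (Fintype.card Q : ℚ) • (1 : Matrix (Fin r) (Fin r) ℚ) := by
          rw [sum_congr rfl fun g _ => e3 g, sum_const, card_univ, Nat.cast_smul_eq_nsmul]
  have hsum2 : ∑ i : Fin r, ∑ j : Fin r, RfSth P (Matrix.single i j 1) * Matrix.single j i 1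
      = ((r : ℚ) * a) • (1 : Matrix (Fin r) (Fin r) ℚ) := by
    have e4 : ∀ i j : Fin r, RfSth P (Matrix.single i j 1) * Matrix.single j i 1 =
        a • Matrix.single i i 1 := by
      intro i j
      rw [hscal, smul_mul_assoc, Matrix.single_mul_single_same, mul_one]
    rw [sum_congr rfl fun i _ => sum_congr rfl fun j _ => e4 i j]
    simp only [sum_const, card_univ, Fintype.card_fin]
    rw [← smul_sum, ← smul_sum, Matrix.sum_single_one, ← Nat.cast_smul_eq_nsmul ℚ, smul_smul]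
  have h2 : ∑ g, (X * P g⁻¹).trace • P g = a • X := by rw [← RfSth_apply, hscal]
  calc (r : ℚ) • ∑ g, (X * P g⁻¹).trace • P g = (((r : ℚ) * a) • (1 : Matrix (Fin r) (Fin r) ℚ)) * X := by
        rw [h2, smul_smul, smul_mul_assoc, one_mul]
    _ = (Fintype.card Q : ℚ) • X := by
        rw [← hsum2, hsum, smul_mul_assoc, one_mul]

/-- The integral form. -/
private theorem RfS_int {Q : Type*} [Group Q] [Fintype Q] {r : ℕ}
    (ρ : Q →* Matrix (Fin r) (Fin r) ℤ)
    (hspan : Submodule.span ℚ (Set.range fun g => (ρ g).map (Int.cast : ℤ → ℚ)) = ⊤)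
    (X : Matrix (Fin r) (Fin r) ℤ) :
    (r : ℤ) • ∑ g, (X * ρ g⁻¹).trace • ρ g = (Fintype.card Q : ℤ) • X := by
  let φ : Matrix (Fin r) (Fin r) ℤ →+* Matrix (Fin r) (Fin r) ℚ := (Int.castRingHom ℚ).mapMatrix
  have hφ : Function.Injective φ := by
    intro A B h
    ext i j
    have := congrFun (congrFun h i) j
    simpa [φ] using this
  have htr : ∀ A : Matrix (Fin r) (Fin r) ℤ, ((A.trace : ℤ) : ℚ) = (φ A).trace := by
    intro A
    simp [φ, Matrix.trace]
  have hsm : ∀ (n : ℤ) (A : Matrix (Fin r) (Fin r) ℤ), φ (n • A) = (n : ℚ) • φ A := by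
    intro n A
    ext i j
    show (((n • A) i j : ℤ) : ℚ) = (n : ℚ) • ((A i j : ℤ) : ℚ)
    rw [Matrix.smul_apply, smul_eq_mul, smul_eq_mul, Int.cast_mul]
  have h := RfS_rat (P := fun g => φ (ρ g)) (by rw [map_one, map_one])
    (fun g h => by rw [map_mul, map_mul]) hspan (φ X)
  apply hφ
  rw [hsm, hsm, map_sum]
  have e : ∀ g, φ ((X * ρ g⁻¹).trace • ρ g) = (φ X * φ (ρ g⁻¹)).trace • φ (ρ g) := by
    intro g
    rw [hsm, htr, map_mul]
  rw [sum_congr rfl fun g _ => e g]
  simpa using h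

/-- PROOF. For `X ∈ M_r(ℚ)` let `Θ X = ∑_g tr(X ρ(g⁻¹)) ρ(g)`.  `Θ (ρ(h) X) = ρ(h) Θ X` and `Θ (X ρ(h)) = Θ X ρ(h)`
(substitution), so by `hspan` `Θ` commutes with the multiplication by all matrices from both sides, and
`Θ X = Θ 1 X = X Θ 1`, `Θ 1` is central, `Θ X = λ X`.  From
`∑_{a,b} Θ(E_ab) E_ba = ∑_g ρ(g) ∑_{a,b} ρ(g⁻¹)_{ba} E_ba = card Q • 1` and `∑_{a,b} E_ab E_ba = r • 1`: `λ r = card Q`.  So
`r • ∑_g tr(X ρ(g⁻¹)) ρ(g) = card Q • X` for integral matrices `X`.  Reduce modulo `l`, multiply with `A` and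
take the trace: `card Q * tr(X A) = 0` for all `X`, so `A = 0`. -/
theorem schur_modp {Q : Type*} [Group Q] [Fintype Q] {r : ℕ}
    (ρ : Q →* Matrix (Fin r) (Fin r) ℤ)
    (hspan : Submodule.span ℚ (Set.range fun g => (ρ g).map (Int.cast : ℤ → ℚ)) = ⊤) {l : ℕ}
    [Fact l.Prime] (hl : ¬ l ∣ Fintype.card Q) {A : Matrix (Fin r) (Fin r) (ZMod l)}
    (h : ∀ g, ((ρ g).map (Int.cast : ℤ → ZMod l) * A).trace = 0) : A = 0 := by
  let ψ : Matrix (Fin r) (Fin r) ℤ →+* Matrix (Fin r) (Fin r) (ZMod l) :=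
    (Int.castRingHom (ZMod l)).mapMatrix
  have hsm : ∀ (n : ℤ) (B : Matrix (Fin r) (Fin r) ℤ), ψ (n • B) = (n : ZMod l) • ψ B := by
    intro n B
    ext i j
    show (((n • B) i j : ℤ) : ZMod l) = (n : ZMod l) • ((B i j : ℤ) : ZMod l)
    rw [Matrix.smul_apply, smul_eq_mul, smul_eq_mul, Int.cast_mul]
  have hψ : ∀ g, (ψ (ρ g) * A).trace = 0 := h
  have hQ : (Fintype.card Q : ZMod l) ≠ 0 := by
    intro h0
    exact hl ((ZMod.natCast_eq_zero_iff _ _).1 h0)
  have key : ∀ X : Matrix (Fin r) (Fin r) ℤ, (ψ X * A).trace = 0 := by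
    intro X
    have h1 := congrArg (fun B => (ψ B * A).trace) (RfS_int ρ hspan X)
    beta_reduce at h1
    rw [hsm, hsm, map_sum, smul_mul_assoc, smul_mul_assoc, sum_mul, Matrix.trace_smul,
      Matrix.trace_smul, Matrix.trace_sum] at h1
    have e : ∀ g, (ψ ((X * ρ g⁻¹).trace • ρ g) * A).trace = 0 := by
      intro g
      rw [hsm, smul_mul_assoc, Matrix.trace_smul, hψ, smul_zero]
    rw [sum_congr rfl fun g _ => e g, sum_const_zero, smul_zero] at h1
    have h2 : (Fintype.card Q : ZMod l) * (ψ X * A).trace = 0 := by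
      have := h1.symm
      simpa using this
    exact (mul_eq_zero.1 h2).resolve_left hQ
  ext i j
  have h1 := key (Matrix.single j i 1)
  have h2 : ψ (Matrix.single j i 1) = Matrix.single j i 1 := by
    ext a b
    simp [ψ, Matrix.single_apply]
  rw [h2, Matrix.trace_mul_comm, Matrix.trace_mul_single] at h1
  simpa using h1

end Pool.MP43e44c.GX
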