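import Pool.Agent.H.MP_43e44c_ag.GX.RfF
import Pool.Agent.H.MP_43e44c_ag.GX.RfN
import Pool.Agent.H.MP_43e44c_ag.GX.RfS

/-!
Integral representations with fixed rows of corank one.
-/

set_option autoImplicit false

open Finset Module

namespace Pool.MP43e44c.GX

open Pool.MP43e44c.OD

universe u v

/-- `exists_B` (`m = r - 1`), `schur_modp`, `lift_all`, `SS_le`, `rf_fourier`, `rf_num`. -/
theorem rf_main : ∃ n₀ : ℕ, ∀ {Q : Type u} [Group Q] {ι : Type v} (T : TS Q ι) [Fintype Q]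
    [Fintype ι] {r l : ℕ} [Fact l.Prime] (ρ : Q →* Matrix (Fin r) (Fin r) ℤ), l ≠ 2 →
    ¬ l ∣ Fintype.card Q → ρ T.c = -1 →
    Submodule.span ℚ (Set.range fun g => (ρ g).map (Int.cast : ℤ → ℚ)) = ⊤ →
    finrank ℚ (fixQ ρ T.S) + 1 = r → 3 ≤ r → n₀ ≤ Fintype.card ι →
    (r : ℝ) ≤ (Fintype.card ι : ℝ) ^ (1 / 200 : ℝ) →
    (l : ℝ) ≤ (Fintype.card ι : ℝ) ^ (1 / 200 : ℝ) →
    (((badZ T ρ).ncard : ℕ) : ℝ) ≤ 4 * (Fintype.card ι : ℝ) ^ (-(11 / 10) : ℝ) *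
      2 ^ Fintype.card ι := by
  obtain ⟨n₀, H⟩ := rf_num
  refine ⟨n₀, ?_⟩
  intro Q _ ι T _ _ r l hl ρ hl2 hlQ hc hspan hfin hr hn hrn hln
  obtain ⟨B, hB, hBf, hBl⟩ := exists_B ρ T.S
  have hBl' := hBl l hl.out
  have hsch : ∀ A : Matrix (Fin r) (Fin r) (ZMod l),
      (∀ g, ((ρ g).map (Int.cast : ℤ → ZMod l) * A).trace = 0) → A = 0 :=
    fun A hA => schur_modp ρ hspan hlQ hA
  have hm : finrank ℚ (fixQ ρ T.S) = r - 1 := by omega
  have e1 : ∀ a : ℕ, a * finrank ℚ (fixQ ρ T.S) = a * (r - 1) := fun a => by rw [hm]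
  have e2 : ∀ a : ℕ, a * (finrank ℚ (fixQ ρ T.S) + r) = a * (r - 1 + r) := fun a => by rw [hm]
  have hl3 : 3 ≤ l := by
    have := hl.out.two_le
    omega
  have h2 : (0 : ℝ) < 2 ^ Fintype.card ι := by positivity
  have key := H (Fintype.card ι) r l ((((badZ T ρ).ncard : ℕ) : ℝ) / 2 ^ Fintype.card ι)
    (fun k => SS T ρ B l k) hn hr hl3 hrn hln ?_ ?_
  · rwa [div_le_iff₀ h2] at key
  · intro E t k hE hEt hk
    have h1 := SS_le T ρ B (l := l) k E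
    have h3 := lift_all T ρ B hl2 hc hB hBl' hsch hE hEt hk
    rw [e2] at h1
    refine ⟨fun hkt => ?_, fun htk => ?_⟩
    · have h4 := h3.1 hkt
      rw [h4, Set.ncard_empty, Nat.cast_zero, zero_add] at h1
      exact h1
    · have h4 := h3.2 htk
      rw [e2] at h4
      have h5 : ((Pr T ρ B l k E).ncard : ℝ) ≤ (l : ℝ) ^ t * (l : ℝ) ^ ((k - t) * (r - 1 + r)) := by
        exact_mod_cast h4
      show SS T ρ B l k ≤ _
      linarith
  · intro i hi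
    have h1 := rf_fourier T ρ B (l := l) hBf hB hi
    simp only [e1] at h1
    have e : ((l : ℝ) ^ i - (l : ℝ) ^ (i - 1)) * ((((badZ T ρ).ncard : ℕ) : ℝ) /
        2 ^ Fintype.card ι) * (l : ℝ) ^ (i * r) = (((l : ℝ) ^ i - (l : ℝ) ^ (i - 1)) *
        ((badZ T ρ).ncard : ℕ) * (l : ℝ) ^ (i * r)) / 2 ^ Fintype.card ι := by
      ring
    rw [e, div_le_iff₀ h2]
    linarith

end Pool.MP43e44c.GX
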