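import Pool.Agent.H.MP_43e44c_ag.GX.RlY
import Pool.Agent.H.MP_43e44c_ag.GX.Dim
import Pool.Agent.H.MP_43e44c_ag.GA.RealB
import Pool.Agent.H.MP_43e44c_ag.OD.Inv

/-!
Minimal left ideals of the real group algebra with few fixed vectors.
-/

set_option autoImplicit false

open Finset Module

namespace Pool.MP43e44c.GX

open Pool.MP43e44c.OD

universe u v

section Reg

variable (G : Type u) [Group G] [Fintype G]

/-- The regular representation: the group acts on the functions on the group by left translation. -/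
def reg : Coc G G where
  ε _ _ := 1
  sq _ _ := Or.inl rfl
  mul _ _ _ := by rw [one_mul]

variable {G}

/-- The functions as elements of the group algebra. -/
noncomputable def mA : EuclideanSpace ℝ G ≃ₗ[ℝ] MonoidAlgebra ℝ G where
  toFun x := ofFun fun g => x g
  map_add' x y := by
    apply ma_ext
    intro g
    show (ofFun fun g => (x + y) g : MonoidAlgebra ℝ G).coeff g
      = (ofFun fun g => x g : MonoidAlgebra ℝ G).coeff g
        + (ofFun fun g => y g : MonoidAlgebra ℝ G).coeff g
    rw [ofFun_coeff, ofFun_coeff, ofFun_coeff, PiLp.add_apply]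
  map_smul' r x := by
    apply ma_ext
    intro g
    show (ofFun fun g => (r • x) g : MonoidAlgebra ℝ G).coeff g
      = r * (ofFun fun g => x g : MonoidAlgebra ℝ G).coeff g
    rw [ofFun_coeff, ofFun_coeff, PiLp.smul_apply, smul_eq_mul]
  invFun y := WithLp.toLp 2 fun g => y.coeff g
  left_inv x := by
    ext g
    exact ofFun_coeff _ _
  right_inv y := by
    apply ma_ext
    intro g
    exact ofFun_coeff _ _

theorem mA_coeff (x : EuclideanSpace ℝ G) (g : G) : (mA x).coeff g = x g := ofFun_coeff _ _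

theorem mA_act (g : G) (x : EuclideanSpace ℝ G) :
    mA ((reg G).act g x) = MonoidAlgebra.single g 1 * mA x := by
  apply ma_ext
  intro h
  rw [mA_coeff, MonoidAlgebra.coeff_single_mul_apply, one_mul, mA_coeff, (reg G).act_apply]
  show (1 : ℝ) * x (g⁻¹ * h) = x (g⁻¹ * h)
  rw [one_mul]

/-- The part of the regular representation which belongs to a component. -/
def zI (W : WD ℚ G) (i : Fin W.m) : Submodule ℝ (EuclideanSpace ℝ G) where
  carrier := {x | mA x * GA.toR (W.e i) = mA x}
  zero_mem' := by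
    show mA (0 : EuclideanSpace ℝ G) * _ = _
    rw [map_zero, zero_mul]
  add_mem' := fun {a b} ha hb => by
    have ha' : mA a * GA.toR (W.e i) = mA a := ha
    have hb' : mA b * GA.toR (W.e i) = mA b := hb
    show mA (a + b) * _ = _
    rw [map_add, add_mul, ha', hb']
  smul_mem' := fun r a ha => by
    have ha' : mA a * GA.toR (W.e i) = mA a := ha
    show mA (r • a) * _ = _
    rw [map_smul, smul_mul_assoc, ha']

theorem RlA_mem_zI (W : WD ℚ G) (i : Fin W.m) (x : EuclideanSpace ℝ G) :
    x ∈ zI W i ↔ mA x * GA.toR (W.e i) = mA x := Iff.rfl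

theorem zI_inv (W : WD ℚ G) (i : Fin W.m) : (reg G).Inv (zI W i) := by
  intro g x hx
  rw [RlA_mem_zI] at hx ⊢
  rw [mA_act, mul_assoc, hx]

/-- linearly independent rational elements give linearly independent vectors -/
theorem RlA_li (U : Submodule ℝ (EuclideanSpace ℝ G)) (V : Submodule ℚ (MonoidAlgebra ℚ G)) {n : ℕ}
    (hn : finrank ℚ V = n) (σ : MonoidAlgebra ℚ G →ₗ[ℚ] MonoidAlgebra ℚ G)
    (hσ : Function.Injective σ) (h : ∀ x ∈ V, mA.symm (GA.toR (σ x)) ∈ U) : n ≤ finrank ℝ U := by
  have hfin : Module.Finite ℚ (MonoidAlgebra ℚ G) :=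
    Module.Finite.equiv (MonoidAlgebra.coeffLinearEquiv ℚ (S := ℚ) (M := G)).symm
  let b := Module.finBasisOfFinrankEq ℚ V hn
  have h1 : LinearIndependent ℚ fun l : Fin n => ((b l : V) : MonoidAlgebra ℚ G) :=
    b.linearIndependent.map' V.subtype V.ker_subtype
  have h2 : LinearIndependent ℚ fun l : Fin n => σ ((b l : V) : MonoidAlgebra ℚ G) :=
    h1.map' σ (LinearMap.ker_eq_bot.2 hσ)
  have h3 := GA.toR_li h2
  have h4 : LinearIndependent ℝ
      fun l : Fin n => mA.symm (GA.toR (σ ((b l : V) : MonoidAlgebra ℚ G))) :=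
    h3.map' (mA.symm : MonoidAlgebra ℝ G ≃ₗ[ℝ] EuclideanSpace ℝ G).toLinearMap
      (LinearMap.ker_eq_bot.2 mA.symm.injective)
  have h5 : LinearIndependent ℝ
      fun l : Fin n => (⟨mA.symm (GA.toR (σ ((b l : V) : MonoidAlgebra ℚ G))), h _ (b l).2⟩ : U) :=
    LinearIndependent.of_comp U.subtype h4
  have h6 := h5.fintype_card_le_finrank
  rwa [Fintype.card_fin] at h6

/-- PROOF. The real span of `toR (algE i)` is contained in `zI` and has dimension `a i` (`finrank_algE`,
`toR_li` of GA/RealB.lean). -/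
theorem zI_finrank (W : WD ℚ G) (i : Fin W.m) : W.a i ≤ finrank ℝ (zI W i) := by
  refine RlA_li (zI W i) (W.algE i) (W.finrank_algE i) LinearMap.id Function.injective_id ?_
  intro x hx
  rw [RlA_mem_zI, LinearEquiv.apply_symm_apply, LinearMap.id_apply, ← map_mul]
  have h1 : x * W.e i = x := hx
  rw [h1]

/-- the involution as a linear map -/
noncomputable def RlA_st : MonoidAlgebra ℚ G →ₗ[ℚ] MonoidAlgebra ℚ G where
  toFun := star'
  map_add' := star'_add
  map_smul' := star'_smul

theorem RlA_st_apply (x : MonoidAlgebra ℚ G) : RlA_st x = star' x := rfl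

theorem RlA_st_inj : Function.Injective (RlA_st (G := G)) := by
  intro x y h
  rw [RlA_st_apply, RlA_st_apply] at h
  rw [← star'_star' x, h, star'_star']

/-- the lower bound -/
theorem RlA_low {ι : Type v} (T : TS G ι) (W : WD ℚ G) (i : Fin W.m) :
    T.bb W i ≤ finrank ℝ (fixU (reg G) (zI W i) T.S) := by
  have hk : (T.cS : ℚ) ≠ 0 := by exact_mod_cast T.cS_pos.ne'
  refine RlA_li _ (T.DimE W i) (T.Dim_finrankE hk W i) RlA_st RlA_st_inj ?_
  intro x hx
  have hx1 : x * W.e i = x := hx.2
  have hx2 := (T.Dim_inv_iff hk).mp hx.1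
  refine ⟨?_, ?_⟩
  · rw [RlA_mem_zI, LinearEquiv.apply_symm_apply, ← map_mul, RlA_st_apply]
    congr 1
    conv_lhs => rw [← star'_e W i]
    rw [← star'_mul, W.e_comm, hx1]
  · intro s hs
    apply mA.injective
    rw [mA_act, LinearEquiv.apply_symm_apply]
    apply ma_ext
    intro g
    rw [MonoidAlgebra.coeff_single_mul_apply, one_mul, GA.RealB_coeff, GA.RealB_coeff,
      RlA_st_apply, star'_coeff, star'_coeff, mul_inv_rev, inv_inv, hx2 s hs]

/-- the upper bound -/
theorem RlA_up {ι : Type v} (T : TS G ι) (W : WD ℚ G) :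
    T.cS * ∑ i, finrank ℝ (fixU (reg G) (zI W i) T.S) ≤ Fintype.card G := by
  classical
  let Φ : (Π j : Fin W.m, fixU (reg G) (zI W j) T.S) →ₗ[ℝ] EuclideanSpace ℝ G :=
    ∑ j : Fin W.m, (fixU (reg G) (zI W j) T.S).subtype.comp (LinearMap.proj j)
  have hΦ : ∀ w, Φ w = ∑ j : Fin W.m, (w j : EuclideanSpace ℝ G) := by
    intro w
    simp [Φ]
  have hinj : Function.Injective Φ := by
    rw [injective_iff_map_eq_zero]
    intro w hw
    funext j
    apply Subtype.ext
    have h0 : mA (Φ w) = 0 := by rw [hw, map_zero]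
    have h1 := congrArg (fun z => z * GA.toR (W.e j)) h0
    simp only [zero_mul] at h1
    rw [hΦ, map_sum, sum_mul, sum_eq_single j] at h1
    · have h2 : mA (w j : EuclideanSpace ℝ G) * GA.toR (W.e j) = mA (w j : EuclideanSpace ℝ G) :=
        (w j).2.1
      rw [h2] at h1
      exact (map_eq_zero_iff mA mA.injective).1 h1
    · intro l _ hl
      have h2 : mA (w l : EuclideanSpace ℝ G) * GA.toR (W.e l) = mA (w l : EuclideanSpace ℝ G) :=
        (w l).2.1
      rw [← h2, mul_assoc, ← map_mul, W.e_mul_ne hl, map_zero, mul_zero]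
    · intro h
      exact absurd (mem_univ j) h
  let Ψ : EuclideanSpace ℝ G →ₗ[ℝ] (G ⧸ T.S → ℝ) :=
    { toFun := fun x q => x q.out⁻¹
      map_add' := fun x y => rfl
      map_smul' := fun r x => rfl }
  have hΨ : Function.Injective (Ψ.comp Φ) := by
    rw [injective_iff_map_eq_zero]
    intro w hw
    apply hinj
    rw [map_zero]
    have h3 : ∀ s ∈ T.S, ∀ g : G, Φ w (g * s)⁻¹ = Φ w g⁻¹ := by
      intro s hs g
      have h4 : (reg G).act s (Φ w) = Φ w := by
        rw [hΦ, map_sum]
        exact sum_congr rfl fun j _ => (w j).2.2 s hs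
      have h5 := congrArg (fun z : EuclideanSpace ℝ G => z g⁻¹) h4
      simp only [(reg G).act_apply] at h5
      have h6 : (reg G).ε s (s⁻¹ • g⁻¹) = 1 := rfl
      rw [h6, one_mul, smul_eq_mul, ← mul_inv_rev] at h5
      exact h5
    ext g
    have h4 := T.Dim_out (f := fun g => Φ w g⁻¹) h3 g⁻¹
    simp only [inv_inv] at h4
    rw [← h4]
    exact congrFun hw ((g⁻¹ : G) : G ⧸ T.S)
  have h1 := LinearMap.finrank_le_finrank_of_injective hΨ
  rw [finrank_pi_fintype, finrank_fintype_fun_eq_card] at h1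
  have h3 := Subgroup.card_eq_card_quotient_mul_card_subgroup T.S
  rw [Nat.card_eq_fintype_card, Nat.card_eq_fintype_card] at h3
  rw [h3, mul_comm]
  exact Nat.mul_le_mul_right _ h1

/-- PROOF. Let `A_j ≤ ℚ[G]` be the space of the `x = x e_j` with `x` left invariant under `S`.
The involution `star'` (OD/Inv.lean, it fixes `e j`) maps it onto the space of the `x = x e_j` with `x` right
invariant, which has dimension `bb W j` (`mul_comp_eS_iff`, `exists_comp`), and the sum over `j` is
`card G / cS` (`sum_bb`).  So `∑_j finrank (fixU zI_j S) ≥ ∑_j bb_j` termwise (`toR_li`) and the spaces `fixU zI_j S` are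
independent subspaces of the space of the left invariant functions of dimension `card G / cS`; so there is equality for
every `j`. -/
theorem zI_fix {ι : Type v} (T : TS G ι) (W : WD ℚ G) (i : Fin W.m) :
    finrank ℝ (fixU (reg G) (zI W i) T.S) ≤ T.bb W i := by
  classical
  have hk : (T.cS : ℚ) ≠ 0 := by exact_mod_cast T.cS_pos.ne'
  have h1 := RlA_up T W
  rw [← T.sum_bb hk W] at h1
  have h2 := Nat.le_of_mul_le_mul_left h1 T.cS_pos
  by_contra h
  push Not at h
  have h3 : ∑ j, T.bb W j < ∑ j, finrank ℝ (fixU (reg G) (zI W j) T.S) :=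
    sum_lt_sum (fun j _ => RlA_low T W j) ⟨i, mem_univ i, h⟩
  omega

end Reg

end Pool.MP43e44c.GX
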