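import Pool.Agent.H.MP_43e44c_ag.GX.RlA
import Pool.Agent.H.MP_43e44c_ag.GX.Act
import Pool.Agent.H.MP_43e44c_ag.GX.Quo
import Pool.Agent.H.MP_43e44c_ag.SB.Uni

/-!
A real minimal invariant subspace attached to a rational component.
-/

set_option autoImplicit false

open Finset Module

namespace Pool.MP43e44c.GX

open Pool.MP43e44c.OD

universe u v

/-- a nonzero matrix over a division ring generates the matrix ring -/
theorem RlB_matrix {n : ℕ} {D : Type u} [DivisionRing D] {X : Matrix (Fin n) (Fin n) D}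
    (hX : X ≠ 0) : ∃ Z V : Fin n → Matrix (Fin n) (Fin n) D, ∑ a, Z a * X * V a = 1 := by
  classical
  obtain ⟨p, hp⟩ : ∃ p, X p ≠ 0 := Function.ne_iff.1 hX
  obtain ⟨q, hq⟩ : ∃ q, X p q ≠ 0 := Function.ne_iff.1 hp
  refine ⟨fun a => Matrix.single a p (X p q)⁻¹, fun a => Matrix.single q a 1, ?_⟩
  have h1 : ∀ a : Fin n, Matrix.single a p (X p q)⁻¹ * X * Matrix.single q a 1
      = Matrix.single a a (1 : D) := by
    intro a
    ext l m
    rw [Matrix.mul_apply]
    by_cases hm : m = a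
    · subst hm
      rw [sum_eq_single q]
      · rw [Matrix.single_apply_same, mul_one]
        by_cases hl : l = m
        · subst hl
          rw [Matrix.single_mul_apply_same, inv_mul_cancel₀ hq, Matrix.single_apply_same]
        · rw [Matrix.single_mul_apply_of_ne _ _ _ _ _ hl, Matrix.single_apply,
            if_neg (fun h => hl h.1.symm)]
      · intro b _ hb
        rw [Matrix.single_apply, if_neg (fun h => hb h.1.symm), mul_zero]
      · intro h
        exact absurd (mem_univ q) h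
    · rw [Matrix.single_apply, if_neg (fun h => hm h.2.symm)]
      refine sum_eq_zero fun b _ => ?_
      rw [Matrix.single_apply, if_neg (fun h => hm h.2.symm), mul_zero]
  rw [sum_congr rfl fun a _ => h1 a]
  ext l m
  rw [Matrix.sum_apply]
  by_cases hlm : l = m
  · subst hlm
    rw [sum_eq_single l, Matrix.single_apply_same, Matrix.one_apply_eq]
    · intro b _ hb
      rw [Matrix.single_apply, if_neg (fun h => hb h.1)]
    · intro h
      exact absurd (mem_univ l) h
  · rw [Matrix.one_apply_ne hlm]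
    refine sum_eq_zero fun b _ => ?_
    rw [Matrix.single_apply, if_neg (fun h => hlm (h.1.symm.trans h.2))]

namespace Tr

variable {G : Type u} [Group G] {ι : Type v} (T : Tr G ι) [Fintype G] [Fintype ι]

theorem RlB_cc : GA.toR (T.cc ℚ) = T.cc ℝ := by
  apply ma_ext
  intro g
  rw [GA.RealB_coeff]
  unfold TS.cc
  rw [MonoidAlgebra.coeff_single, MonoidAlgebra.coeff_single]
  by_cases hg : T.c = g
  · subst hg
    simp
  · simp [hg]

theorem RlB_eS : GA.toR (T.eS ℚ) = T.eS ℝ := by
  apply ma_ext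
  intro g
  rw [GA.RealB_coeff]
  by_cases hg : g ∈ T.S
  · rw [T.eS_coeff_mem ℚ hg, T.eS_coeff_mem ℝ hg, Rat.cast_one]
  · rw [T.eS_coeff_notMem ℚ hg, T.eS_coeff_notMem ℝ hg, Rat.cast_zero]

/-- The linear map attached to an odd invariant element. -/
theorem RlB_map {s : MonoidAlgebra ℚ G} (h1 : s * T.cc ℚ = -s)
    (h2 : s * T.eS ℚ = (T.cS : ℚ) • s) :
    ∃ L : EuclideanSpace ℝ G →ₗ[ℝ] EuclideanSpace ℝ ι, ∀ y, T.ph (L y) = mA y * GA.toR s := by
  have hk : (T.cS : ℝ) ≠ 0 := by exact_mod_cast T.cS_pos.ne'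
  have h3 : ∀ y : EuclideanSpace ℝ G, ∃ x, T.ph x = mA y * GA.toR s := by
    intro y
    rw [T.ph_range]
    constructor
    · rw [mul_assoc, ← T.RlB_cc, ← map_mul, h1, map_neg, mul_neg]
    · have h4 : mA y * GA.toR s * T.eS ℝ = (T.cS : ℝ) • (mA y * GA.toR s) := by
        rw [mul_assoc, ← T.RlB_eS, ← map_mul, h2, GA.RealB_smul, mul_smul_comm]
        norm_num
      intro g hg x
      have h5 := (T.mul_eS_iff hk _).1 h4 g⁻¹ (T.S.inv_mem hg)
      have h6 : (mA y * GA.toR s * MonoidAlgebra.single g⁻¹ 1).coeff x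
          = (mA y * GA.toR s).coeff x := by rw [h5]
      have h7 : x = x * g * g⁻¹ := by rw [mul_inv_cancel_right]
      rw [h7, MonoidAlgebra.coeff_mul_single_apply, mul_one, ← h7, inv_inv] at h6
      exact h6
  choose L hL using h3
  exact ⟨{ toFun := L
           map_add' := fun x y => T.ph_inj (by rw [map_add, hL, hL, hL, map_add, add_mul])
           map_smul' := fun r x => T.ph_inj (by
             rw [RingHom.id_apply, map_smul, hL, hL, map_smul, smul_mul_assoc]) }, hL⟩

/-- PROOF. Let `Y ≤ zI W i` be minimal and `v` bad; let `u ≠ 0` be a fixed row with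
`u * comp i (el v) = 0` (`mem_badI_iff`) and `y₀ ∈ ℚ[G]` with `y₀ e_i = y₀` and `comp i y₀` the matrix with all rows... with first row `u`
and other rows `0` (`exists_comp`); it satisfies `y₀ * el v = 0` and is right `S`-invariant (`mul_comp_eS_iff`,
`mul_eS_iff`).  The two-sided ideal generated by `y₀` is `ℚ[G] e_i`: `e_i = ∑ z_k y₀ w_k`.  For `0 ≠ y ∈ mA Y`:
`y = y * toR e_i = ∑ y z_k y₀ w_k`, so `y * toR (z_k y₀) ≠ 0` for some `k`.  Define
`R y = ph⁻¹ (mA y * toR (z_k y₀))` (`ph_range`; it is odd since `e_i` is: `T.Odd W i` gives `e_i * cc = - e_i`; `ph_inj`).  It is linear,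
equivariant (`mA_act`, `ph_act`), not zero, and `inner (sv v) (R y) = (mA y * toR (z_k y₀) * el v).coeff 1 = 0`
(`ph_inner`). -/
theorem exists_R {W : WD ℚ G} {i : Fin W.m} (hi : T.Odd W i)
    {Y : Submodule ℝ (EuclideanSpace ℝ G)} (hY : (reg G).Mnl Y) (hYz : Y ≤ zI W i)
    {v : ι → Bool} (hv : v ∈ T.badI W i) :
    ∃ R : Y →ₗ[ℝ] EuclideanSpace ℝ ι, R ≠ 0 ∧
      (∀ (g : G) (y z : Y), (reg G).act g y = z →
        R z = (letI := T.act; T.coc.act g (R y))) ∧
      ∀ y, inner ℝ (sv v) (R y) = (0 : ℝ) := by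
  classical
  obtain ⟨X, hX0, hX1, hX2⟩ := hv
  obtain ⟨Z, V, hZV⟩ := RlB_matrix hX0
  obtain ⟨y₀, hy1, hy2⟩ := W.exists_comp i X
  choose z hz1 hz2 using fun a => W.exists_comp i (Z a)
  choose w hw1 hw2 using fun a => W.exists_comp i (V a)
  have he : ∑ a, z a * y₀ * w a = W.e i := by
    apply W.wdC_inj (i := i)
    · rw [sum_mul]
      exact sum_congr rfl fun a _ => by rw [mul_assoc, hw2]
    · exact W.e_mul_self i
    · rw [map_sum, W.comp_e_self, ← hZV]
      exact sum_congr rfl fun a _ => by rw [map_mul, map_mul, hz1, hy1, hw1]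
  -- a nonzero element of the subspace
  obtain ⟨y₁, hy₁, hy₁0⟩ := Submodule.exists_mem_ne_zero_of_ne_bot hY.2.1
  have hm1 : mA y₁ * GA.toR (W.e i) = mA y₁ := hYz hy₁
  obtain ⟨a, ha⟩ : ∃ a, mA y₁ * GA.toR (z a * y₀) ≠ 0 := by
    by_contra h
    push Not at h
    apply hy₁0
    apply mA.injective
    rw [map_zero, ← hm1, ← he, map_sum, mul_sum]
    refine sum_eq_zero fun a _ => ?_
    rw [map_mul, ← mul_assoc, h a, zero_mul]
  -- the element of the rational group algebra
  have hj : ∀ j, j ≠ i → W.comp j (z a * y₀) = 0 := by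
    intro j hji
    rw [map_mul, (W.mul_e_iff i y₀).1 hy2 j hji, mul_zero]
  have hc : (z a * y₀) * T.cc ℚ = -(z a * y₀) := by
    apply W.comp_inj
    intro j
    rw [map_mul, map_neg]
    by_cases hji : j = i
    · subst hji
      have h2 : W.comp j (T.cc ℚ) = -1 := hi
      rw [h2, mul_neg, mul_one]
    · rw [hj j hji, zero_mul, neg_zero]
  have hS : (z a * y₀) * T.eS ℚ = (T.cS : ℚ) • (z a * y₀) := by
    apply W.comp_inj
    intro j
    rw [map_mul, map_smul]
    by_cases hji : j = i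
    · subst hji
      rw [map_mul, hy1, mul_assoc, hX1, mul_smul_comm]
    · rw [hj j hji, zero_mul, smul_zero]
  have hel : (z a * y₀) * T.el ℚ v = 0 := by
    apply W.comp_inj
    intro j
    rw [map_mul, map_zero]
    by_cases hji : j = i
    · subst hji
      rw [map_mul, hy1, mul_assoc, hX2, mul_zero]
    · rw [hj j hji, zero_mul]
  obtain ⟨L, hL⟩ := T.RlB_map hc hS
  refine ⟨L.comp Y.subtype, ?_, ?_, ?_⟩
  · intro h
    apply ha
    have h1 : L y₁ = 0 := by
      have h2 := LinearMap.congr_fun h ⟨y₁, hy₁⟩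
      exact h2
    rw [← hL, h1, map_zero]
  · intro g y y' hyy
    letI := T.act
    show L (y' : EuclideanSpace ℝ G) = T.coc.act g (L (y : EuclideanSpace ℝ G))
    apply T.ph_inj
    rw [hL, T.ph_act, hL, ← hyy, mA_act, mul_assoc]
  · intro y
    show inner ℝ (sv v) (L (y : EuclideanSpace ℝ G)) = (0 : ℝ)
    have h1 : GA.toR (T.el ℚ v) = T.el ℝ v := T.map_el _ v
    rw [T.ph_inner, hL, ← h1, mul_assoc, ← map_mul, hel, map_zero, mul_zero]
    rfl

end Tr

end Pool.MP43e44c.GX
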