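import Pool.Agent.H.MP_43e44c_ag.GX.BsA

/-!
Minimal invariant subspaces with few fixed vectors.
-/

set_option autoImplicit false

open Finset Module

namespace Pool.MP43e44c.GX

theorem RlY_fix_add {Γ ι : Type*} [Group Γ] [MulAction Γ ι] [Fintype ι] (C : Coc Γ ι)
    (H : Subgroup Γ) {Y W : Submodule ℝ (EuclideanSpace ℝ ι)} (hY : Y ≤ W) :
    finrank ℝ (fixU C Y H) + finrank ℝ (fixU C (Yᗮ ⊓ W) H) ≤ finrank ℝ (fixU C W H) := by
  have h1 := Submodule.finrank_sup_add_finrank_inf_eq (fixU C Y H) (fixU C (Yᗮ ⊓ W) H)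
  have h2 : fixU C Y H ⊓ fixU C (Yᗮ ⊓ W) H = ⊥ := by
    rw [eq_bot_iff]
    rintro x ⟨hx1, hx2⟩
    have h3 : x ∈ Y ⊓ Yᗮ := ⟨hx1.1, hx2.1.1⟩
    rw [Submodule.inf_orthogonal_eq_bot] at h3
    exact h3
  have h4 : fixU C Y H ⊔ fixU C (Yᗮ ⊓ W) H ≤ fixU C W H := by
    refine sup_le ?_ ?_
    · intro x hx
      exact ⟨hY hx.1, hx.2⟩
    · intro x hx
      exact ⟨hx.1.2, hx.2⟩
  rw [h2, finrank_bot, add_zero] at h1
  rw [← h1]
  exact Submodule.finrank_mono h4

/-- PROOF. Suppose `finrank (fixU Y H) * finrank V > finrank (fixU V H) * finrank Y` for all minimal `Y ≤ V`.  Then by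
induction on the dimension `finrank (fixU V' H) * finrank V > finrank (fixU V H) * finrank V'` for all invariant
`V' ≤ V`, `V' ≠ ⊥`: take `Y ≤ V'` minimal (`exists_mnl`), `V'' = V' ⊓ Yᗮ` (invariant, `inv_orthogonal`),
`finrank V' = finrank Y + finrank V''`, and `fixU V' H ≥ fixU Y H ⊔ fixU V'' H` (disjoint).  For `V' = V` a
contradiction. -/
theorem exists_Y {Γ ι : Type*} [Group Γ] [Fintype Γ] [MulAction Γ ι] [Fintype ι] (C : Coc Γ ι)
    (H : Subgroup Γ) {V : Submodule ℝ (EuclideanSpace ℝ ι)} (hV : C.Inv V) (hV0 : V ≠ ⊥) :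
    ∃ Y ≤ V, C.Mnl Y ∧ finrank ℝ (fixU C Y H) * finrank ℝ V
      ≤ finrank ℝ (fixU C V H) * finrank ℝ Y := by
  by_contra hcon
  push Not at hcon
  have key : ∀ n : ℕ, ∀ W ≤ V, C.Inv W → W ≠ ⊥ → finrank ℝ W = n →
      finrank ℝ (fixU C V H) * finrank ℝ W < finrank ℝ (fixU C W H) * finrank ℝ V := by
    intro n
    induction n using Nat.strong_induction_on with
    | _ n ih =>
      intro W hWV hWI hW0 hWn
      obtain ⟨Y, hYW, hY⟩ := C.exists_mnl hWI hW0
      have h1 := hcon Y (hYW.trans hWV) hY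
      have h2 := Submodule.finrank_add_inf_finrank_orthogonal hYW
      have h3 := RlY_fix_add C H hYW
      have hnt : Nontrivial Y := Submodule.nontrivial_iff_ne_bot.2 hY.2.1
      have hYpos : 0 < finrank ℝ Y := finrank_pos
      have h4 : finrank ℝ (fixU C V H) * finrank ℝ (Yᗮ ⊓ W : Submodule ℝ (EuclideanSpace ℝ ι)) ≤
          finrank ℝ (fixU C (Yᗮ ⊓ W) H) * finrank ℝ V := by
        by_cases h0 : Yᗮ ⊓ W = ⊥
        · rw [h0, finrank_bot, mul_zero]
          exact Nat.zero_le _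
        · have hI : C.Inv (Yᗮ ⊓ W) := fun g x hx =>
            ⟨C.inv_orthogonal hY.1 g x hx.1, hWI g x hx.2⟩
          exact (ih _ (by omega) (Yᗮ ⊓ W) (inf_le_right.trans hWV) hI h0 rfl).le
      calc finrank ℝ (fixU C V H) * finrank ℝ W
          = finrank ℝ (fixU C V H) * finrank ℝ Y + finrank ℝ (fixU C V H) *
              finrank ℝ (Yᗮ ⊓ W : Submodule ℝ (EuclideanSpace ℝ ι)) := by
            rw [← mul_add, h2]
        _ < finrank ℝ (fixU C Y H) * finrank ℝ V +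
              finrank ℝ (fixU C (Yᗮ ⊓ W) H) * finrank ℝ V := add_lt_add_of_lt_of_le h1 h4
        _ = (finrank ℝ (fixU C Y H) + finrank ℝ (fixU C (Yᗮ ⊓ W) H)) * finrank ℝ V := by
            rw [add_mul]
        _ ≤ finrank ℝ (fixU C W H) * finrank ℝ V := Nat.mul_le_mul_right _ h3
  exact absurd (key _ V le_rfl hV hV0 rfl) (lt_irrefl _)

end Pool.MP43e44c.GX
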