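import Pool.Agent.H.MP_43e44c_ag.GX.Stp
import Pool.Agent.H.MP_43e44c_ag.GX.Lnk
import Pool.Agent.H.MP_43e44c_ag.GA.Row

/-!
Counting modulo an odd prime.
-/

set_option autoImplicit false

open Finset Module

namespace Pool.MP43e44c.GX

open Pool.MP43e44c.OD

universe u v

namespace TS

variable {G : Type u} [Group G] {ι : Type v} (T : TS G ι) [Fintype G] [Fintype ι]

theorem Row_rowMap_el {p : ℕ} [Fact p.Prime] (P : WD (ZMod p) G) (K : Finset (Fin P.m))
    (u : RowE P K) (v : ι → Bool) :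
    ∑ i, svr (ZMod p) v i • rowMap P K u (MonoidAlgebra.single (T.t i) 1)
      = rowMap P K u (T.el (ZMod p) v) := by
  unfold el
  rw [map_sum]
  refine sum_congr rfl fun i _ => ?_
  rw [← map_smul]
  congr 1
  rw [MonoidAlgebra.smul_single, smul_eq_mul, mul_one]
  rfl

omit [Fintype ι] in
theorem Row_odd {p : ℕ} [Fact p.Prime] (P : WD (ZMod p) G) (K : Finset (Fin P.m))
    (hK : ∀ j ∈ K, T.Odd P j) (u : RowE P K) (g : G) :
    rowMap P K u (MonoidAlgebra.single (g * T.c) 1)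
      = -rowMap P K u (MonoidAlgebra.single g 1) := by
  ext j : 1
  show Matrix.vecMul (u j) (P.comp j (MonoidAlgebra.single (g * T.c) 1))
    = -Matrix.vecMul (u j) (P.comp j (MonoidAlgebra.single g 1))
  rw [T.odd_single (hK j j.2), Matrix.vecMul_neg]

omit [Fintype ι] in
theorem Row_inv {p : ℕ} [Fact p.Prime] (P : WD (ZMod p) G) (K : Finset (Fin P.m))
    (u : RowE P K) (hu : ∀ j : {j // j ∈ K}, u j ∈ T.fixR P j) {s : G} (hs : s ∈ T.S) (g : G) :
    rowMap P K u (MonoidAlgebra.single (s * g) 1)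
      = rowMap P K u (MonoidAlgebra.single g 1) := by
  ext j : 1
  show Matrix.vecMul (u j) (P.comp j (MonoidAlgebra.single (s * g) 1))
    = Matrix.vecMul (u j) (P.comp j (MonoidAlgebra.single g 1))
  have h3 : (MonoidAlgebra.single (s * g) (1 : ZMod p) : MonoidAlgebra (ZMod p) G)
      = MonoidAlgebra.single s 1 * MonoidAlgebra.single g 1 := by
    rw [MonoidAlgebra.single_mul_single, mul_one]
  rw [h3, map_mul, ← Matrix.vecMul_vecMul, hu j s hs]

omit [Fintype ι] in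
theorem Row_cS {p : ℕ} (hp : ¬ p ∣ Fintype.card G) : (T.cS : ZMod p) ≠ 0 := by
  intro h
  rw [ZMod.natCast_eq_zero_iff] at h
  exact hp (h.trans T.cS_dvd)

omit [Fintype ι] in
theorem Row_zsmul {k : Type*} [CommRing k] (n : ℕ) (x : MonoidAlgebra k G) :
    ((n : ℕ) : ℤ) • x = (n : k) • x := by
  apply ma_ext
  intro g
  have h1 : (((n : ℕ) : ℤ) • x).coeff g = ((n : ℕ) : ℤ) • x.coeff g := rfl
  have h2 : ((n : k) • x).coeff g = (n : k) * x.coeff g := rfl
  rw [h1, h2, zsmul_eq_mul, Int.cast_natCast]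

/-- A fixed row below a bad sign vector. -/
theorem Row_kill {p : ℕ} [Fact p.Prime] (hp : ¬ p ∣ Fintype.card G) (W : WD ℚ G)
    (P : WD (ZMod p) G) {i : Fin W.m} {v : ι → Bool} (hv : v ∈ T.badI W i) {j : Fin P.m}
    (hj : j ∈ J W P i) : ∃ u : Fin (P.r j) → P.D j, u ≠ 0 ∧ u ∈ T.fixR P j ∧
      Matrix.vecMul u (P.comp j (T.el (ZMod p) v)) = 0 := by
  obtain ⟨X, hX, hXS, hXv⟩ := hv
  obtain ⟨Y, hY, hYB⟩ := linkS hp W P {T.el ℤ v, T.eS ℤ - ((T.cS : ℕ) : ℤ) • 1} i hX (by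
    intro b hb
    rcases hb with rfl | hb
    · rw [T.toQ_el]
      exact hXv
    · rw [Set.mem_singleton_iff] at hb
      subst hb
      have h1 : toQ (T.eS ℤ - ((T.cS : ℕ) : ℤ) • (1 : MonoidAlgebra ℤ G))
          = T.eS ℚ - (T.cS : ℚ) • 1 := by
        have h2 : toQ (((T.cS : ℕ) : ℤ) • (1 : MonoidAlgebra ℤ G))
            = ((T.cS : ℕ) : ℤ) • toQ (1 : MonoidAlgebra ℤ G) := map_zsmul toQ _ _
        rw [map_sub, T.toQ_eS, h2, map_one, Row_zsmul]
      rw [h1, map_sub, map_smul, map_one, mul_sub, hXS, mul_smul_comm, mul_one, sub_self]) hj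
  have h3 := hYB _ (Set.mem_insert _ _)
  rw [T.toP_el] at h3
  have h4 := hYB _ (Set.mem_insert_of_mem _ (Set.mem_singleton _))
  have h5 : toP p (T.eS ℤ - ((T.cS : ℕ) : ℤ) • (1 : MonoidAlgebra ℤ G))
      = T.eS (ZMod p) - (T.cS : ZMod p) • 1 := by
    have h2 : toP p (((T.cS : ℕ) : ℤ) • (1 : MonoidAlgebra ℤ G))
        = ((T.cS : ℕ) : ℤ) • toP p (1 : MonoidAlgebra ℤ G) := map_zsmul (toP p) _ _
    rw [map_sub, T.toP_eS, h2, map_one, Row_zsmul]
  rw [h5, map_sub, map_smul, map_one, mul_sub, mul_smul_comm, mul_one, sub_eq_zero] at h4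
  have h6 := (T.mul_comp_eS_iff (T.Row_cS hp) P j Y).1 h4
  obtain ⟨a, ha⟩ : ∃ a, Y a ≠ 0 := by
    by_contra hcon
    push Not at hcon
    exact hY (funext fun a => hcon a)
  refine ⟨Y a, ha, h6 a, ?_⟩
  have h7 := congrFun h3 a
  exact h7

omit [Fintype ι] in
theorem Row_be_le {p : ℕ} [Fact p.Prime] (P : WD (ZMod p) G) (j : Fin P.m) :
    T.be P j ≤ P.r j * P.f j := by
  rw [f_eq]
  exact T.be_le P j

/-- PROOF: as `badI_row` in GA/Row.lean and OD/Row.lean.  If `v` is bad, `linkS` with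
`B = {el ℤ v, eS - cS • 1}` gives for `j ∈ K` a matrix `Y_j ≠ 0` with rows in `fixR P j` (`mul_comp_eS_iff`,
`cS ≠ 0` mod `p` by `cS_dvd`) and `Y_j * comp j (el v) = 0`, so a row `u_j ≠ 0` in `fixR P j` with
`u_j * comp j (el v) = 0`, and all its multiples by elements of the field `P.D j` have these properties
(`smul_mem_fixR`): at least `∏ (p ^ f_j - 1)` families `(u_j)_{j ∈ K}` of non zero rows.  The number of all
the families of non zero rows in `fixR P j` is at most `p ^ (∑ be_j)`, and for a given family `u` the number of the `v` with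
`∑_j ± x (t j) = 0`, `x g = (u_j * comp j (single g 1))_{j ∈ K}` is at most `2 ^ n cosS ^ k / p ^ k`
(`stepX`; `x` is odd by `odd_of_mem_J`, `odd_single`, left `S`-invariant as the `u_j` are fixed; the span
has dimension `k` as in OD/Row.lean).  If `K` is empty the claim is trivial. -/
theorem rowX {p : ℕ} [Fact p.Prime] (hp2 : p ≠ 2) (hp : ¬ p ∣ Fintype.card G) (W : WD ℚ G)
    (P : WD (ZMod p) G) {i : Fin W.m} (hi : T.Odd W i) {K : Finset (Fin P.m)}
    (hK : K ⊆ J W P i) {k E : ℕ} (hk : k = ∑ j ∈ K, P.r j * P.f j)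
    (hE : E + ∑ j ∈ K, T.be P j = k) :
    (((T.badI W i).ncard : ℕ) : ℝ) * (∏ j ∈ K, ((p : ℝ) ^ P.f j - 1)) * (p : ℝ) ^ E
      ≤ 2 ^ Fintype.card ι * cosS p ((Fintype.card ι : ℝ) / k) ^ k := by
  classical
  have hp1 : 1 < p := (Fact.out : p.Prime).one_lt
  have hp0 : (0 : ℝ) < p := by exact_mod_cast (zero_lt_one.trans hp1)
  rcases K.eq_empty_or_nonempty with hK0 | hKne
  · subst hK0
    rw [sum_empty] at hk
    subst hk
    have hE0 : E = 0 := by omega
    rw [prod_empty, mul_one, hE0, pow_zero, mul_one, pow_zero, mul_one]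
    have h0 : (T.badI W i).ncard ≤ Nat.card (ι → Bool) := by
      rw [← Set.ncard_univ]
      exact Set.ncard_le_ncard (Set.subset_univ _) (Set.toFinite _)
    have h00 : Nat.card (ι → Bool) = 2 ^ Fintype.card ι := by
      rw [Nat.card_eq_fintype_card, Fintype.card_fun, Fintype.card_bool]
    rw [h00] at h0
    exact_mod_cast h0
  have hkpos : 0 < k := by
    rw [hk]
    obtain ⟨j, hj⟩ := hKne
    exact lt_of_lt_of_le (Nat.mul_pos (Nat.pos_of_ne_zero (NeZero.ne (P.r j))) (P.f_pos j))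
      (single_le_sum (f := fun j => P.r j * P.f j) (fun _ _ => Nat.zero_le _) hj)
  have hoddK : ∀ j ∈ K, T.Odd P j := fun j hj => T.odd_of_mem_J hp2 W P hi (hK hj)
  have hfinD : ∀ j, Finite (P.D j) := row_finD P
  have hfinE : Finite (RowE P K) := inferInstance
  let _ : Fintype (RowE P K) := Fintype.ofFinite _
  set C : ℝ := 2 ^ Fintype.card ι * cosS p ((Fintype.card ι : ℝ) / k) ^ k with hC
  let U : Finset (RowE P K) := univ.filter fun u => (∀ j, u j ≠ 0) ∧ ∀ j : {j // j ∈ K}, u j ∈ T.fixR P j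
  let B : Finset (ι → Bool) := univ.filter fun v => v ∈ T.badI W i
  have hB : (T.badI W i).ncard = B.card := by
    rw [← Set.ncard_coe_finset]
    congr 1
    ext v
    simp [B]
  -- the count for a fixed tuple
  have h1 : ∀ u ∈ U, ((B.filter fun v => rowMap P K u (T.el (ZMod p) v) = 0).card : ℝ)
      * (p : ℝ) ^ k ≤ C := by
    intro u hu
    have hu' : ∀ j, u j ≠ 0 := (mem_filter.1 hu).2.1
    have hu2 : ∀ j : {j // j ∈ K}, u j ∈ T.fixR P j := (mem_filter.1 hu).2.2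
    have h2 := T.stepX (p := p) (fun g => rowMap P K u (MonoidAlgebra.single g 1))
      (fun g => T.Row_odd P K hoddK u g) (fun s hs g => T.Row_inv P K u hu2 hs g)
      (fun h c h0 => rowMap_sym P K u h c h0) hkpos (by rw [row_span P K hu', hk])
    refine le_trans ?_ h2
    gcongr
    rw [← Set.ncard_coe_finset]
    refine Set.ncard_le_ncard ?_ (Set.toFinite _)
    intro v hv
    have hv' := (mem_filter.1 (Finset.mem_coe.1 hv)).2
    show ∑ i, svr (ZMod p) v i • rowMap P K u (MonoidAlgebra.single (T.t i) 1) = 0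
    rw [T.Row_rowMap_el]
    exact hv'
  -- the number of tuples for a fixed bad vector
  have h2 : ∀ v ∈ B, ∏ j ∈ K, ((p : ℝ) ^ P.f j - 1) ≤
      ((U.filter fun u => rowMap P K u (T.el (ZMod p) v) = 0).card : ℝ) := by
    intro v hv
    have hl : ∀ j : {j // j ∈ K}, ∃ u : Fin (P.r j) → P.D j, u ≠ 0 ∧ u ∈ T.fixR P j ∧
        Matrix.vecMul u (P.comp j (T.el (ZMod p) v)) = 0 := fun j =>
      T.Row_kill hp W P (mem_filter.1 hv).2 (hK j.2)
    choose u0 hu0 hu0f hu0v using hl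
    let X : Type u := Π j : {j // j ∈ K}, {x : P.D j // x ≠ 0}
    have hfinX : Finite X := inferInstanceAs (Finite (Π j : {j // j ∈ K}, {x : P.D j // x ≠ 0}))
    let _ : Fintype X := Fintype.ofFinite _
    have hXcard : (Fintype.card X : ℝ) = ∏ j ∈ K, ((p : ℝ) ^ P.f j - 1) := by
      rw [← Nat.card_eq_fintype_card]
      show ((Nat.card (Π j : {j // j ∈ K}, {x : P.D j // x ≠ 0}) : ℕ) : ℝ) = _
      rw [Nat.card_pi, ← Finset.prod_coe_sort K fun j => ((p : ℝ) ^ P.f j - 1), Nat.cast_prod]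
      refine prod_congr rfl fun j _ => ?_
      have h5 : Nat.card {x : P.D j // x ≠ 0} = p ^ P.f j - 1 := by
        let _ : Fintype (P.D j) := Fintype.ofFinite _
        rw [← cardD P j, Nat.card_eq_fintype_card, Nat.card_eq_fintype_card]
        have h9 := Fintype.card_subtype_compl fun x : P.D j => x = 0
        rw [Fintype.card_subtype_eq] at h9
        exact h9
      rw [h5, Nat.cast_sub (Nat.one_le_pow _ _ (zero_lt_one.trans hp1))]
      push_cast
      rfl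
    rw [← hXcard]
    have h6 : Fintype.card X ≤ (U.filter fun u => rowMap P K u (T.el (ZMod p) v) = 0).card := by
      rw [← card_univ]
      refine card_le_card_of_injOn (fun s => fun j => (s j : P.D j) • u0 j) ?_ ?_
      · intro s _
        simp only [coe_filter, Set.mem_ofPred_eq, U, mem_filter, mem_univ, true_and]
        refine ⟨⟨fun j => smul_ne_zero (s j).2 (hu0 j), fun (j : {j // j ∈ K}) => ?_⟩, ?_⟩
        · exact smul_mem_fixR T (s j : P.D j) (hu0f j)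
        · ext j : 1
          show Matrix.vecMul ((s j : P.D j) • u0 j) (P.comp j (T.el (ZMod p) v)) = 0
          rw [Matrix.smul_vecMul, hu0v, smul_zero]
      · intro s _ t _ hst
        ext j
        have h7 : (s j : P.D j) • u0 j = (t j : P.D j) • u0 j := congrFun hst j
        exact smul_left_injective _ (hu0 j) h7
    exact_mod_cast h6
  -- double counting
  have h3 : ∑ v ∈ B, ((U.filter fun u => rowMap P K u (T.el (ZMod p) v) = 0).card : ℝ)
      = ∑ u ∈ U, ((B.filter fun v => rowMap P K u (T.el (ZMod p) v) = 0).card : ℝ) := by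
    simp only [card_filter, Nat.cast_sum]
    rw [sum_comm]
  have hCnn : 0 ≤ C := by
    have : 0 ≤ cosS p ((Fintype.card ι : ℝ) / k) := by
      unfold cosS
      exact sum_nonneg fun a _ => Real.rpow_nonneg (abs_nonneg _) _
    positivity
  have hUcard : (U.card : ℝ) ≤ (p : ℝ) ^ (∑ j ∈ K, T.be P j) := by
    have h8 : U.card ≤ p ^ (∑ j ∈ K, T.be P j) := by
      have h9 : Nat.card (Π j : {j // j ∈ K}, T.fixR P j) = p ^ (∑ j ∈ K, T.be P j) := by
        rw [Nat.card_pi, ← Finset.prod_pow_eq_pow_sum,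
          ← Finset.prod_coe_sort K fun j => p ^ T.be P j]
        refine prod_congr rfl fun j _ => ?_
        rw [Module.natCard_eq_pow_finrank (K := ZMod p), Nat.card_zmod]
        rfl
      have h10 : U.card = Nat.card {u // u ∈ U} := by
        rw [Nat.card_eq_fintype_card, Fintype.card_coe]
      rw [← h9, h10]
      have hfinF : Finite (Π j : {j // j ∈ K}, T.fixR P j) := by
        have : ∀ j : {j // j ∈ K}, Finite (T.fixR P j) := fun j => inferInstance
        infer_instance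
      refine Nat.card_le_card_of_injective
        (fun u : {u // u ∈ U} => fun j : {j // j ∈ K} =>
          (⟨u.1 j, (mem_filter.1 u.2).2.2 j⟩ : T.fixR P j)) ?_
      intro u w huw
      apply Subtype.ext
      funext j
      exact congrArg Subtype.val (congrFun huw j)
    exact_mod_cast h8
  have hpk : (0 : ℝ) < (p : ℝ) ^ k := by positivity
  rw [hB]
  have hpE : (p : ℝ) ^ E * (p : ℝ) ^ (∑ j ∈ K, T.be P j) = (p : ℝ) ^ k := by
    rw [← pow_add, hE]
  calc (B.card : ℝ) * (∏ j ∈ K, ((p : ℝ) ^ P.f j - 1)) * (p : ℝ) ^ E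
      = (∑ v ∈ B, ∏ j ∈ K, ((p : ℝ) ^ P.f j - 1)) * (p : ℝ) ^ E := by
        rw [sum_const, nsmul_eq_mul]
    _ ≤ (∑ v ∈ B, ((U.filter fun u => rowMap P K u (T.el (ZMod p) v) = 0).card : ℝ))
          * (p : ℝ) ^ E := by
        gcongr
        exact h2 _ ‹_›
    _ = (∑ u ∈ U, ((B.filter fun v => rowMap P K u (T.el (ZMod p) v) = 0).card : ℝ))
          * (p : ℝ) ^ E := by rw [h3]
    _ ≤ (∑ u ∈ U, C / (p : ℝ) ^ k) * (p : ℝ) ^ E := by
        gcongr with u hu
        rw [le_div_iff₀ hpk]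
        exact h1 u hu
    _ = U.card * (C / (p : ℝ) ^ k) * (p : ℝ) ^ E := by rw [sum_const, nsmul_eq_mul]
    _ ≤ (p : ℝ) ^ (∑ j ∈ K, T.be P j) * (C / (p : ℝ) ^ k) * (p : ℝ) ^ E := by gcongr
    _ = C / (p : ℝ) ^ k * ((p : ℝ) ^ E * (p : ℝ) ^ (∑ j ∈ K, T.be P j)) := by ring
    _ = C := by rw [hpE]; field_simp

/-- PROOF as `badI_le_S` in GA/BMain.lean. -/
theorem levS {p : ℕ} [Fact p.Prime] (hp2 : p ≠ 2) (hp : ¬ p ∣ Fintype.card G) (W : WD ℚ G)
    (P : WD (ZMod p) G) {i : Fin W.m} (hi : T.Odd W i) {K : Finset (Fin P.m)}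
    (hK : K ⊆ J W P i) {k F E : ℕ} (hk : k = ∑ j ∈ K, P.r j * P.f j)
    (hF : F = ∑ j ∈ K, P.f j) (hE : E + ∑ j ∈ K, T.be P j = k)
    (h : (p : ℝ) ^ 2 * k * Real.log (6 * k) ≤ Fintype.card ι) :
    (((T.badI W i).ncard : ℕ) : ℝ) ≤ 2 * (3 / (2 * p)) ^ F * (1 / p) ^ E * 2 ^ Fintype.card ι := by
  classical
  have hpr : p.Prime := Fact.out
  have hp3 : 3 ≤ p := by
    have := hpr.two_le
    omega
  have hpR : (3 : ℝ) ≤ p := by exact_mod_cast hp3
  have hp0 : (0 : ℝ) < p := by linarith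
  rcases K.eq_empty_or_nonempty with hK0 | hKne
  · subst hK0
    rw [sum_empty] at hF hk
    subst hF
    have hE0 : E = 0 := by omega
    rw [pow_zero, mul_one, hE0, pow_zero, mul_one]
    have h0 : (T.badI W i).ncard ≤ Nat.card (ι → Bool) := by
      rw [← Set.ncard_univ]
      exact Set.ncard_le_ncard (Set.subset_univ _) (Set.toFinite _)
    have h00 : Nat.card (ι → Bool) = 2 ^ Fintype.card ι := by
      rw [Nat.card_eq_fintype_card, Fintype.card_fun, Fintype.card_bool]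
    rw [h00] at h0
    have h1 : (((T.badI W i).ncard : ℕ) : ℝ) ≤ 2 ^ Fintype.card ι := by exact_mod_cast h0
    have h2 : (0 : ℝ) < 2 ^ Fintype.card ι := by positivity
    linarith
  have hk0 : 0 < k := by
    rw [hk]
    obtain ⟨j, hj⟩ := hKne
    exact lt_of_lt_of_le (Nat.mul_pos (Nat.pos_of_ne_zero (NeZero.ne (P.r j))) (P.f_pos j))
      (single_le_sum (f := fun j => P.r j * P.f j) (fun _ _ => Nat.zero_le _) hj)
  have hk1 : (1 : ℝ) ≤ k := by exact_mod_cast hk0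
  have hkR : (0 : ℝ) < k := by linarith
  have hlog6 : 1 ≤ Real.log (6 * k) := by
    rw [Real.le_log_iff_exp_le (by positivity)]
    have := Real.exp_one_lt_d9
    nlinarith
  obtain ⟨L, hL⟩ : ∃ L : ℝ, L = (Fintype.card ι : ℝ) / k := ⟨_, rfl⟩
  have hL1 : (p : ℝ) ^ 2 * Real.log (6 * k) ≤ L := by
    rw [hL, le_div_iff₀ hkR]
    nlinarith
  have hLp : (p : ℝ) ^ 2 ≤ L := by
    have : (p : ℝ) ^ 2 * 1 ≤ (p : ℝ) ^ 2 * Real.log (6 * k) :=
      mul_le_mul_of_nonneg_left hlog6 (by positivity)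
    linarith
  have hcos := cosS_le hp2 hLp
  have hexp : Real.exp (-(4 * L) / p ^ 2) ≤ 1 / (6 * k) := by
    have h1 : Real.log (6 * k) ≤ L / p ^ 2 := by
      rw [le_div_iff₀ (by positivity)]
      linarith
    have h2 : -(4 * L) / (p : ℝ) ^ 2 ≤ -Real.log (6 * k) := by
      have h3 : -(4 * L) / (p : ℝ) ^ 2 = -(4 * (L / p ^ 2)) := by ring
      rw [h3]
      linarith
    refine (Real.exp_le_exp.2 h2).trans (le_of_eq ?_)
    rw [Real.exp_neg, Real.exp_log (by positivity), one_div]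
  have hcos2 : cosS p L ≤ 1 + 1 / (2 * k) := by
    refine hcos.trans ?_
    have h1 : 3 * (1 / (6 * (k : ℝ))) = 1 / (2 * k) := by
      field_simp
      norm_num
    linarith
  have hcos0 : 0 ≤ cosS p L := sum_nonneg fun a _ => Real.rpow_nonneg (abs_nonneg _) _
  have hpow : cosS p L ^ k ≤ 2 := by
    have h1 : cosS p L ≤ Real.exp (1 / (2 * k)) := by
      have := Real.add_one_le_exp (1 / (2 * (k : ℝ)))
      linarith
    calc cosS p L ^ k ≤ Real.exp (1 / (2 * k)) ^ k := pow_le_pow_left₀ hcos0 h1 k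
      _ = Real.exp (1 / 2) := by
          rw [← Real.exp_nat_mul]
          congr 1
          field_simp
      _ ≤ 2 := by
          have h2 : Real.exp (1 / 2) ^ 2 ≤ 2 ^ 2 := by
            rw [← Real.exp_nat_mul]
            have h3 : ((2 : ℕ) : ℝ) * (1 / 2) = 1 := by norm_num
            rw [h3]
            have := Real.exp_one_lt_d9
            linarith
          exact (sq_le_sq₀ (Real.exp_pos _).le (by norm_num)).1 h2
  have hrow := T.rowX hp2 hp W P hi hK hk hE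
  rw [← hL] at hrow
  have hrow2 : (((T.badI W i).ncard : ℕ) : ℝ) * (∏ j ∈ K, ((p : ℝ) ^ P.f j - 1)) * (p : ℝ) ^ E
      ≤ 2 ^ Fintype.card ι * 2 :=
    hrow.trans (mul_le_mul_of_nonneg_left hpow (by positivity))
  have hprod : (2 / 3 * (p : ℝ)) ^ F ≤ ∏ j ∈ K, ((p : ℝ) ^ P.f j - 1) := by
    calc (2 / 3 * (p : ℝ)) ^ F = (2 / 3) ^ (∑ j ∈ K, P.f j) *
          (p : ℝ) ^ (∑ j ∈ K, P.f j) := by
          rw [hF, mul_pow]
      _ = ∏ j ∈ K, ((2 / 3 : ℝ) ^ P.f j * (p : ℝ) ^ P.f j) := by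
          rw [← prod_pow_eq_pow_sum, ← prod_pow_eq_pow_sum, ← prod_mul_distrib]
      _ ≤ ∏ j ∈ K, ((p : ℝ) ^ P.f j - 1) := by
          refine prod_le_prod (fun j _ => by positivity) fun j _ => ?_
          have hfj : 1 ≤ P.f j := P.f_pos j
          have h1 : (2 / 3 : ℝ) ^ P.f j ≤ 2 / 3 := by
            calc (2 / 3 : ℝ) ^ P.f j ≤ (2 / 3 : ℝ) ^ 1 :=
                  pow_le_pow_of_le_one (by norm_num) (by norm_num) hfj
              _ = 2 / 3 := pow_one _
          have h2 : (3 : ℝ) ≤ (p : ℝ) ^ P.f j := by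
            calc (3 : ℝ) ≤ p := hpR
              _ = (p : ℝ) ^ 1 := (pow_one _).symm
              _ ≤ (p : ℝ) ^ P.f j := pow_le_pow_right₀ (by linarith) hfj
          have h3 : (2 / 3 : ℝ) ^ P.f j * (p : ℝ) ^ P.f j ≤ 2 / 3 * (p : ℝ) ^ P.f j :=
            mul_le_mul_of_nonneg_right h1 (by positivity)
          linarith
  have hfin : (((T.badI W i).ncard : ℕ) : ℝ) * (2 / 3 * (p : ℝ)) ^ F * (p : ℝ) ^ E
      ≤ 2 ^ Fintype.card ι * 2 :=
    (mul_le_mul_of_nonneg_right (mul_le_mul_of_nonneg_left hprod (Nat.cast_nonneg _))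
      (by positivity)).trans hrow2
  have hq : (3 / (2 * (p : ℝ))) ^ F * (2 / 3 * (p : ℝ)) ^ F = 1 := by
    rw [← mul_pow]
    have h1 : 3 / (2 * (p : ℝ)) * (2 / 3 * (p : ℝ)) = 1 := by field_simp
    rw [h1, one_pow]
  have hq2 : (1 / (p : ℝ)) ^ E * (p : ℝ) ^ E = 1 := by
    rw [← mul_pow]
    have h1 : 1 / (p : ℝ) * p = 1 := by field_simp
    rw [h1, one_pow]
  have hpos : 0 < (2 / 3 * (p : ℝ)) ^ F * (p : ℝ) ^ E := by positivity
  refine le_of_mul_le_mul_right ?_ hpos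
  calc (((T.badI W i).ncard : ℕ) : ℝ) * ((2 / 3 * (p : ℝ)) ^ F * (p : ℝ) ^ E)
      = (((T.badI W i).ncard : ℕ) : ℝ) * (2 / 3 * (p : ℝ)) ^ F * (p : ℝ) ^ E := by ring
    _ ≤ 2 ^ Fintype.card ι * 2 := hfin
    _ = 2 * ((3 / (2 * (p : ℝ))) ^ F * (2 / 3 * (p : ℝ)) ^ F) *
        ((1 / (p : ℝ)) ^ E * (p : ℝ) ^ E) * 2 ^ Fintype.card ι := by
        rw [hq, hq2]
        ring
    _ = 2 * (3 / (2 * (p : ℝ))) ^ F * (1 / p) ^ E * 2 ^ Fintype.card ι *
        ((2 / 3 * (p : ℝ)) ^ F * (p : ℝ) ^ E) := by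
        ring

theorem Row_cosS_nonneg (p : ℕ) [NeZero p] (L : ℝ) : 0 ≤ cosS p L := by
  unfold cosS
  exact sum_nonneg fun a _ => Real.rpow_nonneg (abs_nonneg _) _

/-- PROOF as `badI_le_T` in GA/BigF.lean (`K = {j}`, `E = 0` or more). -/
theorem levT {p : ℕ} [Fact p.Prime] (hp2 : p ≠ 2) (hp : ¬ p ∣ Fintype.card G) (W : WD ℚ G)
    (P : WD (ZMod p) G) {i : Fin W.m} (hi : T.Odd W i) {j : Fin P.m} (hj : j ∈ J W P i)
    (h : (p : ℝ) ^ 2 * (P.r j * P.f j) * Real.log (6 * P.r j) ≤ Fintype.card ι) :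
    (((T.badI W i).ncard : ℕ) : ℝ) ≤ 2 * (1 / 2) ^ P.f j * 2 ^ Fintype.card ι := by
  have hpP : p.Prime := Fact.out
  have hp3 : 3 ≤ p := by
    have := hpP.two_le
    omega
  have hp3' : (3 : ℝ) ≤ p := by exact_mod_cast hp3
  have hbe := T.Row_be_le P j
  have hrow0 := T.rowX hp2 hp W P hi (K := {j}) (Finset.singleton_subset_iff.2 hj)
    (k := P.r j * P.f j) (E := P.r j * P.f j - T.be P j) (by rw [Finset.sum_singleton])
    (by rw [Finset.sum_singleton]; omega)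
  rw [Finset.prod_singleton] at hrow0
  have hfj1 : 1 ≤ P.f j := P.f_pos j
  have hrow : (((T.badI W i).ncard : ℕ) : ℝ) * ((p : ℝ) ^ P.f j - 1)
      ≤ 2 ^ Fintype.card ι *
        cosS p ((Fintype.card ι : ℝ) / ((P.r j * P.f j : ℕ) : ℝ)) ^ (P.r j * P.f j) := by
    refine le_trans ?_ hrow0
    have h20 : (1 : ℝ) ≤ (p : ℝ) ^ (P.r j * P.f j - T.be P j) :=
      one_le_pow₀ (by linarith)
    have h21 : (1 : ℝ) ≤ (p : ℝ) ^ P.f j := one_le_pow₀ (by linarith)
    have h22 : (0 : ℝ) ≤ (((T.badI W i).ncard : ℕ) : ℝ) * ((p : ℝ) ^ P.f j - 1) :=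
      mul_nonneg (Nat.cast_nonneg _) (by linarith)
    exact le_mul_of_one_le_right h22 h20
  clear hrow0 hbe
  have hd1 : 1 ≤ P.r j := Nat.pos_of_ne_zero (NeZero.ne (P.r j))
  have hf1 : 1 ≤ P.f j := P.f_pos j
  generalize P.r j = d at *
  generalize P.f j = f at *
  generalize Fintype.card ι = n at *
  generalize (T.badI W i).ncard = b at *
  have hd1' : (1 : ℝ) ≤ d := by exact_mod_cast hd1
  have hf1' : (1 : ℝ) ≤ f := by exact_mod_cast hf1
  set L : ℝ := (n : ℝ) / ((d * f : ℕ) : ℝ) with hL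
  have hk0 : (0 : ℝ) < ((d * f : ℕ) : ℝ) := by
    push_cast
    positivity
  have hlog : 1 ≤ Real.log (6 * d) := by
    rw [Real.le_log_iff_exp_le (by positivity)]
    have := Real.exp_one_lt_d9
    nlinarith
  have hLge : (p : ℝ) ^ 2 * Real.log (6 * d) ≤ L := by
    rw [hL, le_div_iff₀ hk0]
    push_cast
    calc (p : ℝ) ^ 2 * Real.log (6 * d) * ((d : ℝ) * f) =
          (p : ℝ) ^ 2 * (d * f) * Real.log (6 * d) := by ring
      _ ≤ (n : ℝ) := h
  have hLp : (p : ℝ) ^ 2 ≤ L := le_trans (by nlinarith [sq_nonneg (p : ℝ)]) hLge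
  have hcos := cosS_le hp2 hLp
  have hexp : Real.exp (-(4 * L) / p ^ 2) ≤ 1 / (6 * d) ^ 4 := by
    have h1 : -(4 * L) / (p : ℝ) ^ 2 ≤ -(4 * Real.log (6 * d)) := by
      rw [div_le_iff₀ (by positivity)]
      nlinarith
    calc Real.exp (-(4 * L) / p ^ 2) ≤ Real.exp (-(4 * Real.log (6 * d))) := Real.exp_le_exp.2 h1
      _ = 1 / (6 * d) ^ 4 := by
        rw [Real.exp_neg, show 4 * Real.log (6 * d) = Real.log ((6 * d) ^ 4) by
          rw [Real.log_pow]; norm_num, Real.exp_log (by positivity), one_div]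
  have hcos2 : cosS p L ≤ Real.exp (3 / (6 * d) ^ 4) := by
    refine hcos.trans ?_
    have h2 := Real.add_one_le_exp (3 / (6 * (d : ℝ)) ^ 4)
    have h3 : 3 * Real.exp (-(4 * L) / p ^ 2) ≤ 3 / (6 * (d : ℝ)) ^ 4 := by
      rw [div_eq_mul_one_div (3 : ℝ)]
      exact mul_le_mul_of_nonneg_left hexp (by norm_num)
    linarith
  have hcosk : cosS p L ^ (d * f) ≤ (3 / 2) ^ f := by
    calc cosS p L ^ (d * f) ≤ (Real.exp (3 / (6 * d) ^ 4)) ^ (d * f) :=
          pow_le_pow_left₀ (Row_cosS_nonneg p L) hcos2 _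
      _ = ((Real.exp (3 / (6 * d) ^ 4)) ^ d) ^ f := by rw [pow_mul]
      _ ≤ (3 / 2) ^ f := by
        refine pow_le_pow_left₀ (by positivity) ?_ f
        rw [← Real.exp_nat_mul]
        have h4 : (d : ℝ) * (3 / (6 * d) ^ 4) ≤ 1 / 3 := by
          have hd3 : (1 : ℝ) ≤ d ^ 3 := one_le_pow₀ hd1'
          have h5 : (d : ℝ) * (3 / (6 * d) ^ 4) = 1 / (432 * d ^ 3) := by
            field_simp
            norm_num
          rw [h5]
          refine one_div_le_one_div_of_le (by norm_num) ?_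
          linarith
        refine (Real.exp_le_exp.2 h4).trans ?_
        have h6 := Real.add_one_le_exp (-(1 / 3 : ℝ))
        have h7 : Real.exp (1 / 3) * Real.exp (-(1 / 3)) = 1 := by
          rw [← Real.exp_add]
          simp
        have h8 := Real.exp_pos (1 / 3 : ℝ)
        nlinarith
  have hpf : (2 / 3 : ℝ) * 3 ^ f ≤ (p : ℝ) ^ f - 1 := by
    have h9 : (3 : ℝ) ^ f ≤ (p : ℝ) ^ f := pow_le_pow_left₀ (by norm_num) hp3' f
    have h10 : (3 : ℝ) ≤ 3 ^ f := by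
      calc (3 : ℝ) = 3 ^ 1 := (pow_one 3).symm
        _ ≤ 3 ^ f := pow_le_pow_right₀ (by norm_num) hf1
    linarith
  have hb0 : (0 : ℝ) ≤ b := Nat.cast_nonneg b
  have hmain : (b : ℝ) * ((2 / 3 : ℝ) * 3 ^ f) ≤ 2 ^ n * (3 / 2) ^ f := by
    calc (b : ℝ) * ((2 / 3 : ℝ) * 3 ^ f) ≤ b * ((p : ℝ) ^ f - 1) :=
          mul_le_mul_of_nonneg_left hpf hb0
      _ ≤ 2 ^ n * cosS p L ^ (d * f) := hrow
      _ ≤ 2 ^ n * (3 / 2) ^ f := mul_le_mul_of_nonneg_left hcosk (by positivity)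
  have h3f : (3 / 2 : ℝ) ^ f = (1 / 2) ^ f * 3 ^ f := by
    rw [← mul_pow]
    norm_num
  rw [h3f] at hmain
  have h3pos : (0 : ℝ) < 3 ^ f := by positivity
  have h11 : (b : ℝ) * (2 / 3) ≤ 2 ^ n * (1 / 2) ^ f := by
    have h12 : (b : ℝ) * (2 / 3) * 3 ^ f ≤ 2 ^ n * (1 / 2) ^ f * 3 ^ f := by
      calc (b : ℝ) * (2 / 3) * 3 ^ f = (b : ℝ) * ((2 / 3 : ℝ) * 3 ^ f) := by ring
        _ ≤ _ := hmain
        _ = _ := by ring
    exact le_of_mul_le_mul_right h12 h3pos
  have h13 : (0 : ℝ) ≤ 2 ^ n * (1 / 2) ^ f := by positivity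
  nlinarith

/-- The exponent which is gained from the fixed rows:  `1` if `bb < a`; `2` if moreover `f = 1` and
`W.a i ≠ (x + 1) ^ 2` or `bb ≠ (x + 1) x` for all `x`.  PROOF (`levS` with `K = J W P i`; `k ^ 2 ≤ a f` by
Cauchy-Schwarz and `sum_below_a`, `sum_below_f`, as in `badI_le_B`).  If `bb < a`, `∑_J r_j (r_j f_j - be_j) =
a - bb > 0` (`a_eq`, `sum_below_a`, `sum_below_bb`), so `E = ∑_J (r_j f_j - be_j) ≥ 1`.  If `f = 1` then
`J = {j}`, `f_j = 1`, `a = r_j ^ 2`, `bb = r_j be_j`; so `E = r_j - be_j`, and `E = 1` would give `a = (x + 1) ^ 2`,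
`bb = (x + 1) x` with `x = be_j`. -/
theorem levJ {p : ℕ} [Fact p.Prime] (hp2 : p ≠ 2) (hp : ¬ p ∣ Fintype.card G) (W : WD ℚ G)
    {i : Fin W.m} (hi : T.Odd W i)
    (h : (p : ℝ) ^ 2 * Real.sqrt (W.a i * W.f i) * Real.log (6 * Real.sqrt (W.a i * W.f i))
      ≤ Fintype.card ι) {e : ℕ}
    (he : e = 0 ∨ (e = 1 ∧ T.bb W i < W.a i) ∨ (e = 2 ∧ T.bb W i < W.a i ∧ W.f i = 1 ∧
      ∀ x : ℕ, ¬ (W.a i = (x + 1) ^ 2 ∧ T.bb W i = (x + 1) * x))) :
    (((T.badI W i).ncard : ℕ) : ℝ) ≤ 2 * (3 / (2 * p)) ^ W.f i * (1 / p) ^ e *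
      2 ^ Fintype.card ι := by
  classical
  have hpr : p.Prime := Fact.out
  have hp3 : 3 ≤ p := by
    have := hpr.two_le
    omega
  have hpR : (3 : ℝ) ≤ p := by exact_mod_cast hp3
  have hp0 : (0 : ℝ) < p := by linarith
  obtain ⟨P⟩ := exists_wd (ZMod p) G (by
    rw [Ne, ZMod.natCast_eq_zero_iff]
    exact hp)
  obtain ⟨k, hk⟩ : ∃ k, k = ∑ j ∈ J W P i, P.r j * P.f j := ⟨_, rfl⟩
  have hk0 : 0 < k := by
    rw [hk]
    exact sum_rf_pos hp W P i
  have hk1 : (1 : ℝ) ≤ k := by exact_mod_cast hk0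
  have hsq : k ^ 2 ≤ W.a i * W.f i := by
    rw [hk]
    exact sum_rf_sq_le hp W P i
  have hkκ : (k : ℝ) ≤ Real.sqrt (W.a i * W.f i) := by
    apply Real.le_sqrt_of_sq_le
    exact_mod_cast hsq
  have hlog6 : 1 ≤ Real.log (6 * k) := by
    rw [Real.le_log_iff_exp_le (by positivity)]
    have := Real.exp_one_lt_d9
    nlinarith
  have hbig : (p : ℝ) ^ 2 * k * Real.log (6 * k) ≤ Fintype.card ι := by
    refine le_trans ?_ h
    have h1 : Real.log (6 * k) ≤ Real.log (6 * Real.sqrt (W.a i * W.f i)) :=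
      Real.log_le_log (by positivity) (by linarith)
    have h2 : (p : ℝ) ^ 2 * k ≤ (p : ℝ) ^ 2 * Real.sqrt (W.a i * W.f i) :=
      mul_le_mul_of_nonneg_left hkκ (by positivity)
    exact mul_le_mul h2 h1 (by linarith) (by positivity)
  have hbe : ∑ j ∈ J W P i, T.be P j ≤ k := by
    rw [hk]
    exact sum_le_sum fun j _ => T.Row_be_le P j
  obtain ⟨E, hE⟩ : ∃ E, E + ∑ j ∈ J W P i, T.be P j = k := ⟨k - ∑ j ∈ J W P i, T.be P j, by omega⟩
  have hlev := T.levS hp2 hp W P hi (Finset.Subset.refl _) hk (sum_below_f hp W P i).symm hE hbig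
  have heE : e ≤ E := by
    have hga := GA.sum_below_a hp W P i
    have hgb := T.sum_below_bb hp W P i
    rcases he with he | ⟨he, hba⟩ | ⟨he, hba, hf1, hx⟩
    · omega
    · by_contra hlt
      have hE0 : E = 0 := by omega
      have hall : ∀ j ∈ J W P i, T.be P j = P.r j * P.f j := by
        have h1 : ∑ j ∈ J W P i, T.be P j = ∑ j ∈ J W P i, P.r j * P.f j := by omega
        exact (sum_eq_sum_iff_of_le fun j _ => T.Row_be_le P j).1 h1
      have h2 : ∑ j ∈ J W P i, T.bb P j = ∑ j ∈ J W P i, P.a j := by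
        refine sum_congr rfl fun j hj => ?_
        rw [bb, hall j hj, a_eq]
        ring
      omega
    · obtain ⟨j, hj⟩ := J_nonempty hp W P i
      have hsf := sum_below_f hp W P i
      rw [hf1] at hsf
      have hJ : J W P i = {j} := by
        have h1 : (J W P i).card ≤ 1 := by
          rw [← hsf, card_eq_sum_ones]
          exact sum_le_sum fun j _ => P.f_pos j
        obtain ⟨j', hj'⟩ := card_eq_one.1 (le_antisymm h1 (card_pos.2 ⟨j, hj⟩))
        rw [hj'] at hj ⊢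
        rw [mem_singleton.1 hj]
      rw [hJ, sum_singleton] at hsf hga hgb hE hk
      have hr : P.a j = P.r j ^ 2 := by rw [a_eq, hsf, mul_one]
      have hbbj : T.bb P j = P.r j * T.be P j := rfl
      rw [hsf, mul_one] at hk
      have hrE : P.r j = E + T.be P j := by omega
      have hE0 : E ≠ 0 := by
        intro hE0
        rw [hE0, zero_add] at hrE
        rw [hrE] at hr hbbj
        have : W.a i = T.bb W i := by rw [← hga, ← hgb, hr, hbbj]; ring
        omega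
      have hE1 : E ≠ 1 := by
        intro hE1
        apply hx (T.be P j)
        rw [← hga, ← hgb, hr, hbbj, hrE, hE1]
        constructor <;> ring
      omega
  refine hlev.trans ?_
  have h1p : (1 / (p : ℝ)) ^ E ≤ (1 / (p : ℝ)) ^ e := by
    refine pow_le_pow_of_le_one (by positivity) ?_ heE
    rw [div_le_one hp0]
    linarith
  gcongr

end TS

end Pool.MP43e44c.GX
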