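import Pool.Agent.H.MP_43e44c_ag.GX.Dim
import Pool.Agent.H.MP_43e44c_ag.GA.Step

/-!
The number of sign vectors with image zero, mod p, for odd families with symmetries.
-/

set_option autoImplicit false

open Finset Module

namespace Pool.MP43e44c.GX

open Pool.MP43e44c.OD

universe u v

namespace TS

variable {G : Type u} [Group G] {ι : Type v} (T : TS G ι)

/-- The group with the action by right translations. -/
def StpX (G : Type u) : Type u := G

instance Stp_fin (G : Type u) [Fintype G] : Fintype (StpX G) := inferInstanceAs (Fintype G)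

/-- Right translations. -/
instance Stp_act (G : Type u) [Group G] : MulAction G (StpX G) where
  smul h g := (show G from g) * h⁻¹
  one_smul g := by
    show (show G from g) * 1⁻¹ = g
    rw [inv_one, mul_one]
  mul_smul a b g := by
    show (show G from g) * (a * b)⁻¹ = (show G from g) * b⁻¹ * a⁻¹
    rw [mul_inv_rev, mul_assoc]

instance Stp_pretransitive (G : Type u) [Group G] : MulAction.IsPretransitive G (StpX G) := by
  constructor
  intro a b
  refine ⟨(show G from b)⁻¹ * (show G from a), ?_⟩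
  show (show G from a) * ((show G from b)⁻¹ * (show G from a))⁻¹ = b
  rw [mul_inv_rev, inv_inv, mul_inv_cancel_left]

theorem Stp_cos_neg {p : ℕ} [NeZero p] (a : ZMod p) :
    Real.cos (2 * Real.pi * ((-a).val : ℝ) / p) = Real.cos (2 * Real.pi * (a.val : ℝ) / p) := by
  have h1 := fou_cos a
  have h2 := fou_cos (-a)
  rw [neg_neg, add_comm, h1] at h2
  have h3 := Complex.ofReal_injective h2
  linarith

/-- The product over the family as a product over the group. -/
theorem Stp_prod [Fintype G] [Fintype ι] (F : G → ℝ) (hF : ∀ g, 0 ≤ F g)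
    (hS : ∀ s ∈ T.S, ∀ g, F (s * g) = F g) (hc : ∀ g, F (g * T.c) = F g) :
    ∏ j, F (T.t j) = ∏ g, F g ^ ((Fintype.card ι : ℝ) / Fintype.card G) := by
  have h1 := T.prod_unif F hS hc
  have h2 := T.card_eq
  have hG : (0 : ℝ) < Fintype.card G := by exact_mod_cast Fintype.card_pos
  have hcS : 0 < T.cS := by
    unfold cS
    exact Nat.card_pos
  have hcSR : (0 : ℝ) < T.cS := by exact_mod_cast hcS
  have hP0 : 0 ≤ ∏ j, F (T.t j) := prod_nonneg fun j _ => hF _
  have hQ0 : 0 ≤ ∏ g, F g := prod_nonneg fun j _ => hF _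
  rw [Real.finsetProd_rpow _ _ (fun g _ => hF g)]
  have h3 : (Fintype.card ι : ℝ) / Fintype.card G = (T.bl : ℝ) * (1 / (2 * T.cS)) := by
    have h4 : (T.bl : ℝ) * Fintype.card G = 2 * T.cS * Fintype.card ι := by exact_mod_cast h2
    rw [mul_one_div, div_eq_div_iff hG.ne' (by positivity)]
    linarith
  rw [h3, Real.rpow_mul hQ0, Real.rpow_natCast, h1, ← Real.rpow_natCast, ← Real.rpow_mul hP0]
  have h5 : ((2 * T.cS : ℕ) : ℝ) * (1 / (2 * T.cS)) = 1 := by
    push_cast
    field_simp
  rw [h5, Real.rpow_one]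

/-- PROOF. Let `d = finrank (span x)`, `n = card ι`.  The number of the `v` with `∑ ± x (t j) = 0` is
`2 ^ n p ^ (-d) ∑_ξ ∏_j cos (2 π ξ(x (t j)) / p)`, `ξ` in the dual of the span (`fou_modp` in MQ/Fou.lean or
`stepA_fou`).  Choose `g_1, …, g_d` such that the `x (g_k)` are a basis of the span; by `hx` the
`x (g_k h)` are a basis for every `h`.  By `prod_unif`,
`∏_j |cos_ξ (x (t j))| = ∏_h ∏_k |cos_ξ (x (g_k h))| ^ (n / (d card G))`; Hoelder over `h` (see MQ/Hol.lean,
MQ/Step.lean, GA/Step.lean) and `∑_ξ ∏_k |cos ξ (x (g_k h))| ^ (n/d) = (∑_{a mod p} |cos (2 π a / p)| ^ (n/d)) ^ d`.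
Alternatively: apply `step_span` (MQ/Step.lean) to a transitive signed action on `ι`:  number the
elements of every class `{j | t j ∈ S g ∪ S g c}` by `ZMod bl`; `Gᵐᵒᵖ × Multiplicative (ZMod bl)` acts on the
classes (from the right) and on the numbers (by translation). -/
theorem stepX [Fintype G] [Fintype ι] {p : ℕ} [Fact p.Prime]
    {E : Type*} [AddCommGroup E] [Module (ZMod p) E] [Module.Finite (ZMod p) E] (x : G → E)
    (hodd : ∀ g, x (g * T.c) = -x g) (hS : ∀ s ∈ T.S, ∀ g, x (s * g) = x g)
    (hx : ∀ (h : G) (c : G → ZMod p), ∑ g, c g • x g = 0 → ∑ g, c g • x (g * h) = 0)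
    {d : ℕ} (hd : 0 < d)
    (hspan : finrank (ZMod p) (Submodule.span (ZMod p) (Set.range x)) = d) :
    ({v : ι → Bool | ∑ j, svr (ZMod p) v j • x (T.t j) = 0}.ncard : ℝ) * (p : ℝ) ^ d
      ≤ 2 ^ Fintype.card ι * cosS p ((Fintype.card ι : ℝ) / d) ^ d := by
  classical
  obtain ⟨f, hli, hs⟩ := step_basis x hspan
  have hco : ∀ g, ∃ c : Fin d → ZMod p, ∑ l, c l • x (f l) = x g := by
    intro g
    have h1 : x g ∈ Submodule.span (ZMod p) (Set.range fun j => x (f j)) := by
      rw [hs]
      exact Submodule.subset_span ⟨g, rfl⟩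
    exact (Submodule.mem_span_range_iff_exists_fun _).1 h1
  choose A hA using hco
  have huniq : ∀ a b : Fin d → ZMod p, ∑ l, a l • x (f l) = ∑ l, b l • x (f l) → a = b := by
    intro a b h
    have h2 : ∑ l, (a l - b l) • x (f l) = 0 := by
      simp only [sub_smul, sum_sub_distrib]
      rw [h, sub_self]
    funext l
    exact sub_eq_zero.1 (Fintype.linearIndependent_iff.1 hli _ h2 l)
  have hAc : ∀ g, A (g * T.c) = fun l => -A g l := by
    intro g
    apply huniq
    rw [hA, hodd]
    simp only [neg_smul, sum_neg_distrib]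
    rw [hA]
  have hAS : ∀ s ∈ T.S, ∀ g, A (s * g) = A g := by
    intro s hs' g
    apply huniq
    rw [hA, hS s hs', hA]
  have hcomb : ∀ ε : ι → ZMod p,
      ∑ j, ε j • x (T.t j) = ∑ l, (∑ j, A (T.t j) l * ε j) • x (f l) := by
    intro ε
    simp only [Finset.sum_smul]
    rw [Finset.sum_comm]
    refine Finset.sum_congr rfl fun j _ => ?_
    rw [← hA (T.t j), Finset.smul_sum]
    refine Finset.sum_congr rfl fun l _ => ?_
    rw [smul_smul, mul_comm]
  have hset : {v : ι → Bool | ∑ j, svr (ZMod p) v j • x (T.t j) = 0} =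
      {v : ι → Bool | ∀ l, ∑ j, (Matrix.of fun (l : Fin d) (j : ι) => A (T.t j) l) l j *
        svr (ZMod p) v j = 0} := by
    ext v
    rw [Set.mem_ofPred_eq, Set.mem_ofPred_eq, hcomb]
    constructor
    · intro h
      exact Fintype.linearIndependent_iff.1 hli _ h
    · intro h
      refine Finset.sum_eq_zero fun l _ => ?_
      have h1 : ∑ j, A (T.t j) l * svr (ZMod p) v j = 0 := h l
      rw [h1, zero_smul]
  rw [hset]
  refine (fou_modp (Matrix.of fun (l : Fin d) (j : ι) => A (T.t j) l)).trans ?_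
  refine mul_le_mul_of_nonneg_left ?_ (by positivity)
  have hG : (0 : ℝ) < Fintype.card G := by exact_mod_cast Fintype.card_pos
  -- products over the group
  have hprod : ∀ θ : Fin d → ZMod p,
      ∏ j, |Real.cos (2 * Real.pi * ((∑ l, θ l *
        (Matrix.of fun (l : Fin d) (j : ι) => A (T.t j) l) l j).val : ℝ) / p)| =
      ∏ g, (fun a : ZMod p => |Real.cos (2 * Real.pi * (a.val : ℝ) / p)| ^
        ((Fintype.card ι : ℝ) / Fintype.card G)) (∑ l, θ l * A g l) := by
    intro θ
    refine T.Stp_prod (fun g => |Real.cos (2 * Real.pi * ((∑ l, θ l * A g l).val : ℝ) / p)|)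
      (fun g => abs_nonneg _) ?_ ?_
    · intro s hs' g
      simp only [hAS s hs' g]
    · intro g
      have h1 : ∑ l, θ l * A (g * T.c) l = -∑ l, θ l * A g l := by
        rw [hAc g, ← sum_neg_distrib]
        exact sum_congr rfl fun l _ => by ring
      show |Real.cos (2 * Real.pi * ((∑ l, θ l * A (g * T.c) l).val : ℝ) / p)| = _
      rw [h1, Stp_cos_neg]
  rw [sum_congr rfl fun θ _ => hprod θ]
  have hmain := fin_holder (Γ := G) (ι := StpX G) hd
    (Matrix.of fun (l : Fin d) (g : StpX G) => A g l) f ?_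
    (φ := fun a : ZMod p => |Real.cos (2 * Real.pi * (a.val : ℝ) / p)| ^
        ((Fintype.card ι : ℝ) / Fintype.card G))
    (fun a => Real.rpow_nonneg (abs_nonneg _) _)
  · refine le_trans hmain (le_of_eq ?_)
    have hcard : Fintype.card (StpX G) = Fintype.card G := rfl
    rw [hcard]
    congr 1
    unfold cosS
    refine sum_congr rfl fun a _ => ?_
    rw [← Real.rpow_mul (abs_nonneg _)]
    congr 1
    field_simp
  · intro g hdet
    obtain ⟨c, hc0, hc⟩ := Matrix.exists_mulVec_eq_zero_iff.2 hdet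
    apply hc0
    have h1 : ∑ j, c j • x (f j * g⁻¹) = 0 := by
      have h2 : ∀ j, c j • x (f j * g⁻¹) = ∑ l, (c j * A (f j * g⁻¹) l) • x (f l) := by
        intro j
        rw [← hA (f j * g⁻¹), Finset.smul_sum]
        refine Finset.sum_congr rfl fun l _ => ?_
        rw [smul_smul]
      rw [Finset.sum_congr rfl fun j _ => h2 j, Finset.sum_comm]
      refine Finset.sum_eq_zero fun l _ => ?_
      rw [← Finset.sum_smul]
      have h3 := congrFun hc l
      rw [Matrix.mulVec, dotProduct, Pi.zero_apply] at h3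
      have h4 : ∑ j, c j * A (f j * g⁻¹) l = 0 := by
        rw [← h3]
        refine Finset.sum_congr rfl fun j _ => ?_
        rw [Matrix.submatrix_apply, Matrix.of_apply, mul_comm]
        rfl
      rw [h4, zero_smul]
    have h5 := hx g (fun u => ∑ j, if f j * g⁻¹ = u then c j else 0) (by
      have h6 := step_sum (fun j => f j * g⁻¹) c x (fun _ => 1)
      simp only [mul_one] at h6
      rw [h6]
      exact h1)
    have h7 := step_sum (fun j => f j * g⁻¹) c (fun u => x (u * g)) (fun _ => 1)
    simp only [mul_one] at h7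
    rw [h7] at h5
    simp only [inv_mul_cancel_right] at h5
    have h8 := Fintype.linearIndependent_iff.1 hli _ h5
    funext j
    exact h8 j

end TS

end Pool.MP43e44c.GX
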